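import Pool.Agent.H58RC.StmB
import Pool.Agent.Y720.WL.Np

/-!
# The real bad values
-/

set_option autoImplicit false

open Pool.Agent.Y720.MZ Pool.Agent.Q35.ZC MvPolynomial

namespace Pool.Agent.H58RC.BRE

theorem ndeg {K : Type} [Field K] [CharZero K] {g : MvPolynomial (Fin 2) K} {j : Fin 2}
    (h : g.degreeOf j ≤ 4) (z : Fin 2 → K) : (rst g z (Pi.single j 1)).natDegree ≤ 4 :=
  deg_rst h z

theorem expand {K : Type} [Field K] [CharZero K] {p : Polynomial K} (h : p.natDegree ≤ 4) (s : K) :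
    p.eval s = p.coeff 0 + p.coeff 1 * s + p.coeff 2 * s ^ 2 + p.coeff 3 * s ^ 3 +
      p.coeff 4 * s ^ 4 := by
  conv_lhs => rw [p.as_sum_range_C_mul_X_pow' (n := 5) (by omega)]
  simp [Finset.sum_range_succ]

/-- the coefficients of the shifted quartic -/
theorem shift {K : Type} [Field K] [CharZero K] {p q : Polynomial K} (hp : p.natDegree ≤ 4)
    (hq : q.natDegree ≤ 4) (u : K) (h : ∀ s, q.eval s = p.eval (u + s)) :
    q.coeff 0 = p.coeff 0 + p.coeff 1 * u + p.coeff 2 * u ^ 2 + p.coeff 3 * u ^ 3 +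
      p.coeff 4 * u ^ 4 ∧
    q.coeff 1 = p.coeff 1 + 2 * p.coeff 2 * u + 3 * p.coeff 3 * u ^ 2 + 4 * p.coeff 4 * u ^ 3 ∧
    q.coeff 2 = p.coeff 2 + 3 * p.coeff 3 * u + 6 * p.coeff 4 * u ^ 2 ∧
    q.coeff 3 = p.coeff 3 + 4 * p.coeff 4 * u ∧ q.coeff 4 = p.coeff 4 := by
  have h' : ∀ s, q.coeff 0 + q.coeff 1 * s + q.coeff 2 * s ^ 2 + q.coeff 3 * s ^ 3 +
      q.coeff 4 * s ^ 4 = p.coeff 0 + p.coeff 1 * (u + s) + p.coeff 2 * (u + s) ^ 2 +
      p.coeff 3 * (u + s) ^ 3 + p.coeff 4 * (u + s) ^ 4 := fun s => by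
    rw [← expand hp, ← expand hq, h]
  have e0 := h' 0
  have e1 := h' 1
  have e2 := h' (-1)
  have e3 := h' 2
  have e4 := h' (-2)
  have h12 : (12 : K) ≠ 0 := by norm_num
  have h24 : (24 : K) ≠ 0 := by norm_num
  refine ⟨by linear_combination e0, ?_, ?_, ?_, ?_⟩
  · apply mul_left_cancel₀ h12
    linear_combination 8 * (e1 - e2) - (e3 - e4)
  · apply mul_left_cancel₀ h24
    linear_combination 16 * (e1 + e2) - (e3 + e4) - 30 * e0
  · apply mul_left_cancel₀ h12
    linear_combination (e3 - e4) - 2 * (e1 - e2)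
  · apply mul_left_cancel₀ h24
    linear_combination (e3 + e4) - 4 * (e1 + e2) + 6 * e0

theorem coeff0 {K : Type} [Field K] [CharZero K] (g : MvPolynomial (Fin 2) K) (z e : Fin 2 → K) :
    (rst g z e).coeff 0 = eval z g := by
  rw [Polynomial.coeff_zero_eq_eval_zero, rst_eval, zero_smul, add_zero]

/-- the discriminant through the coefficients -/
theorem Tq_coeff {K : Type} [Field K] [CharZero K] (g : MvPolynomial (Fin 2) K) (z e : Fin 2 → K) :
    27 * Tq g e z = 4 * (12 * (rst g z e).coeff 4 * (rst g z e).coeff 0 -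
      3 * (rst g z e).coeff 3 * (rst g z e).coeff 1 + (rst g z e).coeff 2 ^ 2) ^ 3 -
      (72 * (rst g z e).coeff 4 * (rst g z e).coeff 2 * (rst g z e).coeff 0 +
      9 * (rst g z e).coeff 3 * (rst g z e).coeff 2 * (rst g z e).coeff 1 -
      27 * (rst g z e).coeff 4 * (rst g z e).coeff 1 ^ 2 -
      27 * (rst g z e).coeff 0 * (rst g z e).coeff 3 ^ 2 - 2 * (rst g z e).coeff 2 ^ 3) ^ 2 := by
  have e0 := coeff0 g z e
  have e1 : cq g z e 0 = (rst g z e).coeff 1 := rfl
  have e2 : cq g z e 1 = (rst g z e).coeff 2 := rfl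
  have e3 : cq g z e 2 = (rst g z e).coeff 3 := rfl
  have e4 : cq g z e 3 = (rst g z e).coeff 4 := rfl
  rw [Tq, e1, e2, e3, e4, ← e0, dsc]
  ring

/-- the discriminant is constant on the lines -/
theorem Tq_shift {K : Type} [Field K] [CharZero K] {g : MvPolynomial (Fin 2) K} {j : Fin 2}
    (h : g.degreeOf j ≤ 4) (z : Fin 2 → K) (u : K) :
    Tq g (Pi.single j 1) (z + u • (Pi.single j 1 : Fin 2 → K)) = Tq g (Pi.single j 1) z := by
  have h27 : (27 : K) ≠ 0 := by norm_num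
  obtain ⟨e0, e1, e2, e3, e4⟩ := shift (ndeg h z)
    (ndeg h (z + u • (Pi.single j 1 : Fin 2 → K))) u (fun s => by
      rw [rst_eval, rst_eval, add_smul, add_assoc])
  apply mul_left_cancel₀ h27
  rw [Tq_coeff, Tq_coeff]
  have hI : 12 * (rst g (z + u • (Pi.single j 1 : Fin 2 → K)) (Pi.single j 1)).coeff 4 *
      (rst g (z + u • (Pi.single j 1 : Fin 2 → K)) (Pi.single j 1)).coeff 0 -
      3 * (rst g (z + u • (Pi.single j 1 : Fin 2 → K)) (Pi.single j 1)).coeff 3 *
      (rst g (z + u • (Pi.single j 1 : Fin 2 → K)) (Pi.single j 1)).coeff 1 +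
      (rst g (z + u • (Pi.single j 1 : Fin 2 → K)) (Pi.single j 1)).coeff 2 ^ 2 =
      12 * (rst g z (Pi.single j 1)).coeff 4 * (rst g z (Pi.single j 1)).coeff 0 -
      3 * (rst g z (Pi.single j 1)).coeff 3 * (rst g z (Pi.single j 1)).coeff 1 +
      (rst g z (Pi.single j 1)).coeff 2 ^ 2 := by
    rw [e0, e1, e2, e3, e4]
    ring
  have hJ : 72 * (rst g (z + u • (Pi.single j 1 : Fin 2 → K)) (Pi.single j 1)).coeff 4 *
      (rst g (z + u • (Pi.single j 1 : Fin 2 → K)) (Pi.single j 1)).coeff 2 *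
      (rst g (z + u • (Pi.single j 1 : Fin 2 → K)) (Pi.single j 1)).coeff 0 +
      9 * (rst g (z + u • (Pi.single j 1 : Fin 2 → K)) (Pi.single j 1)).coeff 3 *
      (rst g (z + u • (Pi.single j 1 : Fin 2 → K)) (Pi.single j 1)).coeff 2 *
      (rst g (z + u • (Pi.single j 1 : Fin 2 → K)) (Pi.single j 1)).coeff 1 -
      27 * (rst g (z + u • (Pi.single j 1 : Fin 2 → K)) (Pi.single j 1)).coeff 4 *
      (rst g (z + u • (Pi.single j 1 : Fin 2 → K)) (Pi.single j 1)).coeff 1 ^ 2 -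
      27 * (rst g (z + u • (Pi.single j 1 : Fin 2 → K)) (Pi.single j 1)).coeff 0 *
      (rst g (z + u • (Pi.single j 1 : Fin 2 → K)) (Pi.single j 1)).coeff 3 ^ 2 -
      2 * (rst g (z + u • (Pi.single j 1 : Fin 2 → K)) (Pi.single j 1)).coeff 2 ^ 3 =
      72 * (rst g z (Pi.single j 1)).coeff 4 * (rst g z (Pi.single j 1)).coeff 2 *
      (rst g z (Pi.single j 1)).coeff 0 +
      9 * (rst g z (Pi.single j 1)).coeff 3 * (rst g z (Pi.single j 1)).coeff 2 *
      (rst g z (Pi.single j 1)).coeff 1 -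
      27 * (rst g z (Pi.single j 1)).coeff 4 * (rst g z (Pi.single j 1)).coeff 1 ^ 2 -
      27 * (rst g z (Pi.single j 1)).coeff 0 * (rst g z (Pi.single j 1)).coeff 3 ^ 2 -
      2 * (rst g z (Pi.single j 1)).coeff 2 ^ 3 := by
    rw [e0, e1, e2, e3, e4]
    ring
  rw [hI, hJ]

theorem Tq_map {K : Type} [Field K] [CharZero K] (τ : K →+* ℝ) (g : MvPolynomial (Fin 2) K)
    (j : Fin 2) (z : Fin 2 → K) :
    Tq (map τ g) (Pi.single j 1) (fun a => τ (z a)) = τ (Tq g (Pi.single j 1) z) := by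
  have h1 : (fun a => τ ((Pi.single j 1 : Fin 2 → K) a)) = Pi.single j 1 := by
    funext a
    by_cases h : a = j
    · subst h
      simp
    · rw [Pi.single_eq_of_ne h, Pi.single_eq_of_ne h, map_zero]
  rw [← TqP_eval, ← TqP_eval, ← h1, ← TqP_map, MvPolynomial.eval_map]
  rw [← MvPolynomial.eval₂_id, MvPolynomial.eval₂_comp_left, RingHom.comp_id]
  rfl

theorem degreeOf_map' {K : Type} [Field K] [CharZero K] (τ : K →+* ℝ) (g : MvPolynomial (Fin 2) K)
    (j : Fin 2) (h : g.degreeOf j ≤ 4) : (map τ g).degreeOf j ≤ 4 :=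
  (degreeOf_map_le _ le_rfl).trans h

theorem t : Pool.Agent.H58RC.S_BRE := by
  constructor
  · intro K _ _ τ g hg z i j hij hT
    rintro ⟨x, j', hj', hx, h0⟩
    have hjj : j' = j := by
      fin_cases i <;> fin_cases j <;> fin_cases j' <;> simp_all
    subst hjj
    apply hT
    have hxe : x = (fun a => τ (z a)) + (x j' - τ (z j')) • (Pi.single j' 1 : Fin 2 → ℝ) := by
      funext a
      have ha : a = i ∨ a = j' := by
        fin_cases i <;> fin_cases j' <;> fin_cases a <;> simp_all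
      rcases ha with ha | ha
      · subst ha
        rw [Pi.add_apply, Pi.smul_apply, Pi.single_eq_of_ne hij, smul_zero, add_zero, hx]
      · subst ha
        rw [Pi.add_apply, Pi.smul_apply, Pi.single_eq_same, smul_eq_mul, mul_one]
        ring
    rw [hxe, Tq_shift (degreeOf_map' τ g j' (hg j')), Tq_map] at h0
    exact (map_eq_zero τ).1 h0
  · intro g hg x hx h0 i j hij hb hd
    apply hb
    refine ⟨x.1, j, hij.symm, rfl, ?_⟩
    have e0 : eval x.1 g = 0 := by
      have : x.2 ^ 2 = eval x.1 g := hx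
      rw [← this, h0]
      ring
    have e1 : cq g x.1 (Pi.single j 1) 0 = 0 := by
      have h1 : cq g x.1 (Pi.single j 1) 0 = eval x.1 (gk g (Pi.single j 1) 1) := by
        rw [gk_eval]
        rfl
      rw [h1, gk_one, dd]
      have h2 : ∑ k, C ((Pi.single j 1 : Fin 2 → ℝ) k) * pderiv k g = pderiv j g := by
        rw [Finset.sum_eq_single j]
        · simp
        · intro b _ hb
          rw [Pi.single_eq_of_ne hb, map_zero, zero_mul]
        · simp
      rw [h2, hd]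
    rw [Tq, e0, e1, dsc]
    ring

end Pool.Agent.H58RC.BRE
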