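import Pool.Agent.H58RC.StmR

/-!
# The surface `w² = g(z)` near a point of the branch curve is a graph
-/

set_option autoImplicit false

open MvPolynomial

namespace Pool.Agent.H58RC.CHART

/-- The point with coordinates `s` (index `i`) and `t`. -/
def pp (i : Fin 2) (s t : ℝ) : Fin 2 → ℝ := fun k => if k = i then s else t

theorem eq_pp (x : Fin 2 → ℝ) {i j : Fin 2} (hij : i ≠ j) : x = pp i (x i) (x j) := by
  funext k
  unfold pp
  split_ifs with h
  · rw [h]
  · congr 1
    fin_cases i <;> fin_cases j <;> fin_cases k <;> simp_all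

theorem pnt_eq (i : Fin 2) (s t w : ℝ) : pnt i s t w = (pp i s t, w) := rfl

theorem hasDerivAt_eval (g : MvPolynomial (Fin 2) ℝ) {i j : Fin 2} (hij : i ≠ j) (s t : ℝ) :
    HasDerivAt (fun t => eval (pp i s t) g) (eval (pp i s t) (pderiv j g)) t := by
  induction g using MvPolynomial.induction_on with
  | C a =>
    simp only [eval_C, pderiv_C, map_zero]
    exact hasDerivAt_const _ _
  | add p q hp hq =>
    simp only [map_add]
    exact hp.add hq
  | mul_X p k hp =>
    have h1 : HasDerivAt (fun t => pp i s t k) (eval (pp i s t) (pderiv j (X k))) t := by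
      by_cases hk : k = i
      · subst hk
        have h2 : pderiv j (X k : MvPolynomial (Fin 2) ℝ) = 0 := pderiv_X_of_ne hij
        rw [h2, map_zero]
        simp only [pp, if_true]
        exact hasDerivAt_const _ _
      · have h2 : k = j := by
          fin_cases i <;> fin_cases j <;> fin_cases k <;> simp_all
        subst h2
        rw [pderiv_X_self, map_one]
        simp only [pp, if_neg hk]
        exact hasDerivAt_id t
    have h3 := hp.mul h1
    have h4 : (pderiv j) (p * X k) = (pderiv j) p * X k + p * (pderiv j) (X k) := by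
      rw [Derivation.leibniz, smul_eq_mul, smul_eq_mul]
      ring
    rw [h4, map_add, map_mul, map_mul, eval_X]
    refine h3.congr_of_eventuallyEq (Filter.Eventually.of_forall fun t => ?_)
    simp only [map_mul, eval_X]
    rfl

theorem cont_pp (i : Fin 2) : Continuous fun p : ℝ × ℝ => pp i p.1 p.2 := by
  refine continuous_pi fun k => ?_
  unfold pp
  split_ifs
  · exact continuous_fst
  · exact continuous_snd

theorem cont_eval (g : MvPolynomial (Fin 2) ℝ) (i : Fin 2) :
    Continuous fun p : ℝ × ℝ => eval (pp i p.1 p.2) g :=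
  (MvPolynomial.continuous_eval g).comp (cont_pp i)

theorem t : Pool.Agent.H58RC.S_CHART := by
  intro g x hx hx2 i j hij hD ρ hρ
  set s₀ := x.1 i with hs₀
  set t₀ := x.1 j with ht₀
  have hx1 : x.1 = pp i s₀ t₀ := eq_pp x.1 hij
  rw [hx1] at hD
  set c := eval (pp i s₀ t₀) (pderiv j g) with hc
  have h0 : eval (pp i s₀ t₀) g = 0 := by
    have h : x.2 ^ 2 = eval x.1 g := hx
    rw [hx2, hx1] at h
    rw [← h]
    ring
  -- the box
  obtain ⟨b, hb, hbD⟩ : ∃ b > 0, ∀ s t, |s - s₀| < b → |t - t₀| < b →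
      0 < c * eval (pp i s t) (pderiv j g) := by
    have h1 : Continuous fun p : ℝ × ℝ => c * eval (pp i p.1 p.2) (pderiv j g) :=
      continuous_const.mul (cont_eval _ i)
    have h2 : 0 < (fun p : ℝ × ℝ => c * eval (pp i p.1 p.2) (pderiv j g)) (s₀, t₀) :=
      mul_self_pos.2 hD
    obtain ⟨b, hb, h3⟩ := Metric.eventually_nhds_iff.1 ((h1.tendsto (s₀, t₀)).eventually (lt_mem_nhds h2))
    refine ⟨b, hb, fun s t hs ht => h3 (y := (s, t)) ?_⟩
    rw [Prod.dist_eq, max_lt_iff]
    exact ⟨hs, ht⟩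
  obtain ⟨G, hG⟩ : ∃ G : ℝ × ℝ → ℝ → ℝ, ∀ p t, G p t = c * (eval (pp i p.2 t) g - p.1 ^ 2) :=
    ⟨_, fun _ _ => rfl⟩
  have hGd : ∀ p t, HasDerivAt (G p) (c * eval (pp i p.2 t) (pderiv j g)) t := by
    intro p t
    have h1 := ((hasDerivAt_eval g hij p.2 t).sub_const (p.1 ^ 2)).const_mul c
    exact h1.congr_of_eventuallyEq (Filter.Eventually.of_forall fun t => hG p t)
  have hGc1 : ∀ p, Continuous (G p) := fun p =>
    continuous_iff_continuousAt.2 fun t => (hGd p t).continuousAt
  have hGc2 : ∀ t, Continuous fun p => G p t := by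
    intro t
    have h0 : Continuous fun p : ℝ × ℝ => ((p.2, t) : ℝ × ℝ) := continuous_snd.prodMk continuous_const
    have h1 : Continuous fun p : ℝ × ℝ => eval (pp i p.2 t) g := (cont_eval g i).comp h0
    have h2 : Continuous fun p : ℝ × ℝ => c * (eval (pp i p.2 t) g - p.1 ^ 2) :=
      continuous_const.mul (h1.sub (continuous_fst.pow 2))
    have h3 : (fun p => G p t) = fun p : ℝ × ℝ => c * (eval (pp i p.2 t) g - p.1 ^ 2) :=
      funext fun p => hG p t
    rw [h3]
    exact h2
  obtain ⟨b', hb', hb'b, hb'ρ⟩ : ∃ b' > 0, b' < b ∧ b' < ρ :=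
    ⟨min b ρ / 2, by positivity, by
      have := min_le_left b ρ
      have h : 0 < min b ρ := lt_min hb hρ
      linarith, by
      have := min_le_right b ρ
      have h : 0 < min b ρ := lt_min hb hρ
      linarith⟩
  have hmono : ∀ p : ℝ × ℝ, |p.2 - s₀| < b → StrictMonoOn (G p) (Set.Icc (t₀ - b') (t₀ + b')) := by
    intro p hp
    refine strictMonoOn_of_deriv_pos (convex_Icc _ _) ?_ fun t ht => ?_
    · exact (hGc1 p).continuousOn
    · rw [interior_Icc] at ht
      rw [(hGd p t).deriv]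
      refine hbD _ _ hp ?_
      rw [abs_lt]
      constructor <;> linarith [ht.1, ht.2]
  have hG0 : G (0, s₀) t₀ = 0 := by
    rw [hG, h0]
    ring
  have hlt1 : G (0, s₀) (t₀ - b') < 0 := by
    have h3 := hmono (0, s₀) (by simpa using hb) (a := t₀ - b') (b := t₀) ⟨le_refl _, by linarith⟩
      ⟨by linarith, by linarith⟩ (by linarith)
    rwa [hG0] at h3
  have hlt2 : 0 < G (0, s₀) (t₀ + b') := by
    have h3 := hmono (0, s₀) (by simpa using hb) (a := t₀) (b := t₀ + b') ⟨by linarith, by linarith⟩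
      ⟨by linarith, le_refl _⟩ (by linarith)
    rwa [hG0] at h3
  obtain ⟨a, ha, hab, h1, h2⟩ : ∃ a > 0, a ≤ b' ∧
      (∀ p : ℝ × ℝ, |p.1| < a → |p.2 - s₀| < a → G p (t₀ - b') < 0) ∧
      (∀ p : ℝ × ℝ, |p.1| < a → |p.2 - s₀| < a → 0 < G p (t₀ + b')) := by
    have c1 := hGc2 (t₀ - b')
    have c2 := hGc2 (t₀ + b')
    obtain ⟨a1, ha1, h1⟩ := Metric.eventually_nhds_iff.1 ((c1.tendsto (0, s₀)).eventually (gt_mem_nhds hlt1))
    obtain ⟨a2, ha2, h2⟩ := Metric.eventually_nhds_iff.1 ((c2.tendsto (0, s₀)).eventually (lt_mem_nhds hlt2))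
    refine ⟨min b' (min a1 a2), by positivity, min_le_left _ _, fun p hp hp' => h1 ?_, fun p hp hp' => h2 ?_⟩
    · rw [Prod.dist_eq, max_lt_iff, Real.dist_eq, Real.dist_eq, sub_zero]
      exact ⟨hp.trans_le ((min_le_right _ _).trans (min_le_left _ _)),
        hp'.trans_le ((min_le_right _ _).trans (min_le_left _ _))⟩
    · rw [Prod.dist_eq, max_lt_iff, Real.dist_eq, Real.dist_eq, sub_zero]
      exact ⟨hp.trans_le ((min_le_right _ _).trans (min_le_right _ _)),
        hp'.trans_le ((min_le_right _ _).trans (min_le_right _ _))⟩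
  have hex : ∀ w s, |w| < a ∧ |s - s₀| < a → ∃ t, t ∈ Set.Ioo (t₀ - b') (t₀ + b') ∧ G (w, s) t = 0 := by
    intro w s hws
    have h3 := intermediate_value_Ioo (by linarith : t₀ - b' ≤ t₀ + b')
      (hGc1 (w, s)).continuousOn
      (show (0 : ℝ) ∈ Set.Ioo (G (w, s) (t₀ - b')) (G (w, s) (t₀ + b')) from
        ⟨h1 (w, s) hws.1 hws.2, h2 (w, s) hws.1 hws.2⟩)
    obtain ⟨t, ht, ht'⟩ := h3
    exact ⟨t, ht, ht'⟩
  let h : ℝ → ℝ → ℝ := fun w s => by
    classical exact if H : |w| < a ∧ |s - s₀| < a then (hex w s H).choose else t₀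
  have hh : ∀ w s, |w| < a → |s - s₀| < a → h w s ∈ Set.Ioo (t₀ - b') (t₀ + b') ∧ G (w, s) (h w s) = 0 := by
    intro w s hw hs
    have H : |w| < a ∧ |s - s₀| < a := ⟨hw, hs⟩
    have h3 : h w s = (hex w s H).choose := dif_pos H
    rw [h3]
    exact (hex w s H).choose_spec
  have huniq : ∀ w s t, |w| < a → |s - s₀| < a → t ∈ Set.Ioo (t₀ - b') (t₀ + b') → G (w, s) t = 0 →
      t = h w s := by
    intro w s t hw hs ht h3
    have h4 := hh w s hw hs
    refine (hmono (w, s) (hs.trans_le (hab.trans hb'b.le))).injOn (Set.Ioo_subset_Icc_self ht)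
      (Set.Ioo_subset_Icc_self h4.1) ?_
    rw [h3, h4.2]
  refine ⟨a, h, ha, ?_, ?_, ?_, a, ha, ?_⟩
  · -- continuity
    rintro ⟨w, s⟩ ⟨hw, hs⟩
    change |w| < a at hw
    change |s - s₀| < a at hs
    refine ContinuousAt.continuousWithinAt ?_
    obtain ⟨hm, hz⟩ := hh w s hw hs
    rw [Metric.continuousAt_iff']
    intro ε hε
    obtain ⟨e, he, heε, he1, he2⟩ : ∃ e > 0, e < ε ∧ t₀ - b' < h w s - e ∧ h w s + e < t₀ + b' := by
      refine ⟨min ε (min (h w s - (t₀ - b')) (t₀ + b' - h w s)) / 2, ?_, ?_, ?_, ?_⟩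
      all_goals
        have k1 := sub_pos.2 hm.1
        have k2 := sub_pos.2 hm.2
        have k3 : 0 < min ε (min (h w s - (t₀ - b')) (t₀ + b' - h w s)) := lt_min hε (lt_min k1 k2)
        have k4 := min_le_left ε (min (h w s - (t₀ - b')) (t₀ + b' - h w s))
        have k5 := (min_le_right ε (min (h w s - (t₀ - b')) (t₀ + b' - h w s))).trans (min_le_left _ _)
        have k6 := (min_le_right ε (min (h w s - (t₀ - b')) (t₀ + b' - h w s))).trans (min_le_right _ _)
        linarith
    have m1 : G (w, s) (h w s - e) < 0 := by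
      rw [← hz]
      exact hmono (w, s) (hs.trans_le (hab.trans hb'b.le)) ⟨he1.le, by linarith [hm.2]⟩
        (Set.Ioo_subset_Icc_self hm) (by linarith)
    have m2 : 0 < G (w, s) (h w s + e) := by
      rw [← hz]
      exact hmono (w, s) (hs.trans_le (hab.trans hb'b.le)) (Set.Ioo_subset_Icc_self hm)
        ⟨by linarith [hm.1], he2.le⟩ (by linarith)
    have c1 := hGc2 (h w s - e)
    have c2 := hGc2 (h w s + e)
    have e1 := (c1.tendsto (w, s)).eventually (gt_mem_nhds m1)
    have e2 := (c2.tendsto (w, s)).eventually (lt_mem_nhds m2)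
    have e3 : ∀ᶠ p : ℝ × ℝ in nhds (w, s), |p.1| < a :=
      ((continuous_abs.comp continuous_fst).tendsto (w, s)).eventually (gt_mem_nhds hw)
    have e4 : ∀ᶠ p : ℝ × ℝ in nhds (w, s), |p.2 - s₀| < a :=
      ((continuous_abs.comp (continuous_snd.sub continuous_const)).tendsto (w, s)).eventually (gt_mem_nhds hs)
    filter_upwards [e1, e2, e3, e4] with p p1 p2 p3 p4
    obtain ⟨hm', hz'⟩ := hh p.1 p.2 p3 p4
    have hmon := hmono (p.1, p.2) (p4.trans_le (hab.trans hb'b.le))
    have q1 : h w s - e < h p.1 p.2 := by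
      rw [← hmon.lt_iff_lt ⟨he1.le, by linarith [hm.2]⟩ (Set.Ioo_subset_Icc_self hm'), hz']
      exact p1
    have q2 : h p.1 p.2 < h w s + e := by
      rw [← hmon.lt_iff_lt (Set.Ioo_subset_Icc_self hm') ⟨by linarith [hm.1], he2.le⟩, hz']
      exact p2
    rw [Real.dist_eq, abs_lt]
    change -ε < h p.1 p.2 - h w s ∧ h p.1 p.2 - h w s < ε
    constructor <;> linarith
  · exact (huniq 0 s₀ t₀ (by simpa using ha) (by simpa using ha) ⟨by linarith, by linarith⟩ hG0).symm
  · intro w s hw hs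
    obtain ⟨hm, hz⟩ := hh w s hw hs
    refine ⟨?_, ?_⟩
    · rw [hG] at hz
      have h3 : c * (eval (pp i s (h w s)) g - w ^ 2) = 0 := hz
      have h4 := (mul_eq_zero.1 h3).resolve_left hD
      change w ^ 2 = eval (pp i s (h w s)) g
      linarith
    · rw [pnt_eq, Prod.dist_eq, max_lt_iff]
      refine ⟨?_, ?_⟩
      · rw [dist_pi_lt_iff hρ]
        intro k
        rw [hx1]
        change dist (if k = i then s else h w s) (if k = i then s₀ else t₀) < ρ
        split_ifs
        · rw [Real.dist_eq]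
          exact hs.trans_le (hab.trans hb'ρ.le)
        · rw [Real.dist_eq, abs_lt]
          constructor <;> linarith [hm.1, hm.2]
      · change dist w x.2 < ρ
        rw [hx2, Real.dist_eq, sub_zero]
        exact hw.trans_le (hab.trans hb'ρ.le)
  · intro x' hx' hd
    rw [Prod.dist_eq, max_lt_iff] at hd
    have d1 : |x'.1 i - s₀| < a := by
      have := (dist_pi_lt_iff ha).1 hd.1 i
      rwa [Real.dist_eq] at this
    have d2 : |x'.1 j - t₀| < a := by
      have := (dist_pi_lt_iff ha).1 hd.1 j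
      rwa [Real.dist_eq] at this
    have d3 : |x'.2| < a := by
      have := hd.2
      rwa [Real.dist_eq, hx2, sub_zero] at this
    refine ⟨d3, d1, huniq _ _ _ d3 d1 ?_ ?_⟩
    · rw [abs_lt] at d2
      constructor <;> linarith [d2.1, d2.2]
    · have h3 : x'.2 ^ 2 = eval x'.1 g := hx'
      rw [eq_pp x'.1 hij] at h3
      rw [hG]
      change c * (eval (pp i (x'.1 i) (x'.1 j)) g - x'.2 ^ 2) = 0
      rw [h3]
      ring

end Pool.Agent.H58RC.CHART
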