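import Pool.Agent.H58RC.StmA
import Pool.Agent.Y720.WL.LemR

/-!
# Crossing the branch point
-/

set_option autoImplicit false

open Filter Topology WeierstrassCurve Pool.Agent.Y720.MZ Pool.Agent.Q35.ZC

namespace Pool.Agent.H58RC.CRO

section pts

variable {K : Type} [Field K]

/-- The ordinate parameter of a point. -/
def SS {a b c : K} (P : Pt a b c) : K :=
  match P with
  | .zero => 0
  | .some _ y _ => 1 / y

theorem mult_near [CharZero K] [DecidableEq K] {τ : K →+* ℝ} {a b c : K} {C ρ δ : ℝ}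
    (hB : Bd (av τ) a b c C ρ) {P : Pt a b c} (hP : Nb (av τ) ρ δ P) (n : ℕ)
    (hn : 2 * n * δ ≤ ρ) (hδ : δ ≤ ρ) (k : ℕ) (hk : k ≤ n) :
    |τ (TT (k • P)) - k * τ (TT P)| ≤ (k : ℝ) ^ 2 * δ ^ 2 := by
  have hδ0 : 0 ≤ δ := ((av τ).nonneg _).trans hP.le
  induction k with
  | zero => simp
  | succ k ih =>
    have ih' := ih (by omega)
    have hkn : (k : ℝ) ≤ n := by exact_mod_cast (by omega : k ≤ n)
    have hk2 : 2 * k * δ ≤ ρ := by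
      refine le_trans ?_ hn
      gcongr
    have h0 := R3 hB hP n hn hδ k (by omega)
    set r := max (2 * k * δ) δ with hr
    have hrρ : r ≤ ρ := max_le hk2 hδ
    have h1 : Nb (av τ) ρ r (k • P) := h0.mono (h0.le.trans (le_max_left _ _))
    have h2 : Nb (av τ) ρ r P := hP.mono (hP.le.trans (le_max_right _ _))
    obtain ⟨-, g2⟩ := add_near hB hrρ h1 h2
    rw [succ_nsmul]
    have e1 : |τ (TT (k • P + P) - TT (k • P) - TT P)| ≤ 1 / 2 * ((2 * k * δ) * δ) := by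
      refine (le_of_eq ?_).trans (g2.trans ?_)
      · rfl
      · have e3 := h0.le
        have e4 := hP.le
        have := (av τ).nonneg (TT P)
        have := (av τ).nonneg (TT (k • P))
        gcongr
    rw [map_sub, map_sub] at e1
    have e2 : τ (TT (k • P + P)) - ((k + 1 : ℕ) : ℝ) * τ (TT P) =
        (τ (TT (k • P + P)) - τ (TT (k • P)) - τ (TT P)) + (τ (TT (k • P)) - k * τ (TT P)) := by
      push_cast
      ring
    rw [e2]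
    refine (abs_add_le _ _).trans ((add_le_add e1 ih').trans ?_)
    push_cast
    nlinarith [sq_nonneg δ, mul_nonneg (Nat.cast_nonneg (α := ℝ) k) (sq_nonneg δ)]

end pts

/-- The numerator. -/
noncomputable def Ng (w : ℝ) (a : Fin 4 → ℝ) (ζ σ : ℝ) : ℝ := 4 / (ζ ^ 2 * σ) + 4 * w ^ 2 * a 1 - a 0 ^ 2

/-- The denominator. -/
noncomputable def Dg (w : ℝ) (a : Fin 4 → ℝ) (ζ σ : ℝ) : ℝ :=
  2 / ζ - a 0 - 2 * w ^ 2 * a 2 * (ζ * w) ^ 2 * σ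

theorem alg {w : ℝ} (hw : w ≠ 0) (a : Fin 4 → ℝ) {x y : ℝ} (hx : x ≠ 0) (hy : y ≠ 0) {ζ σ : ℝ}
    (hζ : ζ = x / y / w) (hσ : σ = 1 / y / (x / y) ^ 3) :
    (ζ * w) ^ 2 * σ * Df w (a 0) (a 2) x y = Dg w a ζ σ ∧
    (Dg w a ζ σ ≠ 0 → Df w (a 0) (a 2) x y ≠ 0 ∧
      tf w (a 0) (a 1) (a 2) x y = (ζ * w) ^ 2 * σ * (Ng w a ζ σ / Dg w a ζ σ) ∧
      Yf w (a 0) (a 1) (a 2) x y = w * (-1 + ζ ^ 2 * σ * (Ng w a ζ σ / Dg w a ζ σ) *
        (Ng w a ζ σ / Dg w a ζ σ - a 0) / 2)) := by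
  have h1 : (ζ * w) ^ 2 * σ * x = 1 := by
    rw [hζ, hσ]
    field_simp
  have h2 : (ζ * w) ^ 2 * σ * y * (ζ * w) = 1 := by
    rw [hζ, hσ]
    field_simp
  have hζw : ζ * w ≠ 0 := by
    intro h
    rw [h] at h2
    simp at h2
  have hζ0 : ζ ≠ 0 := left_ne_zero_of_mul hζw
  have hσ0 : σ ≠ 0 := by
    rintro rfl
    simp at h1
  have h3 : (ζ * w) ^ 2 * σ * (2 * w * y) = 2 / ζ := by
    field_simp
    have h5 : ζ * ((ζ * w) ^ 2 * σ * (w * y)) = 1 := by linear_combination h2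
    have h6 : ζ ^ 3 * w ^ 3 * σ * y = 1 := by linear_combination h5
    linear_combination h6
  have hD : (ζ * w) ^ 2 * σ * Df w (a 0) (a 2) x y = Dg w a ζ σ := by
    unfold Df Dg
    linear_combination h3 - a 0 * h1
  have hN : Nf w (a 0) (a 1) x = Ng w a ζ σ := by
    unfold Nf Ng
    have h4 : 4 * w ^ 2 * x = 4 / (ζ ^ 2 * σ) := by
      rw [eq_div_iff (mul_ne_zero (pow_ne_zero 2 hζ0) hσ0)]
      linear_combination 4 * h1
    linear_combination h4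
  refine ⟨hD, fun hD0 => ?_⟩
  have hDf : Df w (a 0) (a 2) x y ≠ 0 := by
    intro h
    rw [h, mul_zero] at hD
    exact hD0 hD.symm
  have hzs : (ζ * w) ^ 2 * σ ≠ 0 := mul_ne_zero (pow_ne_zero 2 hζw) hσ0
  have htf : tf w (a 0) (a 1) (a 2) x y = (ζ * w) ^ 2 * σ * (Ng w a ζ σ / Dg w a ζ σ) := by
    rw [← hD, ← hN, tf]
    field_simp
  refine ⟨hDf, htf, ?_⟩
  have htx : tf w (a 0) (a 1) (a 2) x y * x = Ng w a ζ σ / Dg w a ζ σ := by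
    rw [htf]
    linear_combination (Ng w a ζ σ / Dg w a ζ σ) * h1
  rw [Yf, htx, htf]
  generalize Ng w a ζ σ / Dg w a ζ σ = A
  field_simp

theorem t : Pool.Agent.H58RC.S_CRO := by
  intro K _ _ τ q₀ hq0 m hm ε hε
  let _ : DecidableEq K := Classical.decEq K
  obtain ⟨n, hn, rfl⟩ : ∃ n : ℕ, 2 ≤ n ∧ m = -(n : ℤ) := ⟨m.natAbs, by omega, by omega⟩
  have hn0 : (n : ℝ) ≠ 0 := by
    have : n ≠ 0 := by omega
    exact_mod_cast this
  -- the filter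
  let φ : K × (Fin 4 → K) → ℝ × (Fin 4 → ℝ) := fun θ => (τ θ.1, fun j => τ (θ.2 j))
  let l : Filter (K × (Fin 4 → K)) := comap φ (𝓝 ((0 : ℝ), q₀)) ⊓
    𝓟 {θ | θ.1 ≠ 0 ∧ dsc (tA θ) (tB θ) (tC θ) ≠ 0}
  have hl : ∀ᶠ θ in l, θ.1 ≠ 0 ∧ dsc (tA θ) (tB θ) (tC θ) ≠ 0 :=
    (le_principal_iff.1 (inf_le_right : l ≤ _))
  have hφ : Tendsto φ l (𝓝 ((0 : ℝ), q₀)) := tendsto_comap.mono_left inf_le_left
  have hT : TnL τ l ((0 : ℝ), q₀) := by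
    refine ⟨(continuous_fst.tendsto _).comp hφ, fun j => ?_⟩
    exact (((continuous_apply j).comp continuous_snd).tendsto ((0 : ℝ), q₀)).comp hφ
  have hw : Tendsto (fun θ : K × (Fin 4 → K) => τ θ.1) l (𝓝 0) := hT.1
  have hq : ∀ j, Tendsto (fun θ : K × (Fin 4 → K) => τ (θ.2 j)) l (𝓝 (q₀ j)) := hT.2
  set ρ : ℝ := 1 / (100 * CL ((0 : ℝ), q₀)) with hρ
  have hBd : ∀ᶠ θ in l, Bd (av τ) (tA θ) (tB θ) (tC θ) (CL ((0 : ℝ), q₀)) ρ := hT.Bd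
  have hρ0 : 0 < ρ := (Bd_baseL ((0 : ℝ), q₀)).hρ
  -- the base point
  let N₁ : K × (Fin 4 → K) → ℝ := fun θ => τ (θ.2 0) ^ 2 - 4 * τ θ.1 ^ 2 * τ (θ.2 1)
  let M₁ : K × (Fin 4 → K) → ℝ := fun θ => τ (θ.2 0) * N₁ θ + 8 * τ θ.1 ^ 4 * τ (θ.2 2)
  have hN₁ : Tendsto N₁ l (𝓝 (q₀ 0 ^ 2)) := by
    have h := ((hq 0).pow 2).sub (((hw.pow 2).const_mul 4).mul (hq 1))
    simpa using h
  have hM₁ : Tendsto M₁ l (𝓝 (q₀ 0 * q₀ 0 ^ 2)) := by
    have h := ((hq 0).mul hN₁).add (((hw.pow 4).const_mul 8).mul (hq 2))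
    simpa using h
  have hM0 : q₀ 0 * q₀ 0 ^ 2 ≠ 0 := mul_ne_zero hq0 (pow_ne_zero 2 hq0)
  have hM1 : ∀ᶠ θ in l, M₁ θ ≠ 0 := hM₁.eventually_ne hM0
  have hX : ∀ θ : K × (Fin 4 → K), θ.1 ≠ 0 → 4 * τ θ.1 ^ 2 * τ (tX θ) = N₁ θ := by
    intro θ h
    have h' : τ θ.1 ≠ 0 := (map_ne_zero τ).2 h
    simp only [tX, xs, map_sub, map_div₀, map_mul, map_pow, map_ofNat, N₁]
    field_simp
  have hY : ∀ θ : K × (Fin 4 → K), θ.1 ≠ 0 → 8 * τ θ.1 ^ 3 * τ (tY θ) = M₁ θ := by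
    intro θ h
    have h' : τ θ.1 ≠ 0 := (map_ne_zero τ).2 h
    have h1 : τ (tY θ) = (τ (θ.2 0) * τ (tX θ) + 2 * τ θ.1 ^ 2 * τ (θ.2 2)) / (2 * τ θ.1) := by
      simp only [tY, ys, tX, map_add, map_div₀, map_mul, map_pow, map_ofNat]
    rw [h1]
    have h2 := hX θ h
    simp only [M₁]
    rw [← h2]
    field_simp
    ring
  -- the multiples
  let P : ∀ θ : K × (Fin 4 → K), Pt (tA θ) (tB θ) (tC θ) := fun θ =>
    if h : θ.1 ≠ 0 ∧ dsc (tA θ) (tB θ) (tC θ) ≠ 0 then .some _ _ (tns h.1 h.2) else 0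
  have hP : ∀ θ (h : θ.1 ≠ 0 ∧ dsc (tA θ) (tB θ) (tC θ) ≠ 0), P θ = .some _ _ (tns h.1 h.2) :=
    fun θ h => dif_pos h
  let z₁ : K × (Fin 4 → K) → ℝ := fun θ => τ (TT (P θ))
  have hz₁ : ∀ θ, θ.1 ≠ 0 ∧ dsc (tA θ) (tB θ) (tC θ) ≠ 0 → z₁ θ = τ (tX θ) / τ (tY θ) := by
    intro θ h
    simp only [z₁]
    rw [hP θ h, TT_some, map_div₀]
  have hzw : Tendsto (fun θ => z₁ θ / τ θ.1) l (𝓝 (2 / q₀ 0)) := by
    have h1 : Tendsto (fun θ => 2 * N₁ θ / M₁ θ) l (𝓝 (2 * q₀ 0 ^ 2 / (q₀ 0 * q₀ 0 ^ 2))) :=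
      (hN₁.const_mul 2).div hM₁ hM0
    have h2 : 2 * q₀ 0 ^ 2 / (q₀ 0 * q₀ 0 ^ 2) = 2 / q₀ 0 := by field_simp
    rw [h2] at h1
    refine h1.congr' ?_
    filter_upwards [hl, hM1] with θ h h3
    have h' : τ θ.1 ≠ 0 := (map_ne_zero τ).2 h.1
    rw [hz₁ θ h]
    have h4 := hX θ h.1
    have h5 := hY θ h.1
    have h6 : τ (tY θ) ≠ 0 := by
      intro h7
      rw [h7, mul_zero] at h5
      exact h3 h5.symm
    rw [← h4, ← h5]
    field_simp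
    ring
  have hz0 : Tendsto z₁ l (𝓝 0) := by
    have h1 := hzw.mul hw
    rw [mul_zero] at h1
    refine h1.congr' ?_
    filter_upwards [hl] with θ h
    exact div_mul_cancel₀ _ ((map_ne_zero τ).2 h.1)
  have hs0 : Tendsto (fun θ => 8 * τ θ.1 ^ 3 / M₁ θ) l (𝓝 0) := by
    have h1 : Tendsto (fun θ => 8 * τ θ.1 ^ 3 / M₁ θ) l (𝓝 (8 * 0 ^ 3 / (q₀ 0 * q₀ 0 ^ 2))) :=
      ((hw.pow 3).const_mul 8).div hM₁ hM0
    simpa using h1
  have hNb : ∀ᶠ θ in l, Nb (av τ) ρ |z₁ θ| (P θ) := by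
    have h1 : ∀ᶠ θ in l, |8 * τ θ.1 ^ 3 / M₁ θ| < ρ := by
      have h2 := hs0.abs
      rw [abs_zero] at h2
      exact h2.eventually_lt_const hρ0
    filter_upwards [h1, hl, hM1] with θ h2 h h3
    have h' : τ θ.1 ≠ 0 := (map_ne_zero τ).2 h.1
    have h5 := hY θ h.1
    have h6 : τ (tY θ) ≠ 0 := by
      intro h7
      rw [h7, mul_zero] at h5
      exact h3 h5.symm
    have h8 : z₁ θ = τ (tX θ / tY θ) := by
      rw [hz₁ θ h, map_div₀]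
    rw [h8, hP θ h, Nb_some]
    refine ⟨fun h9 => h6 (by rw [h9, map_zero]), le_of_eq rfl, ?_⟩
    change |τ (1 / tY θ)| ≤ ρ
    have h10 : τ (1 / tY θ) = 8 * τ θ.1 ^ 3 / M₁ θ := by
      rw [map_div₀, map_one, ← h5]
      field_simp
    rw [h10]
    exact h2.le
  have hsm : ∀ᶠ θ in l, 2 * n * |z₁ θ| ≤ ρ ∧ |z₁ θ| ≤ ρ := by
    have h2 := hz0.abs
    rw [abs_zero] at h2
    have h3 := h2.const_mul (2 * (n : ℝ))
    rw [mul_zero] at h3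
    filter_upwards [h3.eventually_lt_const hρ0, h2.eventually_lt_const hρ0] with θ h4 h5
    exact ⟨h4.le, h5.le⟩
  let R : ∀ θ : K × (Fin 4 → K), Pt (tA θ) (tB θ) (tC θ) := fun θ => (-(n : ℤ)) • P θ
  let z : K × (Fin 4 → K) → ℝ := fun θ => τ (TT (R θ))
  have hR : ∀ θ, R θ = -(n • P θ) := by
    intro θ
    simp only [R]
    rw [neg_zsmul, natCast_zsmul]
  have hz2 : ∀ᶠ θ in l, Nb (av τ) ρ ρ (R θ) ∧ |z θ + n * z₁ θ| ≤ (n : ℝ) ^ 2 * |z₁ θ| ^ 2 := by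
    filter_upwards [hNb, hsm, hBd] with θ h1 h2 h3
    have h4 := R3 h3 h1 n h2.1 h2.2 n le_rfl
    have h5 := mult_near h3 h1 n h2.1 h2.2 n le_rfl
    constructor
    · rw [hR]
      exact (h4.mono (h4.le.trans h2.1)).neg
    · have h6 : z θ + n * z₁ θ = -(τ (TT (n • P θ)) - n * τ (TT (P θ))) := by
        simp only [z, z₁]
        rw [hR, TT_neg, map_neg]
        ring
      rw [h6, abs_neg]
      exact h5
  have hζ : Tendsto (fun θ => z θ / τ θ.1) l (𝓝 (-n * (2 / q₀ 0))) := by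
    have h1 : Tendsto (fun θ => (z θ + n * z₁ θ) / τ θ.1) l (𝓝 0) := by
      have h2 : Tendsto (fun θ => (n : ℝ) ^ 2 * (|z₁ θ / τ θ.1| * |z₁ θ|)) l (𝓝 0) := by
        have h3 := (hzw.abs.mul hz0.abs).const_mul ((n : ℝ) ^ 2)
        simpa using h3
      refine squeeze_zero_norm' ?_ h2
      filter_upwards [hz2, hl] with θ h4 h5
      have h' : 0 < |τ θ.1| := abs_pos.2 ((map_ne_zero τ).2 h5.1)
      rw [Real.norm_eq_abs, abs_div, abs_div, div_le_iff₀ h']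
      refine h4.2.trans (le_of_eq ?_)
      field_simp
    have h2 := h1.sub (hzw.const_mul (n : ℝ))
    have h3 : (0 : ℝ) - n * (2 / q₀ 0) = -n * (2 / q₀ 0) := by ring
    rw [h3] at h2
    refine h2.congr fun θ => ?_
    ring
  have hζ0 : -(n : ℝ) * (2 / q₀ 0) ≠ 0 :=
    mul_ne_zero (neg_ne_zero.2 hn0) (div_ne_zero two_ne_zero hq0)
  have hzt : Tendsto z l (𝓝 0) := by
    have h1 := hζ.mul hw
    rw [mul_zero] at h1
    refine h1.congr' ?_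
    filter_upwards [hl] with θ h
    exact div_mul_cancel₀ _ ((map_ne_zero τ).2 h.1)
  have hzne : ∀ᶠ θ in l, z θ ≠ 0 := by
    filter_upwards [hζ.eventually_ne hζ0] with θ h h1
    apply h
    rw [h1, zero_div]
  let s : K × (Fin 4 → K) → ℝ := fun θ => τ (SS (R θ))
  -- the point is affine
  have haff : ∀ᶠ θ in l, ∃ (X W : K) (h' : (cv (tA θ) (tB θ) (tC θ)).toAffine.Nonsingular X W),
      R θ = .some X W h' ∧ W ≠ 0 ∧ X ≠ 0 ∧ z θ = τ X / τ W ∧ s θ = 1 / τ W ∧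
      s θ = z θ ^ 3 + τ (tA θ) * z θ ^ 2 * s θ + τ (tB θ) * z θ * s θ ^ 2 + τ (tC θ) * s θ ^ 3 ∧
      |s θ| ≤ 2 * |z θ| ^ 3 := by
    filter_upwards [hz2, hzne, hBd] with θ h1 h2 h3
    have h4 := h1.1
    have h2' : τ (TT (R θ)) ≠ 0 := h2
    simp only [z, s]
    revert h4 h2'
    rcases R θ with _ | ⟨X, W, h'⟩
    · intro h4 h2'
      exfalso
      apply h2'
      change τ 0 = 0
      exact map_zero τ
    · intro h4 h2'
      obtain ⟨k1, k2, k3⟩ := (Nb_some h').1 h4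
      have k4 : τ W ≠ 0 := (map_ne_zero τ).2 k1
      have e1 : τ (SS (.some X W h' : Pt (tA θ) (tB θ) (tC θ))) = 1 / τ W := by
        change τ (1 / W) = _
        rw [map_div₀, map_one]
      have e2 : τ (TT (.some X W h' : Pt (tA θ) (tB θ) (tC θ))) = τ X / τ W := by
        rw [TT_some, map_div₀]
      have e3 := ts_eqn k1 (cv_ns.1 h').1
      refine ⟨X, W, h', rfl, k1, ?_, e2, e1, ?_, ?_⟩
      · rintro rfl
        apply h2'
        rw [e2, map_zero, zero_div]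
      · rw [e1, e2]
        have e4 := congrArg τ e3
        simp only [map_add, map_mul, map_pow, map_div₀, map_one] at e4
        exact e4
      · have e5 := s_small h3 k2 k3 e3
        exact e5
  have hst : Tendsto s l (𝓝 0) := by
    have h2 : Tendsto (fun θ => 2 * |z θ| ^ 3) l (𝓝 0) := by
      have h3 := (hzt.abs.pow 3).const_mul 2
      simpa using h3
    refine squeeze_zero_norm' ?_ h2
    filter_upwards [haff] with θ h
    obtain ⟨X, W, h', -, -, -, -, -, -, h3⟩ := h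
    exact h3
  have hσ : Tendsto (fun θ => s θ / z θ ^ 3) l (𝓝 1) := by
    have h1 : Tendsto (fun θ => 1 - (τ (tA θ) * z θ ^ 2 + τ (tB θ) * z θ * s θ +
        τ (tC θ) * s θ ^ 2)) l (𝓝 1) := by
      have h2 := (((hT.tA.mul (hzt.pow 2)).add ((hT.tB.mul hzt).mul hst)).add
        (hT.tC.mul (hst.pow 2))).const_sub 1
      simpa using h2
    have h2 := (tendsto_const_nhds (x := (1 : ℝ))).div h1 one_ne_zero
    rw [div_one] at h2
    refine h2.congr' ?_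
    filter_upwards [haff, hzne, h1.eventually_ne one_ne_zero] with θ h h3 h4
    obtain ⟨X, W, h', -, -, -, -, -, h5, -⟩ := h
    change 1 / (1 - (τ (tA θ) * z θ ^ 2 + τ (tB θ) * z θ * s θ + τ (tC θ) * s θ ^ 2)) = s θ / z θ ^ 3
    rw [div_eq_div_iff h4 (pow_ne_zero 3 h3)]
    linear_combination -h5
  -- the limits of the coordinates
  set c := -(n : ℝ) * (2 / q₀ 0) with hc
  have hnR : (2 : ℝ) ≤ n := by exact_mod_cast hn
  have hDt : Tendsto (fun θ => Dg (τ θ.1) (fun j => τ (θ.2 j)) (z θ / τ θ.1) (s θ / z θ ^ 3)) l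
      (𝓝 (2 / c - q₀ 0)) := by
    have h1 : Tendsto (fun θ => (2 : ℝ) / (z θ / τ θ.1)) l (𝓝 (2 / c)) :=
      tendsto_const_nhds.div hζ hζ0
    have h2 : Tendsto (fun θ => 2 * τ θ.1 ^ 2 * τ (θ.2 2) * (z θ / τ θ.1 * τ θ.1) ^ 2 *
        (s θ / z θ ^ 3)) l (𝓝 (2 * 0 ^ 2 * q₀ 2 * (c * 0) ^ 2 * 1)) :=
      ((((hw.pow 2).const_mul 2).mul (hq 2)).mul ((hζ.mul hw).pow 2)).mul hσ
    have h3 := (h1.sub (hq 0)).sub h2
    simpa [Dg] using h3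
  have hNt : Tendsto (fun θ => Ng (τ θ.1) (fun j => τ (θ.2 j)) (z θ / τ θ.1) (s θ / z θ ^ 3)) l
      (𝓝 (4 / c ^ 2 - q₀ 0 ^ 2)) := by
    have h1 : Tendsto (fun θ => (4 : ℝ) / ((z θ / τ θ.1) ^ 2 * (s θ / z θ ^ 3))) l
        (𝓝 (4 / (c ^ 2 * 1))) :=
      tendsto_const_nhds.div ((hζ.pow 2).mul hσ) (mul_ne_zero (pow_ne_zero 2 hζ0) one_ne_zero)
    have h2 := (h1.add (((hw.pow 2).const_mul 4).mul (hq 1))).sub ((hq 0).pow 2)
    simpa [Ng] using h2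
  have hDlim : 2 / c - q₀ 0 = -(q₀ 0 * (1 + n) / n) := by
    rw [hc]
    field_simp
    ring
  have hNlim : 4 / c ^ 2 - q₀ 0 ^ 2 = q₀ 0 ^ 2 * (1 - n ^ 2) / n ^ 2 := by
    rw [hc]
    field_simp
    ring
  have hDne : 2 / c - q₀ 0 ≠ 0 := by
    rw [hDlim]
    exact neg_ne_zero.2 (div_ne_zero (mul_ne_zero hq0 (by linarith)) hn0)
  have hAt := hNt.div hDt hDne
  have hAlim : (4 / c ^ 2 - q₀ 0 ^ 2) / (2 / c - q₀ 0) = q₀ 0 * (n - 1) / n := by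
    rw [hDlim, hNlim]
    have : (1 : ℝ) + n ≠ 0 := by linarith
    field_simp
    ring
  rw [hAlim] at hAt
  set A : K × (Fin 4 → K) → ℝ := fun θ =>
    Ng (τ θ.1) (fun j => τ (θ.2 j)) (z θ / τ θ.1) (s θ / z θ ^ 3) /
      Dg (τ θ.1) (fun j => τ (θ.2 j)) (z θ / τ θ.1) (s θ / z θ ^ 3) with hA
  have hAt' : Tendsto A l (𝓝 (q₀ 0 * (n - 1) / n)) := hAt
  have hut : Tendsto (fun θ => (z θ / τ θ.1 * τ θ.1) ^ 2 * (s θ / z θ ^ 3) * A θ) l (𝓝 0) := by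
    have h1 := (((hζ.mul hw).pow 2).mul hσ).mul hAt'
    simpa using h1
  have hYt : Tendsto (fun θ => -1 + (z θ / τ θ.1) ^ 2 * (s θ / z θ ^ 3) * A θ *
      (A θ - τ (θ.2 0)) / 2) l (𝓝 (2 * (-(n : ℝ)) + 1)) := by
    have h1 := (((((hζ.pow 2).mul hσ).mul hAt').mul (hAt'.sub (hq 0))).div_const 2).const_add (-1)
    have h2 : -1 + c ^ 2 * 1 * (q₀ 0 * (n - 1) / n) * (q₀ 0 * (n - 1) / n - q₀ 0) / 2 =
        2 * (-(n : ℝ)) + 1 := by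
      rw [hc]
      field_simp
      ring
    rw [h2] at h1
    exact h1
  have hfin : ∀ᶠ θ in l, ∃ u Z : K, MulN θ (-(n : ℤ)) u Z ∧ |τ u| < ε ∧
      |τ Z - (2 * ((-(n : ℤ) : ℤ) : ℝ) + 1) * τ θ.1| ≤ ε * |τ θ.1| := by
    have h1 := hut.abs
    rw [abs_zero] at h1
    have h2 := (hYt.sub_const (2 * (-(n : ℝ)) + 1)).abs
    rw [sub_self, abs_zero] at h2
    filter_upwards [haff, hl, hDt.eventually_ne hDne, h1.eventually_lt_const hε,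
      h2.eventually_lt_const hε] with θ h3 h4 h5 h6 h7
    obtain ⟨X, W, h', e1, e2, e3, e4, e5, -, -⟩ := h3
    have hw' : τ θ.1 ≠ 0 := (map_ne_zero τ).2 h4.1
    have hX' : τ X ≠ 0 := (map_ne_zero τ).2 e3
    have hW' : τ W ≠ 0 := (map_ne_zero τ).2 e2
    obtain ⟨-, k1⟩ := alg hw' (fun j => τ (θ.2 j)) hX' hW' (ζ := z θ / τ θ.1)
      (σ := s θ / z θ ^ 3) (by rw [e4]) (by rw [e5, e4])
    obtain ⟨k2, k3, k4⟩ := k1 h5
    refine ⟨tf θ.1 (θ.2 0) (θ.2 1) (θ.2 2) X W, Yf θ.1 (θ.2 0) (θ.2 1) (θ.2 2) X W,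
      ⟨h4.1, tns h4.1 h4.2, X, W, h', ?_, ?_, rfl, rfl⟩, ?_, ?_⟩
    · rw [← hP θ h4]
      exact e1
    · intro h8
      apply k2
      have h9 := congrArg τ h8
      rw [map_zero] at h9
      simp only [Df, map_sub, map_mul, map_pow, map_ofNat] at h9
      exact h9
    · rw [map_tf]
      rw [k3]
      exact h6
    · rw [map_Yf, k4]
      have h8 : τ θ.1 * (-1 + (z θ / τ θ.1) ^ 2 * (s θ / z θ ^ 3) * A θ * (A θ - τ (θ.2 0)) / 2) -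
          (2 * ((-(n : ℤ) : ℤ) : ℝ) + 1) * τ θ.1 = τ θ.1 *
          (-1 + (z θ / τ θ.1) ^ 2 * (s θ / z θ ^ 3) * A θ * (A θ - τ (θ.2 0)) / 2 -
            (2 * (-(n : ℝ)) + 1)) := by
        push_cast
        ring
      change |τ θ.1 * (-1 + (z θ / τ θ.1) ^ 2 * (s θ / z θ ^ 3) * A θ * (A θ - τ (θ.2 0)) / 2) -
          (2 * ((-(n : ℤ) : ℤ) : ℝ) + 1) * τ θ.1| ≤ _
      rw [h8, abs_mul, mul_comm ε]
      exact mul_le_mul_of_nonneg_left h7.le (abs_nonneg _)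
  -- back to `δ`
  have h1 : ∀ᶠ y in 𝓝 ((0 : ℝ), q₀), ∀ θ, φ θ = y →
      θ.1 ≠ 0 ∧ dsc (tA θ) (tB θ) (tC θ) ≠ 0 → ∃ u Z : K, MulN θ (-(n : ℤ)) u Z ∧ |τ u| < ε ∧
      |τ Z - (2 * ((-(n : ℤ) : ℤ) : ℝ) + 1) * τ θ.1| ≤ ε * |τ θ.1| := by
    rw [eventually_inf_principal, eventually_comap] at hfin
    exact hfin
  obtain ⟨δ, hδ, h2⟩ := Metric.eventually_nhds_iff.1 h1
  refine ⟨δ, hδ, fun θ hw0 hwδ hqδ hd => h2 (y := φ θ) ?_ θ rfl ⟨hw0, hd⟩⟩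
  rw [Prod.dist_eq, max_lt_iff]
  refine ⟨?_, ?_⟩
  · rw [Real.dist_eq, sub_zero]
    exact hwδ
  · rw [dist_pi_lt_iff hδ]
    intro j
    rw [Real.dist_eq]
    exact hqδ j

end Pool.Agent.H58RC.CRO
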