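import Pool.Agent.H58RC.StmB

/-! Stub CRS of project RC (helper64). -/

set_option autoImplicit false

open Pool.Agent.Y720.MZ Pool.Agent.Q35.ZC MvPolynomial

namespace Pool.Agent.H58RC.CRS

lemma single_im {K : Type} [Field K] (τ : K →+* ℝ) (j : Fin 2) :
    (fun a => τ ((Pi.single j 1 : Fin 2 → K) a)) = (Pi.single j 1 : Fin 2 → ℝ) := by
  funext a
  by_cases h : a = j
  · subst h; simp
  · simp [Pi.single_eq_of_ne h]

lemma q_ne {g : MvPolynomial (Fin 2) ℝ} {x : Fin 2 → ℝ} {e : Fin 2 → ℝ} (h0 : eval x g = 0)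
    (h : Tq g e x ≠ 0) : cq g x e 0 ≠ 0 := by
  intro h1
  apply h
  unfold Tq
  rw [h0, h1]
  unfold dsc
  ring

lemma coord_le {a b : (Fin 2 → ℝ) × ℝ} (k : Fin 2) : |a.1 k - b.1 k| ≤ dist a b := by
  rw [← Real.dist_eq]
  exact (dist_le_pi_dist a.1 b.1 k).trans (by rw [Prod.dist_eq]; exact le_max_left _ _)

lemma snd_le {a b : (Fin 2 → ℝ) × ℝ} : |a.2 - b.2| ≤ dist a b := by
  rw [← Real.dist_eq, Prod.dist_eq]
  exact le_max_right _ _

lemma dist_lt' {a b : (Fin 2 → ℝ) × ℝ} {r : ℝ} (hr : 0 < r) (h1 : ∀ k, |a.1 k - b.1 k| < r) (h2 : |a.2 - b.2| < r) :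
    dist a b < r := by
  rw [Prod.dist_eq]
  refine max_lt ?_ ?_
  · rw [dist_pi_lt_iff hr]
    intro k
    rw [Real.dist_eq]
    exact h1 k
  · rw [Real.dist_eq]
    exact h2

lemma mulpt {K : Type} [Field K] [CharZero K] {θ : K × (Fin 4 → K)} {m : ℤ} {u Z : K} (h : MulN θ m u Z)
    (hI : IOt θ) : MulPt θ u Z := by
  obtain ⟨h1, h2, X, W, h', h3, h4, h5, h6⟩ := h
  exact ⟨h1, h2, hI.2 h2, m, X, W, h', h3, h4, h5, h6⟩

lemma rat_near {t z m : ℝ} (ht : t ≠ 0) (h : |z - (2 * m + 1) * t| ≤ 1 / 4 * |t|) :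
    |z / t - (2 * m + 1)| ≤ 1 / 4 := by
  have h1 : z / t - (2 * m + 1) = (z - (2 * m + 1) * t) / t := by field_simp
  rw [h1, abs_div, div_le_iff₀ (abs_pos.2 ht)]
  exact h

theorem t : S_CRS := by
  intro hCRO hPERT hRSL K _ _ τ g R E N M hE hL x hx hx0 i hi δ hδ
  obtain ⟨j, hj⟩ : ∃ j : Fin 2, j ≠ i := exists_ne i
  have hT : Tq (map τ g) (Pi.single j 1) x.1 ≠ 0 := fun h => hi ⟨x.1, j, hj, rfl, h⟩
  have hev : eval x.1 (map τ g) = 0 := by
    have h1 : x.2 ^ 2 = eval x.1 (map τ g) := hx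
    rw [← h1, hx0]; norm_num
  set q₀ : Fin 4 → ℝ := cq (map τ g) x.1 (Pi.single j 1) with hq₀
  have hq : q₀ 0 ≠ 0 := q_ne hev hT
  set k : ℕ := (hE.finE j).toFinset.card with hk
  have hM : 1 ≤ M := Nat.one_le_iff_ne_zero.2 hL.ne
  set m : Fin (k + 1) → ℤ := fun l => -((M : ℤ) * ((l : ℕ) + 2)) with hm
  have hm2 : ∀ l, m l ≤ -2 := by
    intro l
    have : (1 : ℤ) ≤ M := by exact_mod_cast hM
    simp only [hm]
    have h2 : (0 : ℤ) ≤ ((l : ℕ) : ℤ) := by positivity
    nlinarith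
  set ε₀ : ℝ := min (1 / 4) (δ / 2) with hε₀
  have hε₀p : 0 < ε₀ := lt_min (by norm_num) (by linarith)
  have hcr := fun l => hCRO K τ q₀ hq (m l) (hm2 l) ε₀ hε₀p
  choose δl hδl hcr using hcr
  obtain ⟨δ₁, hδ₁, hδ₁l⟩ := fin_min hδl
  obtain ⟨δ₂, hδ₂, hcq⟩ := cq_nearL (V := Unit) (L := fun _ => ℝ) (s := fun _ => τ) g (Pi.single j 1 : Fin 2 → K)
    (fun _ => x.1) hδ₁
  set C : ℝ := 2 * (M * (k + 2)) + 2 with hC
  have hCp : 2 ≤ C := by
    have : (0 : ℝ) ≤ M * (k + 2) := by positivity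
    rw [hC]; linarith
  set δ' : ℝ := min (δ₁ / 2) (min (δ₂ / 2) (min (δ / 4) (δ / (4 * C)))) with hδ'
  have hδ'p : 0 < δ' := by
    refine lt_min (by linarith) (lt_min (by linarith) (lt_min (by linarith) (by positivity)))
  have e1 : 2 * δ' ≤ δ₁ := by
    have : δ' ≤ δ₁ / 2 := min_le_left _ _
    linarith
  have e2 : 2 * δ' ≤ δ₂ := by
    have : δ' ≤ δ₂ / 2 := (min_le_right _ _).trans (min_le_left _ _)
    linarith
  have e3 : 2 * δ' ≤ δ / 2 := by
    have : δ' ≤ δ / 4 := (min_le_right _ _).trans ((min_le_right _ _).trans (min_le_left _ _))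
    linarith
  have e4 : C * (2 * δ') ≤ δ / 2 := by
    have : δ' ≤ δ / (4 * C) := (min_le_right _ _).trans ((min_le_right _ _).trans (min_le_right _ _))
    rw [le_div_iff₀ (by positivity)] at this
    linarith
  refine ⟨δ', hδ'p, fun x' hx' hd hx'0 ε hε => ?_⟩
  -- the rational point
  set r : ℝ := min (|x'.2| / 4) (min (ε / 2) (δ' / 2)) with hr
  have hrp : 0 < r := lt_min (by have := abs_pos.2 hx'0; linarith) (lt_min (by linarith) (by linarith))
  have r1 : 2 * r ≤ |x'.2| / 2 := by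
    have : r ≤ |x'.2| / 4 := min_le_left _ _
    linarith
  have r2 : 2 * r ≤ ε := by
    have : r ≤ ε / 2 := (min_le_right _ _).trans (min_le_left _ _)
    linarith
  have r3 : 2 * r ≤ δ' := by
    have : r ≤ δ' / 2 := (min_le_right _ _).trans (min_le_right _ _)
    linarith
  obtain ⟨y, ⟨P₀, hP₀, rfl⟩, hy⟩ := Metric.mem_closure_iff.1 hx' r hrp
  obtain ⟨P, hP, hPd, hIO⟩ := hPERT hRSL K τ g R E N M hE hL P₀ hP₀ j r hrp
  have hdP : dist (im τ P) x' < 2 * r := by
    calc dist (im τ P) x' ≤ dist (im τ P) (im τ P₀) + dist (im τ P₀) x' := dist_triangle _ _ _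
      _ < r + r := add_lt_add hPd (by rw [dist_comm]; exact hy)
      _ = 2 * r := by ring
  have hdx : dist (im τ P) x < 2 * δ' := by
    calc dist (im τ P) x ≤ dist (im τ P) x' + dist x' x := dist_triangle _ _ _
      _ < δ' + δ' := add_lt_add (hdP.trans_le r3) hd
      _ = 2 * δ' := by ring
  obtain ⟨⟨hPR, hP2, hPE⟩, hPN⟩ := hP
  have hτ0 : τ P.2 ≠ 0 := (map_ne_zero τ).2 hP2
  have hτabs : |τ P.2| < 2 * δ' := by
    have h1 := (snd_le (a := im τ P) (b := x)).trans_lt hdx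
    rw [hx0, sub_zero] at h1
    exact h1
  have hcoef : ∀ a, |τ ((thj g P j).2 a) - q₀ a| < δ₁ := by
    intro a
    have h1 := hcq P.1 (fun _ b => by
      rw [Real.norm_eq_abs]
      exact ((coord_le (a := im τ P) (b := x) b).trans_lt hdx).trans_le e2) () a
    rw [Real.norm_eq_abs, single_im] at h1
    exact h1
  have hcur : ∀ l, ∃ u Z : K, MulN (thj g P j) (m l) u Z ∧ |τ u| < ε₀ ∧
      |τ Z - (2 * (m l : ℝ) + 1) * τ P.2| ≤ ε₀ * |τ P.2| := fun l =>
    hcr l (thj g P j) hP2 (hτabs.trans_le (e1.trans (hδ₁l l))) (fun a => (hcoef a).trans_le (hδ₁l l)) hIO.1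
  choose u Z hMu hu hZ using hcur
  have hε4 : ε₀ ≤ 1 / 4 := min_le_left _ _
  have hrat : ∀ l, |τ (Z l) / τ P.2 - (2 * (m l : ℝ) + 1)| ≤ 1 / 4 := fun l =>
    rat_near hτ0 ((hZ l).trans (by gcongr))
  have hmR : ∀ l, (m l : ℝ) ≤ -2 := fun l => by exact_mod_cast hm2 l
  have hneg : ∀ l, τ (Z l) / τ P.2 < 0 := by
    intro l
    have h1 := abs_le.1 (hrat l)
    linarith [hmR l, h1.2]
  have hQR : ∀ l, mvp P j (u l) (Z l) ∈ R := fun l => hE.step P hPR j (u l) (Z l) (mulpt (hMu l) hIO)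
  have hQN : ∀ l, mvp P j (u l) (Z l) ∈ N := fun l => hL.stay P hPN j (m l) (u l) (Z l)
    (by simp only [hm]; exact (dvd_neg).2 (dvd_mul_right _ _)) (hMu l)
  -- the new coordinates are different
  have hinj : Function.Injective fun l => (mvp P j (u l) (Z l)).1 j := by
    intro l l' hll
    have h0 : u l = u l' := by
      simp only [mvp, Pi.single_eq_same, mul_one] at hll
      exact add_left_cancel hll
    have h1 : Z l ^ 2 = Z l' ^ 2 := by
      have h2 := hE.on _ (hQR l)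
      have h3 := hE.on _ (hQR l')
      simp only [mvp] at h2 h3
      rw [h2, h3, h0]
    have h4 : (τ (Z l) / τ P.2) ^ 2 = (τ (Z l') / τ P.2) ^ 2 := by
      rw [div_pow, div_pow, ← map_pow τ (Z l), ← map_pow τ (Z l'), h1]
    have h5 : τ (Z l) / τ P.2 = τ (Z l') / τ P.2 := by
      rcases sq_eq_sq_iff_eq_or_eq_neg.1 h4 with h | h
      · exact h
      · have := hneg l; have := hneg l'; linarith
    have h6 : |(m l : ℝ) - m l'| < 1 := by
      have h7 := abs_le.1 (hrat l)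
      have h8 := abs_le.1 (hrat l')
      rw [h5] at h7
      rw [abs_lt]
      constructor <;> linarith [h7.1, h7.2, h8.1, h8.2]
    have h9 : m l = m l' := by
      have h10 : |m l - m l'| < 1 := by exact_mod_cast h6
      have := Int.abs_lt_one_iff.1 h10
      linarith
    simp only [hm, neg_inj] at h9
    have hM0 : (M : ℤ) ≠ 0 := by exact_mod_cast hL.ne
    have h11 := mul_left_cancel₀ hM0 h9
    exact Fin.ext (by exact_mod_cast add_right_cancel h11)
  obtain ⟨l, hl⟩ : ∃ l, (mvp P j (u l) (Z l)).1 j ∉ E j := by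
    by_contra hcon
    push Not at hcon
    have h1 := Finset.card_le_card_of_injOn (s := (Finset.univ : Finset (Fin (k + 1))))
      (t := (hE.finE j).toFinset) (fun l => (mvp P j (u l) (Z l)).1 j)
      (fun l _ => (hE.finE j).mem_toFinset.2 (hcon l)) (hinj.injOn)
    rw [Finset.card_univ, Fintype.card_fin, ← hk] at h1
    omega
  have hZ0 : Z l ≠ 0 := by
    intro h
    have := hneg l
    rw [h, map_zero, zero_div] at this
    exact lt_irrefl _ this
  have hci : (mvp P j (u l) (Z l)).1 i = P.1 i := by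
    simp only [mvp, Pi.single_eq_of_ne hj.symm, mul_zero, add_zero]
  have hcj : (mvp P j (u l) (Z l)).1 j = P.1 j + u l := by
    simp only [mvp, Pi.single_eq_same, mul_one]
  have hij : ∀ a : Fin 2, a = i ∨ a = j := by
    intro a
    by_contra hcon
    push Not at hcon
    obtain ⟨h1, h2⟩ := hcon
    omega
  have hmem : mvp P j (u l) (Z l) ∈ Off R E ∩ N := by
    refine ⟨⟨hQR l, hZ0, fun a => ?_⟩, hQN l⟩
    rcases hij a with rfl | rfl
    · rw [hci]; exact hPE _
    · exact hl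
  refine ⟨im τ (mvp P j (u l) (Z l)), subset_closure ⟨_, hmem, rfl⟩, ?_, ?_, ?_⟩
  · refine dist_lt' hδ (fun a => ?_) ?_
    · rcases hij a with rfl | rfl
      · have h1 := (coord_le (a := im τ P) (b := x) a).trans_lt hdx
        simp only [im] at h1 ⊢
        rw [hci]
        linarith
      · have h1 := (coord_le (a := im τ P) (b := x) a).trans_lt hdx
        simp only [im] at h1 ⊢
        rw [hcj, map_add]
        have h2 : τ (P.1 a) + τ (u l) - x.1 a = (τ (P.1 a) - x.1 a) + τ (u l) := by ring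
        rw [h2]
        refine (abs_add_le _ _).trans_lt ?_
        have h3 := hu l
        have h4 : ε₀ ≤ δ / 2 := min_le_right _ _
        linarith
    · rw [hx0, sub_zero]
      change |τ (Z l)| < δ
      have h1 := hZ l
      have h2 : |τ (Z l)| ≤ |(2 * (m l : ℝ) + 1) * τ P.2| + ε₀ * |τ P.2| := by
        have h3 : τ (Z l) = (2 * (m l : ℝ) + 1) * τ P.2 + (τ (Z l) - (2 * (m l : ℝ) + 1) * τ P.2) := by ring
        calc |τ (Z l)| = |(2 * (m l : ℝ) + 1) * τ P.2 + (τ (Z l) - (2 * (m l : ℝ) + 1) * τ P.2)| := by rw [← h3]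
          _ ≤ _ := (abs_add_le _ _).trans (by linarith)
      rw [abs_mul] at h2
      have h4 : |2 * (m l : ℝ) + 1| ≤ 2 * (M * (k + 2)) + 1 := by
        rw [abs_of_nonpos (by linarith [hmR l])]
        have h5 : (m l : ℝ) = -((M : ℝ) * (((l : ℕ) : ℝ) + 2)) := by
          simp only [hm]; push_cast; ring
        rw [h5]
        have h6 : ((l : ℕ) : ℝ) ≤ k := by exact_mod_cast Nat.lt_succ_iff.1 l.2
        have h7 : (M : ℝ) * (((l : ℕ) : ℝ) + 2) ≤ M * (k + 2) := by gcongr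
        linarith
      have h8 : |τ (Z l)| ≤ C * |τ P.2| := by
        refine h2.trans ?_
        rw [← add_mul]
        gcongr
        rw [hC]
        linarith
      have h9 : C * |τ P.2| ≤ C * (2 * δ') := by
        have : 0 ≤ C := by linarith
        gcongr
      linarith
  · change τ (Z l) * x'.2 < 0
    have h1 := (snd_le (a := im τ P) (b := x')).trans_lt hdP
    have h2 : |τ P.2 - x'.2| < |x'.2| / 2 := h1.trans_le r1
    have h3 : 0 < τ P.2 * x'.2 := by
      rcases lt_or_gt_of_ne hx'0 with h | h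
      · rw [abs_of_neg h] at h2
        have := (abs_lt.1 h2).2
        exact mul_pos_of_neg_of_neg (by linarith) h
      · rw [abs_of_pos h] at h2
        have := (abs_lt.1 h2).1
        exact mul_pos (by linarith) h
    have h4 : τ (Z l) * x'.2 = (τ (Z l) / τ P.2) * (τ P.2 * x'.2) := by field_simp
    rw [h4]
    exact mul_neg_of_neg_of_pos (hneg l) h3
  · change |τ ((mvp P j (u l) (Z l)).1 i) - x'.1 i| < ε
    rw [hci]
    exact ((coord_le (a := im τ P) (b := x') i).trans_lt hdP).trans_le r2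

end Pool.Agent.H58RC.CRS
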