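import Pool.Agent.H58RC.StmR

/-!
# Real geometry: the points of `A` with `w ≠ 0` and good coordinates are interior
-/

set_option autoImplicit false

open MvPolynomial

namespace Pool.Agent.H58RC.G1

open Pool.Agent.H58RC

/-- the points over a neighbourhood of a point with `w ≠ 0` lift to the surface -/
theorem lift (g : MvPolynomial (Fin 2) ℝ) (x : (Fin 2 → ℝ) × ℝ) (hx : x ∈ XR g) (hw : x.2 ≠ 0)
    (ρ : ℝ) (hρ : 0 < ρ) : ∃ η > 0, ∀ z : Fin 2 → ℝ, dist z x.1 < η →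
      ∃ w : ℝ, ((z, w) : (Fin 2 → ℝ) × ℝ) ∈ XR g ∧ dist ((z, w) : (Fin 2 → ℝ) × ℝ) x < ρ := by
  have hc : Continuous fun z : Fin 2 → ℝ => eval z g := MvPolynomial.continuous_eval g
  have hx' : x.2 ^ 2 = eval x.1 g := hx
  have hpos : 0 < eval x.1 g := by rw [← hx']; positivity
  have hF : Continuous fun z : Fin 2 → ℝ => (x.2 / |x.2|) * Real.sqrt (eval z g) :=
    continuous_const.mul (Real.continuous_sqrt.comp hc)
  have hab : |x.2| ≠ 0 := abs_ne_zero.2 hw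
  have hFx : (x.2 / |x.2|) * Real.sqrt (eval x.1 g) = x.2 := by
    rw [← hx', Real.sqrt_sq_eq_abs]; field_simp
  obtain ⟨η1, h1, H1⟩ := Metric.continuous_iff.1 hF x.1 ρ hρ
  have hopen : IsOpen {z : Fin 2 → ℝ | 0 < eval z g} := isOpen_lt continuous_const hc
  obtain ⟨η2, h2, H2⟩ := Metric.isOpen_iff.1 hopen x.1 hpos
  refine ⟨min (min η1 η2) ρ, lt_min (lt_min h1 h2) hρ, fun z hz => ?_⟩
  have hz1 : dist z x.1 < η1 := lt_of_lt_of_le hz (le_trans (min_le_left _ _) (min_le_left _ _))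
  have hz2 : dist z x.1 < η2 := lt_of_lt_of_le hz (le_trans (min_le_left _ _) (min_le_right _ _))
  have hz3 : dist z x.1 < ρ := lt_of_lt_of_le hz (min_le_right _ _)
  have hzp : 0 < eval z g := H2 (Metric.mem_ball.2 hz2)
  refine ⟨(x.2 / |x.2|) * Real.sqrt (eval z g), ?_, ?_⟩
  · show ((x.2 / |x.2|) * Real.sqrt (eval z g)) ^ 2 = eval z g
    rw [mul_pow, div_pow, sq_abs, Real.sq_sqrt hzp.le, div_self (pow_ne_zero 2 hw), one_mul]
  · rw [Prod.dist_eq]
    refine max_lt hz3 ?_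
    have := H1 z hz1
    rwa [hFx] at this

/-- replacing one coordinate -/
theorem dist_upd {y : Fin 2 → ℝ} {i : Fin 2} {s t : ℝ} (r : ℝ) (hr : 0 < r) (h0 : |s - y i| < r)
    (h1 : ∀ k, k ≠ i → |t - y k| < r) : dist (fun k => if k = i then s else t : Fin 2 → ℝ) y < r := by
  rw [dist_pi_lt_iff hr]
  intro k
  by_cases hk : k = i
  · subst hk; simpa [Real.dist_eq] using h0
  · simpa [Real.dist_eq, hk] using h1 k hk

theorem coord_le {x y : (Fin 2 → ℝ) × ℝ} (k : Fin 2) : |x.1 k - y.1 k| ≤ dist x y := by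
  rw [Prod.dist_eq]
  refine le_trans ?_ (le_max_left _ _)
  rw [← Real.dist_eq]
  exact dist_le_pi_dist x.1 y.1 k

/-- **G1** -/
theorem t : S_G1 := by
  intro g B A hG x hxA hw hB
  have hxX := hG.sub hxA
  obtain ⟨δ0, h0, H0⟩ := hG.slide x hxX hw 0 (hB 0)
  obtain ⟨δ1, h1, H1⟩ := hG.slide x hxX hw 1 (hB 1)
  obtain ⟨η, hη, Hη⟩ := lift g x hxX hw (min δ0 δ1) (lt_min h0 h1)
  refine ⟨min η δ1, lt_min hη h1, fun x'' hX'' hd => ?_⟩
  have hd1 : dist x'' x < η := lt_of_lt_of_le hd (min_le_left _ _)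
  have hd2 : dist x'' x < δ1 := lt_of_lt_of_le hd (min_le_right _ _)
  obtain ⟨w, hwX, hwd⟩ := Hη (fun k => if k = 0 then x.1 0 else x''.1 1)
    (dist_upd η hη (by simpa using hη) (by
      intro k hk
      have : k = 1 := by omega
      subst this
      exact lt_of_le_of_lt (coord_le 1) hd1))
  have hA1 : (((fun k => if k = 0 then x.1 0 else x''.1 1 : Fin 2 → ℝ), w) : (Fin 2 → ℝ) × ℝ) ∈ A :=
    H0 x hxA (by simpa using h0) _ hwX (lt_of_lt_of_le hwd (min_le_left _ _)) (by simp)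
  exact H1 _ hA1 (lt_of_lt_of_le hwd (min_le_right _ _)) x'' hX'' hd2 (by simp)

end Pool.Agent.H58RC.G1
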