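import Pool.Agent.H58RC.G1

/-!
# Real geometry: the points of `A` with `w ≠ 0` and one good coordinate are interior
-/

set_option autoImplicit false

open MvPolynomial

namespace Pool.Agent.H58RC.G2

open Pool.Agent.H58RC Pool.Agent.H58RC.G1

theorem exists_good {B : Set ℝ} (hB : B.Finite) (y η : ℝ) (hη : 0 < η) : ∃ t, t ∉ B ∧ |t - y| < η := by
  have hinf : (Set.Ioo (y - η) (y + η)).Infinite := Set.Ioo_infinite (by linarith)
  obtain ⟨t, ht, htB⟩ := hinf.exists_notMem_finset hB.toFinset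
  refine ⟨t, fun h => htB (hB.mem_toFinset.2 h), ?_⟩
  rw [abs_lt]; constructor <;> linarith [ht.1, ht.2]

/-- **G2** -/
theorem t : S_G2 := by
  intro hG1 g B A hG x hxA hw i hi
  have hxX := hG.sub hxA
  obtain ⟨δ, hδ, H⟩ := hG.slide x hxX hw i hi
  have hwa : 0 < |x.2| := abs_pos.2 hw
  obtain ⟨η, hη, Hη⟩ := lift g x hxX hw (min (δ / 2) |x.2|) (lt_min (by linarith) hwa)
  -- the other coordinate
  obtain ⟨j, hj⟩ : ∃ j : Fin 2, j ≠ i := ⟨i + 1, by fin_cases i <;> decide⟩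
  have hk : ∀ k : Fin 2, k ≠ i → k = j := by intro k hk; omega
  obtain ⟨s, hsB, hs⟩ := exists_good (hG.finB j) (x.1 j) η hη
  obtain ⟨w, hwX, hwd⟩ := Hη (fun k => if k = i then x.1 i else s)
    (dist_upd η hη (by simpa using hη) (by intro k hki; rw [hk k hki]; exact hs))
  have hw1 : dist ((((fun k => if k = i then x.1 i else s : Fin 2 → ℝ), w) : (Fin 2 → ℝ) × ℝ)) x < δ / 2 :=
    lt_of_lt_of_le hwd (min_le_left _ _)
  have hw2 : dist ((((fun k => if k = i then x.1 i else s : Fin 2 → ℝ), w) : (Fin 2 → ℝ) × ℝ)) x < |x.2| :=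
    lt_of_lt_of_le hwd (min_le_right _ _)
  set xs : (Fin 2 → ℝ) × ℝ := ((fun k => if k = i then x.1 i else s : Fin 2 → ℝ), w) with hxs
  have hxsA : xs ∈ A := H x hxA (by simpa using hδ) xs hwX (by linarith) (by simp [hxs])
  have hxs2 : xs.2 ≠ 0 := by
    intro h0
    have : |xs.2 - x.2| ≤ dist xs x := by
      rw [Prod.dist_eq, ← Real.dist_eq]; exact le_max_right _ _
    rw [h0, zero_sub, abs_neg] at this
    linarith
  have hgood : ∀ k, xs.1 k ∉ B k := by
    intro k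
    by_cases hki : k = i
    · subst hki; simpa [hxs] using hi
    · have := hk k hki
      subst this
      simpa [hxs, hki] using hsB
  obtain ⟨r, hr, Hr⟩ := hG1 g B A hG xs hxsA hxs2 hgood
  obtain ⟨θ, hθ, Hθ⟩ := lift g xs hwX hxs2 (min r (δ / 2)) (lt_min hr (by linarith))
  refine ⟨min θ δ, lt_min hθ hδ, fun x'' hX'' hd => ?_⟩
  have hd1 : dist x'' x < θ := lt_of_lt_of_le hd (min_le_left _ _)
  have hd2 : dist x'' x < δ := lt_of_lt_of_le hd (min_le_right _ _)
  obtain ⟨w', hwX', hwd'⟩ := Hθ (fun k => if k = i then x''.1 i else s)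
    (dist_upd θ hθ (by
      simp only [hxs, if_true]
      exact lt_of_le_of_lt (coord_le i) hd1) (by
      intro k hki
      simp [hxs, hki, hθ]))
  have hA' : (((fun k => if k = i then x''.1 i else s : Fin 2 → ℝ), w') : (Fin 2 → ℝ) × ℝ) ∈ A :=
    Hr _ hwX' (lt_of_lt_of_le hwd' (min_le_left _ _))
  have hdd : dist (((fun k => if k = i then x''.1 i else s : Fin 2 → ℝ), w') : (Fin 2 → ℝ) × ℝ) x < δ := by
    have h1 : dist (((fun k => if k = i then x''.1 i else s : Fin 2 → ℝ), w') : (Fin 2 → ℝ) × ℝ) xs < δ / 2 :=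
      lt_of_lt_of_le hwd' (min_le_right _ _)
    have h2 := dist_triangle (((fun k => if k = i then x''.1 i else s : Fin 2 → ℝ), w') : (Fin 2 → ℝ) × ℝ) xs x
    linarith
  exact H _ hA' hdd x'' hX'' hd2 (by simp)

end Pool.Agent.H58RC.G2
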