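import Pool.Agent.H58RC.StmR

/-!
Project RC, stub G3: the points of `A` with `w = 0` and one coordinate `z_i ∉ B i` are interior.
-/

set_option autoImplicit false

open MvPolynomial Set Filter Topology

namespace Pool.Agent.H58RC

namespace G3

theorem pnt_self (i : Fin 2) (s t w : ℝ) : (pnt i s t w).1 i = s := by simp [pnt]

theorem pnt_ne {i j : Fin 2} (h : i ≠ j) (s t w : ℝ) : (pnt i s t w).1 j = t := by
  simp [pnt, Ne.symm h]

theorem pnt_snd (i : Fin 2) (s t w : ℝ) : (pnt i s t w).2 = w := rfl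

theorem pnt_eta {i j : Fin 2} (h : i ≠ j) (x : (Fin 2 → ℝ) × ℝ) :
    pnt i (x.1 i) (x.1 j) x.2 = x := by
  refine Prod.ext ?_ rfl
  funext k
  by_cases hk : k = i
  · subst hk
    exact pnt_self _ _ _ _
  · have : k = j := by
      have h1 := k.2
      have h2 := i.2
      have h3 := j.2
      have h4 : (k : ℕ) ≠ i := fun e => hk (Fin.ext e)
      have h5 : (i : ℕ) ≠ j := fun e => h (Fin.ext e)
      exact Fin.ext (by omega)
    subst this
    exact pnt_ne h _ _ _

theorem all_or {i j : Fin 2} (h : i ≠ j) (k : Fin 2) : k = i ∨ k = j := by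
  have h1 := k.2
  have h2 := i.2
  have h3 := j.2
  have h5 : (i : ℕ) ≠ j := fun e => h (Fin.ext e)
  rcases eq_or_ne (k : ℕ) i with e | e
  · exact Or.inl (Fin.ext e)
  · exact Or.inr (Fin.ext (by omega))

theorem cont_pnt (i : Fin 2) : Continuous fun p : ℝ × ℝ × ℝ => pnt i p.1 p.2.1 p.2.2 := by
  unfold pnt
  refine Continuous.prodMk ?_ (by fun_prop)
  refine continuous_pi fun k => ?_
  by_cases hk : k = i
  · simp only [hk, if_true]
    fun_prop
  · simp only [hk, if_false]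
    fun_prop

theorem dist_i (i : Fin 2) (x' x : (Fin 2 → ℝ) × ℝ) : |x'.1 i - x.1 i| ≤ dist x' x := by
  rw [← Real.dist_eq]
  exact (dist_le_pi_dist x'.1 x.1 i).trans (le_max_left _ _)

theorem dist_2 (x' x : (Fin 2 → ℝ) × ℝ) : |x'.2 - x.2| ≤ dist x' x := by
  rw [← Real.dist_eq]
  exact le_max_right _ _

theorem t : S_G3 := by
  intro hC hG1 g B A hA x hx hx0 i hi
  obtain ⟨j, hij⟩ : ∃ j : Fin 2, i ≠ j := by
    rcases eq_or_ne i 0 with h | h
    · exact ⟨1, by rw [h]; decide⟩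
    · exact ⟨0, h⟩
  have hxX := hA.sub hx
  obtain ⟨a0, h, ha0, hcont0, hh0, hΦ0, r0, hr0, hinv0⟩ :=
    hC g x hxX hx0 i j hij (hA.vert x hxX hx0 i j hij hi) 1 one_pos
  set c : ℝ := x.1 i with hc
  -- make `a` small
  obtain ⟨a, ha, haa0, haB⟩ : ∃ a : ℝ, 0 < a ∧ a ≤ a0 ∧ ∀ s, |s - c| < a → s ∉ B i := by
    have h1 : IsOpen ((B i)ᶜ) := (hA.finB i).isClosed.isOpen_compl
    obtain ⟨e, he, hball⟩ := Metric.isOpen_iff.1 h1 c hi
    refine ⟨min a0 e, lt_min ha0 he, min_le_left _ _, fun s hs => ?_⟩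
    apply hball
    rw [Metric.mem_ball, Real.dist_eq]
    exact lt_of_lt_of_le hs (min_le_right _ _)
  set Φ : ℝ → ℝ → (Fin 2 → ℝ) × ℝ := fun w s => pnt i s (h w s) w with hΦdef
  have hX : ∀ w s, |w| < a → |s - c| < a → Φ w s ∈ XR g := fun w s h1 h2 =>
    (hΦ0 w s (h1.trans_le haa0) (h2.trans_le haa0)).1
  have hP2 : ∀ w s, (Φ w s).2 = w := fun w s => rfl
  have hPi : ∀ w s, (Φ w s).1 i = s := fun w s => pnt_self _ _ _ _
  have hPj : ∀ w s, (Φ w s).1 j = h w s := fun w s => pnt_ne hij _ _ _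
  have hat : ∀ w s, |w| < a → |s - c| < a →
      ContinuousAt (fun p : ℝ × ℝ => Φ p.1 p.2) (w, s) := by
    intro w s h1 h2
    have ho : IsOpen {p : ℝ × ℝ | |p.1| < a0 ∧ |p.2 - c| < a0} := by
      have o1 : IsOpen {p : ℝ × ℝ | |p.1| < a0} := isOpen_lt (by fun_prop) (by fun_prop)
      have o2 : IsOpen {p : ℝ × ℝ | |p.2 - c| < a0} := isOpen_lt (by fun_prop) (by fun_prop)
      exact o1.inter o2
    have h3 : ContinuousAt (fun p : ℝ × ℝ => h p.1 p.2) (w, s) :=
      hcont0.continuousAt (ho.mem_nhds ⟨h1.trans_le haa0, h2.trans_le haa0⟩)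
    have h4 : ContinuousAt (fun p : ℝ × ℝ => (p.2, h p.1 p.2, p.1)) (w, s) :=
      continuousAt_snd.prodMk (h3.prodMk continuousAt_fst)
    exact ContinuousAt.comp (g := fun p : ℝ × ℝ × ℝ => pnt i p.1 p.2.1 p.2.2)
      (f := fun p : ℝ × ℝ => (p.2, h p.1 p.2, p.1)) (x := (w, s)) (cont_pnt i).continuousAt h4
  have hΦx : Φ 0 c = x := by
    have := pnt_eta hij x
    rw [← hc, ← hh0, hx0] at this
    exact this
  -- the inverse of the chart
  obtain ⟨r, hr, hinv⟩ : ∃ r > 0, ∀ x' ∈ XR g, dist x' x < r →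
      |x'.2| < a ∧ |x'.1 i - c| < a ∧ x' = Φ x'.2 (x'.1 i) := by
    refine ⟨min r0 a, lt_min hr0 ha, fun x' hx' hd => ?_⟩
    obtain ⟨k1, k2, k3⟩ := hinv0 x' hx' (hd.trans_le (min_le_left _ _))
    have l1 := dist_2 x' x
    have l2 := dist_i i x' x
    rw [hx0, sub_zero] at l1
    refine ⟨l1.trans_lt (hd.trans_le (min_le_right _ _)),
      l2.trans_lt (hd.trans_le (min_le_right _ _)), ?_⟩
    have := pnt_eta hij x'
    rw [k3] at this
    exact this.symm
  -- (a)
  have sweep : ∀ κ : ℝ, |κ| = 1 → ∀ s, |s - c| < a → ∀ w1, 0 < w1 → w1 < a → Φ (κ * w1) s ∈ A →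
      ∀ w2, 0 < w2 → w2 < a → Φ (κ * w2) s ∈ A := by
    intro κ hκ s hs w1 h0 h1 hm w2 h20 h21
    have habs : ∀ w, 0 < w → w < a → |κ * w| < a := fun w k1 k2 => by
      rw [abs_mul, hκ, one_mul, abs_of_pos k1]
      exact k2
    have hf : ∀ w, 0 < w → w < a → ContinuousAt (fun w => Φ (κ * w) s) w := fun w k1 k2 => by
      have q1 : ContinuousAt (fun w : ℝ => (κ * w, s)) w := by fun_prop
      exact ContinuousAt.comp (g := fun p : ℝ × ℝ => Φ p.1 p.2) (f := fun w : ℝ => (κ * w, s))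
        (hat _ _ (habs w k1 k2) hs) q1
    set T : Set ℝ := {w | w ∈ Ioo 0 a ∧ Φ (κ * w) s ∈ A} with hT
    have hTo : IsOpen T := by
      rw [isOpen_iff_mem_nhds]
      rintro w ⟨hw, hwA⟩
      have hne : (Φ (κ * w) s).2 ≠ 0 := by
        rw [hP2]
        intro e
        have := congrArg (fun z : ℝ => |z|) e
        simp only [abs_mul, hκ, one_mul, abs_zero, abs_of_pos hw.1] at this
        linarith [hw.1]
      obtain ⟨δ, hδ, hsl⟩ := hA.slide _ (hA.sub hwA) hne i (by rw [hPi]; exact haB s hs)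
      have q1 : ∀ᶠ w' in 𝓝 w, dist (Φ (κ * w') s) (Φ (κ * w) s) < δ :=
        (hf w hw.1 hw.2).eventually (Metric.ball_mem_nhds _ hδ)
      filter_upwards [q1, Ioo_mem_nhds hw.1 hw.2] with w' k1 k2
      refine ⟨k2, hsl _ hwA (by rw [dist_self]; exact hδ) _ (hX _ _ (habs w' k2.1 k2.2) hs) k1 ?_⟩
      rw [hPi, hPi]
    have hcl : closure T ∩ Ioo 0 a ⊆ T := by
      rintro w ⟨hw1, hw2⟩
      refine ⟨hw2, ?_⟩
      have := (hf w hw2.1 hw2.2).continuousWithinAt.mem_closure (s := T) (t := A) hw1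
        (fun w' hw' => hw'.2)
      rwa [hA.closed.closure_eq] at this
    have := isPreconnected_Ioo.subset_of_closure_inter_subset hTo ⟨w1, ⟨h0, h1⟩, ⟨h0, h1⟩, hm⟩ hcl
    exact (this ⟨h20, h21⟩).2
  -- limits in `s`
  have lim_s : ∀ w s, |w| < a → |s - c| < a →
      (∀ ε > 0, ∃ s', |s' - s| < ε ∧ |s' - c| < a ∧ Φ w s' ∈ A) → Φ w s ∈ A := by
    intro w s hw hs hlim
    have q0 : ContinuousAt (fun s' : ℝ => Φ w s') s := by
      have q1 : ContinuousAt (fun s' : ℝ => (w, s')) s := by fun_prop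
      exact ContinuousAt.comp (g := fun p : ℝ × ℝ => Φ p.1 p.2) (f := fun s' : ℝ => (w, s'))
        (hat _ _ hw hs) q1
    have q2 : s ∈ closure {s' | Φ w s' ∈ A} := by
      rw [Metric.mem_closure_iff]
      intro ε hε
      obtain ⟨s', k1, _, k3⟩ := hlim ε hε
      exact ⟨s', k3, by rw [dist_comm, Real.dist_eq]; exact k1⟩
    have := q0.continuousWithinAt.mem_closure (t := A) q2 (fun w' hw' => hw')
    rwa [hA.closed.closure_eq] at this
  -- (b) the sign
  obtain ⟨κ, hκ, hsign⟩ : ∃ κ : ℝ, |κ| = 1 ∧ ∀ ε > 0, ∃ y ∈ A, dist y x < ε ∧ 0 < κ * y.2 := by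
    by_contra hcon
    push Not at hcon
    obtain ⟨e1, he1, h1⟩ := hcon 1 (by simp)
    obtain ⟨e2, he2, h2⟩ := hcon (-1) (by simp)
    obtain ⟨y, hy, hyd⟩ := Metric.mem_closure_iff.1 (hA.gen hx) (min e1 e2) (lt_min he1 he2)
    rw [dist_comm] at hyd
    have k1 := h1 y hy.1 (hyd.trans_le (min_le_left _ _))
    have k2 := h2 y hy.1 (hyd.trans_le (min_le_right _ _))
    exact hy.2.1 (by linarith)
  have hκκ : κ * κ = 1 := by
    have := congrArg (fun z : ℝ => z ^ 2) hκ
    simp only [sq_abs] at this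
    nlinarith
  have hκ0 : κ ≠ 0 := by
    intro e
    rw [e, abs_zero] at hκ
    exact zero_ne_one hκ
  have aκ : ∀ w, 0 < w → w < a → |κ * w| < a := fun w k1 k2 => by
    rw [abs_mul, hκ, one_mul, abs_of_pos k1]
    exact k2
  -- the points near `x` with the sign of `κ` give whole segments
  have seg : ∀ κ' : ℝ, |κ'| = 1 → κ' * κ' = 1 → ∀ y ∈ A, dist y x < r → 0 < κ' * y.2 →
      ∀ w2, 0 < w2 → w2 < a → Φ (κ' * w2) (y.1 i) ∈ A := by
    intro κ' hκ' hκκ' y hy hyd hys w2 h1 h2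
    obtain ⟨k1, k2, k3⟩ := hinv y (hA.sub hy) hyd
    have e1 : κ' * (κ' * y.2) = y.2 := by
      rw [← mul_assoc, hκκ', one_mul]
    apply sweep κ' hκ' (y.1 i) k2 (κ' * y.2) hys ?_ ?_ w2 h1 h2
    · have : |κ' * y.2| < a := by
        rw [abs_mul, hκ', one_mul]
        exact k1
      rwa [abs_of_pos hys] at this
    · rw [e1, ← k3]
      exact hy
  have hcc : |c - c| < a := by
    rw [sub_self, abs_zero]
    exact ha
  -- a good point
  obtain ⟨w0, hw0, hw0B⟩ : ∃ w0 ∈ Ioo 0 a, h (κ * w0) c ∉ B j := by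
    by_contra hcon
    push Not at hcon
    have hinj : InjOn (fun w => h (κ * w) c) (Ioo 0 a) := by
      intro w hw w' hw' e
      simp only at e
      have k1 := hX (κ * w) c (aκ w hw.1 hw.2) hcc
      have k2 := hX (κ * w') c (aκ w' hw'.1 hw'.2) hcc
      have e2 : (Φ (κ * w) c).1 = (Φ (κ * w') c).1 := by
        funext k
        rcases all_or hij k with hk | hk
        · rw [hk, hPi, hPi]
        · rw [hk, hPj, hPj, e]
      have k3 : (Φ (κ * w) c).2 ^ 2 = (Φ (κ * w') c).2 ^ 2 := by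
        have q1 : (Φ (κ * w) c).2 ^ 2 = eval (Φ (κ * w) c).1 g := k1
        have q2 : (Φ (κ * w') c).2 ^ 2 = eval (Φ (κ * w') c).1 g := k2
        rw [q1, q2, e2]
      rw [hP2, hP2] at k3
      have k4 : w ^ 2 = w' ^ 2 := by
        have e3 : ∀ z : ℝ, (κ * z) ^ 2 = z ^ 2 := fun z => by
          have : (κ * z) ^ 2 = (κ * κ) * z ^ 2 := by ring
          rw [this, hκκ, one_mul]
        rw [e3, e3] at k3
        exact k3
      exact (pow_left_inj₀ hw.1.le hw'.1.le two_ne_zero).1 k4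
    have hfin : (Ioo (0 : ℝ) a).Finite :=
      Set.Finite.of_injOn (fun w hw => hcon w hw) hinj (hA.finB j)
    exact (Ioo_infinite ha) hfin
  have hgood : Φ (κ * w0) c ∈ A := by
    apply lim_s _ _ (aκ w0 hw0.1 hw0.2) hcc
    intro ε hε
    obtain ⟨y, hy, hyd, hys⟩ := hsign (min ε (min r a)) (lt_min hε (lt_min hr ha))
    have d1 : |y.1 i - c| < min ε (min r a) := (dist_i i y x).trans_lt hyd
    exact ⟨y.1 i, d1.trans_le (min_le_left _ _),
      d1.trans_le ((min_le_right _ _).trans (min_le_right _ _)),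
      seg κ hκ hκκ y hy (hyd.trans_le ((min_le_right _ _).trans (min_le_left _ _))) hys w0
        hw0.1 hw0.2⟩
  have hne0 : (Φ (κ * w0) c).2 ≠ 0 := by
    rw [hP2]
    exact mul_ne_zero hκ0 hw0.1.ne'
  obtain ⟨r1, hr1, hins⟩ := hG1 g B A hA _ hgood hne0 (by
    intro k
    rcases all_or hij k with hk | hk
    · rw [hk, hPi]
      exact haB c hcc
    · rw [hk, hPj]
      exact hw0B)
  obtain ⟨b, hb, hbA⟩ : ∃ b > 0, ∀ s, |s - c| < b → |s - c| < a ∧
      ∀ w, 0 < w → w < a → Φ (κ * w) s ∈ A := by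
    have q0 : ContinuousAt (fun s' : ℝ => Φ (κ * w0) s') c := by
      have q1 : ContinuousAt (fun s' : ℝ => (κ * w0, s')) c := by fun_prop
      exact ContinuousAt.comp (g := fun p : ℝ × ℝ => Φ p.1 p.2) (f := fun s' : ℝ => (κ * w0, s'))
        (hat _ _ (aκ w0 hw0.1 hw0.2) hcc) q1
    obtain ⟨b, hb, hball⟩ := Metric.continuousAt_iff.1 q0 r1 hr1
    refine ⟨min b a, lt_min hb ha, fun s hs => ?_⟩
    have hsa : |s - c| < a := hs.trans_le (min_le_right _ _)
    refine ⟨hsa, fun w h1 h2 => ?_⟩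
    apply sweep κ hκ s hsa w0 hw0.1 hw0.2 ?_ w h1 h2
    apply hins _ (hX _ _ (aκ w0 hw0.1 hw0.2) hsa)
    apply hball
    rw [Real.dist_eq]
    exact hs.trans_le (min_le_left _ _)
  -- (c)
  obtain ⟨δ', hδ', hcr⟩ := hA.cross x hxX hx0 i hi r hr
  obtain ⟨b', hb', hball'⟩ := Metric.continuousAt_iff.1 (hat 0 c (by rw [abs_zero]; exact ha) hcc)
    δ' hδ'
  have hκn : |(-κ)| = 1 := by rw [abs_neg]; exact hκ
  have hκκn : (-κ) * (-κ) = 1 := by rw [neg_mul_neg]; exact hκκ
  have aκn : ∀ w, 0 < w → w < a → |(-κ) * w| < a := fun w k1 k2 => by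
    rw [abs_mul, hκn, one_mul, abs_of_pos k1]
    exact k2
  have other : ∀ s, |s - c| < min b b' → ∀ w, 0 < w → w < a → Φ ((-κ) * w) s ∈ A := by
    intro s hs w h1 h2
    obtain ⟨hsa, hsA⟩ := hbA s (hs.trans_le (min_le_left _ _))
    apply lim_s _ _ (aκn w h1 h2) hsa
    intro ε hε
    -- the point on the other side
    set w3 : ℝ := min a b' / 2 with hw3
    have hm : 0 < min a b' := lt_min ha hb'
    have h30 : 0 < w3 := by positivity
    have h3a : w3 < a := by
      have := min_le_left a b'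
      linarith
    have h3b : w3 < b' := by
      have := min_le_right a b'
      linarith
    have k1 : Φ (κ * w3) s ∈ A := hsA w3 h30 h3a
    have k2 : dist (Φ (κ * w3) s) x < δ' := by
      have := hball' (x := (κ * w3, s)) (by
        rw [Prod.dist_eq]
        refine max_lt ?_ ?_
        · rw [Real.dist_eq, sub_zero, abs_mul, hκ, one_mul, abs_of_pos h30]
          exact h3b
        · rw [Real.dist_eq]
          exact hs.trans_le (min_le_right _ _))
      simp only at this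
      rwa [hΦx] at this
    obtain ⟨y, hy, hyd, hys, hyi⟩ := hcr _ k1 k2 (by
      rw [hP2]
      exact mul_ne_zero hκ0 h30.ne') (min ε (a - |s - c|)) (lt_min hε (by linarith))
    rw [hPi] at hyi
    rw [hP2] at hys
    have k3 : 0 < (-κ) * y.2 := by
      have q : y.2 * (κ * w3) = (κ * y.2) * w3 := by ring
      rw [q] at hys
      have := neg_of_mul_neg_left hys h30.le
      linarith
    refine ⟨y.1 i, hyi.trans_le (min_le_left _ _), ?_, seg (-κ) hκn hκκn y hy hyd k3 w h1 h2⟩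
    have q1 := abs_add_le (y.1 i - s) (s - c)
    have q2 : y.1 i - s + (s - c) = y.1 i - c := by ring
    rw [q2] at q1
    have q3 := hyi.trans_le (min_le_right _ _)
    linarith
  refine ⟨min r (min b b'), lt_min hr (lt_min hb hb'), fun x' hx' hd => ?_⟩
  obtain ⟨k1, k2, k3⟩ := hinv x' hx' (hd.trans_le (min_le_left _ _))
  have hs : |x'.1 i - c| < min b b' := (dist_i i x' x).trans_lt (hd.trans_le (min_le_right _ _))
  rw [k3]
  set s := x'.1 i with hsdef
  obtain ⟨hsa, hsA⟩ := hbA s (hs.trans_le (min_le_left _ _))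
  rcases lt_trichotomy (κ * x'.2) 0 with hlt | heq | hgt
  · have e1 : (-κ) * ((-κ) * x'.2) = x'.2 := by
      rw [← mul_assoc, hκκn, one_mul]
    have h0 : 0 < (-κ) * x'.2 := by linarith
    have h1 : (-κ) * x'.2 < a := by
      have : |(-κ) * x'.2| < a := by
        rw [abs_mul, hκn, one_mul]
        exact k1
      rwa [abs_of_pos h0] at this
    have := other s hs _ h0 h1
    rwa [e1] at this
  · have e0 : x'.2 = 0 := by
      rcases mul_eq_zero.1 heq with h' | h'
      · exact absurd h' hκ0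
      · exact h'
    rw [e0]
    -- the limit `w → 0`
    have q0 : ContinuousAt (fun w : ℝ => Φ (κ * w) s) 0 := by
      have q1 : ContinuousAt (fun w : ℝ => (κ * w, s)) 0 := by fun_prop
      have q2 : ContinuousAt (fun p : ℝ × ℝ => Φ p.1 p.2) ((fun w : ℝ => (κ * w, s)) 0) := by
        simp only [mul_zero]
        exact hat 0 s (by rw [abs_zero]; exact ha) hsa
      exact ContinuousAt.comp (g := fun p : ℝ × ℝ => Φ p.1 p.2) (f := fun w : ℝ => (κ * w, s)) q2 q1
    have q2 : (0 : ℝ) ∈ closure (Ioo (0 : ℝ) a) := by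
      rw [closure_Ioo ha.ne]
      exact ⟨le_rfl, ha.le⟩
    have := q0.continuousWithinAt.mem_closure (t := A) q2 (fun w' hw' => hsA w' hw'.1 hw'.2)
    rw [hA.closed.closure_eq] at this
    simpa using this
  · have e1 : κ * (κ * x'.2) = x'.2 := by
      rw [← mul_assoc, hκκ, one_mul]
    have h1 : κ * x'.2 < a := by
      have : |κ * x'.2| < a := by
        rw [abs_mul, hκ, one_mul]
        exact k1
      rwa [abs_of_pos hgt] at this
    have := hsA _ hgt h1
    rwa [e1] at this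

end G3

end Pool.Agent.H58RC
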