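import Pool.Agent.H58RC.StmR

/-!
Project RC, stub G4: `A` is a union of components.
-/

set_option autoImplicit false

open MvPolynomial Set Filter Topology

namespace Pool.Agent.H58RC

namespace G4

/-- a preconnected part of the surface which meets `A` in interior points of `A` is contained in `A` -/
theorem precon {g : MvPolynomial (Fin 2) ℝ} {A W : Set ((Fin 2 → ℝ) × ℝ)} (hcl : IsClosed A)
    (hW : IsPreconnected W) (hWX : W ⊆ XR g) (hne : (W ∩ A).Nonempty)
    (hins : ∀ y ∈ W ∩ A, Ins g A y) : W ⊆ A := by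
  choose! r hr hrA using hins
  by_contra hcon
  rw [not_subset] at hcon
  obtain ⟨z, hzW, hzA⟩ := hcon
  set U : Set ((Fin 2 → ℝ) × ℝ) := ⋃ y ∈ W ∩ A, Metric.ball y (r y) with hU
  have hUo : IsOpen U := isOpen_biUnion fun y _ => Metric.isOpen_ball
  have h1 : W ⊆ U ∪ Aᶜ := by
    intro y hy
    by_cases hyA : y ∈ A
    · left
      rw [hU, mem_iUnion₂]
      exact ⟨y, ⟨hy, hyA⟩, Metric.mem_ball_self (hr y ⟨hy, hyA⟩)⟩
    · right
      exact hyA
  have h2 : (W ∩ U).Nonempty := by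
    obtain ⟨y, hy⟩ := hne
    refine ⟨y, hy.1, ?_⟩
    rw [hU, mem_iUnion₂]
    exact ⟨y, hy, Metric.mem_ball_self (hr y hy)⟩
  obtain ⟨q, hqW, hqU, hqA⟩ := hW U Aᶜ hUo hcl.isOpen_compl h1 h2 ⟨z, hzW, hzA⟩
  rw [hU, mem_iUnion₂] at hqU
  obtain ⟨y, hy, hq⟩ := hqU
  exact hqA (hrA y hy q (hWX hqW) (Metric.mem_ball.1 hq))

theorem t : S_G4 := by
  intro hC hP hG1 hG2 hG3 g B A hA x0 hx0
  have int1 : ∀ x ∈ A, ∀ i, x.1 i ∉ B i → Ins g A x := by
    intro x hx i hi
    by_cases h : x.2 = 0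
    · exact hG3 hC hG1 g B A hA x hx h i hi
    · exact hG2 hG1 g B A hA x hx h i hi
  have int : ∀ x ∈ A, Ins g A x := by
    intro x hx
    by_cases hex : ∃ i, x.1 i ∉ B i
    · obtain ⟨i, hi⟩ := hex
      exact int1 x hx i hi
    push Not at hex
    have hxX := hA.sub hx
    -- the finite set of the points with both coordinates in the sets `B`
    set E : Set ((Fin 2 → ℝ) × ℝ) := {y | y ∈ XR g ∧ ∀ i, y.1 i ∈ B i} with hE
    have hEfin : E.Finite := by
      have h1 : (Set.pi univ B).Finite := Set.Finite.pi' hA.finB |>.subset (fun z hz i => hz i (mem_univ i))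
      have h2 : E ⊆ ⋃ z ∈ Set.pi univ B, (fun w : ℝ => (z, w)) '' {w : ℝ | w ^ 2 = eval z g} := by
        intro y hy
        rw [mem_iUnion₂]
        exact ⟨y.1, fun i _ => hy.2 i, y.2, hy.1, rfl⟩
      refine (h1.biUnion fun z _ => ?_).subset h2
      apply Set.Finite.image
      have h3 : {w : ℝ | w ^ 2 = eval z g} ⊆ {√(eval z g), -√(eval z g)} := by
        intro w hw
        have hw' : w ^ 2 = eval z g := hw
        rw [mem_insert_iff, mem_singleton_iff, ← hw', Real.sqrt_sq_eq_abs]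
        rcases le_total 0 w with h | h
        · left
          rw [abs_of_nonneg h]
        · right
          rw [abs_of_nonpos h, neg_neg]
      exact (Set.toFinite _).subset h3
    obtain ⟨ρ, hρ, hρE⟩ : ∃ ρ > 0, ∀ y ∈ E, y ≠ x → ρ ≤ dist y x := by
      have h1 : IsClosed (E \ {x}) := (hEfin.subset sdiff_subset).isClosed
      have h2 : x ∈ (E \ {x})ᶜ := fun h => h.2 rfl
      obtain ⟨ρ, hρ, hb⟩ := Metric.isOpen_iff.1 h1.isOpen_compl x h2
      refine ⟨ρ, hρ, fun y hy hne => ?_⟩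
      by_contra hlt
      push Not at hlt
      exact hb (Metric.mem_ball.2 hlt) ⟨hy, hne⟩
    obtain ⟨V, hVX, hVρ, hxV, ⟨r, hr, hrV⟩, -, hVp⟩ :=
      hP hC g x hxX (fun h0 => hA.smooth x hxX h0) ρ hρ
    have hWA : V \ {x} ⊆ A := by
      apply precon (g := g) hA.closed hVp (fun y hy => hVX hy.1)
      · obtain ⟨y, hy, hyd⟩ := Metric.mem_closure_iff.1 (hA.gen hx) r hr
        rw [dist_comm] at hyd
        refine ⟨y, ⟨hrV y (hA.sub hy.1) hyd, ?_⟩, hy.1⟩
        rintro rfl
        exact hy.2.2 0 (hex 0)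
      · rintro y ⟨⟨hyV, hyx⟩, hyA⟩
        have h1 : y ∉ E := by
          intro hyE
          have := hρE y hyE hyx
          exact absurd (hVρ y hyV) (not_lt.2 this)
        have h2 : ∃ i, y.1 i ∉ B i := by
          by_contra hcon
          push Not at hcon
          exact h1 ⟨hVX hyV, hcon⟩
        obtain ⟨i, hi⟩ := h2
        exact int1 y hyA i hi
    refine ⟨r, hr, fun x' hx' hd => ?_⟩
    by_cases h : x' = x
    · rw [h]
      exact hx
    · exact hWA ⟨hrV x' hx' hd, h⟩
  exact precon (g := g) hA.closed isPreconnected_connectedComponentIn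
    (connectedComponentIn_subset _ _) ⟨x0, mem_connectedComponentIn (hA.sub hx0), hx0⟩
    (fun y hy => int y hy.2)

end G4

end Pool.Agent.H58RC
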