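import Pool.Agent.H58RC.StmB
import Pool.Agent.Y720.WL.Cy2

/-!
# PERT: a small move to a point with a difference of infinite order in a given direction
-/

set_option autoImplicit false

open Pool.Agent.Y720.MZ Pool.Agent.Q35.ZC MvPolynomial

namespace Pool.Agent.H58RC.PERT

/-- the other sheet stays near -/
lemma near_root (w : ℝ) (hw : w ≠ 0) (q : ℝ → ℝ) (hq : Continuous q) (h0 : q 0 = w ^ 2) (ρ : ℝ)
    (hρ : 0 < ρ) : ∃ r > 0, ∀ t, |t| < r → ∃ Y, Y ^ 2 = q t ∧ |Y - w| < ρ := by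
  have hs0 : SignType.sign w * √(q 0) = w := by
    rw [h0, Real.sqrt_sq_eq_abs, sign_mul_abs]
  have hc : Continuous (fun t => (SignType.sign w : ℝ) * √(q t)) := by fun_prop
  have h1 : ∀ᶠ t in nhds (0 : ℝ), |(SignType.sign w : ℝ) * √(q t) - w| < ρ := by
    have : Filter.Tendsto (fun t => |(SignType.sign w : ℝ) * √(q t) - w|) (nhds 0) (nhds 0) := by
      have h2 : Continuous (fun t => |(SignType.sign w : ℝ) * √(q t) - w|) := by fun_prop
      have h3 := h2.tendsto 0
      simpa [hs0] using h3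
    exact this.eventually (gt_mem_nhds hρ)
  have h2 : ∀ᶠ t in nhds (0 : ℝ), 0 < q t :=
    hq.continuousAt.eventually (lt_mem_nhds (by rw [h0]; positivity))
  obtain ⟨r, hr, h3⟩ := Metric.eventually_nhds_iff.1 (h1.and h2)
  refine ⟨r, hr, fun t ht => ?_⟩
  have h4 := h3 (by simpa [Real.dist_eq] using ht : dist t 0 < r)
  refine ⟨SignType.sign w * √(q t), ?_, h4.1⟩
  rw [mul_pow, Real.sq_sqrt h4.2.le]
  have : ((SignType.sign w : ℝ)) ^ 2 = 1 := by
    rcases lt_or_gt_of_ne hw with h | h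
    · rw [sign_neg h]; norm_num
    · rw [sign_pos h]; norm_num
  rw [this, one_mul]

theorem t : S_PERT := by
  intro hRSL K _ _ τ g R E N M hE hN P hP j ε hε
  obtain ⟨⟨hPR, hP2, hPE⟩, hPN⟩ := hP
  obtain ⟨i, hi⟩ := hE.two P ⟨hPR, hP2, hPE⟩
  by_cases hij : i = j
  · subst hij
    exact ⟨P, ⟨⟨hPR, hP2, hPE⟩, hPN⟩, by rw [dist_self]; exact hε, hi⟩
  have hij2 : ∀ k : Fin 2, k = i ∨ k = j := by
    intro k; omega
  set w : ℝ := τ P.2 with hw
  have hw0 : w ≠ 0 := by rw [hw]; exact (map_ne_zero τ).2 hP2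
  have hd := (io_map τ hi).1
  obtain ⟨δ, hδ, H⟩ := hRSL K τ (τ (thj g P i).1, fun k => τ ((thj g P i).2 k)) hw0 hd
  have H1 := H (thj g P i) (by simpa using hδ) (fun k => by simpa using hδ) hi M hN.ne
  -- the bad values
  set F : Set K := {t | ∃ P' ∈ Off R E, P'.1 i = t ∧ P'.1 j = P.1 j ∧ ¬ IOt (thj g P' j)} ∪ E i
    with hF
  have hFf : F.Finite := (hE.few P.1 i j hij (hPE j)).union (hE.finE i)
  have hFτ : (τ '' F).Finite := hFf.image _
  have hqc : Continuous (fun t => qv (τ (thj g P i).1) (fun k => τ ((thj g P i).2 k)) t) := by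
    unfold qv; fun_prop
  have hwp : 0 < |w| := abs_pos.2 hw0
  obtain ⟨r, hr, hroot⟩ := near_root w hw0 _ hqc (by simp [qv, thj, hw]) (min δ (min (ε / 2) (|w| / 2)))
    (by positivity)
  -- the target
  have hinf : (Set.Ioo (τ (P.1 i) - min r (min δ (ε / 2))) (τ (P.1 i) + min r (min δ (ε / 2)))).Infinite :=
    Set.Ioo_infinite (by have : 0 < min r (min δ (ε / 2)) := by positivity
                         linarith)
  obtain ⟨s, hs, hsF⟩ := hinf.exists_notMem_finite hFτ
  set t : ℝ := s - τ (P.1 i) with ht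
  have ht1 : |t| < min r (min δ (ε / 2)) := by
    rw [abs_lt]; constructor <;> [linarith [hs.1]; linarith [hs.2]]
  have htr : |t| < r := lt_of_lt_of_le ht1 (min_le_left _ _)
  have htδ : |t| < δ := lt_of_lt_of_le ht1 ((min_le_right _ _).trans (min_le_left _ _))
  have htε : |t| < ε / 2 := lt_of_lt_of_le ht1 ((min_le_right _ _).trans (min_le_right _ _))
  obtain ⟨Y, hY, hYw⟩ := hroot t htr
  have hYδ : |Y - w| < δ := lt_of_lt_of_le hYw (min_le_left _ _)
  have hYε : |Y - w| < ε / 2 := lt_of_lt_of_le hYw ((min_le_right _ _).trans (min_le_left _ _))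
  have hYw2 : |Y - w| < |w| / 2 := lt_of_lt_of_le hYw ((min_le_right _ _).trans (min_le_right _ _))
  obtain ⟨η₀, hη₀, hη⟩ := Metric.isOpen_iff.1 hFτ.isClosed.isOpen_compl s hsF
  obtain ⟨m, hm, u, Z, hMul, hu, hZ⟩ := H1 t Y htδ hYδ hY (min η₀ (min (ε / 2) (|w| / 2)))
    (by positivity)
  have hu0 : |τ u - t| < η₀ := lt_of_lt_of_le hu (min_le_left _ _)
  have huε : |τ u - t| < ε / 2 := lt_of_lt_of_le hu ((min_le_right _ _).trans (min_le_left _ _))
  have hZε : |τ Z - Y| < ε / 2 := lt_of_lt_of_le hZ ((min_le_right _ _).trans (min_le_left _ _))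
  have hZw : |τ Z - Y| < |w| / 2 := lt_of_lt_of_le hZ ((min_le_right _ _).trans (min_le_right _ _))
  have hZw' : |τ Z - w| < |w| := by
    have := abs_sub_le (τ Z) Y w; linarith
  have hZ0 : Z ≠ 0 := by
    rintro rfl
    rw [map_zero, zero_sub, abs_neg] at hZw'
    exact lt_irrefl _ hZw'
  have hMP : MulPt (thj g P i) u Z := by
    obtain ⟨h1, h, X, W, h', h2⟩ := hMul
    exact ⟨h1, h, hi.2 h, m, X, W, h', h2⟩
  have hQi : (mvp P i u Z).1 i = P.1 i + u := by simp [mvp]
  have hQj : (mvp P i u Z).1 j = P.1 j := by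
    simp [mvp, Pi.single_eq_of_ne (Ne.symm hij)]
  have hQF : (mvp P i u Z).1 i ∉ F := by
    intro h
    rw [hQi] at h
    have h1 : τ (P.1 i) + τ u ∈ τ '' F := ⟨_, h, map_add _ _ _⟩
    refine hη (show τ (P.1 i) + τ u ∈ Metric.ball s η₀ from ?_) h1
    rw [Metric.mem_ball, Real.dist_eq]
    have : τ (P.1 i) + τ u - s = τ u - t := by rw [ht]; ring
    rw [this]; exact hu0
  have hQ : mvp P i u Z ∈ Off R E := by
    refine ⟨hE.step P hPR i u Z hMP, hZ0, fun k => ?_⟩
    rcases hij2 k with rfl | rfl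
    · exact fun h => hQF (Or.inr h)
    · rw [hQj]; exact hPE _
  refine ⟨mvp P i u Z, ⟨hQ, hN.stay P hPN i m u Z hm hMul⟩, ?_, ?_⟩
  · have hu2 : |τ u| < ε := by
      have := abs_sub_abs_le_abs_sub (τ u) t; linarith
    have hZ2 : |τ Z - w| < ε := by
      have := abs_sub_le (τ Z) Y w; linarith
    rw [Prod.dist_eq]
    refine max_lt ?_ ?_
    · refine (dist_pi_lt_iff hε).2 fun k => ?_
      rcases hij2 k with rfl | rfl
      · simp only [im, hQi, map_add, Real.dist_eq, add_sub_cancel_left]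
        exact hu2
      · simp only [im, hQj, dist_self]; exact hε
    · simp only [im, mvp, Real.dist_eq]
      exact hZ2
  · by_contra hno
    exact hQF (Or.inl ⟨mvp P i u Z, hQ, rfl, hQj, hno⟩)

end Pool.Agent.H58RC.PERT
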