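import Pool.Agent.H58RC.StmC
import Pool.Agent.H58RC.PERT
import Pool.Agent.Y720.WL.Cy2

/-!
# MOVE: small moves at one real and several ultrametric places
-/

set_option autoImplicit false

open Pool.Agent.Y720.MZ Pool.Agent.Q35.ZC MvPolynomial

namespace Pool.Agent.H58RC.MOVE

theorem t : S_MOVE := by
  intro hRSL hST K _ _ τ V _ F _ _ _ σ g P i hP2 hi B hB ε hε
  set w : ℝ := τ P.2 with hw
  have hw0 : w ≠ 0 := by rw [hw]; exact (map_ne_zero τ).2 hP2
  have hd := (io_map τ hi).1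
  obtain ⟨δ, hδ, H⟩ := hRSL K τ (τ (thj g P i).1, fun k => τ ((thj g P i).2 k)) hw0 hd
  have hM : ∀ v, ∃ M : ℕ, M ≠ 0 ∧ ∀ m : ℤ, (M : ℤ) ∣ m → ∀ u Z : K, MulN (thj g P i) m u Z →
      ‖σ v u‖ < ε ∧ ‖σ v Z - σ v P.2‖ < ε := by
    intro v
    have : CharZero (F v) := charZero_of_injective_ringHom (σ v).injective
    have hdv := (io_map (σ v) hi).1
    have hPv : (σ v (thj g P i).1) ≠ 0 := (map_ne_zero (σ v)).2 hP2
    obtain ⟨δ', hδ', H'⟩ := hST K (F v) (σ v)
      (σ v (thj g P i).1, fun k => σ v ((thj g P i).2 k)) hPv hdv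
    obtain ⟨M, hM0, hM⟩ := H' ε hε
    exact ⟨M, hM0, hM (thj g P i) (by simpa using hδ') (fun k => by simpa using hδ')⟩
  choose M hM0 hMs using hM
  have := Fintype.ofFinite V
  have hMM : (∏ v, M v) ≠ 0 := Finset.prod_ne_zero_iff.2 fun v _ => hM0 v
  have H1 := H (thj g P i) (by simpa using hδ) (fun k => by simpa using hδ) hi (∏ v, M v) hMM
  have hBτ : (τ '' B).Finite := hB.image _
  have hqc : Continuous (fun t => qv (τ (thj g P i).1) (fun k => τ ((thj g P i).2 k)) t) := by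
    unfold qv; fun_prop
  have hwp : 0 < |w| := abs_pos.2 hw0
  obtain ⟨r, hr, hroot⟩ := PERT.near_root w hw0 _ hqc (by simp [qv, thj, hw])
    (min δ (min (ε / 2) (|w| / 2))) (by positivity)
  have hinf : (Set.Ioo (τ (P.1 i) - min r (min δ (ε / 2))) (τ (P.1 i) + min r (min δ (ε / 2)))).Infinite :=
    Set.Ioo_infinite (by have : 0 < min r (min δ (ε / 2)) := by positivity
                         linarith)
  obtain ⟨s, hs, hsF⟩ := hinf.exists_notMem_finite hBτ
  set t : ℝ := s - τ (P.1 i) with ht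
  have ht1 : |t| < min r (min δ (ε / 2)) := by
    rw [abs_lt]; constructor <;> [linarith [hs.1]; linarith [hs.2]]
  have htr : |t| < r := lt_of_lt_of_le ht1 (min_le_left _ _)
  have htδ : |t| < δ := lt_of_lt_of_le ht1 ((min_le_right _ _).trans (min_le_left _ _))
  have htε : |t| < ε / 2 := lt_of_lt_of_le ht1 ((min_le_right _ _).trans (min_le_right _ _))
  obtain ⟨Y, hY, hYw⟩ := hroot t htr
  have hYδ : |Y - w| < δ := lt_of_lt_of_le hYw (min_le_left _ _)
  have hYε : |Y - w| < ε / 2 := lt_of_lt_of_le hYw ((min_le_right _ _).trans (min_le_left _ _))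
  have hYw2 : |Y - w| < |w| / 2 := lt_of_lt_of_le hYw ((min_le_right _ _).trans (min_le_right _ _))
  obtain ⟨η₀, hη₀, hη⟩ := Metric.isOpen_iff.1 hBτ.isClosed.isOpen_compl s hsF
  obtain ⟨m, hm, u, Z, hMul, hu, hZ⟩ := H1 t Y htδ hYδ hY (min η₀ (min (ε / 2) (|w| / 2)))
    (by positivity)
  have hu0 : |τ u - t| < η₀ := lt_of_lt_of_le hu (min_le_left _ _)
  have huε : |τ u - t| < ε / 2 := lt_of_lt_of_le hu ((min_le_right _ _).trans (min_le_left _ _))
  have hZε : |τ Z - Y| < ε / 2 := lt_of_lt_of_le hZ ((min_le_right _ _).trans (min_le_left _ _))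
  have hZw : |τ Z - Y| < |w| / 2 := lt_of_lt_of_le hZ ((min_le_right _ _).trans (min_le_right _ _))
  have hZw' : |τ Z - w| < |w| := by
    have := abs_sub_le (τ Z) Y w; linarith
  have hZ0 : Z ≠ 0 := by
    rintro rfl
    rw [map_zero, zero_sub, abs_neg] at hZw'
    exact lt_irrefl _ hZw'
  have hMP : MulPt (thj g P i) u Z := by
    obtain ⟨h1, h, X, W, h', h2⟩ := hMul
    exact ⟨h1, h, hi.2 h, m, X, W, h', h2⟩
  refine ⟨u, Z, hMP, hZ0, ?_, ?_, ?_, ?_⟩
  · intro h
    have h1 : τ (P.1 i) + τ u ∈ τ '' B := ⟨_, h, map_add _ _ _⟩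
    refine hη (show τ (P.1 i) + τ u ∈ Metric.ball s η₀ from ?_) h1
    rw [Metric.mem_ball, Real.dist_eq]
    have : τ (P.1 i) + τ u - s = τ u - t := by rw [ht]; ring
    rw [this]; exact hu0
  · have := abs_sub_abs_le_abs_sub (τ u) t; linarith
  · have := abs_sub_le (τ Z) Y w; linarith
  · intro v
    refine hMs v m ?_ u Z hMul
    refine dvd_trans ?_ hm
    exact_mod_cast Finset.dvd_prod_of_mem M (Finset.mem_univ v)

end Pool.Agent.H58RC.MOVE
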