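import Pool.Agent.H58RC.StmC
import Pool.Agent.Y720.WA.Wap

/-!
# PTB: local points can be moved off finitely many lines
-/

set_option autoImplicit false

open Pool.Agent.Y720.MZ Pool.Agent.Q35.ZC MvPolynomial

namespace Pool.Agent.H58RC.PTB

theorem t : Pool.Agent.H58RC.S_PTB := by
  intro M _ _ _ g x y hy hxy B hB η hη
  have hη' : 0 < min η ‖y‖ := lt_min hη (norm_pos_iff.2 hy)
  obtain ⟨ρ, hρ, hs⟩ := sq_near (g := g) (x := x) (y := y) hxy hy hη'
  have h1 : ∀ j, ∃ t : M, t ∉ B j ∧ ‖t - x j‖ < min η ρ := by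
    intro j
    have hd : Dense (B j)ᶜ := Set.Countable.dense_compl M (hB j).countable
    obtain ⟨t, ht1, ht2⟩ := Metric.dense_iff.1 hd (x j) (min η ρ) (lt_min hη hρ)
    rw [Metric.mem_ball, dist_eq_norm] at ht1
    exact ⟨t, ht2, ht1⟩
  choose x' hx1 hx2 using h1
  obtain ⟨y', k1, k2⟩ := hs x' fun j => (hx2 j).trans_le (min_le_right _ _)
  refine ⟨x', y', ?_, k2, hx1, fun j => (hx2 j).trans_le (min_le_left _ _), k1.trans_le (min_le_left _ _)⟩
  intro h0
  rw [h0, zero_sub, norm_neg] at k1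
  exact absurd (k1.trans_le (min_le_right _ _)) (lt_irrefl _)

end Pool.Agent.H58RC.PTB
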