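import Pool.Agent.H58RC.StmR

/-!
# Project RC, stub PUNCT: connected and punctured connected neighbourhoods on the surface (helper8)
-/

set_option autoImplicit false

open MvPolynomial Metric

namespace Pool.Agent.H58RC.PUNCT

/-- the punctured ball is preconnected -/
lemma ball_diff {E : Type*} [NormedAddCommGroup E] [NormedSpace ℝ E] (hE : 1 < Module.rank ℝ E)
    (c : E) {r : ℝ} (hr : 0 < r) : IsPreconnected (ball c r \ {c}) := by
  have h1 : ball c r \ {c} = OpenPartialHomeomorph.univBall c r '' ({0}ᶜ : Set E) := by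
    ext y
    constructor
    · rintro ⟨hy, hyc⟩
      rw [← OpenPartialHomeomorph.univBall_target c hr] at hy
      refine ⟨(OpenPartialHomeomorph.univBall c r).symm y, ?_, ?_⟩
      · intro h0
        rw [Set.mem_singleton_iff] at h0
        apply hyc
        rw [Set.mem_singleton_iff, ← (OpenPartialHomeomorph.univBall c r).right_inv hy, h0,
          OpenPartialHomeomorph.univBall_apply_zero]
      · exact (OpenPartialHomeomorph.univBall c r).right_inv hy
    · rintro ⟨z, hz, rfl⟩
      have hzs : z ∈ (OpenPartialHomeomorph.univBall c r).source := by simp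
      have h0s : (0 : E) ∈ (OpenPartialHomeomorph.univBall c r).source := by simp
      refine ⟨?_, ?_⟩
      · have := (OpenPartialHomeomorph.univBall c r).map_source hzs
        rwa [OpenPartialHomeomorph.univBall_target c hr] at this
      · intro h
        rw [Set.mem_singleton_iff] at h
        apply hz
        rw [Set.mem_singleton_iff]
        apply (OpenPartialHomeomorph.univBall c r).injOn hzs h0s
        rw [h, OpenPartialHomeomorph.univBall_apply_zero]
  rw [h1]
  exact (isConnected_compl_singleton_of_one_lt_rank hE 0).isPreconnected.image _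
    (OpenPartialHomeomorph.continuous_univBall c r).continuousOn

/-- the image of a ball under a continuous injective map -/
lemma core {E : Type*} [NormedAddCommGroup E] [NormedSpace ℝ E] (hE : 1 < Module.rank ℝ E)
    {Y : Type*} [TopologicalSpace Y] (c : E) {r : ℝ} (hr : 0 < r) (Φ : E → Y)
    (hΦ : ContinuousOn Φ (ball c r)) (hinj : Set.InjOn Φ (ball c r)) :
    IsPreconnected (Φ '' ball c r) ∧ IsPreconnected (Φ '' ball c r \ {Φ c}) := by
  refine ⟨(convex_ball c r).isPreconnected.image Φ hΦ, ?_⟩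
  have hc : c ∈ ball c r := mem_ball_self hr
  have h1 : Φ '' ball c r \ {Φ c} = Φ '' (ball c r \ {c}) := by
    ext y
    constructor
    · rintro ⟨⟨z, hz, rfl⟩, hne⟩
      refine ⟨z, ⟨hz, ?_⟩, rfl⟩
      rintro rfl
      exact hne rfl
    · rintro ⟨z, ⟨hz, hne⟩, rfl⟩
      refine ⟨⟨z, hz, rfl⟩, ?_⟩
      intro h
      exact hne (hinj hz hc h)
  rw [h1]
  exact (ball_diff hE c hr).image Φ (hΦ.mono Set.sdiff_subset)

lemma rank_fin : 1 < Module.rank ℝ (Fin 2 → ℝ) := by simp

lemma rank_prod : 1 < Module.rank ℝ (ℝ × ℝ) := by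
  rw [rank_prod', Module.rank_self, one_add_one_eq_two]
  exact Cardinal.one_lt_two

lemma other (i j : Fin 2) (h : i ≠ j) (k : Fin 2) (hk : k ≠ i) : k = j := by
  omega

theorem t : Pool.Agent.H58RC.S_PUNCT := by
  intro hch g x hx hsm ρ hρ
  by_cases hx2 : x.2 = 0
  · -- a branch point
    obtain ⟨j, hj⟩ := hsm hx2
    obtain ⟨i, hij⟩ : ∃ i : Fin 2, i ≠ j := exists_ne j
    obtain ⟨a, h, ha, hcont, h0, hon, r, hr, hall⟩ := hch g x hx hx2 i j hij hj ρ hρ
    have hball : {p : ℝ × ℝ | |p.1| < a ∧ |p.2 - x.1 i| < a} = ball ((0 : ℝ), x.1 i) a := by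
      ext p
      simp only [Set.mem_ofPred_eq, mem_ball, Prod.dist_eq, sup_lt_iff, Real.dist_eq, sub_zero]
    set Φ : ℝ × ℝ → (Fin 2 → ℝ) × ℝ := fun p => pnt i p.2 (h p.1 p.2) p.1 with hΦdef
    have hΦc : Φ (0, x.1 i) = x := by
      simp only [hΦdef, pnt]
      ext k
      · simp only
        split_ifs with hk
        · rw [hk]
        · rw [h0, other i j hij k hk]
      · simp [hx2]
    have hΦcont : ContinuousOn Φ (ball ((0 : ℝ), x.1 i) a) := by
      rw [← hball]
      simp only [hΦdef, pnt]
      refine ContinuousOn.prodMk ?_ continuous_fst.continuousOn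
      refine continuousOn_pi.2 fun k => ?_
      by_cases hk : k = i
      · simp only [hk, if_true]
        exact continuous_snd.continuousOn
      · simp only [hk, if_false]
        exact hcont
    have hΦinj : Set.InjOn Φ (ball ((0 : ℝ), x.1 i) a) := by
      intro p _ q _ hpq
      simp only [hΦdef, pnt, Prod.mk.injEq] at hpq
      have h1 := congrFun hpq.1 i
      simp only [if_true] at h1
      exact Prod.ext hpq.2 h1
    obtain ⟨hV, hV'⟩ := core rank_prod ((0 : ℝ), x.1 i) ha Φ hΦcont hΦinj
    rw [hΦc] at hV'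
    refine ⟨Φ '' ball ((0 : ℝ), x.1 i) a, ?_, ?_, ?_, ?_, hV, hV'⟩
    · rintro _ ⟨p, hp, rfl⟩
      rw [← hball] at hp
      exact (hon p.1 p.2 hp.1 hp.2).1
    · rintro _ ⟨p, hp, rfl⟩
      rw [← hball] at hp
      exact (hon p.1 p.2 hp.1 hp.2).2
    · exact ⟨_, mem_ball_self ha, hΦc⟩
    · refine ⟨r, hr, fun x' hx' hd => ?_⟩
      obtain ⟨h1, h2, h3⟩ := hall x' hx' hd
      refine ⟨(x'.2, x'.1 i), ?_, ?_⟩
      · rw [← hball]
        exact ⟨h1, h2⟩
      · simp only [hΦdef, pnt]
        ext k
        · simp only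
          split_ifs with hk
          · rw [hk]
          · rw [← h3, other i j hij k hk]
        · rfl
  · -- a point with `w ≠ 0`
    set σ : ℝ := ((SignType.sign x.2 : SignType) : ℝ) with hσ
    have hσ2 : σ ^ 2 = 1 := by
      rcases lt_or_gt_of_ne hx2 with h | h
      · simp [hσ, h]
      · simp [hσ, h]
    have hfc : Continuous fun z : Fin 2 → ℝ => eval z g := MvPolynomial.continuous_eval g
    set Φ : (Fin 2 → ℝ) → (Fin 2 → ℝ) × ℝ := fun z => (z, σ * Real.sqrt (eval z g)) with hΦdef
    have hΦcont : Continuous Φ := by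
      simp only [hΦdef]
      exact continuous_id.prodMk (continuous_const.mul (Real.continuous_sqrt.comp hfc))
    have hgx : x.2 ^ 2 = eval x.1 g := hx
    have hpos : 0 < eval x.1 g := by
      rw [← hgx]
      positivity
    have hΦc : Φ x.1 = x := by
      simp only [hΦdef]
      ext k
      · rfl
      · simp only
        rw [← hgx, Real.sqrt_sq_eq_abs, hσ]
        exact sign_mul_abs x.2
    -- choose the radius
    have h1 : ∀ᶠ z in nhds x.1, 0 < eval z g := hfc.continuousAt.eventually (lt_mem_nhds hpos)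
    have h2 : ∀ᶠ z in nhds x.1, dist (Φ z) x < ρ := by
      have : ContinuousAt Φ x.1 := hΦcont.continuousAt
      have h3 := (Metric.tendsto_nhds.1 this.tendsto) ρ hρ
      rwa [hΦc] at h3
    obtain ⟨r, hr, hrr⟩ := Metric.eventually_nhds_iff_ball.1 (h1.and h2)
    have hinj : Set.InjOn Φ (ball x.1 r) := by
      intro p _ q _ hpq
      simp only [hΦdef, Prod.mk.injEq] at hpq
      exact hpq.1
    obtain ⟨hV, hV'⟩ := core rank_fin x.1 hr Φ hΦcont.continuousOn hinj
    rw [hΦc] at hV'
    refine ⟨Φ '' ball x.1 r, ?_, ?_, ⟨x.1, mem_ball_self hr, hΦc⟩, ?_, hV, hV'⟩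
    · rintro _ ⟨z, hz, rfl⟩
      show (σ * Real.sqrt (eval z g)) ^ 2 = eval z g
      rw [mul_pow, hσ2, one_mul, Real.sq_sqrt (hrr z hz).1.le]
    · rintro _ ⟨z, hz, rfl⟩
      exact (hrr z hz).2
    · refine ⟨min r |x.2|, lt_min hr (abs_pos.2 hx2), fun x' hx' hd => ?_⟩
      rw [Prod.dist_eq, max_lt_iff, lt_min_iff, lt_min_iff] at hd
      refine ⟨x'.1, hd.1.1, ?_⟩
      have hgx' : x'.2 ^ 2 = eval x'.1 g := hx'
      simp only [hΦdef]
      have hs : SignType.sign x'.2 = SignType.sign x.2 := by
        have h4 : |x'.2 - x.2| < |x.2| := by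
          rw [← Real.dist_eq]
          exact hd.2.2
        rcases lt_or_gt_of_ne hx2 with h | h
        · rw [abs_of_neg h, abs_lt] at h4
          rw [sign_neg h, sign_neg (by linarith)]
        · rw [abs_of_pos h, abs_lt] at h4
          rw [sign_pos h, sign_pos (by linarith)]
      ext k
      · rfl
      · simp only
        rw [← hgx', Real.sqrt_sq_eq_abs, hσ, ← hs]
        exact sign_mul_abs x'.2

end Pool.Agent.H58RC.PUNCT
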