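import Pool.Agent.H58RC.StmA
import Pool.Agent.Y720.WL.LemR

/-!
# Multiples by elements of `M ℤ` are dense near the base point at a real place
-/

set_option autoImplicit false

open Filter Topology WeierstrassCurve Pool.Agent.Y720.MZ Pool.Agent.Q35.ZC

namespace Pool.Agent.H58RC.RSL

/-- The multiples by elements of `M ℤ` fill a neighbourhood of the origin. -/
theorem fill {K : Type} [Field K] [CharZero K] [DecidableEq K] {a b c : K} {τ : K →+* ℝ}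
    {C ρ : ℝ} (hD : dsc a b c ≠ 0) (hB : Bd (av τ) a b c C ρ) {P : Pt a b c}
    (hP : ∀ n : ℕ, n ≠ 0 → n • P ≠ 0) {M : ℕ} (hM : M ≠ 0) (ξ : ℝ) (hξ : |ξ| ≤ ρ / 12) {η : ℝ}
    (hη : 0 < η) : ∃ n : ℤ, (M : ℤ) ∣ n ∧ Nb (av τ) ρ (ρ / 3) (n • P) ∧
      |τ (TT (n • P)) - ξ| < η := by
  have hρ := hB.hρ
  set t := min (ρ / 100) (η / 4) with ht
  have ht0 : 0 < t := lt_min (by positivity) (by positivity)
  have ht1 : t ≤ ρ / 100 := min_le_left _ _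
  have ht2 : t ≤ η / 4 := min_le_right _ _
  obtain ⟨m, hm, hU⟩ := accum_near τ hD hB (P := M • P) (fun n hn => by
    rw [← mul_smul]; exact hP _ (mul_ne_zero hn hM)) ht0
  set U := m • M • P with hUdef
  have hU00 : U ≠ 0 := by
    rw [hUdef, ← mul_smul]; exact hP _ (mul_ne_zero hm hM)
  have hU0 : τ (TT U) ≠ 0 :=
    (map_ne_zero τ).2 (TT_ne hB (ht1.trans (by linarith)) hU hU00)
  have hUt : |τ (TT U)| ≤ t := hU.le
  have hU3 : Nb (av τ) ρ (ρ / 3) U := hU.mono (hU.le.trans (by linarith))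
  have hU0' : 0 < |τ (TT U)| := abs_pos.2 hU0
  have hex : ∀ x : ℝ, ∃ k : ℕ, x ≤ (k + 2) * (9 / 10 * |τ (TT U)|) := by
    intro x
    obtain ⟨k, hk⟩ := exists_nat_ge (x / (9 / 10 * |τ (TT U)|))
    refine ⟨k, ?_⟩
    rw [div_le_iff₀ (by positivity)] at hk
    nlinarith
  have hT0 : τ (TT (0 : Pt a b c)) = 0 := by rw [TT_zero, map_zero]
  obtain ⟨k, hk⟩ := hex |τ (TT (0 : Pt a b c)) - ξ|
  obtain ⟨j, hj1, hj2⟩ := R1 hB hU3 hU0 ξ k 0 (Nb_zero (by positivity)) (by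
    rw [hT0, zero_sub, abs_neg]
    linarith) hk
  have hUz : U = ((m : ℤ) * M) • P := by
    rw [hUdef, mul_smul, natCast_zsmul, natCast_zsmul]
  have hn : (0 : Pt a b c) + j • U = (j * (m * M) : ℤ) • P := by
    rw [zero_add, hUz, smul_smul]
  rw [hn] at hj1 hj2
  refine ⟨j * (m * M), ?_, hj1, ?_⟩
  · exact Dvd.intro_left (j * m) (by ring)
  · refine hj2.trans_lt ?_
    linarith

theorem t : Pool.Agent.H58RC.S_RSL := by
  intro K _ _ τ θ' hwr hD'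
  let _ : DecidableEq K := Classical.decEq K
  let φ : K × (Fin 4 → K) → ℝ × (Fin 4 → ℝ) := fun θ => (τ θ.1, fun j => τ (θ.2 j))
  let l : Filter (K × (Fin 4 → K)) := comap φ (𝓝 θ')
  have hφ : Tendsto φ l (𝓝 θ') := tendsto_comap
  have hT : TnL τ l θ' := by
    refine ⟨(continuous_fst.tendsto _).comp hφ, fun j => ?_⟩
    exact (((continuous_apply j).comp continuous_snd).tendsto θ').comp hφ
  have ev1 : ∀ᶠ θ in l, θ.1 ≠ 0 := hT.ne hwr
  have ev4 : ∀ᶠ θ in l, Bd (av τ) (tA θ) (tB θ) (tC θ) (CL θ') (1 / (100 * CL θ')) := hT.Bd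
  obtain ⟨δ₁, hδ₁, hb⟩ : ∃ δ > 0, ∀ θ : K × (Fin 4 → K), |τ θ.1 - θ'.1| < δ →
      (∀ j, |τ (θ.2 j) - θ'.2 j| < δ) → θ.1 ≠ 0 ∧
        Bd (av τ) (tA θ) (tB θ) (tC θ) (CL θ') (1 / (100 * CL θ')) := by
    have h1 := ev1.and ev4
    rw [eventually_comap] at h1
    obtain ⟨δ, hδ, h2⟩ := Metric.eventually_nhds_iff.1 h1
    refine ⟨δ, hδ, fun θ hw hq => h2 (y := φ θ) ?_ θ rfl⟩
    rw [Prod.dist_eq, max_lt_iff]
    refine ⟨?_, ?_⟩
    · rw [Real.dist_eq]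
      exact hw
    · rw [dist_pi_lt_iff hδ]
      intro j
      rw [Real.dist_eq]
      exact hq j
  obtain ⟨δr, hδr, hcr⟩ := convL τ (w₀ := θ'.1) (q₀ := θ'.2) hwr
    (div_pos (Bd_baseL θ').hρ (by norm_num : (0 : ℝ) < 12)) (Bd_baseL θ').hρ
  have hw' : 0 < |θ'.1| := abs_pos.2 hwr
  set δ := min δ₁ (min δr |θ'.1|) with hδ
  have d1 : δ ≤ δ₁ := min_le_left _ _
  have d4 : δ ≤ δr := (min_le_right _ _).trans (min_le_left _ _)
  have d5 : δ ≤ |θ'.1| := (min_le_right _ _).trans (min_le_right _ _)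
  refine ⟨δ, lt_min hδ₁ (lt_min hδr hw'), ?_⟩
  intro θ h3 h4 hIO M hM t' Y' ht' hY' he' η hη
  obtain ⟨g1, g4⟩ := hb θ (h3.trans_le d1) (fun j => (h4 j).trans_le d1)
  have g2 := hIO.1
  have hnsθ := tns g1 g2
  -- the target is moved away from zero
  obtain ⟨s', Z', m1, m2, m3, m4, m5, m6⟩ : ∃ s Z : ℝ, s ≠ 0 ∧ |s| < δ ∧ |Z - θ'.1| < δ ∧
      |s - t'| < η / 2 ∧ |Z - Y'| < η / 2 ∧ Z ^ 2 = qv (τ θ.1) (fun j => τ (θ.2 j)) s := by
    have hYne : Y' ≠ 0 := by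
      intro h0
      have := hY'
      rw [h0, zero_sub, abs_neg] at this
      exact absurd (this.trans_le d5) (lt_irrefl _)
    obtain ⟨s, Z, k1, k2, k3, k4⟩ := perturb (g := qv (τ θ.1) (fun j => τ (θ.2 j)))
      (by unfold qv; fun_prop) he' hYne
      (η := min (η / 2) (min (δ - |t'|) (δ - |Y' - θ'.1|)))
      (lt_min (half_pos hη) (lt_min (sub_pos.2 ht') (sub_pos.2 hY')))
    rw [Real.norm_eq_abs] at k2 k3
    have k5 := k2.trans_le (min_le_left _ _)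
    have k6 := k3.trans_le (min_le_left _ _)
    have k7 := k2.trans_le ((min_le_right _ _).trans (min_le_left _ _))
    have k8 := k3.trans_le ((min_le_right _ _).trans (min_le_right _ _))
    refine ⟨s, Z, k1, ?_, ?_, k5, k6, k4⟩
    · have : |s| ≤ |s - t'| + |t'| := by
        have := abs_add_le (s - t') t'
        rwa [sub_add_cancel] at this
      linarith
    · have : |Z - θ'.1| ≤ |Z - Y'| + |Y' - θ'.1| := by
        have := abs_add_le (Z - Y') (Y' - θ'.1)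
        rwa [sub_add_sub_cancel] at this
      linarith
  obtain ⟨x', y', b1, b0, b2, b3, b4, b5, b6, b7⟩ := (hcr θ.1 θ.2 (h3.trans_le d4)
    (fun j => (h4 j).trans_le d4) s' Z' m1 (m2.trans_le d4) (m3.trans_le d4) m6).2
  have hρ' := (Bd_baseL θ').hρ
  obtain ⟨ηr, hηr, hccr⟩ := conv_cont τ (w := θ.1) (q₁ := θ.2 0) (q₂ := θ.2 1)
    (q₃ := θ.2 2) (q₄ := θ.2 3) g4 g1 b1 b2 (b3.trans (by linarith)) b4 b5 (half_pos hη)
  have hxy' : 0 < |x' / y'| := abs_pos.2 (div_ne_zero b0 b2)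
  set ηη := min ηr |x' / y'| with hηη
  have hηη0 : 0 < ηη := lt_min hηr hxy'
  -- the multiple
  obtain ⟨n, hMn, hn2, hn3⟩ := fill (P := (.some _ _ hnsθ : Pt (tA θ) (tB θ) (tC θ))) g2 g4
    (fun n hn => hIO.2 hnsθ n hn) hM (x' / y') (by rw [← Real.norm_eq_abs]; exact b3) hηη0
  have hTT : TT (n • (.some _ _ hnsθ : Pt (tA θ) (tB θ) (tC θ))) ≠ 0 := by
    intro h0
    rw [h0, map_zero, zero_sub, abs_neg] at hn3
    exact absurd (hn3.trans_le (min_le_right _ _)) (lt_irrefl _)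
  obtain ⟨Q, hQe⟩ : ∃ Q, n • (.some _ _ hnsθ : Pt (tA θ) (tB θ) (tC θ)) = Q := ⟨_, rfl⟩
  rw [hQe] at hn2 hn3 hTT
  rcases Q with _ | ⟨X, W, hQ⟩
  · exact absurd rfl hTT
  have hXW := (cv_ns.1 hQ).1
  simp only [TT_some] at hn3
  obtain ⟨hW, -, -⟩ := (Nb_some hQ).1 hn2
  obtain ⟨hB1, hB2, hB3⟩ := hccr X W hXW hW
    (((Nb_some hQ).1 hn2).2.1.trans (by linarith)) ((Nb_some hQ).1 hn2).2.2
    (hn3.trans_le (min_le_left _ _))
  refine ⟨n, hMn, tf θ.1 (θ.2 0) (θ.2 1) (θ.2 2) X W, Yf θ.1 (θ.2 0) (θ.2 1) (θ.2 2) X W,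
    ⟨g1, hnsθ, X, W, hQ, hQe, hB1, rfl, rfl⟩, ?_, ?_⟩
  · rw [← b6, Real.norm_eq_abs] at hB2
    have := abs_sub_le (τ (tf θ.1 (θ.2 0) (θ.2 1) (θ.2 2) X W)) s' t'
    linarith
  · rw [← b7, Real.norm_eq_abs] at hB3
    have := abs_sub_le (τ (Yf θ.1 (θ.2 0) (θ.2 1) (θ.2 2) X W)) Z' Y'
    linarith

end Pool.Agent.H58RC.RSL
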