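import Pool.Agent.H58RC.StmB
import Pool.Agent.Y720.WL.LemR

/-!
# The property `slide` for the real closure
-/

set_option autoImplicit false

open Filter Topology WeierstrassCurve Pool.Agent.Y720.MZ Pool.Agent.Q35.ZC MvPolynomial

namespace Pool.Agent.H58RC.SLD

section aux

theorem mulPt_of {K : Type} [Field K] [CharZero K] {θ : K × (Fin 4 → K)} (h : IOt θ) {m : ℤ}
    {u Z : K} (hm : MulN θ m u Z) : MulPt θ u Z := by
  obtain ⟨h1, h2, X, W, h', h3, h4, h5, h6⟩ := hm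
  exact ⟨h1, h2, fun n hn => h.2 h2 n hn, m, X, W, h', h3, h4, h5, h6⟩

theorem single_im {K : Type} [Field K] (τ : K →+* ℝ) (j : Fin 2) :
    (fun a => τ ((Pi.single j 1 : Fin 2 → K) a)) = Pi.single j 1 := by
  funext a
  by_cases h : a = j
  · subst h
    simp
  · rw [Pi.single_eq_of_ne h, Pi.single_eq_of_ne h, map_zero]

theorem cq_near {K : Type} [Field K] [CharZero K] (τ : K →+* ℝ) (g : MvPolynomial (Fin 2) K)
    (j : Fin 2) (x₀ : Fin 2 → ℝ) {δ : ℝ} (hδ : 0 < δ) : ∃ δ' > 0, ∀ z : Fin 2 → K,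
      (∀ a, |τ (z a) - x₀ a| < δ') → ∀ k, |τ (cq g z (Pi.single j 1) k) -
        cq (map τ g) x₀ (Pi.single j 1) k| < δ := by
  obtain ⟨δ', hδ', h⟩ := cq_nearL (V := Unit) (L := fun _ => ℝ) (s := fun _ => τ) g
    (Pi.single j 1) (fun _ => x₀) hδ
  refine ⟨δ', hδ', fun z hz k => ?_⟩
  have h1 := h z (fun _ a => hz a) () k
  rw [single_im] at h1
  exact h1

theorem sq_near {G : (Fin 2 → ℝ) → ℝ} (hG : Continuous G) {z₀ : Fin 2 → ℝ} {w₀ : ℝ} (hw : w₀ ≠ 0)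
    (h : w₀ ^ 2 = G z₀) {ε : ℝ} (hε : 0 < ε) :
    ∃ e > 0, ∀ z, dist z z₀ < e → ∃ Y : ℝ, Y ^ 2 = G z ∧ |Y - w₀| < ε := by
  have hw' : 0 < |w₀| := abs_pos.2 hw
  have hc : Continuous fun z => w₀ / |w₀| * Real.sqrt (G z) :=
    continuous_const.mul (Real.continuous_sqrt.comp hG)
  have h0 : w₀ / |w₀| * Real.sqrt (G z₀) = w₀ := by
    rw [← h, Real.sqrt_sq_eq_abs]
    field_simp
  have hpos : 0 < G z₀ := by
    rw [← h]
    positivity
  have h1 : ∀ᶠ z in 𝓝 z₀, |w₀ / |w₀| * Real.sqrt (G z) - w₀| < ε := by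
    have h2 : Tendsto (fun z => |w₀ / |w₀| * Real.sqrt (G z) - w₀|) (𝓝 z₀)
      (𝓝 |w₀ / |w₀| * Real.sqrt (G z₀) - w₀|) := ((hc.tendsto z₀).sub_const w₀).abs
    rw [h0, sub_self, abs_zero] at h2
    exact h2.eventually_lt_const hε
  have h2 : ∀ᶠ z in 𝓝 z₀, 0 < G z := (hG.tendsto z₀).eventually_const_lt hpos
  obtain ⟨e, he, h3⟩ := Metric.eventually_nhds_iff.1 (h1.and h2)
  refine ⟨e, he, fun z hz => ⟨w₀ / |w₀| * Real.sqrt (G z), ?_, (h3 hz).1⟩⟩
  rw [mul_pow, Real.sq_sqrt (h3 hz).2.le, div_pow, sq_abs, div_self (pow_ne_zero 2 hw), one_mul]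

theorem avoid {F : Set ℝ} (hF : F.Finite) (r₀ : ℝ) {e : ℝ} (he : 0 < e) :
    ∃ r, r ∉ F ∧ |r - r₀| < e := by
  obtain ⟨r, hr, hrF⟩ := (Set.Ioo_infinite (show r₀ - e < r₀ + e by linarith)).exists_notMem_finite hF
  refine ⟨r, hrF, ?_⟩
  rw [abs_lt]
  constructor <;> linarith [hr.1, hr.2]

theorem sep {F : Set ℝ} (hF : F.Finite) {r : ℝ} (hr : r ∉ F) :
    ∃ η > 0, ∀ y, |y - r| < η → y ∉ F := by
  obtain ⟨η, hη, h⟩ := Metric.isOpen_iff.1 hF.isClosed.isOpen_compl r hr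
  refine ⟨η, hη, fun y hy => h ?_⟩
  rw [Metric.mem_ball, Real.dist_eq]
  exact hy

theorem natDeg {K : Type} [Field K] [CharZero K] {g : MvPolynomial (Fin 2) K} {j : Fin 2}
    (h : g.degreeOf j ≤ 4) (z : Fin 2 → K) : (rst g z (Pi.single j 1)).natDegree ≤ 4 :=
  deg_rst h z

theorem dsc_thj {K : Type} [Field K] [CharZero K] {g : MvPolynomial (Fin 2) K}
    {P : (Fin 2 → K) × K} (h : P.2 ^ 2 = eval P.1 g) (j : Fin 2) :
    dsc (tA (thj g P j)) (tB (thj g P j)) (tC (thj g P j)) = Tq g (Pi.single j 1) P.1 := by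
  let _ : DecidableEq K := Classical.decEq K
  exact Tq_eq (f := g) (e := Pi.single j 1) (z := P.1) (w := P.2) h

/-- The equation in the real completion. -/
theorem qv_im {K : Type} [Field K] [CharZero K] (τ : K →+* ℝ) {g : MvPolynomial (Fin 2) K}
    {j : Fin 2} (hd : g.degreeOf j ≤ 4) {P : (Fin 2 → K) × K} (h : P.2 ^ 2 = eval P.1 g) (t : ℝ) :
    qv (τ (thj g P j).1) (fun k => τ ((thj g P j).2 k)) t =
      eval (fun a => τ (P.1 a) + t * (Pi.single j 1 : Fin 2 → ℝ) a) (map τ g) := by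
  have h1 : (rst (map τ g) (fun a => τ (P.1 a)) (Pi.single j 1)).natDegree ≤ 4 := by
    have h2 := (rst_map τ g P.1 (Pi.single j 1))
    rw [single_im] at h2
    rw [← h2]
    exact Polynomial.natDegree_map_le.trans (natDeg hd P.1)
  have h2 : (τ P.2) ^ 2 = eval (fun a => τ (P.1 a)) (map τ g) := by
    rw [← map_pow, h, MvPolynomial.eval_map, ← MvPolynomial.eval₂_id, MvPolynomial.eval₂_comp_left,
      RingHom.comp_id]
    rfl
  have h3 := cq_eval h1 h2 t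
  rw [← h3]
  have h4 : (fun k => τ ((thj g P j).2 k)) = cq (map τ g) (fun a => τ (P.1 a)) (Pi.single j 1) := by
    funext k
    simp only [thj, cq]
    have h5 := (rst_map τ g P.1 (Pi.single j 1))
    rw [single_im] at h5
    rw [← h5, Polynomial.coeff_map]
  rw [h4]
  rfl

/-- The moved point is in the set. -/
theorem mv_mem {K : Type} [Field K] [CharZero K] {g : MvPolynomial (Fin 2) K}
    {R : Set ((Fin 2 → K) × K)} {E : Fin 2 → Set K} {N : Set ((Fin 2 → K) × K)} {M : ℕ}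
    (hE : Env g R E) (hL : Loc g N M) {P : (Fin 2 → K) × K} (hP : P ∈ Off R E ∩ N) {i j : Fin 2}
    (hij : i ≠ j) (hI : IOt (thj g P j)) {m : ℤ} (hm : (M : ℤ) ∣ m) {u Z : K}
    (h : MulN (thj g P j) m u Z) (hZ : Z ≠ 0) (hu : P.1 j + u ∉ E j) :
    mvp P j u Z ∈ Off R E ∩ N := by
  refine ⟨⟨hE.step P hP.1.1 j u Z (mulPt_of hI h), hZ, fun k => ?_⟩,
    hL.stay P hP.2 j m u Z hm h⟩
  change P.1 k + u * (Pi.single j 1 : Fin 2 → K) k ∉ E k
  by_cases hk : k = j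
  · subst hk
    rw [Pi.single_eq_same, mul_one]
    exact hu
  · rw [Pi.single_eq_of_ne hk, mul_zero, add_zero]
    exact hP.1.2.2 k

theorem other {i j : Fin 2} (hij : i ≠ j) (k : Fin 2) : k = i ∨ k = j := by
  fin_cases i <;> fin_cases j <;> fin_cases k <;> simp_all

end aux

theorem t : Pool.Agent.H58RC.S_SLD := by
  intro hR hPe K _ _ τ g R E N M hEnv hLoc x hx hx2 i hi
  obtain ⟨j, hij⟩ : ∃ j : Fin 2, i ≠ j := ⟨i + 1, by fin_cases i <;> simp⟩
  have hTq : Tq (map τ g) (Pi.single j 1) x.1 ≠ 0 := fun h => hi ⟨x.1, j, hij.symm, rfl, h⟩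
  have hdsc : dsc (tA (thj (map τ g) x j)) (tB (thj (map τ g) x j)) (tC (thj (map τ g) x j)) ≠ 0 := by
    rw [dsc_thj (show x.2 ^ 2 = eval x.1 (map τ g) from hx)]
    exact hTq
  obtain ⟨δ₁, hδ₁, hS⟩ := hR K τ (thj (map τ g) x j) hx2 hdsc
  obtain ⟨δ₂, hδ₂, hcq⟩ := cq_near τ g j x.1 hδ₁
  have hx2' : 0 < |x.2| := abs_pos.2 hx2
  obtain ⟨δ, hδ, e1, e2, e3⟩ : ∃ δ > 0, 8 * δ ≤ δ₁ ∧ 8 * δ ≤ δ₂ ∧ 8 * δ ≤ |x.2| := by
    refine ⟨min δ₁ (min δ₂ |x.2|) / 8, by positivity, ?_, ?_, ?_⟩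
    · have := min_le_left δ₁ (min δ₂ |x.2|)
      linarith
    · have := (min_le_right δ₁ (min δ₂ |x.2|)).trans (min_le_left _ _)
      linarith
    · have := (min_le_right δ₁ (min δ₂ |x.2|)).trans (min_le_right _ _)
      linarith
  refine ⟨δ, hδ, fun x' hx' hd' x'' hx'' hd'' hi' => ?_⟩
  rw [Ac, Metric.mem_closure_iff]
  intro ε₀ hε₀
  obtain ⟨ε, hε, hεε, hεδ⟩ : ∃ ε > 0, ε ≤ ε₀ ∧ ε ≤ δ :=
    ⟨min ε₀ δ, lt_min hε₀ hδ, min_le_left _ _, min_le_right _ _⟩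
  -- coordinates
  rw [Prod.dist_eq, max_lt_iff] at hd' hd''
  have c1 : ∀ a, |x'.1 a - x.1 a| < δ := fun a => by
    have := (dist_pi_lt_iff hδ).1 hd'.1 a
    rwa [Real.dist_eq] at this
  have c2 : ∀ a, |x''.1 a - x.1 a| < δ := fun a => by
    have := (dist_pi_lt_iff hδ).1 hd''.1 a
    rwa [Real.dist_eq] at this
  have c3 : |x'.2 - x.2| < δ := by
    have := hd'.2
    rwa [Real.dist_eq] at this
  have c4 : |x''.2 - x.2| < δ := by
    have := hd''.2
    rwa [Real.dist_eq] at this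
  have hx''2 : x''.2 ≠ 0 := by
    intro h
    rw [h, zero_sub, abs_neg] at c4
    linarith
  have hGc : Continuous fun z : Fin 2 → ℝ => eval z (map τ g) := MvPolynomial.continuous_eval _
  obtain ⟨e, he, hsq⟩ := sq_near hGc (z₀ := x''.1) hx''2 hx'' (ε := ε / 4) (by positivity)
  obtain ⟨e₁, he₁, k1, k2⟩ : ∃ e₁ > 0, 2 * e₁ ≤ e ∧ 2 * e₁ ≤ ε / 4 := by
    refine ⟨min e (ε / 4) / 2, by positivity, ?_, ?_⟩
    · have := min_le_left e (ε / 4)
      linarith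
    · have := min_le_right e (ε / 4)
      linarith
  -- the rational point
  rw [Ac, Metric.mem_closure_iff] at hx'
  obtain ⟨_, ⟨P₀, hP₀, rfl⟩, hPd₀⟩ := hx' e₁ he₁
  obtain ⟨P, hP, hPd, hIO⟩ := hPe hR K τ g R E N M hEnv hLoc P₀ hP₀ j e₁ he₁
  have hPx : dist (im τ P) x' < 2 * e₁ := by
    have h1 := dist_triangle (im τ P) (im τ P₀) x'
    rw [dist_comm x' (im τ P₀)] at hPd₀
    linarith
  rw [Prod.dist_eq, max_lt_iff] at hPx
  have p1 : ∀ a, |τ (P.1 a) - x'.1 a| < 2 * e₁ := fun a => by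
    have := (dist_pi_lt_iff (by positivity)).1 hPx.1 a
    rw [Real.dist_eq] at this
    exact this
  have p2 : |τ P.2 - x'.2| < 2 * e₁ := by
    have := hPx.2
    rw [Real.dist_eq] at this
    exact this
  -- the target
  obtain ⟨r, hrE, hr⟩ := avoid ((hEnv.finE j).image τ) (x''.1 j) (e := min e (ε / 4)) (by positivity)
  have hr1 : |r - x''.1 j| < e := hr.trans_le (min_le_left _ _)
  have hr2 : |r - x''.1 j| < ε / 4 := hr.trans_le (min_le_right _ _)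
  set t := r - τ (P.1 j) with ht
  set zt : Fin 2 → ℝ := fun a => τ (P.1 a) + t * (Pi.single j 1 : Fin 2 → ℝ) a with hzt
  have zi : zt i = τ (P.1 i) := by
    simp only [hzt]
    rw [Pi.single_eq_of_ne hij, mul_zero, add_zero]
  have zj : zt j = r := by
    simp only [hzt]
    rw [Pi.single_eq_same, mul_one, ht]
    ring
  have hzd : dist zt x''.1 < e := by
    rw [dist_pi_lt_iff he]
    intro k
    rw [Real.dist_eq]
    rcases other hij k with rfl | rfl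
    · rw [zi, hi']
      exact (p1 _).trans_le k1
    · rw [zj]
      exact hr1
  obtain ⟨Y, hY1, hY2⟩ := hsq zt hzd
  have ht1 : |t| < δ₁ := by
    have h1 : t = (r - x''.1 j) + (x''.1 j - x.1 j) + (x.1 j - x'.1 j) + (x'.1 j - τ (P.1 j)) := by
      rw [ht]
      ring
    have h2 : |t| ≤ |r - x''.1 j| + |x''.1 j - x.1 j| + |x.1 j - x'.1 j| + |x'.1 j - τ (P.1 j)| := by
      rw [h1]
      exact (abs_add_le _ _).trans (add_le_add_left ((abs_add_le _ _).trans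
        (add_le_add_left (abs_add_le _ _) _)) _)
    have h3 := c1 j
    have h4 := c2 j
    have h5 := p1 j
    rw [abs_sub_comm] at h3 h5
    linarith
  have hY3 : |Y - x.2| < δ₁ := by
    have h1 := abs_sub_le Y x''.2 x.2
    linarith
  have hP2 : |τ P.2 - x.2| < δ₁ := by
    have h1 := abs_sub_le (τ P.2) x'.2 x.2
    linarith
  have hPc : ∀ a, |τ (P.1 a) - x.1 a| < δ₂ := by
    intro a
    have h1 := abs_sub_le (τ (P.1 a)) (x'.1 a) (x.1 a)
    have h2 := p1 a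
    have h3 := c1 a
    linarith
  obtain ⟨η₁, hη₁, hsep⟩ := sep ((hEnv.finE j).image τ) hrE
  obtain ⟨η, hη, n1, n2, n3⟩ : ∃ η > 0, η ≤ η₁ ∧ η ≤ ε / 4 ∧ η ≤ δ := by
    refine ⟨min η₁ (min (ε / 4) δ), by positivity, min_le_left _ _, ?_, ?_⟩
    · exact (min_le_right _ _).trans (min_le_left _ _)
    · exact (min_le_right _ _).trans (min_le_right _ _)
  obtain ⟨m, hm, u, Z, hMul, hu, hZ⟩ := hS (thj g P j) hP2 (hcq P.1 hPc) hIO M hLoc.ne t Y ht1 hY3
    (by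
      rw [qv_im τ (hEnv.deg j) (hEnv.on P hP.1.1)]
      exact hY1) η hη
  have hZ1 : |τ Z - x''.2| < ε / 2 := by
    have h1 := abs_sub_le (τ Z) Y x''.2
    linarith
  have hZ0 : Z ≠ 0 := by
    rintro rfl
    rw [map_zero, zero_sub, abs_neg] at hZ1
    have h1 : |x.2| ≤ |x''.2| + |x''.2 - x.2| := by
      have := abs_sub_abs_le_abs_sub x.2 x''.2
      rw [abs_sub_comm x.2 x''.2] at this
      linarith
    linarith
  have hu1 : |τ (P.1 j + u) - r| < η := by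
    have h1 : τ (P.1 j + u) - r = τ u - t := by
      rw [map_add, ht]
      ring
    rw [h1]
    exact hu
  have hmem := mv_mem hEnv hLoc hP hij hIO hm hMul hZ0 (fun h =>
    hsep _ (hu1.trans_le n1) ⟨_, h, rfl⟩)
  refine ⟨_, ⟨_, hmem, rfl⟩, lt_of_lt_of_le ?_ hεε⟩
  rw [Prod.dist_eq, max_lt_iff]
  refine ⟨?_, ?_⟩
  · rw [dist_pi_lt_iff hε]
    intro k
    rw [Real.dist_eq, abs_sub_comm]
    change |τ (P.1 k + u * (Pi.single j 1 : Fin 2 → K) k) - x''.1 k| < ε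
    rcases other hij k with rfl | rfl
    · rw [Pi.single_eq_of_ne hij, mul_zero, add_zero, hi']
      have := p1 k
      linarith
    · rw [Pi.single_eq_same, mul_one]
      have := abs_sub_le (τ (P.1 k + u)) r (x''.1 k)
      linarith
  · rw [Real.dist_eq, abs_sub_comm]
    change |τ Z - x''.2| < ε
    linarith

end Pool.Agent.H58RC.SLD
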