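import Mathlib

/-!
# Real components of `w² = g(z₀, z₁)`: the real geometry, statements (project RC, helper58)

All stubs of this file need only Mathlib. `A` is a closed subset of the real surface `X : w² = g(z)` (in the application
the closure of a set of rational points); one can move inside `A` along the curves `z_i = const`, locally at the points
with `w ≠ 0`, `z_i ∉ B i` (`slide`), and across the branch curve `w = 0` (`cross`). The aim is `S_GEO`: `A` is a union of
connected components of `X`.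
-/

set_option autoImplicit false

open MvPolynomial

namespace Pool.Agent.H58RC

/-- the real surface `w² = g(z)` -/
def XR (g : MvPolynomial (Fin 2) ℝ) : Set ((Fin 2 → ℝ) × ℝ) := {x | x.2 ^ 2 = eval x.1 g}

/-- the point whose `i`-th coordinate is `s`, the other one `t` -/
def pnt (i : Fin 2) (s t w : ℝ) : (Fin 2 → ℝ) × ℝ := (fun k => if k = i then s else t, w)

/-- the hypotheses on the closed set `A` -/
structure Geo (g : MvPolynomial (Fin 2) ℝ) (B : Fin 2 → Set ℝ) (A : Set ((Fin 2 → ℝ) × ℝ)) : Prop where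
  finB : ∀ j, (B j).Finite
  smooth : ∀ x ∈ XR g, x.2 = 0 → ∃ j, eval x.1 (pderiv j g) ≠ 0
  vert : ∀ x ∈ XR g, x.2 = 0 → ∀ i j, i ≠ j → x.1 i ∉ B i → eval x.1 (pderiv j g) ≠ 0
  closed : IsClosed A
  sub : A ⊆ XR g
  gen : A ⊆ closure {x | x ∈ A ∧ x.2 ≠ 0 ∧ ∀ j, x.1 j ∉ B j}
  slide : ∀ x ∈ XR g, x.2 ≠ 0 → ∀ i, x.1 i ∉ B i → ∃ δ > 0, ∀ x' ∈ A, dist x' x < δ →
    ∀ x'' ∈ XR g, dist x'' x < δ → x''.1 i = x'.1 i → x'' ∈ A
  cross : ∀ x ∈ XR g, x.2 = 0 → ∀ i, x.1 i ∉ B i → ∀ δ > 0, ∃ δ' > 0, ∀ x' ∈ A, dist x' x < δ' →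
    x'.2 ≠ 0 → ∀ ε > 0, ∃ x'' ∈ A, dist x'' x < δ ∧ x''.2 * x'.2 < 0 ∧ |x''.1 i - x'.1 i| < ε

/-- `x` is an interior point of `A` in the surface -/
def Ins (g : MvPolynomial (Fin 2) ℝ) (A : Set ((Fin 2 → ℝ) × ℝ)) (x : (Fin 2 → ℝ) × ℝ) : Prop :=
  ∃ r > 0, ∀ x' ∈ XR g, dist x' x < r → x' ∈ A

/-- CHART: the surface near a point `x` of the branch curve (`w = 0`) with `∂g/∂z_j ≠ 0` is a graph
`z_j = h(w, z_i)`.
Proof: the implicit function theorem for `w² - g`, or by hand: on a small box `∂g/∂z_j` has constant sign, so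
`z_j ↦ g(z) - w²` is strictly monotone there, for each `(w, z_i)` in a smaller square it changes sign (compactness), so it has
exactly one zero `h (w, z_i)`; `h` is continuous since a strictly monotone family of continuous functions has zeros
depending continuously on the parameters (for small `ε` the signs at `h(p) ± ε` persist for `p'` near `p`). -/
def S_CHART : Prop := ∀ (g : MvPolynomial (Fin 2) ℝ) (x : (Fin 2 → ℝ) × ℝ), x ∈ XR g → x.2 = 0 →
  ∀ i j : Fin 2, i ≠ j → eval x.1 (pderiv j g) ≠ 0 → ∀ ρ : ℝ, 0 < ρ → ∃ (a : ℝ) (h : ℝ → ℝ → ℝ), 0 < a ∧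
    ContinuousOn (fun p : ℝ × ℝ => h p.1 p.2) {p | |p.1| < a ∧ |p.2 - x.1 i| < a} ∧ h 0 (x.1 i) = x.1 j ∧
    (∀ w s, |w| < a → |s - x.1 i| < a → pnt i s (h w s) w ∈ XR g ∧ dist (pnt i s (h w s) w) x < ρ) ∧
    ∃ r > 0, ∀ x' ∈ XR g, dist x' x < r → |x'.2| < a ∧ |x'.1 i - x.1 i| < a ∧ x'.1 j = h x'.2 (x'.1 i)

/-- PUNCT: connected and punctured connected neighbourhoods on the surface at a smooth point.
Proof: if `x.2 ≠ 0` then near `x` the surface is the graph `w = ± √(g(z))` over a small ball of `ℝ²`; if `x.2 = 0` use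
`S_CHART` (you may assume it). So there are an open ball (or open square) `Q` of a plane with centre `c` and a continuous
injective `Φ : Q → XR g` with `Φ c = x` whose image `V` contains all points of the surface near `x`. `Q` and `Q \ {c}` are
preconnected (complement of a point in an open ball of a real vector space of dimension 2; for instance it is
homeomorphic to `ℝ² \ {0}`, or the union of four overlapping convex half-squares), hence also the images `V`, `V \ {x}`. -/
def S_PUNCT : Prop := S_CHART → ∀ (g : MvPolynomial (Fin 2) ℝ) (x : (Fin 2 → ℝ) × ℝ), x ∈ XR g →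
  (x.2 = 0 → ∃ j, eval x.1 (pderiv j g) ≠ 0) → ∀ ρ : ℝ, 0 < ρ → ∃ V ⊆ XR g, (∀ x' ∈ V, dist x' x < ρ) ∧ x ∈ V ∧
    (∃ r > 0, ∀ x' ∈ XR g, dist x' x < r → x' ∈ V) ∧ IsPreconnected V ∧ IsPreconnected (V \ {x})

/-- G1: the points of `A` with `w ≠ 0`, `z_0 ∉ B 0`, `z_1 ∉ B 1` are interior.
Proof: let `δ` work for `slide` at `x` for `i = 0` and for `i = 1`. Let `x''` be a point of the surface near `x`,
`z = (x.1 0, x''.1 1)`. As `g(z)` is near `g(x.1) = x.2² > 0` there is `w` near `x.2` with `w² = g(z)`, so that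
`x' = (z, w)` is on the surface, near `x`. Then `x' ∈ A` by `slide` for `i = 0` (from `x ∈ A`, same coordinate `0`), and
`x'' ∈ A` by `slide` for `i = 1` (from `x' ∈ A`). -/
def S_G1 : Prop := ∀ (g : MvPolynomial (Fin 2) ℝ) (B : Fin 2 → Set ℝ) (A : Set ((Fin 2 → ℝ) × ℝ)), Geo g B A →
  ∀ x ∈ A, x.2 ≠ 0 → (∀ j, x.1 j ∉ B j) → Ins g A x

/-- G2: the points of `A` with `w ≠ 0` and one coordinate `z_i ∉ B i` are interior.
Proof (`j` the other coordinate): let `δ` be as in `slide` at `x` for `i`. By `gen` there are `x_m ∈ A` with `x_m → x`,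
`(x_m).2 ≠ 0` and coordinates not in `B`. Choose a number `t` near `x.1 j`, `t ∉ B j` (`B j` is finite), and `w* ` near `x.2`
with `w*² = g` at the point with `i`-coordinate `x.1 i`, `j`-coordinate `t`; `x*` this point of the surface. For large `m` the points `x_m*` of the surface with `i`-coordinate
`(x_m).1 i`, `j`-coordinate `t` and `w` near `w*` are in `A` by `slide`, and `x_m* → x*`; so `x* ∈ A` (closed) and `x*` is interior by
G1. Now let `x''` be a point of the surface near `x`; the point `x^` with the `i`-coordinate of `x''`, `j`-coordinate `t`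
and `w` near `w*` is near `x*`, hence in `A`, and `x'' ∈ A` by `slide` from `x^`. -/
def S_G2 : Prop := S_G1 → ∀ (g : MvPolynomial (Fin 2) ℝ) (B : Fin 2 → Set ℝ) (A : Set ((Fin 2 → ℝ) × ℝ)), Geo g B A →
  ∀ x ∈ A, x.2 ≠ 0 → ∀ i, x.1 i ∉ B i → Ins g A x

/-- G3: the points of `A` with `w = 0` and one coordinate `z_i ∉ B i` are interior.
Proof (`j` the other coordinate; `∂g/∂z_j ≠ 0` at `x` by `vert`): take `a`, `h` from `S_CHART` (any `ρ`, say `ρ = 1`), make `a` so small that
`s ∉ B i` for `|s - x.1 i| < a`. Put `Φ(w, s) = pnt i s (h w s) w`.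
(a) If `Φ(w₁, s) ∈ A`, `0 < |w₁| < a`, `|s - x.1 i| < a`, then `Φ(w₂, s) ∈ A` for all `w₂` with the same sign, `|w₂| < a`: the set of such `w₂`
is closed in the interval `(0, a)` (resp. `(-a, 0)`) since `A` is closed and `h` continuous, and open by `slide` (at the
point `Φ(w₂, s) ∈ A` itself); the interval is connected. By closedness also `Φ(0, s) ∈ A`.
(b) By `gen` there are `x_m → x` in `A` with `(x_m).2 ≠ 0`; for large `m` we have `x_m = Φ((x_m).2, s_m)`, `s_m → x.1 i`. Infinitely many
have the same sign `κ = ±1` of `(x_m).2`. Choose `0 < w₀ < a` with `h (κ w₀) (x.1 i) ∉ B j` (possible: `g(Φ(κ w₀, x.1 i)) = w₀²`, so the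
numbers `h (κ w₀) (x.1 i)` are different for different `w₀ > 0`, and `B j` is finite). By (a) `Φ(κ w₀, s_m) ∈ A`, so `Φ(κ w₀, x.1 i) ∈ A`, and it
is interior by G1. By (a) there is `b > 0` with `Φ(κ w, s) ∈ A` for all `0 ≤ w < a`, `|s - x.1 i| < b`.
(c) `cross` at `x` with `δ` so small that all points of the surface at distance `< δ` are in the chart gives `δ'`; for `s` near `x.1 i` (`|s - x.1 i| < b'`) and small `w > 0` the point
`x' = Φ(κ w, s) ∈ A` is at distance `< δ'` from `x`; so for all `ε > 0` there is `x'' = Φ(w'', s'') ∈ A` with `w''` of sign `-κ`,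
`|s'' - s| < ε`. By (a) `Φ(-κ w₁, s'') ∈ A` for all `0 < w₁ < a`; as `ε → 0` we get `Φ(-κ w₁, s) ∈ A`.
Together `Φ(w, s) ∈ A` for all `|w| < a`, `|s - x.1 i| < b''`, and these are all the points of the surface near `x`. -/
def S_G3 : Prop := S_CHART → S_G1 → ∀ (g : MvPolynomial (Fin 2) ℝ) (B : Fin 2 → Set ℝ) (A : Set ((Fin 2 → ℝ) × ℝ)),
  Geo g B A → ∀ x ∈ A, x.2 = 0 → ∀ i, x.1 i ∉ B i → Ins g A x

/-- G4: `A` is a union of components.
Proof: all points `x` of `A` are interior: if some `x.1 i ∉ B i` by G2, G3. Otherwise `x` is in the finite-type set of the points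
with both coordinates in the finite sets `B 0`, `B 1` (and `w² = g(z)`, so it is finite). Take `V` from `S_PUNCT` with
`ρ` so small that no other such point is in `V`. `A ∩ (V \ {x})` is closed in `V \ {x}`, and open in it as all its points
are interior (G2, G3), and it is not empty: by `gen` there are points of `A` near `x`, different from `x` since their
coordinates are not in `B`, and the points of the surface near `x` are in `V`. So `V \ {x} ⊆ A`, and `V ⊆ A`. So `x` is
interior. Hence `A` is closed and open in the surface and contains the connected component of each of its points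
(`IsPreconnected.subset_isClopen` or `IsPreconnected` with the sets `A`, complement). -/
def S_G4 : Prop := S_CHART → S_PUNCT → S_G1 → S_G2 → S_G3 →
  ∀ (g : MvPolynomial (Fin 2) ℝ) (B : Fin 2 → Set ℝ) (A : Set ((Fin 2 → ℝ) × ℝ)), Geo g B A →
    ∀ x ∈ A, connectedComponentIn (XR g) x ⊆ A

/-- SMOOTH descends: no singular points over any extension field.
`g₀` a polynomial over `K` such that over the algebraic closure `g₀, ∂₀ g₀, ∂₁ g₀` have no common zero. Proof: by the
Nullstellensatz over `Ω = AlgebraicClosure K` the three polynomials generate the unit ideal of `Ω[z₀, z₁]`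
(`MvPolynomial.vanishingIdeal_zeroLocus_eq_radical` or a maximal ideal argument); given `φ : K →+* ℝ` extend
`K → ℝ → ℂ` to `ψ : Ω →+* ℂ` (`IsAlgClosed.lift`), apply `ψ` to `1 = ∑ a_i g_i` and evaluate at the real point. -/
def S_SMR : Prop := ∀ (K : Type) [Field K] [CharZero K] (g : MvPolynomial (Fin 2) K),
  (∀ y : Fin 2 → AlgebraicClosure K, aeval y g = 0 → ∃ j, aeval y (pderiv j g) ≠ 0) →
  ∀ (φ : K →+* ℝ) (x : Fin 2 → ℝ), eval x (map φ g) = 0 → ∃ j, eval x (pderiv j (map φ g)) ≠ 0

end Pool.Agent.H58RC
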