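import Mathlib
import Pool.Agent.H58RC.StmR

/-! # Project RC, stub SMR (helper92): no singular real points -/

set_option autoImplicit false

open MvPolynomial

namespace Pool.Agent.H58RC.SMR

theorem t : S_SMR := by
  intro K _ _ g hg φ x hx
  by_contra hcon
  push Not at hcon
  have hz : zeroLocus (AlgebraicClosure K)
      (Ideal.span ({g, pderiv 0 g, pderiv 1 g} : Set (MvPolynomial (Fin 2) K))) = ∅ := by
    rw [Set.eq_empty_iff_forall_notMem]
    intro y hy
    rw [mem_zeroLocus_iff] at hy
    have h0 := hy g (Ideal.subset_span (by simp))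
    obtain ⟨j, hj⟩ := hg y h0
    fin_cases j
    · exact hj (hy _ (Ideal.subset_span (by simp)))
    · exact hj (hy _ (Ideal.subset_span (by simp)))
  have hrad := vanishingIdeal_zeroLocus_eq_radical (K := AlgebraicClosure K)
    (Ideal.span ({g, pderiv 0 g, pderiv 1 g} : Set (MvPolynomial (Fin 2) K)))
  rw [hz, vanishingIdeal_empty] at hrad
  have hI : (1 : MvPolynomial (Fin 2) K) ∈
      Ideal.span ({g, pderiv 0 g, pderiv 1 g} : Set (MvPolynomial (Fin 2) K)) := by
    rw [← Ideal.eq_top_iff_one]
    exact Ideal.radical_eq_top.mp hrad.symm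
  have hle : Ideal.span ({g, pderiv 0 g, pderiv 1 g} : Set (MvPolynomial (Fin 2) K)) ≤
      RingHom.ker (eval₂Hom φ x) := by
    rw [Ideal.span_le]
    intro p hp
    simp only [Set.mem_insert_iff, Set.mem_singleton_iff] at hp
    rw [SetLike.mem_coe, RingHom.mem_ker, coe_eval₂Hom, ← eval_map]
    rcases hp with rfl | rfl | rfl
    · exact hx
    · rw [← pderiv_map]; exact hcon 0
    · rw [← pderiv_map]; exact hcon 1
  have h1 := hle hI
  rw [RingHom.mem_ker, map_one] at h1
  exact one_ne_zero h1

end Pool.Agent.H58RC.SMR
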