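import Pool.Agent.H58RC.StmA

/-!
# Project RC, job STAY (helper58)
-/

set_option autoImplicit false
set_option linter.unusedVariables false
set_option linter.unusedSectionVars false

open WeierstrassCurve Filter Topology Pool.Agent.Y720.MZ

namespace Pool.Agent.H58RC.STAY

section um

variable {K : Type*} [Field K] [CharZero K] [DecidableEq K] {L : Type*} [NontriviallyNormedField L]
  [IsUltrametricDist L] {σ : K →+* L} {a b c : K} {C ρ : ℝ}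

lemma av_na (σ : K →+* L) : IsNonarchimedean (av σ) := by
  intro x y
  simp only [av_apply, map_add]
  exact IsUltrametricDist.norm_add_le_max _ _

lemma V1 (hB : Bd (av σ) a b c C ρ) {P Q : Pt a b c} {r : ℝ} (hr : r ≤ ρ)
    (hP : Nb (av σ) ρ r P) (hQ : Nb (av σ) ρ r Q) : Nb (av σ) ρ r (P + Q) := by
  obtain ⟨h1, h2⟩ := add_near hB hr hP hQ
  refine h1.mono ?_
  have hv := av_na σ
  have e1 : TT (P + Q) = (TT (P + Q) - TT P - TT Q) + (TT P + TT Q) := by ring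
  rw [e1]
  refine na_add hv ?_ (na_add hv hP.le hQ.le)
  refine h2.trans ?_
  have h3 := hP.le
  have h4 := hQ.le
  have h5 := hB.ρ_le
  have h6 := (av σ).nonneg (TT P)
  have h7 := (av σ).nonneg (TT Q)
  have : (av σ) (TT P) * (av σ) (TT Q) ≤ r * 1 := by
    have h8 : (av σ) (TT Q) ≤ 1 := by linarith
    exact mul_le_mul h3 h8 h7 (h6.trans h3)
  nlinarith

lemma V2 (hB : Bd (av σ) a b c C ρ) {P : Pt a b c} {r : ℝ} (hr : r ≤ ρ)
    (hP : Nb (av σ) ρ r P) (n : ℕ) : Nb (av σ) ρ r (n • P) := by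
  have hr0 : 0 ≤ r := ((av σ).nonneg _).trans hP.le
  induction n with
  | zero => rw [zero_smul]; exact Nb_zero hr0
  | succ n ih => rw [succ_nsmul]; exact V1 hB hr ih hP

lemma V2z (hB : Bd (av σ) a b c C ρ) {P : Pt a b c} {r : ℝ} (hr : r ≤ ρ)
    (hP : Nb (av σ) ρ r P) (n : ℤ) : Nb (av σ) ρ r (n • P) := by
  obtain ⟨m, rfl | rfl⟩ := n.eq_nat_or_neg
  · rw [natCast_zsmul]; exact V2 hB hr hP m
  · rw [neg_smul, natCast_zsmul]; exact (V2 hB hr hP m).neg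

lemma V3 (hB : Bd (av σ) a b c C ρ) {P : Pt a b c} {r : ℝ} (hr : r ≤ ρ)
    (hP : Nb (av σ) ρ r P) (n : ℕ) : av σ (TT (n • P) - n * TT P) ≤ 1 / 2 * (r * r) := by
  have hv := av_na σ
  have hr0 : 0 ≤ r := ((av σ).nonneg _).trans hP.le
  induction n with
  | zero =>
    rw [zero_smul, TT_zero, Nat.cast_zero, zero_mul, sub_self, map_zero]
    positivity
  | succ n ih =>
    have h1 := (add_near hB hr (V2 hB hr hP n) hP).2
    rw [succ_nsmul]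
    have e : TT (n • P + P) - ((n + 1 : ℕ) : K) * TT P =
        (TT (n • P + P) - TT (n • P) - TT P) + (TT (n • P) - n * TT P) := by
      push_cast; ring
    rw [e]
    refine na_add hv (h1.trans ?_) ih
    have h2 := (V2 hB hr hP n).le
    have h3 := hP.le
    have h4 := (av σ).nonneg (TT P)
    gcongr

/-- one step -/
lemma V4 (hB : Bd (av σ) a b c C ρ) {P : Pt a b c} {r : ℝ} (hr : r ≤ ρ)
    (hP : Nb (av σ) ρ r P) (p : ℕ) : Nb (av σ) ρ (max ‖(p : L)‖ (1 / 200) * r) (p • P) := by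
  have hr0 : 0 ≤ r := ((av σ).nonneg _).trans hP.le
  refine (V2 hB hr hP p).mono ?_
  have e : TT (p • P) = (TT (p • P) - p * TT P) + p * TT P := by ring
  rw [e]
  have h1 := V3 hB hr hP p
  have h5 := hB.ρ_le
  refine na_add (av_na σ) (h1.trans ?_) ?_
  · have : (1 / 200 : ℝ) * r ≤ max ‖(p : L)‖ (1 / 200) * r :=
      mul_le_mul_of_nonneg_right (le_max_right _ _) hr0
    nlinarith
  · rw [map_mul]
    have h2 : av σ (p : K) = ‖(p : L)‖ := by rw [av_apply, map_natCast]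
    rw [h2]
    exact mul_le_mul (le_max_left _ _) hP.le ((av σ).nonneg _) (le_max_of_le_right (by norm_num))

/-- many steps -/
lemma V5 (hB : Bd (av σ) a b c C ρ) {P : Pt a b c} {r : ℝ} (hr : r ≤ ρ)
    (hP : Nb (av σ) ρ r P) {p : ℕ} (hp : ‖(p : L)‖ < 1) (k : ℕ) :
    Nb (av σ) ρ (max ‖(p : L)‖ (1 / 200) ^ k * r) (p ^ k • P) := by
  have hr0 : 0 ≤ r := ((av σ).nonneg _).trans hP.le
  have hc0 : 0 ≤ max ‖(p : L)‖ (1 / 200) := le_max_of_le_right (by norm_num)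
  have hc1 : max ‖(p : L)‖ (1 / 200) ≤ 1 := max_le hp.le (by norm_num)
  induction k with
  | zero => simpa using hP
  | succ k ih =>
    have h1 : max ‖(p : L)‖ (1 / 200) ^ k * r ≤ ρ :=
      (mul_le_of_le_one_left hr0 (pow_le_one₀ hc0 hc1)).trans hr
    have h2 := V4 hB h1 ih p
    rw [← mul_smul, ← pow_succ'] at h2
    rw [pow_succ', mul_assoc]
    exact h2

end um

section prop

variable {L : Type*} [NontriviallyNormedField L] [IsUltrametricDist L] [ProperSpace L] [CharZero L]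

/-- a natural number with a small absolute value -/
lemma small_nat : ∃ p : ℕ, p ≠ 0 ∧ ‖(p : L)‖ < 1 := by
  by_contra hno
  push Not at hno
  have h1 : ∀ n : ℕ, n ≠ 0 → ‖(n : L)‖ = 1 := fun n hn =>
    le_antisymm (IsUltrametricDist.norm_natCast_le_one L n) (hno n hn)
  have hc : IsCompact (Metric.closedBall (0 : L) 1) := isCompact_closedBall _ _
  obtain ⟨a, -, φ, hφ, ha⟩ := hc.tendsto_subseq (x := fun n : ℕ => (n : L)) fun n => by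
    rw [mem_closedBall_zero_iff]
    exact IsUltrametricDist.norm_natCast_le_one L n
  have h2 := ha.cauchySeq
  rw [Metric.cauchySeq_iff] at h2
  obtain ⟨N, hN⟩ := h2 1 one_pos
  have h3 := hN (N + 1) (by omega) N le_rfl
  have h4 : φ N < φ (N + 1) := hφ (Nat.lt_succ_self N)
  rw [dist_eq_norm] at h3
  have h5 : ((φ (N + 1) : ℕ) : L) - ((φ N : ℕ) : L) = ((φ (N + 1) - φ N : ℕ) : L) := by
    rw [Nat.cast_sub h4.le]
  simp only [Function.comp_apply] at h3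
  rw [h5, h1 _ (by omega)] at h3
  exact lt_irrefl _ h3

/-- the estimates -/
def PP (η : ℝ) (x : L × L × L) (y : L × (Fin 4 → L)) : Prop :=
  ‖x.1 * ((4 * y.1 ^ 2 * (1 + y.2 1 * x.2.2) - y.2 0 ^ 2 * x.2.2) /
        (2 * y.1 - y.2 0 * x.1 - 2 * y.1 ^ 2 * y.2 2 * x.2.1))‖ < η ∧
      ‖-y.1 + (((4 * y.1 ^ 2 * (1 + y.2 1 * x.2.2) - y.2 0 ^ 2 * x.2.2) /
          (2 * y.1 - y.2 0 * x.1 - 2 * y.1 ^ 2 * y.2 2 * x.2.1)) ^ 2 *
          (1 - (y.2 1 * x.1 ^ 2 + (y.2 0 * y.2 2 - 4 * y.1 ^ 2 * y.2 3) * x.1 * x.2.1 +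
            (y.2 0 ^ 2 * y.2 3 + y.1 ^ 2 * y.2 2 ^ 2 - 4 * y.1 ^ 2 * y.2 1 * y.2 3) *
              x.2.1 ^ 2)) -
          y.2 0 * (x.1 * ((4 * y.1 ^ 2 * (1 + y.2 1 * x.2.2) - y.2 0 ^ 2 * x.2.2) /
            (2 * y.1 - y.2 0 * x.1 - 2 * y.1 ^ 2 * y.2 2 * x.2.1)))) / (2 * y.1) - y.1‖ < η

/-- uniform estimates -/
lemma unif {w₀ : L} {q₀ : Fin 4 → L} (hw : w₀ ≠ 0) {η : ℝ} (hη : 0 < η) :
    ∃ r : ℝ, 0 < r ∧ ∀ (w : L) (q : Fin 4 → L), ‖w - w₀‖ < ‖w₀‖ / 2 → (∀ j, ‖q j - q₀ j‖ < ‖w₀‖ / 2) →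
      ∀ z s κ : L, ‖z‖ < r → ‖s‖ < r → ‖κ‖ < r →
        ‖z * ((4 * w ^ 2 * (1 + q 1 * κ) - q 0 ^ 2 * κ) / (2 * w - q 0 * z - 2 * w ^ 2 * q 2 * s))‖ < η ∧
        ‖-w + (((4 * w ^ 2 * (1 + q 1 * κ) - q 0 ^ 2 * κ) / (2 * w - q 0 * z - 2 * w ^ 2 * q 2 * s)) ^ 2 *
            (1 - (q 1 * z ^ 2 + (q 0 * q 2 - 4 * w ^ 2 * q 3) * z * s +
              (q 0 ^ 2 * q 3 + w ^ 2 * q 2 ^ 2 - 4 * w ^ 2 * q 1 * q 3) * s ^ 2)) -
            q 0 * (z * ((4 * w ^ 2 * (1 + q 1 * κ) - q 0 ^ 2 * κ) /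
              (2 * w - q 0 * z - 2 * w ^ 2 * q 2 * s)))) / (2 * w) - w‖ < η := by
  have hw0 : 0 < ‖w₀‖ := norm_pos_iff.2 hw
  obtain ⟨S, hS⟩ : ∃ S : Set (L × (Fin 4 → L)), S = Metric.closedBall (w₀, q₀) (‖w₀‖ / 2) := ⟨_, rfl⟩
  have hSc : IsCompact S := by
    rw [hS]
    exact isCompact_closedBall _ _
  have hSw : ∀ y ∈ S, y.1 ≠ 0 := by
    intro y hy h0
    rw [hS, Metric.mem_closedBall, Prod.dist_eq] at hy
    have h1 := (le_max_left _ _).trans hy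
    change dist y.1 w₀ ≤ _ at h1
    rw [h0, dist_eq_norm, zero_sub, norm_neg] at h1
    linarith
  have key : ∀ y ∈ S, ∀ᶠ e : (L × L × L) × (L × (Fin 4 → L)) in 𝓝 (((0 : L), (0 : L), (0 : L)), y),
      PP η e.1 e.2 := by
    intro y hy
    have hy0 := hSw y hy
    have h2 : (2 : L) * y.1 ≠ 0 := mul_ne_zero two_ne_zero hy0
    have hD : 2 * y.1 - y.2 0 * (0 : L) - 2 * y.1 ^ 2 * y.2 2 * (0 : L) ≠ 0 := by
      simpa using hy0
    have c1 : ContinuousAt (fun e : (L × L × L) × (L × (Fin 4 → L)) =>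
        e.1.1 * ((4 * e.2.1 ^ 2 * (1 + e.2.2 1 * e.1.2.2) - e.2.2 0 ^ 2 * e.1.2.2) /
        (2 * e.2.1 - e.2.2 0 * e.1.1 - 2 * e.2.1 ^ 2 * e.2.2 2 * e.1.2.1))) (((0 : L), (0 : L), (0 : L)), y) :=
      ContinuousAt.mul (by fun_prop) (ContinuousAt.div (by fun_prop) (by fun_prop) hD)
    have c0 : ContinuousAt (fun e : (L × L × L) × (L × (Fin 4 → L)) =>
        ((4 * e.2.1 ^ 2 * (1 + e.2.2 1 * e.1.2.2) - e.2.2 0 ^ 2 * e.1.2.2) /
        (2 * e.2.1 - e.2.2 0 * e.1.1 - 2 * e.2.1 ^ 2 * e.2.2 2 * e.1.2.1))) (((0 : L), (0 : L), (0 : L)), y) :=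
      ContinuousAt.div (by fun_prop) (by fun_prop) hD
    have c2 : ContinuousAt (fun e : (L × L × L) × (L × (Fin 4 → L)) =>
        -e.2.1 + (((4 * e.2.1 ^ 2 * (1 + e.2.2 1 * e.1.2.2) - e.2.2 0 ^ 2 * e.1.2.2) /
          (2 * e.2.1 - e.2.2 0 * e.1.1 - 2 * e.2.1 ^ 2 * e.2.2 2 * e.1.2.1)) ^ 2 *
          (1 - (e.2.2 1 * e.1.1 ^ 2 + (e.2.2 0 * e.2.2 2 - 4 * e.2.1 ^ 2 * e.2.2 3) * e.1.1 * e.1.2.1 +
            (e.2.2 0 ^ 2 * e.2.2 3 + e.2.1 ^ 2 * e.2.2 2 ^ 2 - 4 * e.2.1 ^ 2 * e.2.2 1 * e.2.2 3) *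
              e.1.2.1 ^ 2)) -
          e.2.2 0 * (e.1.1 * ((4 * e.2.1 ^ 2 * (1 + e.2.2 1 * e.1.2.2) - e.2.2 0 ^ 2 * e.1.2.2) /
            (2 * e.2.1 - e.2.2 0 * e.1.1 - 2 * e.2.1 ^ 2 * e.2.2 2 * e.1.2.1)))) / (2 * e.2.1) -
            e.2.1) (((0 : L), (0 : L), (0 : L)), y) := by
      refine ContinuousAt.sub (ContinuousAt.add (by fun_prop) (ContinuousAt.div ?_ (by fun_prop) h2))
        (by fun_prop)
      exact ((c0.pow 2).mul (by fun_prop)).sub (ContinuousAt.mul (by fun_prop) c1)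
    have v1 := c1.norm.eventually_lt_const (u := η) (by simpa using hη)
    have v2 := c2.norm.eventually_lt_const (u := η) (by
      have : (-y.1 + ((4 * y.1 ^ 2 * (1 + y.2 1 * (0 : L)) - y.2 0 ^ 2 * (0 : L)) /
          (2 * y.1 - y.2 0 * (0 : L) - 2 * y.1 ^ 2 * y.2 2 * (0 : L))) ^ 2 / (2 * y.1) - y.1) = 0 := by
        simp only [mul_zero, sub_zero, add_zero, mul_one]
        field_simp
        ring
      simp only [mul_zero, sub_zero, add_zero, mul_one] at this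
      simp only [mul_zero, sub_zero, add_zero, mul_one, zero_mul, ne_eq, OfNat.ofNat_ne_zero,
        not_false_eq_true, zero_pow]
      rw [this, norm_zero]
      exact hη)
    exact v1.and v2
  have h3 : ∀ᶠ x : L × L × L in 𝓝 ((0 : L), (0 : L), (0 : L)), ∀ y ∈ S, PP η x y :=
    hSc.eventually_forall_of_forall_eventually key
  obtain ⟨r, hr, hb⟩ := Metric.eventually_nhds_iff_ball.1 h3
  refine ⟨r, hr, fun w q h1 h2 z s κ k1 k2 k3 => ?_⟩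
  have h4 := hb (z, s, κ) (by
    rw [Metric.mem_ball, Prod.dist_eq, Prod.dist_eq]
    refine max_lt ?_ (max_lt ?_ ?_)
    · rw [dist_eq_norm]; simpa using k1
    · rw [dist_eq_norm]; simpa using k2
    · rw [dist_eq_norm]; simpa using k3) (w, q) (by
    rw [hS, Metric.mem_closedBall, Prod.dist_eq]
    refine max_le ?_ ?_
    · rw [dist_eq_norm]; exact h1.le
    · rw [dist_pi_le_iff (by positivity)]
      intro j
      rw [dist_eq_norm]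
      exact (h2 j).le)
  exact h4

end prop

section near

variable {K : Type*} [Field K] [CharZero K] [DecidableEq K] {L : Type*} [NontriviallyNormedField L]
  [ProperSpace L] [DecidableEq L] {σ : K →+* L} {l : Filter (K × (Fin 4 → K))} {θ₀ : L × (Fin 4 → L)}

/-- the multiple of the point in the family -/
lemma ev_L (hT : TnL σ l θ₀) (hw : θ₀.1 ≠ 0)
    (h₀ : (cv (tA θ₀) (tB θ₀) (tC θ₀)).toAffine.Nonsingular (tX θ₀) (tY θ₀))
    (hinf : ∀ n : ℕ, n ≠ 0 → n • (.some _ _ h₀ : Pt (tA θ₀) (tB θ₀) (tC θ₀)) ≠ 0) {N : ℕ}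
    (hN : N ≠ 0)
    (hNb : Nb (av (RingHom.id _)) (1 / (100 * CL θ₀)) (1 / (100 * CL θ₀) / 6)
      (N • (.some _ _ h₀ : Pt (tA θ₀) (tB θ₀) (tC θ₀)))) :
    ∀ᶠ θ in l, ∀ h : (cv (tA θ) (tB θ) (tC θ)).toAffine.Nonsingular (tX θ) (tY θ),
      Nb (av σ) (1 / (100 * CL θ₀)) (1 / (100 * CL θ₀) / 3)
        (N • (.some _ _ h : Pt (tA θ) (tB θ) (tC θ))) := by
  obtain ⟨X, Y, X₀, Y₀, ⟨h', he⟩, hev, hX, hY⟩ := cont_multL σ hT.tA hT.tB hT.tC (hT.tX hw)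
    (hT.tY hw) h₀ hinf N hN
  have hB := Bd_baseL θ₀
  set ρ := 1 / (100 * CL θ₀) with hρ
  have hρ0 := hB.hρ
  have hρ1 := hB.ρ_le
  rw [he] at hNb
  obtain ⟨k1, k2, k3⟩ := (Nb_some h').1 hNb
  have k4 := s_small hB (k2.trans (by linarith)) k3 (ts_eqn k1 (cv_ns.1 h').1)
  have k5 : ‖1 / Y₀‖ < ρ := by
    refine lt_of_le_of_lt k4 ?_
    have k6 := (av (RingHom.id L)).nonneg (X₀ / Y₀)
    calc 2 * (av (RingHom.id L)) (X₀ / Y₀) ^ 3 ≤ 2 * (ρ / 6) ^ 3 := by gcongr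
      _ < ρ := by nlinarith [mul_pos hρ0 hρ0]
  have k7 : ‖X₀ / Y₀‖ < ρ / 3 := lt_of_le_of_lt k2 (by linarith)
  have t1 : Tendsto (fun θ => σ (X θ / Y θ)) l (𝓝 (X₀ / Y₀)) := by
    simp only [map_div₀]
    exact hX.div hY k1
  have t2 : Tendsto (fun θ => σ (1 / Y θ)) l (𝓝 (1 / Y₀)) := by
    simp only [map_div₀, map_one]
    exact tendsto_const_nhds.div hY k1
  filter_upwards [hev, t1.norm.eventually_lt_const k7, t2.norm.eventually_lt_const k5,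
    hY.eventually_ne k1] with θ e1 e2 e3 e4 h
  obtain ⟨h2, e5⟩ := e1 h
  rw [e5, Nb_some]
  have e6 : Y θ ≠ 0 := fun h0 => e4 (by rw [h0, map_zero])
  exact ⟨e6, e2.le, e3.le⟩

/-- multiples which are close to the origin in the whole family -/
lemma near_L (hT : TnL σ l θ₀) (hw : θ₀.1 ≠ 0) (hD : dsc (tA θ₀) (tB θ₀) (tC θ₀) ≠ 0) :
    ∃ N : ℕ, N ≠ 0 ∧
    ∀ᶠ θ in l, ∀ h : (cv (tA θ) (tB θ) (tC θ)).toAffine.Nonsingular (tX θ) (tY θ),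
      Nb (av σ) (1 / (100 * CL θ₀)) (1 / (100 * CL θ₀))
        (N • (.some _ _ h : Pt (tA θ) (tB θ) (tC θ))) := by
  have : CharZero L := charZero_of_injective_ringHom σ.injective
  have h₀ := tns hw hD
  have hB := Bd_baseL θ₀
  set ρ := 1 / (100 * CL θ₀) with hρ
  have hρ0 := hB.hρ
  by_cases hinf : ∀ n : ℕ, n ≠ 0 → n • (.some _ _ h₀ : Pt (tA θ₀) (tB θ₀) (tC θ₀)) ≠ 0
  · obtain ⟨m, hm, hmN⟩ := accum_near (RingHom.id L) hD hB
      (P := (.some _ _ h₀ : Pt (tA θ₀) (tB θ₀) (tC θ₀))) hinf (r := ρ / 6) (by positivity)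
    refine ⟨m, hm, ?_⟩
    filter_upwards [ev_L hT hw h₀ hinf hm hmN] with θ h1 h
    have h2 := h1 h
    exact h2.mono (h2.le.trans (by linarith))
  · classical
    push Not at hinf
    have hex : ∃ n : ℕ, n ≠ 0 ∧ n • (.some _ _ h₀ : Pt (tA θ₀) (tB θ₀) (tC θ₀)) = 0 := by
      obtain ⟨n, h1, h2⟩ := hinf
      exact ⟨n, h1, h2⟩
    obtain ⟨hn0, hn1⟩ := Nat.find_spec hex
    set n := Nat.find hex with hn
    have hmin : ∀ k : ℕ, k < n → k ≠ 0 → k • (.some _ _ h₀ : Pt (tA θ₀) (tB θ₀) (tC θ₀)) ≠ 0 := by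
      intro k hk hk0 h
      exact Nat.find_min hex hk ⟨hk0, h⟩
    have hn2 : 2 ≤ n := by
      by_contra hlt
      have : n = 1 := by omega
      rw [this, one_smul] at hn1
      exact Affine.Point.some_ne_zero _ hn1
    obtain ⟨m, hm⟩ : ∃ m, n = m + 2 := ⟨n - 2, by omega⟩
    rw [hm] at hn1 hmin
    have hev := cont_ord σ hT.tA hT.tB hT.tC (hT.tX hw) (hT.tY hw) h₀ m
      (fun k hk hk0 => hmin k (by omega) hk0) hn1
      (max (6 * CL θ₀) (max (2 / ρ ^ 2) (2 / ρ ^ 2)))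
    refine ⟨m + 2, by omega, ?_⟩
    filter_upwards [hev, hT.Bd] with θ h1 hBθ h
    rcases h1 h with h2 | ⟨X, Y, h', h2, h3⟩
    · rw [h2]; exact Nb_zero hρ0.le
    · rw [h2, Nb_some]
      exact big_x' hBθ hρ0 X Y (cv_ns.1 h').1 h3

end near

/-- from a point of the resolvent near the origin to a point of the quartic near the base point -/
lemma back {K : Type*} [Field K] [CharZero K] {L : Type*} [NontriviallyNormedField L] {σ : K →+* L}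
    {θ : K × (Fin 4 → K)} {C ρ η r r' : ℝ} (hB : Bd (av σ) (tA θ) (tB θ) (tC θ) C ρ) (hw : θ.1 ≠ 0)
    (hr' : r' ≤ ρ) (hr1 : 2 * r' < r)
    (hPP : ∀ z s κ : L, ‖z‖ < r → ‖s‖ < r → ‖κ‖ < r → PP η (z, s, κ) (σ θ.1, fun j => σ (θ.2 j)))
    {X W : K} (h : W ^ 2 = X ^ 3 + tA θ * X ^ 2 + tB θ * X + tC θ) (hW : W ≠ 0) (hz : av σ (X / W) ≤ r')
    (hs : av σ (1 / W) ≤ ρ) (hD : Df θ.1 (θ.2 0) (θ.2 2) X W ≠ 0) :
    ‖σ (tf θ.1 (θ.2 0) (θ.2 1) (θ.2 2) X W)‖ < η ∧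
      ‖σ (Yf θ.1 (θ.2 0) (θ.2 1) (θ.2 2) X W) - σ θ.1‖ < η := by
  have : CharZero L := charZero_of_injective_ringHom σ.injective
  have hr'0 : 0 ≤ r' := ((av σ).nonneg _).trans hz
  have hρ1 := hB.ρ_le
  have hρ0 := hB.hρ
  have hX : X ≠ 0 := by
    rintro rfl
    have h3 := s_small hB (by rw [zero_div, map_zero]; exact hρ0.le) hs (ts_eqn hW h)
    rw [zero_div, map_zero, zero_pow three_ne_zero, mul_zero] at h3
    have h4 : (1 : K) / W = 0 := ((av σ).eq_zero).1 (le_antisymm h3 ((av σ).nonneg _))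
    exact one_div_ne_zero hW h4
  have hs1 := s_small hB (hz.trans hr') hs (ts_eqn hW h)
  have hfac := fac_le hB (t₁ := X / W) (t₂ := X / W) (s₁ := 0) (s₂ := 1 / W) (hz.trans hr') (hz.trans hr')
    (by rw [map_zero]; exact hρ0.le) hs
  have hhalf := half_le hfac
  have e1 : (1 / X) * (1 - (tA θ * (X / W) ^ 2 + tB θ * (X / W) * (0 + 1 / W) +
      tC θ * (0 ^ 2 + 0 * (1 / W) + (1 / W) ^ 2))) = (X / W) ^ 2 := by
    field_simp
    linear_combination h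
  have hκ : av σ (1 / X) ≤ 2 * r' ^ 2 := by
    refine le_of_mul hhalf ?_
    rw [e1, map_pow]
    have := (av σ).nonneg (X / W)
    gcongr
  have b1 : ‖σ (X / W)‖ < r := by
    refine lt_of_le_of_lt hz ?_
    linarith
  have b2 : ‖σ (1 / W)‖ < r := by
    refine lt_of_le_of_lt hs1 ?_
    have h5 := (av σ).nonneg (X / W)
    have h6 : av σ (X / W) ^ 3 ≤ r' ^ 3 := by gcongr
    have h7 : r' ^ 3 ≤ r' := by
      have : r' ≤ 1 := by linarith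
      have h8 : r' ^ 2 ≤ 1 := pow_le_one₀ hr'0 this
      nlinarith
    linarith
  have b3 : ‖σ (1 / X)‖ < r := by
    refine lt_of_le_of_lt hκ ?_
    have h7 : r' ^ 2 ≤ r' := by
      have : r' ≤ 1 := by linarith
      nlinarith
    linarith
  have h9 := hPP _ _ _ b1 b2 b3
  unfold PP at h9
  simp only at h9
  have hw' : σ θ.1 ≠ 0 := (map_ne_zero σ).2 hw
  have hX' : σ X ≠ 0 := (map_ne_zero σ).2 hX
  have hW' : σ W ≠ 0 := (map_ne_zero σ).2 hW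
  have hD' : 2 * σ θ.1 * σ W - σ (θ.2 0) * σ X - 2 * σ θ.1 ^ 2 * σ (θ.2 2) ≠ 0 := by
    have h10 := (map_ne_zero σ).2 hD
    simp only [Df, map_sub, map_mul, map_pow, map_ofNat] at h10
    exact h10
  have e2 : 2 * σ θ.1 - σ (θ.2 0) * σ (X / W) - 2 * σ θ.1 ^ 2 * σ (θ.2 2) * σ (1 / W) =
      (2 * σ θ.1 * σ W - σ (θ.2 0) * σ X - 2 * σ θ.1 ^ 2 * σ (θ.2 2)) / σ W := by
    rw [map_div₀, map_div₀, map_one]
    field_simp
  have e3 : σ (X / W) * ((4 * σ θ.1 ^ 2 * (1 + σ (θ.2 1) * σ (1 / X)) - σ (θ.2 0) ^ 2 * σ (1 / X)) /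
      (2 * σ θ.1 - σ (θ.2 0) * σ (X / W) - 2 * σ θ.1 ^ 2 * σ (θ.2 2) * σ (1 / W))) =
      σ (tf θ.1 (θ.2 0) (θ.2 1) (θ.2 2) X W) := by
    rw [e2, map_tf, tf, Nf, Df, map_div₀, map_div₀, map_one]
    field_simp
  have hcv : σ W ^ 2 = σ X ^ 3 + σ (tA θ) * σ X ^ 2 + σ (tB θ) * σ X + σ (tC θ) := by
    rw [← map_pow, h]
    simp only [map_add, map_mul, map_pow]
  have eA : σ (tA θ) = σ (θ.2 1) := rfl
  have eB : σ (tB θ) = σ (θ.2 0) * σ (θ.2 2) - 4 * σ θ.1 ^ 2 * σ (θ.2 3) := by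
    simp only [tB, rb, map_sub, map_mul, map_pow, map_ofNat]
  have eC : σ (tC θ) = σ (θ.2 0) ^ 2 * σ (θ.2 3) + σ θ.1 ^ 2 * σ (θ.2 2) ^ 2 -
      4 * σ θ.1 ^ 2 * σ (θ.2 1) * σ (θ.2 3) := by
    simp only [tC, rc, map_sub, map_add, map_mul, map_pow, map_ofNat]
  have e4 : 1 - (σ (θ.2 1) * σ (X / W) ^ 2 + (σ (θ.2 0) * σ (θ.2 2) - 4 * σ θ.1 ^ 2 * σ (θ.2 3)) *
      σ (X / W) * σ (1 / W) + (σ (θ.2 0) ^ 2 * σ (θ.2 3) + σ θ.1 ^ 2 * σ (θ.2 2) ^ 2 -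
      4 * σ θ.1 ^ 2 * σ (θ.2 1) * σ (θ.2 3)) * σ (1 / W) ^ 2) = σ (X / W) ^ 2 * σ X := by
    rw [← eC, ← eB, ← eA, map_div₀, map_div₀, map_one]
    field_simp
    linear_combination hcv
  rw [e3, e4] at h9
  refine ⟨h9.1, ?_⟩
  have e5 : -σ θ.1 + (((4 * σ θ.1 ^ 2 * (1 + σ (θ.2 1) * σ (1 / X)) - σ (θ.2 0) ^ 2 * σ (1 / X)) /
      (2 * σ θ.1 - σ (θ.2 0) * σ (X / W) - 2 * σ θ.1 ^ 2 * σ (θ.2 2) * σ (1 / W))) ^ 2 *
      (σ (X / W) ^ 2 * σ X) - σ (θ.2 0) * σ (tf θ.1 (θ.2 0) (θ.2 1) (θ.2 2) X W)) / (2 * σ θ.1) =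
      σ (Yf θ.1 (θ.2 0) (θ.2 1) (θ.2 2) X W) := by
    rw [map_Yf, Yf, ← map_tf, ← e3]
    ring
  rw [e5] at h9
  exact h9.2

theorem t : Pool.Agent.H58RC.S_STAY := by
  classical
  intro K _ _ L _ _ _ σ θ₀ hw hD
  have hcz : CharZero L := charZero_of_injective_ringHom σ.injective
  obtain ⟨l, hl⟩ : ∃ l : Filter (K × (Fin 4 → K)),
      l = comap (fun θ : K × (Fin 4 → K) => (σ θ.1, fun j => σ (θ.2 j))) (𝓝 θ₀) := ⟨_, rfl⟩
  have hT : TnL σ l θ₀ := by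
    have h0 : Tendsto (fun θ : K × (Fin 4 → K) => (σ θ.1, fun j => σ (θ.2 j))) l (𝓝 θ₀) := by
      rw [hl]
      exact tendsto_comap
    have h1 : Continuous fun e : L × (Fin 4 → L) => e.1 := continuous_fst
    have h2 : ∀ j, Continuous fun e : L × (Fin 4 → L) => e.2 j := fun j =>
      (continuous_apply j).comp continuous_snd
    exact ⟨(h1.tendsto _).comp h0, fun j => ((h2 j).tendsto _).comp h0⟩
  obtain ⟨N, hN, hev⟩ := near_L hT hw hD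
  have hev2 := hev.and ((hT.Bd).and (hT.ne hw))
  rw [hl] at hev2
  obtain ⟨U, hU, hs⟩ := mem_comap.1 hev2
  obtain ⟨δ₁, hδ₁, hb⟩ := Metric.mem_nhds_iff.1 hU
  have hw0 : 0 < ‖θ₀.1‖ := norm_pos_iff.2 hw
  refine ⟨min δ₁ (‖θ₀.1‖ / 2), lt_min hδ₁ (half_pos hw0), ?_⟩
  intro η hη
  obtain ⟨r, hr, hun⟩ := unif (w₀ := θ₀.1) (q₀ := θ₀.2) hw hη
  obtain ⟨p, hp0, hp1⟩ := small_nat (L := L)
  have hB₀ := Bd_baseL θ₀
  obtain ⟨ρ, hρ⟩ : ∃ ρ : ℝ, ρ = 1 / (100 * CL θ₀) := ⟨_, rfl⟩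
  rw [← hρ] at hB₀
  have hρ0 := hB₀.hρ
  obtain ⟨c, hc⟩ : ∃ c : ℝ, c = max ‖(p : L)‖ (1 / 200) := ⟨_, rfl⟩
  have hc0 : 0 ≤ c := by rw [hc]; exact le_max_of_le_right (by norm_num)
  have hc1 : c < 1 := by rw [hc]; exact max_lt hp1 (by norm_num)
  obtain ⟨k, hk⟩ : ∃ k : ℕ, c ^ k * ρ < r / 2 := by
    obtain ⟨k, hk⟩ := exists_pow_lt_of_lt_one (show 0 < r / 2 / ρ by positivity) hc1
    exact ⟨k, by rwa [lt_div_iff₀ hρ0] at hk⟩
  refine ⟨p ^ k * N, mul_ne_zero (pow_ne_zero _ hp0) hN, ?_⟩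
  intro θ h1 h2 m hdvd u Z hmul
  have hUθ : (σ θ.1, fun j => σ (θ.2 j)) ∈ U := by
    apply hb
    rw [Metric.mem_ball, Prod.dist_eq]
    refine max_lt ?_ ?_
    · rw [dist_eq_norm]; exact h1.trans_le (min_le_left _ _)
    · rw [dist_pi_lt_iff hδ₁]
      intro j
      rw [dist_eq_norm]; exact (h2 j).trans_le (min_le_left _ _)
  obtain ⟨g1, g2, g3⟩ := hs hUθ
  rw [← hρ] at g1 g2
  obtain ⟨-, h, X, W, h', hm, hDf, hu, hZ⟩ := hmul
  obtain ⟨m', rfl⟩ := hdvd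
  have hck : c ^ k * ρ ≤ ρ := mul_le_of_le_one_left hρ0.le (pow_le_one₀ hc0 hc1.le)
  have k1 : Nb (av σ) ρ (c ^ k * ρ) (p ^ k • (N • (.some _ _ h : Pt (tA θ) (tB θ) (tC θ)))) := by
    rw [hc]
    exact V5 g2 le_rfl (g1 h) hp1 k
  have k2 := V2z g2 hck k1 m'
  have k3 : m' • (p ^ k • (N • (.some _ _ h : Pt (tA θ) (tB θ) (tC θ)))) = .some X W h' := by
    rw [← hm, mul_smul, ← natCast_zsmul, ← natCast_zsmul, ← mul_smul, ← mul_smul, ← mul_smul]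
    congr 1
    push_cast
    ring
  rw [k3, Nb_some] at k2
  obtain ⟨hW, hz, hs'⟩ := k2
  rw [hu, hZ]
  exact back g2 g3 hck (by linarith) (fun z s κ k4 k5 k6 => hun (σ θ.1) (fun j => σ (θ.2 j))
    (h1.trans_le (min_le_right _ _)) (fun j => (h2 j).trans_le (min_le_right _ _)) z s κ k4 k5 k6)
    (cv_ns.1 h').1 hW hz hs' hDf

end Pool.Agent.H58RC.STAY
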