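import Pool.Agent.H58RC.Main3
import Pool.Agent.H58RC.CHART
import Pool.Agent.H58RC.PUNCT
import Pool.Agent.H58RC.G1
import Pool.Agent.H58RC.G2
import Pool.Agent.H58RC.G3
import Pool.Agent.H58RC.G4
import Pool.Agent.H58RC.SMR
import Pool.Agent.H58RC.STAY
import Pool.Agent.H58RC.RSL
import Pool.Agent.H58RC.CRO
import Pool.Agent.H58RC.PERT
import Pool.Agent.H58RC.SLD
import Pool.Agent.H58RC.CRS
import Pool.Agent.H58RC.BRE
import Pool.Agent.H58RC.MOVE
import Pool.Agent.H58RC.PTB

/-!
# Real components: the lemmas, assembled (helper58)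
-/

set_option autoImplicit false

namespace Pool.Agent.H58RC

theorem lems : Lems where
  move := MOVE.t
  rsl := RSL.t
  stay := STAY.t
  pert := PERT.t
  sld := SLD.t
  cro := CRO.t
  crs := CRS.t
  bre := BRE.t
  smr := SMR.t
  ptb := PTB.t
  punct := PUNCT.t CHART.t
  g4 := G4.t CHART.t PUNCT.t G1.t G2.t G3.t

end Pool.Agent.H58RC
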