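import Pool.Agent.H58RC.RealEx
import Pool.Agent.H58RC.All

/-!
# Real components and central points: the assembled statements (helper58)
-/

set_option autoImplicit false
set_option linter.unusedSectionVars false

open MvPolynomial Pool.Agent.Y720.MZ

namespace Pool.Agent.H58RC

open Pool.Agent.Q35.TT Pool.Agent.Q35.TB

/-- the real closure, without finite places -/
theorem real_only {K : Type} [Field K] [NumberField K] {A : (Fin 2 → Fin 2) → Set ((Fin 2 → K) × K)}
    {τ : K →+* ℝ} {x' : (Fin 2 × Fin 2 → ℝ) × ℝ}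
    (h : ∀ (V : Type) [Finite V] (M : V → Type) [∀ v, NontriviallyNormedField (M v)] [∀ v, ProperSpace (M v)]
      [∀ v, IsUltrametricDist (M v)] (σ : ∀ v, K →+* M v), ∃ y, (x', y) ∈ closure (RP A τ σ)) :
    x' ∈ closure {Y | ∃ (ε : Fin 2 → Fin 2) (P : (Fin 2 → K) × K), P ∈ A ε ∧
      ∃ d : Fin 2 → ℝ, (∀ j, d j ≠ 0) ∧ Y = scale d (lift ε (im τ P))} := by
  obtain ⟨y, hy⟩ := @h Empty inferInstance (fun _ => ℝ) inferInstance inferInstance (fun v => v.elim)
    (fun v => v.elim)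
  refine map_mem_closure continuous_fst hy ?_
  rintro S ⟨ε, P, hP, h1, -⟩
  exact ⟨ε, P, hP, h1⟩

/-- **Central points on the component of a real point over a tangent line.** -/
theorem dense_comp {K : Type} [Field K] [NumberField K] {F : MvPolynomial (Fin 2 × Fin 2) K}
    (hF : Hom4 F) (hS : SmoothF F) {e : K} (he : e ≠ 0)
    (ε : Fin 2 → Fin 2) {i j : Fin 2} (hij : i ≠ j) {c : K} (ht : Tang (ch F ε) i j c) (τ : K →+* ℝ)
    {x : (Fin 2 → ℝ) × ℝ} (hx : lift ε x ∈ Cone (map τ (C e * F))) (hx2 : x.2 ≠ 0)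
    (hxj : x.1 j = τ c) :
    ∃ (L : Type) (_ : Field L) (_ : NumberField L) (_ : Algebra K L) (τ' : L →+* ℝ)
      (P : (Fin 2 → L) × L), Module.finrank K L ≤ 2 ∧ τ'.comp (algebraMap K L) = τ ∧
      lift ε P ∈ CenC (ex L (C e * F)) ∧
      lift ε (im τ' P) ∈ connectedComponentIn (Cone (map τ (C e * F))) (lift ε x) ∧
      (∀ x' ∈ connectedComponentIn (Cone (map τ (C e * F))) (lift ε x),
        x' ∈ closure {Y | ∃ X ∈ CenC (ex L (C e * F)), ∃ d : Fin 2 → ℝ, (∀ j, d j ≠ 0) ∧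
          Y = scale d (imC τ' X)}) ∧
      ∀ (ι : Type) [Finite ι] [Nonempty ι] (p : ι → ℕ) [∀ v, Fact (p v).Prime], Function.Injective p →
        ∀ σ : ∀ v, L →+* ℚ_[p v], ∃ U ∈ nhds (fun v => lift ε (im (σ v) P)),
          ∀ x' ∈ connectedComponentIn (Cone (map τ' (ex L (C e * F)))) (lift ε (im τ' P)), ∀ y ∈ U,
            (∀ v, y v ∈ Cone (map (σ v) (ex L (C e * F)))) →
            (x', y) ∈ closure (RP (aff (CenC (ex L (C e * F)))) τ' σ) := by
  have h := fun ε : Fin 2 → Fin 2 => dat2 K (ch F ε)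
    (Pool.Agent.Q182.TT.CHF.chf K 2 F hF ε).1 ((Pool.Agent.Q182.TT.CHF.chf K 2 F hF ε).2.1 hS) 2
  choose T E h using h
  obtain ⟨L, i1, i2, i3, τ', P, hD, hτ, hcomp, hG⟩ := real_ex lems hF hS (fun ε => (h ε).1) he ε hij ht τ
    (lift_cone.1 hx) hx2 hxj
  have hfd : Module.Finite K L := Module.Finite.of_restrictScalars_finite ℚ K L
  have halg : Algebra.IsAlgebraic K L := Algebra.IsAlgebraic.of_finite K L
  obtain ⟨φ, -⟩ : ∃ φ : L →ₐ[K] AlgebraicClosure K, True := ⟨IsAlgClosed.lift, trivial⟩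
  have hex : ∀ ε, ch (ex L F) ε = ex L (ch F ε) := (exf2 K L 2 F hF).2.2.1
  have e1 : ex L (C e * F) = C (algebraMap K L e) * ex L F := by
    change map _ (C e * F) = _
    rw [map_mul, map_C]
  have e2 : map τ' (C (algebraMap K L e) * ex L F) = map τ (C e * F) := by
    rw [← e1]
    change map τ' (map _ (C e * F)) = _
    rw [MvPolynomial.map_map, hτ]
  have he' : algebraMap K L e ≠ 0 := (map_ne_zero _).2 he
  have hA := sat_cen Pool.Agent.Q35.ZC.map2 (C (algebraMap K L e) * ex L F)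
  have hP := hG φ
  have hsub : ∀ ε, GoodR T E (C (algebraMap K L e) * ex L F) φ (CenC (C (algebraMap K L e) * ex L F)) ε ⊆
      aff (CenC (C (algebraMap K L e) * ex L F)) ε := fun ε => Set.inter_subset_right
  have hRP : ∀ {V : Type} {M : V → Type} [∀ v, NontriviallyNormedField (M v)] (σ : ∀ v, L →+* M v),
      RP (GoodR T E (C (algebraMap K L e) * ex L F) φ (CenC (C (algebraMap K L e) * ex L F))) τ' σ ⊆
        RP (aff (CenC (C (algebraMap K L e) * ex L F))) τ' σ := by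
    rintro V M _ σ S ⟨ε, Q, hQ, h1, h2⟩
    exact ⟨ε, Q, hsub ε hQ, h1, h2⟩
  refine ⟨L, i1, i2, i3, τ', P, hD, hτ, ?_, hcomp, ?_, ?_⟩
  · rw [e1]
    exact hP.2
  · intro x' hx'
    rw [e1]
    have hx'' : x' ∈ connectedComponentIn (Cone (map τ' (C (algebraMap K L e) * ex L F)))
        (lift ε (im τ' P)) := by
      rw [e2, ← connectedComponentIn_eq hcomp]
      exact hx'
    have h1 := real_only (A := aff (CenC (C (algebraMap K L e) * ex L F))) (τ := τ') (x' := x')
      (by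
        intro V _ M _ _ _ σ
        refine ⟨fun v => lift ε (im (σ v) P), closure_mono (hRP σ) ?_⟩
        refine part1R Pool.Agent.Q35.ZC.step2 lems hF hS (fun ε => (h ε).1) hD he' φ hex τ' σ hA
          (lift ε (im τ' P)) x' _ (subset_closure ?_) hx''
        exact ⟨ε, P, hP, ⟨fun _ => 1, fun _ => one_ne_zero, (scale_one _).symm⟩, fun v =>
          ⟨fun _ => 1, fun _ => one_ne_zero, (scale_one _).symm⟩⟩)
    refine closure_mono ?_ h1
    rintro Y ⟨ε', Q, hQ, d, hd, rfl⟩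
    exact ⟨lift ε' Q, hQ, d, hd, by rw [imC_lift]⟩
  · intro ι _ _ p _ hp σ
    rw [e1]
    obtain ⟨U, hU, h1⟩ := part2R Pool.Agent.Q35.ZC.step2 lems hF hS (fun ε => (h ε).1)
      (fun ε => (h ε).2) hD he' φ hex τ' hp σ hA hP
    exact ⟨U, hU, fun x' hx' y hy hyC => closure_mono (hRP σ) (h1 x' hx' y hy hyC)⟩

end Pool.Agent.H58RC
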