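import Pool.Agent.H58RC.Star
import Pool.Agent.Q182.TT.Chf

/-!
# Real components: from the affine charts to the surface (helper58)
-/

set_option autoImplicit false
set_option linter.unusedSectionVars false

open Pool.Agent.Y720.MZ Pool.Agent.Q35.ZC MvPolynomial
open Pool.Agent.Q35.TT (ch Hom4)

namespace Pool.Agent.H58RC

section defs

variable {F : Type} [Field F]

/-- the representative with the affine coordinates `P` in the chart `ε` -/
def lift (ε : Fin 2 → Fin 2) (P : (Fin 2 → F) × F) : (Fin 2 × Fin 2 → F) × F :=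
  (fun p => if p.2 = ε p.1 then 1 else P.1 p.1, P.2)

/-- change of the representative -/
def scale (d : Fin 2 → F) (X : (Fin 2 × Fin 2 → F) × F) : (Fin 2 × Fin 2 → F) × F :=
  (fun p => d p.1 * X.1 p, (d 0 * d 1) ^ 2 * X.2)

/-- the representatives of the points of the double cover -/
def Cone (G : MvPolynomial (Fin 2 × Fin 2) F) : Set ((Fin 2 × Fin 2 → F) × F) :=
  {X | (∀ j, ∃ b, X.1 (j, b) ≠ 0) ∧ X.2 ^ 2 = eval X.1 G}

/-- the affine coordinates in the chart `ε` -/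
def pr (ε : Fin 2 → Fin 2) (X : (Fin 2 × Fin 2 → F) × F) : (Fin 2 → F) × F :=
  (fun j => X.1 (j, 1 - ε j) / X.1 (j, ε j), X.2 / (X.1 (0, ε 0) * X.1 (1, ε 1)) ^ 2)

theorem oth2 : ∀ b c : Fin 2, b ≠ c → b = 1 - c := by decide

theorem scale_pr {ε : Fin 2 → Fin 2} {X : (Fin 2 × Fin 2 → F) × F} (h : ∀ j, X.1 (j, ε j) ≠ 0) :
    scale (fun j => X.1 (j, ε j)) (lift ε (pr ε X)) = X := by
  refine Prod.ext ?_ ?_
  · funext p
    obtain ⟨j, b⟩ := p
    change X.1 (j, ε j) * (if b = ε j then 1 else X.1 (j, 1 - ε j) / X.1 (j, ε j)) = X.1 (j, b)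
    by_cases hb : b = ε j
    · rw [if_pos hb, mul_one, hb]
    · rw [if_neg hb, mul_div_cancel₀ _ (h j), oth2 _ _ hb]
  · change (X.1 (0, ε 0) * X.1 (1, ε 1)) ^ 2 * (X.2 / (X.1 (0, ε 0) * X.1 (1, ε 1)) ^ 2) = X.2
    rw [mul_div_cancel₀ _ (pow_ne_zero 2 (mul_ne_zero (h 0) (h 1)))]

theorem pr_scale {ε : Fin 2 → Fin 2} {d : Fin 2 → F} (hd : ∀ j, d j ≠ 0) (P : (Fin 2 → F) × F) :
    pr ε (scale d (lift ε P)) = P := by
  refine Prod.ext ?_ ?_
  · funext j
    change (d j * (if (1 - ε j) = ε j then 1 else P.1 j)) / (d j * (if ε j = ε j then 1 else P.1 j)) = P.1 j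
    rw [if_neg (oth (ε j)), if_pos rfl, mul_one, mul_div_cancel_left₀ _ (hd j)]
  · change ((d 0 * d 1) ^ 2 * P.2) / ((d 0 * (if ε 0 = ε 0 then 1 else P.1 0)) *
      (d 1 * (if ε 1 = ε 1 then 1 else P.1 1))) ^ 2 = P.2
    rw [if_pos rfl, if_pos rfl, mul_one, mul_one,
      mul_div_cancel_left₀ _ (pow_ne_zero 2 (mul_ne_zero (hd 0) (hd 1)))]

theorem scale_coord {ε : Fin 2 → Fin 2} {d : Fin 2 → F} (hd : ∀ j, d j ≠ 0) (P : (Fin 2 → F) × F) (j : Fin 2) :
    (scale d (lift ε P)).1 (j, ε j) ≠ 0 := by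
  change d j * (if ε j = ε j then 1 else P.1 j) ≠ 0
  rw [if_pos rfl, mul_one]
  exact hd j

theorem scale_scale (d d' : Fin 2 → F) (X : (Fin 2 × Fin 2 → F) × F) :
    scale d (scale d' X) = scale (fun j => d j * d' j) X := by
  refine Prod.ext ?_ ?_
  · funext p
    change d p.1 * (d' p.1 * X.1 p) = d p.1 * d' p.1 * X.1 p
    ring
  · change (d 0 * d 1) ^ 2 * ((d' 0 * d' 1) ^ 2 * X.2) = (d 0 * d' 0 * (d 1 * d' 1)) ^ 2 * X.2
    ring

theorem scale_one (X : (Fin 2 × Fin 2 → F) × F) : scale (fun _ => 1) X = X := by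
  refine Prod.ext ?_ ?_
  · funext p
    exact one_mul _
  · change (1 * 1) ^ 2 * X.2 = X.2
    ring

theorem pr_lift (ε : Fin 2 → Fin 2) (P : (Fin 2 → F) × F) : pr ε (lift ε P) = P := by
  have h := pr_scale (ε := ε) (d := fun _ => (1 : F)) (fun _ => one_ne_zero) P
  rw [scale_one] at h
  exact h

theorem scale_eq {G : MvPolynomial (Fin 2 × Fin 2) F} (hG : Hom4 G) (d : Fin 2 → F)
    (X : (Fin 2 × Fin 2 → F) × F) : eval (scale d X).1 G = (d 0 * d 1) ^ 4 * eval X.1 G := by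
  have h := Pool.Agent.Q182.TT.CHF.scale_F hG X.1 d
  rw [Fin.prod_univ_two] at h
  exact h

theorem cone_scale {G : MvPolynomial (Fin 2 × Fin 2) F} (hG : Hom4 G) {d : Fin 2 → F} (hd : ∀ j, d j ≠ 0)
    {X : (Fin 2 × Fin 2 → F) × F} (hX : X ∈ Cone G) : scale d X ∈ Cone G := by
  refine ⟨fun j => ?_, ?_⟩
  · obtain ⟨b, hb⟩ := hX.1 j
    exact ⟨b, mul_ne_zero (hd j) hb⟩
  · rw [scale_eq hG, ← hX.2]
    change ((d 0 * d 1) ^ 2 * X.2) ^ 2 = (d 0 * d 1) ^ 4 * X.2 ^ 2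
    ring

theorem lift_cone {G : MvPolynomial (Fin 2 × Fin 2) F} {ε : Fin 2 → Fin 2} {P : (Fin 2 → F) × F} :
    lift ε P ∈ Cone G ↔ P.2 ^ 2 = eval P.1 (ch G ε) := by
  rw [Pool.Agent.Q182.TT.CHF.eval_ch]
  constructor
  · intro h
    exact h.2
  · intro h
    refine ⟨fun j => ⟨ε j, ?_⟩, h⟩
    change (if ε j = ε j then (1 : F) else P.1 j) ≠ 0
    rw [if_pos rfl]
    exact one_ne_zero

theorem pr_eq {G : MvPolynomial (Fin 2 × Fin 2) F} (hG : Hom4 G) {ε : Fin 2 → Fin 2}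
    {X : (Fin 2 × Fin 2 → F) × F} (hX : X ∈ Cone G) (h : ∀ j, X.1 (j, ε j) ≠ 0) :
    (pr ε X).2 ^ 2 = eval (pr ε X).1 (ch G ε) := by
  have h1 : lift ε (pr ε X) = scale (fun j => (X.1 (j, ε j))⁻¹) X := by
    have h2 := congrArg (scale (fun j => (X.1 (j, ε j))⁻¹)) (scale_pr h)
    rw [scale_scale] at h2
    have e1 : (fun j => (X.1 (j, ε j))⁻¹ * X.1 (j, ε j)) = fun _ => (1 : F) := by
      funext j
      exact inv_mul_cancel₀ (h j)
    rw [e1] at h2
    rw [← h2]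
    refine Prod.ext ?_ ?_
    · funext p
      change _ = 1 * _
      rw [one_mul]
    · change _ = (1 * 1) ^ 2 * _
      ring
  rw [← lift_cone, h1]
  exact cone_scale hG (fun j => inv_ne_zero (h j)) hX

end defs

section im

variable {K F : Type} [Field K] [Field F] (φ : K →+* F)

/-- the image of a representative -/
def imC (X : (Fin 2 × Fin 2 → K) × K) : (Fin 2 × Fin 2 → F) × F := (fun p => φ (X.1 p), φ X.2)

theorem imC_lift (ε : Fin 2 → Fin 2) (P : (Fin 2 → K) × K) : imC φ (lift ε P) = lift ε (im φ P) := by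
  refine Prod.ext ?_ rfl
  funext p
  change φ (if p.2 = ε p.1 then 1 else P.1 p.1) = if p.2 = ε p.1 then 1 else φ (P.1 p.1)
  split_ifs
  · exact map_one φ
  · rfl

theorem imC_scale (d : Fin 2 → K) (X : (Fin 2 × Fin 2 → K) × K) :
    imC φ (scale d X) = scale (fun j => φ (d j)) (imC φ X) := by
  refine Prod.ext ?_ ?_
  · funext p
    exact map_mul φ _ _
  · change φ ((d 0 * d 1) ^ 2 * X.2) = (φ (d 0) * φ (d 1)) ^ 2 * φ X.2
    rw [map_mul, map_pow, map_mul]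

end im

/-- charts and embeddings -/
theorem map_ch {K F : Type} [Field K] [Field F] [Infinite F] (τ : K →+* F) (G : MvPolynomial (Fin 2 × Fin 2) K)
    (ε : Fin 2 → Fin 2) : map τ (ch G ε) = ch (map τ G) ε := by
  classical
  refine MvPolynomial.funext fun z => ?_
  rw [Pool.Agent.Q182.TT.CHF.eval_ch, ch]
  have h1 : ∀ p : MvPolynomial (Fin 2) K, eval z (map τ p) = eval₂ τ z p := fun p => eval_map _ _ _
  rw [h1, eval_map]
  have h2 : eval₂ τ z (aeval (fun p : Fin 2 × Fin 2 => if p.2 = ε p.1 then (1 : MvPolynomial (Fin 2) K)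
      else X p.1) G) = eval₂ τ (fun p : Fin 2 × Fin 2 => eval₂ τ z
        (if p.2 = ε p.1 then (1 : MvPolynomial (Fin 2) K) else X p.1)) G := by
    have h3 := MvPolynomial.eval₂Hom_bind₁ τ z
      (fun p : Fin 2 × Fin 2 => if p.2 = ε p.1 then (1 : MvPolynomial (Fin 2) K) else X p.1) G
    exact h3
  rw [h2]
  congr 1
  funext p
  unfold Pool.Agent.Q35.TT.pt
  split_ifs
  · exact eval₂_one _ _
  · exact eval₂_X _ _ _

section cont

variable {F : Type} [NormedField F]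

theorem lift_coord {F : Type} [Field F] (ε : Fin 2 → Fin 2) (P : (Fin 2 → F) × F) (j : Fin 2) :
    (lift ε P).1 (j, ε j) ≠ 0 := by
  change (if ε j = ε j then (1 : F) else P.1 j) ≠ 0
  rw [if_pos rfl]
  exact one_ne_zero

theorem lift_cont (ε : Fin 2 → Fin 2) : Continuous (lift ε : (Fin 2 → F) × F → _) := by
  refine Continuous.prodMk (continuous_pi fun p => ?_) continuous_snd
  by_cases h : p.2 = ε p.1
  · simp only [h, if_true]
    exact continuous_const
  · simp only [h, if_false]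
    exact (continuous_apply _).comp continuous_fst

theorem scale_cont (d : Fin 2 → F) : Continuous (scale d : (Fin 2 × Fin 2 → F) × F → _) := by
  refine Continuous.prodMk (continuous_pi fun p => ?_) (continuous_const.mul continuous_snd)
  exact continuous_const.mul ((continuous_apply p).comp continuous_fst)

theorem pr_cont {ε : Fin 2 → Fin 2} {X : (Fin 2 × Fin 2 → F) × F} (h : ∀ j, X.1 (j, ε j) ≠ 0) :
    ContinuousAt (pr ε) X := by
  have h1 : ∀ p : Fin 2 × Fin 2, ContinuousAt (fun Y : (Fin 2 × Fin 2 → F) × F => Y.1 p) X := fun p =>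
    ((continuous_apply p).comp continuous_fst).continuousAt
  refine ContinuousAt.prodMk (continuousAt_pi.2 fun j => (h1 _).div (h1 _) (h j)) ?_
  exact continuousAt_snd.div (((h1 _).mul (h1 _)).pow 2) (pow_ne_zero 2 (mul_ne_zero (h 0) (h 1)))

end cont

section main

variable {K : Type} [Field K] [CharZero K] {V : Type} [Finite V] {F : V → Type}
  [∀ v, NontriviallyNormedField (F v)]

/-- all representatives, over the completions, of the rational points which have in some chart affine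
coordinates in the set `A` -/
def RP (A : (Fin 2 → Fin 2) → Set ((Fin 2 → K) × K)) (τ : K →+* ℝ) (σ : ∀ v, K →+* F v) :
    Set (((Fin 2 × Fin 2 → ℝ) × ℝ) × (∀ v, (Fin 2 × Fin 2 → F v) × F v)) :=
  {S | ∃ (ε : Fin 2 → Fin 2) (P : (Fin 2 → K) × K), P ∈ A ε ∧
    (∃ d : Fin 2 → ℝ, (∀ j, d j ≠ 0) ∧ S.1 = scale d (lift ε (im τ P))) ∧
    ∀ v, ∃ d : Fin 2 → F v, (∀ j, d j ≠ 0) ∧ S.2 v = scale d (lift ε (im (σ v) P))}

/-- **From the charts to the surface.** -/
theorem cone_thm {G : MvPolynomial (Fin 2 × Fin 2) K} (hG : Hom4 G)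
    {A : (Fin 2 → Fin 2) → Set ((Fin 2 → K) × K)} (τ : K →+* ℝ) (σ : ∀ v, K →+* F v)
    (hcompat : ∀ (ε ε' : Fin 2 → Fin 2), ∀ P ∈ A ε, ∃ P' ∈ A ε', ∃ d : Fin 2 → K, (∀ j, d j ≠ 0) ∧
      lift ε P = scale d (lift ε' P'))
    (hon : ∀ (ε : Fin 2 → Fin 2), ∀ P ∈ A ε, im τ P ∈ XR (map τ (ch G ε)))
    (hsm : ∀ (ε : Fin 2 → Fin 2), ∀ x ∈ XR (map τ (ch G ε)), x.2 = 0 →
      ∃ j, eval x.1 (pderiv j (map τ (ch G ε))) ≠ 0)
    (hcore : ∀ (ε : Fin 2 → Fin 2), ∀ P ∈ A ε, ∀ η : ℝ, 0 < η → ∃ ρ : ℝ, 0 < ρ ∧ ρ ≤ η ∧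
      connectedComponentIn (XR (map τ (ch G ε))) (im τ P) ⊆ closure (im τ '' (A ε ∩ Nbr σ P ρ)))
    (hpunct : ∀ (g : MvPolynomial (Fin 2) ℝ) (x : (Fin 2 → ℝ) × ℝ), x ∈ XR g →
      (x.2 = 0 → ∃ j, eval x.1 (pderiv j g) ≠ 0) → ∀ ρ : ℝ, 0 < ρ → ∃ V ⊆ XR g, (∀ x' ∈ V, dist x' x < ρ) ∧
      x ∈ V ∧ (∃ r > 0, ∀ x' ∈ XR g, dist x' x < r → x' ∈ V) ∧ IsPreconnected V ∧ IsPreconnected (V \ {x}))
    (x x' : (Fin 2 × Fin 2 → ℝ) × ℝ) (y : ∀ v, (Fin 2 × Fin 2 → F v) × F v)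
    (hxy : (x, y) ∈ closure (RP A τ σ)) (hx' : x' ∈ connectedComponentIn (Cone (map τ G)) x) :
    (x', y) ∈ closure (RP A τ σ) := by
  classical
  have : Fintype V := Fintype.ofFinite V
  have hmapch : ∀ ε, map τ (ch G ε) = ch (map τ G) ε := map_ch τ G
  have hGτ : Hom4 (map τ G) := by
    intro m hm j
    exact hG m (support_map_subset _ _ hm) j
  -- the set of the real points
  obtain ⟨B, hB⟩ : ∃ B : Set ((Fin 2 × Fin 2 → ℝ) × ℝ), B = {u | (u, y) ∈ closure (RP A τ σ)} := ⟨_, rfl⟩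
  have hBc : IsClosed B := by
    rw [hB]
    exact isClosed_closure.preimage (Continuous.prodMk continuous_id continuous_const)
  -- openness
  have hopen : ∀ u ∈ B, u ∈ Cone (map τ G) → ∃ r > 0, ∀ u' ∈ Cone (map τ G), dist u' u < r → u' ∈ B := by
    intro u huB hu
    rw [hB] at huB
    have hε : ∀ j, ∃ b, u.1 (j, b) ≠ 0 := hu.1
    choose ε hε using hε
    have huX : pr ε u ∈ XR (map τ (ch G ε)) := by
      change (pr ε u).2 ^ 2 = eval (pr ε u).1 (map τ (ch G ε))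
      rw [hmapch]
      exact pr_eq hGτ hu hε
    obtain ⟨U, hU, -, hxU, ⟨r₁, hr₁, hrU⟩, hpre, -⟩ := hpunct _ _ huX (hsm ε _ huX) 1 one_pos
    have hne : ∀ᶠ u' in nhds u, ∀ j, u'.1 (j, ε j) ≠ 0 := by
      rw [Filter.eventually_all]
      intro j
      have h1 : ContinuousAt (fun Y : (Fin 2 × Fin 2 → ℝ) × ℝ => Y.1 (j, ε j)) u :=
        ((continuous_apply (j, ε j)).comp continuous_fst).continuousAt
      exact h1.eventually_ne (hε j)
    have hnear : ∀ᶠ u' in nhds u, dist (pr ε u') (pr ε u) < r₁ :=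
      Metric.tendsto_nhds.1 (pr_cont hε) r₁ hr₁
    obtain ⟨r, hr, hball⟩ := Metric.eventually_nhds_iff.1 (hne.and hnear)
    have hin : ∀ u' ∈ Cone (map τ G), dist u' u < r → (∀ j, u'.1 (j, ε j) ≠ 0) ∧ pr ε u' ∈ U := by
      intro u' hu' hd
      obtain ⟨h1, h2⟩ := hball hd
      refine ⟨h1, hrU _ ?_ h2⟩
      change (pr ε u').2 ^ 2 = eval (pr ε u').1 (map τ (ch G ε))
      rw [hmapch]
      exact pr_eq hGτ hu' h1
    refine ⟨r, hr, fun u' hu' hd => ?_⟩
    obtain ⟨h1, h2⟩ := hin u' hu' hd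
    rw [hB]
    change (u', y) ∈ closure (RP A τ σ)
    rw [Metric.mem_closure_iff]
    intro η hη
    obtain ⟨S, ⟨ε₁, P₁, hP₁, ⟨d₁, hd₁, hS1⟩, hS2⟩, hSd⟩ := Metric.mem_closure_iff.1 huB
      (min r (η / 2)) (lt_min hr (half_pos hη))
    obtain ⟨P, hP, c, hc, hPP⟩ := hcompat ε₁ ε P₁ hP₁
    -- the representatives in the chart `ε`
    have hrep : ∀ {F' : Type} [Field F'] (φ : K →+* F') (d : Fin 2 → F'),
        scale d (lift ε₁ (im φ P₁)) = scale (fun j => d j * φ (c j)) (lift ε (im φ P)) := by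
      intro F' _ φ d
      rw [← imC_lift, hPP, imC_scale, imC_lift, scale_scale]
    rw [Prod.dist_eq, max_lt_iff] at hSd
    obtain ⟨hSd1, hSd2⟩ := hSd
    have hS1' : S.1 = scale (fun j => d₁ j * τ (c j)) (lift ε (im τ P)) := by
      rw [hS1]
      exact hrep τ d₁
    have hd₁' : ∀ j, d₁ j * τ (c j) ≠ 0 := fun j => mul_ne_zero (hd₁ j) ((map_ne_zero τ).2 (hc j))
    choose D hD hSD using hS2
    have hSD' : ∀ v, S.2 v = scale (fun j => D v j * σ v (c j)) (lift ε (im (σ v) P)) := by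
      intro v
      rw [hSD v]
      exact hrep (σ v) (D v)
    have hPX : im τ P ∈ XR (map τ (ch G ε)) := hon ε P hP
    have hPU : im τ P ∈ U := by
      have h3 : S.1 ∈ Cone (map τ G) := by
        rw [hS1']
        refine cone_scale hGτ hd₁' (lift_cone.2 ?_)
        rw [← hmapch]
        exact hPX
      have h4 := (hin S.1 h3 (by
        rw [dist_comm]
        exact hSd1.trans_le (min_le_left _ _))).2
      rw [hS1', pr_scale hd₁'] at h4
      exact h4
    have hcc : pr ε u' ∈ connectedComponentIn (XR (map τ (ch G ε))) (im τ P) :=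
      hpre.subset_connectedComponentIn hPU hU h2
    -- the radius
    have hρv : ∀ v, ∃ ρ : ℝ, 0 < ρ ∧ ∀ Q : (Fin 2 → F v) × F v, dist Q (im (σ v) P) < ρ →
        dist (scale (fun j => D v j * σ v (c j)) (lift ε Q)) (S.2 v) < η / 2 := by
      intro v
      have h3 : ContinuousAt (fun Q : (Fin 2 → F v) × F v =>
          scale (fun j => D v j * σ v (c j)) (lift ε Q)) (im (σ v) P) :=
        ((scale_cont _).comp (lift_cont ε)).continuousAt
      rw [hSD' v]
      obtain ⟨ρ, hρ, h4⟩ := Metric.continuousAt_iff.1 h3 (η / 2) (half_pos hη)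
      exact ⟨ρ, hρ, fun Q hQ => h4 hQ⟩
    choose ρ hρ hρ2 using hρv
    obtain ⟨ρ₀, hρ₀, hm⟩ := fin_min hρ
    obtain ⟨ρ₁, hρ₁, hρ₁', hcomp⟩ := hcore ε P hP ρ₀ hρ₀
    have h3 := hcomp hcc
    have h4 : ContinuousAt (fun Q : (Fin 2 → ℝ) × ℝ => scale (fun j => u'.1 (j, ε j)) (lift ε Q)) (pr ε u') :=
      ((scale_cont _).comp (lift_cont ε)).continuousAt
    obtain ⟨κ, hκ, h5⟩ := Metric.continuousAt_iff.1 h4 η hη
    obtain ⟨_, ⟨Q, ⟨hQ1, hQ2⟩, rfl⟩, hQd⟩ := Metric.mem_closure_iff.1 h3 κ hκ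
    refine ⟨(scale (fun j => u'.1 (j, ε j)) (lift ε (im τ Q)),
      fun v => scale (fun j => D v j * σ v (c j)) (lift ε (im (σ v) Q))), ⟨ε, Q, hQ1,
      ⟨_, h1, rfl⟩, fun v => ⟨_, fun j => mul_ne_zero (hD v j) ((map_ne_zero (σ v)).2 (hc j)), rfl⟩⟩, ?_⟩
    rw [Prod.dist_eq, max_lt_iff]
    constructor
    · have h6 := h5 (x := im τ Q) (by rw [dist_comm]; exact hQd)
      rw [scale_pr h1] at h6
      rw [dist_comm]
      exact h6
    · change dist y _ < η
      rw [dist_pi_lt_iff hη]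
      intro v
      have h6 : dist (y v) (S.2 v) < η / 2 :=
        (dist_le_pi_dist y S.2 v).trans_lt (hSd2.trans_le (min_le_right _ _))
      have h7 : dist (S.2 v) (scale (fun j => D v j * σ v (c j)) (lift ε (im (σ v) Q))) < η / 2 := by
        rw [dist_comm]
        apply hρ2 v
        rw [Prod.dist_eq, max_lt_iff, dist_pi_lt_iff (hρ v)]
        refine ⟨fun a => ?_, ?_⟩
        · rw [dist_eq_norm]
          exact ((hQ2 v).1 a).trans_le (hρ₁'.trans (hm v))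
        · rw [dist_eq_norm]
          exact (hQ2 v).2.trans_le (hρ₁'.trans (hm v))
      exact (dist_triangle _ _ _).trans_lt (by linarith)
  -- the component
  have hxB : x ∈ B := by
    rw [hB]
    exact hxy
  have hxC : x ∈ Cone (map τ G) := by
    by_contra h
    rw [connectedComponentIn_eq_empty h] at hx'
    exact hx'
  obtain ⟨W, hW⟩ : ∃ W : Set ((Fin 2 × Fin 2 → ℝ) × ℝ),
      W = {u | ∃ r > 0, ∀ u' ∈ Cone (map τ G), dist u' u < r → u' ∈ B} := ⟨_, rfl⟩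
  have hWo : IsOpen W := by
    rw [Metric.isOpen_iff]
    intro u hu
    rw [hW] at hu
    obtain ⟨r, hr, h1⟩ := hu
    refine ⟨r / 2, half_pos hr, fun u₁ hu₁ => ?_⟩
    rw [hW]
    refine ⟨r / 2, half_pos hr, fun u' hu' hd => h1 u' hu' ?_⟩
    rw [Metric.mem_ball] at hu₁
    exact (dist_triangle _ _ _).trans_lt (by linarith)
  have hpre := isPreconnected_connectedComponentIn (F := Cone (map τ G)) (x := x)
  have hsub := connectedComponentIn_subset (Cone (map τ G)) x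
  have hxx : x ∈ connectedComponentIn (Cone (map τ G)) x := mem_connectedComponentIn hxC
  by_contra hno
  have hno' : x' ∉ B := by
    rw [hB]
    exact hno
  obtain ⟨u, hu1, hu2, hu3⟩ := hpre W Bᶜ hWo hBc.isOpen_compl (by
    intro u hu
    by_cases h : u ∈ B
    · left
      rw [hW]
      exact hopen u h (hsub hu)
    · right
      exact h) ⟨x, hxx, by
        rw [hW]
        exact hopen x hxB hxC⟩ ⟨x', hx', hno'⟩
  rw [hW] at hu2
  obtain ⟨r, hr, h1⟩ := hu2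
  exact hu3 (h1 u (hsub hu1) (by rw [dist_self]; exact hr))

end main

end Pool.Agent.H58RC
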