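import Pool.Agent.H58RC.Main
import Pool.Agent.Q35.ZC.Ct
import Pool.Agent.Q35.ZC.All2

/-!
# Zero-cycles on the double cover of `ℙ¹ × ℙ¹`, in all charts (helper58)
-/

set_option autoImplicit false
set_option linter.unusedSectionVars false

open MvPolynomial Pool.Agent.Y720.MZ

namespace Pool.Agent.H58RC

open Pool.Agent.Q35.TT (ch Hom4)
open Pool.Agent.Q35.ZC (MulPt dl Rat toC push push_mem push_dl S_MAP S_STEP)

section defs

variable {F : Type} [Field F]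

/-- the zero-cycle of a point, given by a representative -/
noncomputable def ptC (X : (Fin 2 × Fin 2 → F) × F) : ((Fin 2 × Fin 2 → F) × F) →₀ ℤ := Finsupp.single X 1

/-- the zero-cycle `[X] - [ι X]` -/
noncomputable def dlC (X : (Fin 2 × Fin 2 → F) × F) : ((Fin 2 × Fin 2 → F) × F) →₀ ℤ :=
  ptC X - ptC (X.1, -X.2)

/-- the cycles in the charts -/
def Charts (G : MvPolynomial (Fin 2 × Fin 2) F) : Set (((Fin 2 × Fin 2 → F) × F) →₀ ℤ) :=
  {z | ∃ (ε : Fin 2 → Fin 2), ∃ z' ∈ Rat (ch G ε), z = z'.mapDomain (lift ε)}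

/-- the differences of two representatives of the same point -/
def Reps (G : MvPolynomial (Fin 2 × Fin 2) F) : Set (((Fin 2 × Fin 2 → F) × F) →₀ ℤ) :=
  {z | ∃ X ∈ Cone G, ∃ d : Fin 2 → F, (∀ j, d j ≠ 0) ∧ z = ptC X - ptC (scale d X)}

/-- a group of zero-cycles which are rationally equivalent to zero -/
noncomputable def RatC (G : MvPolynomial (Fin 2 × Fin 2) F) :
    AddSubgroup (((Fin 2 × Fin 2 → F) × F) →₀ ℤ) := AddSubgroup.closure (Charts G ∪ Reps G)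

/-- a set of points which contains with `X` all points whose differences are odd multiples of the one of `X` -/
def Satur (G : MvPolynomial (Fin 2 × Fin 2) F) (A : Set ((Fin 2 × Fin 2 → F) × F)) : Prop :=
  A ⊆ Cone G ∧ ∀ X ∈ A, ∀ Y ∈ Cone G, (∃ k : ℤ, dlC Y - (2 * k + 1) • dlC X ∈ RatC G) → Y ∈ A

/-- odd multiples -/
def OddC (G : MvPolynomial (Fin 2 × Fin 2) F) (X : (Fin 2 × Fin 2 → F) × F) :
    Set ((Fin 2 × Fin 2 → F) × F) := {Y | Y ∈ Cone G ∧ ∃ k : ℤ, dlC Y - (2 * k + 1) • dlC X ∈ RatC G}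

/-- central points -/
def CenC (G : MvPolynomial (Fin 2 × Fin 2) F) : Set ((Fin 2 × Fin 2 → F) × F) :=
  {X | X ∈ Cone G ∧ ∃ N : ℕ, N ≠ 0 ∧ N • dlC (imC (toC F) X) ∈ RatC (map (toC F) G)}

/-- the affine part of a set of points in the chart `ε` -/
def aff (A : Set ((Fin 2 × Fin 2 → F) × F)) (ε : Fin 2 → Fin 2) : Set ((Fin 2 → F) × F) := {P | lift ε P ∈ A}

end defs

section lemmas

variable {F : Type} [Field F] {G : MvPolynomial (Fin 2 × Fin 2) F}

/-- the map from the cycles in a chart -/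
noncomputable def lf (ε : Fin 2 → Fin 2) :
    (((Fin 2 → F) × F) →₀ ℤ) →+ (((Fin 2 × Fin 2 → F) × F) →₀ ℤ) :=
  Finsupp.mapDomain.addMonoidHom (lift ε)

theorem lf_pt (ε : Fin 2 → Fin 2) (x : Fin 2 → F) (w : F) :
    lf ε (Pool.Agent.Q35.ZC.pt x w) = ptC (lift ε (x, w)) := by
  simp [lf, Pool.Agent.Q35.ZC.pt, ptC]

theorem lf_dl (ε : Fin 2 → Fin 2) (P : (Fin 2 → F) × F) : lf ε (dl P.1 P.2) = dlC (lift ε P) := by
  rw [dl, map_sub, lf_pt, lf_pt]
  rfl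

theorem lf_mem {ε : Fin 2 → Fin 2} {z : ((Fin 2 → F) × F) →₀ ℤ} (hz : z ∈ Rat (ch G ε)) : lf ε z ∈ RatC G :=
  AddSubgroup.subset_closure (Or.inl ⟨ε, z, hz, rfl⟩)

theorem rep_mem {X : (Fin 2 × Fin 2 → F) × F} (hX : X ∈ Cone G) {d : Fin 2 → F} (hd : ∀ j, d j ≠ 0) :
    ptC X - ptC (scale d X) ∈ RatC G :=
  AddSubgroup.subset_closure (Or.inr ⟨X, hX, d, hd, rfl⟩)

theorem neg_cone {X : (Fin 2 × Fin 2 → F) × F} (hX : X ∈ Cone G) : (X.1, -X.2) ∈ Cone G := by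
  refine ⟨hX.1, ?_⟩
  change (-X.2) ^ 2 = _
  rw [neg_sq]
  exact hX.2

theorem scale_neg (d : Fin 2 → F) (X : (Fin 2 × Fin 2 → F) × F) :
    scale d (X.1, -X.2) = ((scale d X).1, -(scale d X).2) := by
  refine Prod.ext rfl ?_
  change (d 0 * d 1) ^ 2 * -X.2 = -((d 0 * d 1) ^ 2 * X.2)
  ring

theorem rep_dl {X : (Fin 2 × Fin 2 → F) × F} (hX : X ∈ Cone G) {d : Fin 2 → F} (hd : ∀ j, d j ≠ 0) :
    dlC X - dlC (scale d X) ∈ RatC G := by
  have h1 := rep_mem hX hd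
  have h2 := rep_mem (neg_cone hX) hd
  rw [scale_neg] at h2
  have h3 := sub_mem h1 h2
  have e : ptC X - ptC (scale d X) - (ptC (X.1, -X.2) - ptC ((scale d X).1, -(scale d X).2)) =
      dlC X - dlC (scale d X) := by
    simp only [dlC]
    abel
  rw [e] at h3
  exact h3

theorem sat_scale (hG : Hom4 G) {A : Set ((Fin 2 × Fin 2 → F) × F)} (hA : Satur G A)
    {X : (Fin 2 × Fin 2 → F) × F} (hX : X ∈ A) {d : Fin 2 → F} (hd : ∀ j, d j ≠ 0) : scale d X ∈ A := by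
  refine hA.2 X hX _ (cone_scale hG hd (hA.1 hX)) ⟨0, ?_⟩
  have h := neg_mem (rep_dl (hA.1 hX) hd)
  have e : -(dlC X - dlC (scale d X)) = dlC (scale d X) - (2 * 0 + 1 : ℤ) • dlC X := by
    simp
  rw [e] at h
  exact h

/-- a set in a chart contains with `P` the odd multiples of its difference -/
theorem sat_odd {A : Set ((Fin 2 × Fin 2 → F) × F)} (hA : Satur G A) {ε : Fin 2 → Fin 2}
    {P Q : (Fin 2 → F) × F} (hP : P ∈ aff A ε) (hQ : Q.2 ^ 2 = eval Q.1 (ch G ε))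
    (h : ∃ k : ℤ, dl Q.1 Q.2 - (2 * k + 1) • dl P.1 P.2 ∈ Rat (ch G ε)) : Q ∈ aff A ε := by
  obtain ⟨k, hk⟩ := h
  refine hA.2 _ hP _ (lift_cone.2 hQ) ⟨k, ?_⟩
  have h1 := lf_mem hk
  rw [map_sub, map_zsmul, lf_dl, lf_dl] at h1
  exact h1

theorem sat_oddC (G : MvPolynomial (Fin 2 × Fin 2) F) (X : (Fin 2 × Fin 2 → F) × F) :
    Satur G (OddC G X) := by
  refine ⟨fun Y hY => hY.1, ?_⟩
  rintro Y ⟨-, k, hk⟩ Z hZ ⟨l, hl⟩
  refine ⟨hZ, 2 * l * k + l + k, ?_⟩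
  have h := add_mem hl (AddSubgroup.zsmul_mem _ hk (2 * l + 1))
  have e : dlC Z - (2 * l + 1) • dlC Y + (2 * l + 1) • (dlC Y - (2 * k + 1) • dlC X) =
      dlC Z - (2 * (2 * l * k + l + k) + 1) • dlC X := by module
  rw [e] at h
  exact h

theorem self_oddC {X : (Fin 2 × Fin 2 → F) × F} (hX : X ∈ Cone G) : X ∈ OddC G X := by
  refine ⟨hX, 0, ?_⟩
  simp

end lemmas

section push

variable {F F' : Type} [Field F] [Field F'] [Infinite F'] (φ : F →+* F')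

/-- the image of a cycle -/
noncomputable def pushC : (((Fin 2 × Fin 2 → F) × F) →₀ ℤ) →+ (((Fin 2 × Fin 2 → F') × F') →₀ ℤ) :=
  Finsupp.mapDomain.addMonoidHom (imC φ)

theorem pushC_pt (X : (Fin 2 × Fin 2 → F) × F) : pushC φ (ptC X) = ptC (imC φ X) := by
  simp [pushC, ptC]

theorem pushC_dl (X : (Fin 2 × Fin 2 → F) × F) : pushC φ (dlC X) = dlC (imC φ X) := by
  rw [dlC, map_sub, pushC_pt, pushC_pt, dlC]
  congr 2
  refine Prod.ext rfl ?_
  exact map_neg φ _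

theorem pushC_lf (ε : Fin 2 → Fin 2) (z : ((Fin 2 → F) × F) →₀ ℤ) :
    pushC φ (lf ε z) = lf ε (push φ z) := by
  change Finsupp.mapDomain (imC φ) (Finsupp.mapDomain (lift ε) z) =
    Finsupp.mapDomain (lift ε) (Finsupp.mapDomain _ z)
  rw [← Finsupp.mapDomain_comp, ← Finsupp.mapDomain_comp]
  congr 1
  funext P
  exact imC_lift φ ε P

theorem cone_im {G : MvPolynomial (Fin 2 × Fin 2) F} {X : (Fin 2 × Fin 2 → F) × F} (hX : X ∈ Cone G) :
    imC φ X ∈ Cone (map φ G) := by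
  refine ⟨fun j => ?_, ?_⟩
  · obtain ⟨b, hb⟩ := hX.1 j
    exact ⟨b, (map_ne_zero φ).2 hb⟩
  · change φ X.2 ^ 2 = eval (fun p => φ (X.1 p)) (map φ G)
    rw [← map_pow, hX.2, eval_map, eval₂_comp]
    rfl

theorem pushC_mem (hM : S_MAP) {G : MvPolynomial (Fin 2 × Fin 2) F}
    {z : ((Fin 2 × Fin 2 → F) × F) →₀ ℤ} (hz : z ∈ RatC G) : pushC φ z ∈ RatC (map φ G) := by
  have h : RatC G ≤ (RatC (map φ G)).comap (pushC φ) := by
    rw [RatC, AddSubgroup.closure_le]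
    rintro z (⟨ε, z', hz', rfl⟩ | ⟨X, hX, d, hd, rfl⟩)
    · change pushC φ (lf ε z') ∈ RatC (map φ G)
      rw [pushC_lf]
      apply lf_mem
      rw [← map_ch]
      exact push_mem hM φ hz'
    · rw [SetLike.mem_coe, AddSubgroup.mem_comap, map_sub, pushC_pt, pushC_pt, imC_scale]
      exact rep_mem (cone_im φ hX) fun j => (map_ne_zero φ).2 (hd j)
  exact h hz

end push

section central

variable {F : Type} [Field F] [CharZero F] {G : MvPolynomial (Fin 2 × Fin 2) F}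

theorem sat_cen (hM : S_MAP) (G : MvPolynomial (Fin 2 × Fin 2) F) : Satur G (CenC G) := by
  have : Infinite (AlgebraicClosure F) := IsAlgClosed.instInfinite
  refine ⟨fun Y hY => hY.1, ?_⟩
  rintro X ⟨-, N, hN, h⟩ Y hY ⟨k, hk⟩
  refine ⟨hY, N, hN, ?_⟩
  have h1 := pushC_mem (toC F) hM hk
  rw [map_sub, map_zsmul, pushC_dl, pushC_dl] at h1
  have h3 := add_mem (AddSubgroup.nsmul_mem _ h1 N) (AddSubgroup.zsmul_mem _ h (2 * k + 1))
  have e : N • (dlC (imC (toC F) Y) - (2 * k + 1) • dlC (imC (toC F) X)) +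
      (2 * k + 1) • (N • dlC (imC (toC F) X)) = N • dlC (imC (toC F) Y) := by
    rw [smul_sub, smul_comm N (2 * k + 1 : ℤ)]
    abel
  rw [e] at h3
  exact h3

/-- the affine central points are central -/
theorem cen_lift {ε : Fin 2 → Fin 2} {P : (Fin 2 → F) × F}
    (hP : P ∈ Pool.Agent.Q35.ZC.CT (ch G ε)) : lift ε P ∈ CenC G := by
  have : Infinite (AlgebraicClosure F) := IsAlgClosed.instInfinite
  obtain ⟨hon, N, hN, h⟩ := hP
  refine ⟨lift_cone.2 hon, N, hN, ?_⟩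
  rw [map_ch] at h
  have h1 := lf_mem h
  rw [map_nsmul, lf_dl] at h1
  rw [imC_lift]
  exact h1

/-- all fibres of the double cover are equivalent, over an algebraically closed field -/
theorem fibre_mem {Ω : Type} [Field Ω] [IsAlgClosed Ω] {G : MvPolynomial (Fin 2 × Fin 2) Ω} (hG : Hom4 G)
    {X Y : (Fin 2 × Fin 2 → Ω) × Ω} (hX : X ∈ Cone G) (hY : Y ∈ Cone G) :
    ptC X + ptC (X.1, -X.2) - (ptC Y + ptC (Y.1, -Y.2)) ∈ RatC G := by
  -- a common point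
  obtain ⟨W, hW⟩ : ∃ W : Ω, W ^ 2 = eval (fun _ => 1) G := IsAlgClosed.exists_pow_nat_eq _ two_pos
  have key : ∀ X ∈ Cone G, ptC X + ptC (X.1, -X.2) -
      (ptC (fun _ => (1 : Ω), W) + ptC (fun _ => (1 : Ω), -W)) ∈ RatC G := by
    intro X hX
    have hε : ∀ j, ∃ b, X.1 (j, b) ≠ 0 := hX.1
    choose ε hε using hε
    have e1 : lift ε (fun _ => (1 : Ω), W) = (fun _ => (1 : Ω), W) := by
      refine Prod.ext ?_ rfl
      funext p
      change (if p.2 = ε p.1 then (1 : Ω) else 1) = 1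
      split_ifs <;> rfl
    have e2 : lift ε (fun _ => (1 : Ω), -W) = (fun _ => (1 : Ω), -W) := by
      refine Prod.ext ?_ rfl
      funext p
      change (if p.2 = ε p.1 then (1 : Ω) else 1) = 1
      split_ifs <;> rfl
    have hc : (fun _ => (1 : Ω), W) ∈ Cone G := ⟨fun j => ⟨0, one_ne_zero⟩, hW⟩
    have h1 : W ^ 2 = eval (fun _ => (1 : Ω)) (ch G ε) := by
      have h2 : lift ε (fun _ => (1 : Ω), W) ∈ Cone G := by
        rw [e1]
        exact hc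
      exact lift_cone.1 h2
    have h3 : Pool.Agent.Q35.ZC.pt (pr ε X).1 (pr ε X).2 + Pool.Agent.Q35.ZC.pt (pr ε X).1 (-(pr ε X).2) -
        Pool.Agent.Q35.ZC.pt (fun _ => 1) W - Pool.Agent.Q35.ZC.pt (fun _ => 1) (-W) ∈ Rat (ch G ε) :=
      AddSubgroup.subset_closure (Or.inr ⟨_, _, _, _, pr_eq hG hX hε, h1, rfl⟩)
    have h4 := lf_mem h3
    rw [map_sub, map_sub, map_add, lf_pt, lf_pt, lf_pt, lf_pt, e1, e2] at h4
    have hL : lift ε ((pr ε X).1, (pr ε X).2) ∈ Cone G := lift_cone.2 (pr_eq hG hX hε)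
    have h5 := rep_mem hL hε
    have h6 := rep_mem (neg_cone hL) hε
    have e3 : scale (fun j => X.1 (j, ε j)) (lift ε ((pr ε X).1, (pr ε X).2)) = X := scale_pr hε
    rw [scale_neg] at h6
    rw [e3] at h5 h6
    have e4 : lift ε ((pr ε X).1, -(pr ε X).2) =
        ((lift ε ((pr ε X).1, (pr ε X).2)).1, -(lift ε ((pr ε X).1, (pr ε X).2)).2) := rfl
    rw [e4] at h4
    have h7 := sub_mem (sub_mem h4 h5) h6
    have e5 : ptC (lift ε ((pr ε X).1, (pr ε X).2)) +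
        ptC ((lift ε ((pr ε X).1, (pr ε X).2)).1, -(lift ε ((pr ε X).1, (pr ε X).2)).2) -
        ptC (fun _ => (1 : Ω), W) - ptC (fun _ => (1 : Ω), -W) -
        (ptC (lift ε ((pr ε X).1, (pr ε X).2)) - ptC X) -
        (ptC ((lift ε ((pr ε X).1, (pr ε X).2)).1, -(lift ε ((pr ε X).1, (pr ε X).2)).2) -
          ptC (X.1, -X.2)) =
        ptC X + ptC (X.1, -X.2) - (ptC (fun _ => (1 : Ω), W) + ptC (fun _ => (1 : Ω), -W)) := by
      abel
    rw [e5] at h7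
    exact h7
  have h := sub_mem (key X hX) (key Y hY)
  have e : ptC X + ptC (X.1, -X.2) - (ptC (fun _ => (1 : Ω), W) + ptC (fun _ => (1 : Ω), -W)) -
      (ptC Y + ptC (Y.1, -Y.2) - (ptC (fun _ => (1 : Ω), W) + ptC (fun _ => (1 : Ω), -W))) =
      ptC X + ptC (X.1, -X.2) - (ptC Y + ptC (Y.1, -Y.2)) := by
    abel
  rw [e] at h
  exact h

/-- two central points are equivalent up to torsion -/
theorem cen_pair (hG : Hom4 G) {X Y : (Fin 2 × Fin 2 → F) × F} (hX : X ∈ CenC G) (hY : Y ∈ CenC G) :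
    ∃ N : ℕ, N ≠ 0 ∧ N • (ptC (imC (toC F) X) - ptC (imC (toC F) Y)) ∈ RatC (map (toC F) G) := by
  obtain ⟨hX0, N1, hN1, h1⟩ := hX
  obtain ⟨hY0, N2, hN2, h2⟩ := hY
  have hG' : Hom4 (map (toC F) G) := by
    intro m hm j
    exact hG m (support_map_subset _ _ hm) j
  have h3 := fibre_mem hG' (cone_im (toC F) hX0) (cone_im (toC F) hY0)
  refine ⟨N1 * N2 * 2, mul_ne_zero (mul_ne_zero hN1 hN2) two_ne_zero, ?_⟩
  have h4 := add_mem (AddSubgroup.nsmul_mem _ h3 (N1 * N2))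
    (sub_mem (AddSubgroup.nsmul_mem _ h1 N2) (AddSubgroup.nsmul_mem _ h2 N1))
  have e : (N1 * N2) • (ptC (imC (toC F) X) + ptC ((imC (toC F) X).1, -(imC (toC F) X).2) -
      (ptC (imC (toC F) Y) + ptC ((imC (toC F) Y).1, -(imC (toC F) Y).2))) +
      (N2 • (N1 • dlC (imC (toC F) X)) - N1 • (N2 • dlC (imC (toC F) Y))) =
      (N1 * N2 * 2) • (ptC (imC (toC F) X) - ptC (imC (toC F) Y)) := by
    simp only [dlC, ← mul_smul, mul_comm N2 N1]
    module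
  rw [e] at h4
  exact h4

end central

/-- the moves stay in a saturated set -/
theorem sat_step (hS : S_STEP) {K : Type} [Field K] [CharZero K] {G : MvPolynomial (Fin 2 × Fin 2) K}
    {A : Set ((Fin 2 × Fin 2 → K) × K)} (hA : Satur G A) {ε : Fin 2 → Fin 2}
    (hd : ∀ j, (ch G ε).degreeOf j ≤ 4) {P : (Fin 2 → K) × K} (hP : P ∈ aff A ε)
    {j : Fin 2} {u Z : K} (hM : MulPt (thj (ch G ε) P j) u Z) : mvp P j u Z ∈ aff A ε := by
  have hon : P.2 ^ 2 = eval P.1 (ch G ε) := lift_cone.1 (hA.1 hP)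
  obtain ⟨m, hm⟩ := hS K 2 (ch G ε) hd P.1 P.2 j u Z hon hM
  exact sat_odd hA hP (step_on hd hon hM) ⟨m, hm⟩

end Pool.Agent.H58RC
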