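import Pool.Agent.H58RC.StmB
import Pool.Agent.Y720.WL.Cy2

/-!
# Real components: stable neighbourhoods at the ultrametric places, and the closure (helper58)
-/

set_option autoImplicit false
set_option linter.unusedSectionVars false

open Pool.Agent.Y720.MZ Pool.Agent.Q35.ZC MvPolynomial

namespace Pool.Agent.H58RC

theorem oth : ∀ j : Fin 2, 1 - j ≠ j := by decide

section star

variable {K : Type} [Field K] [CharZero K] {V : Type} [Finite V] {F : V → Type}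
  [∀ v, NontriviallyNormedField (F v)] [∀ v, ProperSpace (F v)] [∀ v, IsUltrametricDist (F v)]

/-- the rational points near `P` at all places `v` -/
def Nbr (σ : ∀ v, K →+* F v) (P : (Fin 2 → K) × K) (r : ℝ) : Set ((Fin 2 → K) × K) :=
  {Q | ∀ v, (∀ a, ‖σ v (Q.1 a) - σ v (P.1 a)‖ < r) ∧ ‖σ v Q.2 - σ v P.2‖ < r}

theorem star (hST : S_STAY) (σ : ∀ v, K →+* F v) {g : MvPolynomial (Fin 2) K}
    {R : Set ((Fin 2 → K) × K)} {E : Fin 2 → Set K} (hE : Env g R E) {P : (Fin 2 → K) × K} (hP : P ∈ Off R E)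
    {ε : ℝ} (hε : 0 < ε) : ∃ r : ℝ, 0 < r ∧ r ≤ ε ∧ ∃ M : ℕ, Loc g (Nbr σ P r) M := by
  classical
  have : Fintype V := Fintype.ofFinite V
  have hcz : ∀ v, CharZero (F v) := fun v => charZero_of_injective_ringHom (σ v).injective
  have hon : onX g P.1 P.2 := hE.on P hP.1
  have hst : ∀ x : V × Fin 2, ∃ δ : ℝ, 0 < δ ∧ ∀ η : ℝ, 0 < η → ∃ M : ℕ, M ≠ 0 ∧
      ∀ θ : K × (Fin 4 → K), ‖σ x.1 θ.1 - σ x.1 P.2‖ < δ →
      (∀ j, ‖σ x.1 (θ.2 j) - σ x.1 (cq g P.1 (Pi.single x.2 1) j)‖ < δ) → ∀ m : ℤ, (M : ℤ) ∣ m →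
        ∀ u Z : K, MulN θ m u Z → ‖σ x.1 u‖ < η ∧ ‖σ x.1 Z - σ x.1 θ.1‖ < η := by
    rintro ⟨v, j⟩
    refine hST K (F v) (σ v) (σ v (thj g P j).1, fun k => σ v ((thj g P j).2 k)) ?_ ?_
    · exact (map_ne_zero (σ v)).2 hP.2.1
    · have eA : tA (σ v (thj g P j).1, fun k => σ v ((thj g P j).2 k)) = σ v (tA (thj g P j)) := rfl
      have eB : tB (σ v (thj g P j).1, fun k => σ v ((thj g P j).2 k)) = σ v (tB (thj g P j)) := by
        simp only [tB, rb, map_sub, map_mul, map_pow, map_ofNat]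
      have eC : tC (σ v (thj g P j).1, fun k => σ v ((thj g P j).2 k)) = σ v (tC (thj g P j)) := by
        simp only [tC, rc, map_sub, map_add, map_mul, map_pow, map_ofNat]
      rw [eA, eB, eC, ← map_dsc]
      refine (map_ne_zero (σ v)).2 ?_
      have h1 : dsc (tA (thj g P j)) (tB (thj g P j)) (tC (thj g P j)) = Tq g (Pi.single j 1) P.1 :=
        Tq_eq hon
      rw [h1]
      exact hE.sm P.1 (1 - j) j (oth j) (hP.2.2 _)
  choose δ hδ hδ2 using hst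
  obtain ⟨δ₀, hδ₀, hm⟩ := fin_min hδ
  have hcq : ∀ j : Fin 2, ∃ ρ : ℝ, 0 < ρ ∧ ∀ z : Fin 2 → K,
      (∀ v a, ‖σ v (z a) - σ v (P.1 a)‖ < ρ) →
      ∀ v k, ‖σ v (cq g z (Pi.single j 1) k) - σ v (cq g P.1 (Pi.single j 1) k)‖ < δ₀ := by
    intro j
    obtain ⟨ρ, hρ, h1⟩ := cq_nearL (s := σ) g (Pi.single j 1) (fun v a => σ v (P.1 a)) hδ₀
    refine ⟨ρ, hρ, fun z hz v k => ?_⟩
    have h2 := h1 z hz v k
    have h3 : cq (MvPolynomial.map (σ v) g) (fun a => σ v (P.1 a))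
        (fun a => σ v ((Pi.single j 1 : Fin 2 → K) a)) k = σ v (cq g P.1 (Pi.single j 1) k) := by
      simp only [cq, ← rst_map, Polynomial.coeff_map]
    rw [h3] at h2
    exact h2
  choose ρ hρ hρ2 using hcq
  obtain ⟨ρ₀, hρ₀, hm2⟩ := fin_min hρ
  obtain ⟨r, hr⟩ : ∃ r : ℝ, r = min ε (min δ₀ ρ₀) := ⟨_, rfl⟩
  have hr0 : 0 < r := by
    rw [hr]
    exact lt_min hε (lt_min hδ₀ hρ₀)
  have hr1 : r ≤ ε := by
    rw [hr]
    exact min_le_left _ _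
  have hr2 : r ≤ δ₀ := by
    rw [hr]
    exact (min_le_right _ _).trans (min_le_left _ _)
  have hr3 : r ≤ ρ₀ := by
    rw [hr]
    exact (min_le_right _ _).trans (min_le_right _ _)
  refine ⟨r, hr0, hr1, ?_⟩
  have hM : ∀ x : V × Fin 2, ∃ M : ℕ, M ≠ 0 ∧
      ∀ θ : K × (Fin 4 → K), ‖σ x.1 θ.1 - σ x.1 P.2‖ < δ x →
      (∀ j, ‖σ x.1 (θ.2 j) - σ x.1 (cq g P.1 (Pi.single x.2 1) j)‖ < δ x) → ∀ m : ℤ, (M : ℤ) ∣ m →
        ∀ u Z : K, MulN θ m u Z → ‖σ x.1 u‖ < r ∧ ‖σ x.1 Z - σ x.1 θ.1‖ < r := fun x => hδ2 x r hr0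
  choose M hM0 hM2 using hM
  refine ⟨∏ x, M x, ⟨Finset.prod_ne_zero_iff.2 fun x _ => hM0 x, ?_⟩⟩
  intro Q hQ j m u Z hdvd hmul v
  have hd : ((M (v, j) : ℕ) : ℤ) ∣ m :=
    (Int.natCast_dvd_natCast.2 (Finset.dvd_prod_of_mem M (Finset.mem_univ (v, j)))).trans hdvd
  obtain ⟨h1, h2⟩ := hM2 (v, j) (thj g Q j) (((hQ v).2.trans_le hr2).trans_le (hm (v, j)))
    (fun k => ((hρ2 j Q.1 (fun v' a => (((hQ v').1 a).trans_le hr3).trans_le (hm2 j)) v k).trans_le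
      (hm (v, j)))) m hd u Z hmul
  refine ⟨fun a => ?_, ?_⟩
  · change ‖σ v (Q.1 a + u * (Pi.single j 1 : Fin 2 → K) a) - σ v (P.1 a)‖ < r
    by_cases ha : a = j
    · subst ha
      have e1 : σ v (Q.1 a + u * (Pi.single a 1 : Fin 2 → K) a) - σ v (P.1 a) =
          (σ v (Q.1 a) - σ v (P.1 a)) + σ v u := by
        rw [Pi.single_eq_same, mul_one, map_add]
        ring
      rw [e1]
      exact (IsUltrametricDist.norm_add_le_max _ _).trans_lt (max_lt ((hQ v).1 a) h1)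
    · rw [Pi.single_eq_of_ne ha, mul_zero, add_zero]
      exact (hQ v).1 a
  · change ‖σ v Z - σ v P.2‖ < r
    have e1 : σ v Z - σ v P.2 = (σ v Z - σ v (thj g Q j).1) + (σ v Q.2 - σ v P.2) := by
      change _ = (σ v Z - σ v Q.2) + _
      ring
    rw [e1]
    exact (IsUltrametricDist.norm_add_le_max _ _).trans_lt (max_lt h2 (hQ v).2)

end star

section comps

variable {K : Type} [Field K] [CharZero K] {g : MvPolynomial (Fin 2) K}
  {R : Set ((Fin 2 → K) × K)} {E : Fin 2 → Set K}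

theorem im_XR (hE : Env g R E) (τ : K →+* ℝ) {P : (Fin 2 → K) × K} (hP : P ∈ R) :
    im τ P ∈ XR (map τ g) := by
  change τ P.2 ^ 2 = eval (fun j => τ (P.1 j)) (map τ g)
  rw [← map_pow, hE.on P hP, eval_map, eval₂_comp]
  rfl

theorem XR_closed (g : MvPolynomial (Fin 2) ℝ) : IsClosed (XR g) :=
  isClosed_eq (continuous_snd.pow 2) ((MvPolynomial.continuous_eval g).comp continuous_fst)

theorem Ac_sub (hE : Env g R E) (τ : K →+* ℝ) (N : Set ((Fin 2 → K) × K)) : Ac τ R E N ⊆ XR (map τ g) := by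
  refine closure_minimal ?_ (XR_closed _)
  rintro _ ⟨P, hP, rfl⟩
  exact im_XR hE τ hP.1.1

/-- the real closure has the properties of `Geo` -/
theorem geo (hR : S_RSL) (hP : S_PERT) (hS : S_SLD) (hC : S_CRO) (hC' : S_CRS) (hB : S_BRE)
    (hE : Env g R E) (τ : K →+* ℝ) (hfin : ∀ j, (Bad (map τ g) j).Finite)
    (hsm : ∀ x ∈ XR (map τ g), x.2 = 0 → ∃ j, eval x.1 (pderiv j (map τ g)) ≠ 0)
    {N : Set ((Fin 2 → K) × K)} {M : ℕ} (hN : Loc g N M) :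
    Geo (map τ g) (Bad (map τ g)) (Ac τ R E N) := by
  have hgd : ∀ j, (map τ g).degreeOf j ≤ 4 := fun j => degreeOf_map_le _ (hE.deg j)
  refine ⟨hfin, hsm, ?_, isClosed_closure, Ac_sub hE τ N, ?_, ?_, ?_⟩
  · intro x hx hx0 i j hij hi
    exact hB.2 (map τ g) hgd x hx hx0 i j hij hi
  · refine closure_mono ?_
    rintro _ ⟨P, hP, rfl⟩
    refine ⟨subset_closure ⟨P, hP, rfl⟩, (map_ne_zero τ).2 hP.1.2.1, fun j => ?_⟩
    exact hB.1 K τ g hE.deg P.1 j (1 - j) (oth j).symm (hE.sm P.1 j (1 - j) (oth j).symm (hP.1.2.2 j))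
  · exact hS hR hP K τ g R E N M hE hN
  · exact hC' hC hP hR K τ g R E N M hE hN

end comps

section final

variable {K : Type} [Field K] [CharZero K] {V : Type} [Finite V] {F : V → Type}
  [∀ v, NontriviallyNormedField (F v)] [∀ v, ProperSpace (F v)] [∀ v, IsUltrametricDist (F v)]
  {g : MvPolynomial (Fin 2) K} {R : Set ((Fin 2 → K) × K)} {E : Fin 2 → Set K}

/-- the component of a rational point, near this point at the ultrametric places -/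
theorem comp_sub (hT : S_STAY) (hR : S_RSL) (hP : S_PERT) (hS : S_SLD) (hC : S_CRO) (hC' : S_CRS) (hB : S_BRE)
    (hG : ∀ (g : MvPolynomial (Fin 2) ℝ) (B : Fin 2 → Set ℝ) (A : Set ((Fin 2 → ℝ) × ℝ)), Geo g B A →
      ∀ x ∈ A, connectedComponentIn (XR g) x ⊆ A)
    (hE : Env g R E) (σ : ∀ v, K →+* F v) (τ : K →+* ℝ) (hfin : ∀ j, (Bad (map τ g) j).Finite)
    (hsm : ∀ x ∈ XR (map τ g), x.2 = 0 → ∃ j, eval x.1 (pderiv j (map τ g)) ≠ 0)
    {P : (Fin 2 → K) × K} (hPO : P ∈ Off R E) {ε : ℝ} (hε : 0 < ε) :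
    ∃ ρ : ℝ, 0 < ρ ∧ ρ ≤ ε ∧
      connectedComponentIn (XR (map τ g)) (im τ P) ⊆ closure (im τ '' (Off R E ∩ Nbr σ P ρ)) := by
  obtain ⟨ρ, hρ, hρε, M, hM⟩ := star hT σ hE hPO hε
  have hPN : P ∈ Nbr σ P ρ := by
    intro v
    simp [hρ]
  have hA : im τ P ∈ Ac τ R E (Nbr σ P ρ) := subset_closure ⟨P, ⟨hPO, hPN⟩, rfl⟩
  exact ⟨ρ, hρ, hρε, hG _ _ _ (geo hR hP hS hC hC' hB hE τ hfin hsm hM) _ hA⟩

/-- **The closure of the rational points is a union of sets (real component) × (point).** -/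
theorem final (hT : S_STAY) (hR : S_RSL) (hP : S_PERT) (hS : S_SLD) (hC : S_CRO) (hC' : S_CRS) (hB : S_BRE)
    (hpunct : ∀ (g : MvPolynomial (Fin 2) ℝ) (x : (Fin 2 → ℝ) × ℝ), x ∈ XR g →
      (x.2 = 0 → ∃ j, eval x.1 (pderiv j g) ≠ 0) → ∀ ρ : ℝ, 0 < ρ → ∃ V ⊆ XR g, (∀ x' ∈ V, dist x' x < ρ) ∧
      x ∈ V ∧ (∃ r > 0, ∀ x' ∈ XR g, dist x' x < r → x' ∈ V) ∧ IsPreconnected V ∧ IsPreconnected (V \ {x}))
    (hG : ∀ (g : MvPolynomial (Fin 2) ℝ) (B : Fin 2 → Set ℝ) (A : Set ((Fin 2 → ℝ) × ℝ)), Geo g B A →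
      ∀ x ∈ A, connectedComponentIn (XR g) x ⊆ A)
    (hE : Env g R E) (σ : ∀ v, K →+* F v) (τ : K →+* ℝ) (hfin : ∀ j, (Bad (map τ g) j).Finite)
    (hsm : ∀ x ∈ XR (map τ g), x.2 = 0 → ∃ j, eval x.1 (pderiv j (map τ g)) ≠ 0)
    (x x' : (Fin 2 → ℝ) × ℝ) (y : ∀ v, (Fin 2 → F v) × F v)
    (hxy : (x, y) ∈ closure {S | ∃ P ∈ Off R E, S = (im τ P, fun v => im (σ v) P)})
    (hx' : x' ∈ connectedComponentIn (XR (map τ g)) x) :
    (x', y) ∈ closure {S : ((Fin 2 → ℝ) × ℝ) × (∀ v, (Fin 2 → F v) × F v) |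
      ∃ P ∈ Off R E, S = (im τ P, fun v => im (σ v) P)} := by
  have : Fintype V := Fintype.ofFinite V
  have hx : x ∈ XR (map τ g) := by
    by_contra h
    rw [connectedComponentIn_eq_empty h] at hx'
    exact hx'
  obtain ⟨U, hU, -, hxU, ⟨r, hr, hrU⟩, hpre, -⟩ := hpunct (map τ g) x hx (hsm x hx) 1 one_pos
  rw [Metric.mem_closure_iff] at hxy ⊢
  intro ε hε
  obtain ⟨_, ⟨P, hPO, rfl⟩, hd⟩ := hxy (min r (ε / 2)) (lt_min hr (half_pos hε))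
  rw [Prod.dist_eq, max_lt_iff] at hd
  obtain ⟨hd1, hd2⟩ := hd
  have hPX : im τ P ∈ XR (map τ g) := im_XR hE τ hPO.1
  have hPU : im τ P ∈ U := by
    refine hrU _ hPX ?_
    rw [dist_comm]
    exact hd1.trans_le (min_le_left _ _)
  have hcc : connectedComponentIn (XR (map τ g)) x = connectedComponentIn (XR (map τ g)) (im τ P) :=
    connectedComponentIn_eq (hpre.subset_connectedComponentIn hxU hU hPU)
  rw [hcc] at hx'
  obtain ⟨ρ, hρ, hρε, M, hM⟩ := star hT σ hE hPO (half_pos hε)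
  have hPN : P ∈ Nbr σ P ρ := by
    intro v
    simp [hρ]
  have hA : im τ P ∈ Ac τ R E (Nbr σ P ρ) := subset_closure ⟨P, ⟨hPO, hPN⟩, rfl⟩
  have h1 := hG _ _ _ (geo hR hP hS hC hC' hB hE τ hfin hsm hM) _ hA hx'
  obtain ⟨_, ⟨Q, ⟨hQ1, hQ2⟩, rfl⟩, hQd⟩ := Metric.mem_closure_iff.1 h1 ε hε
  refine ⟨_, ⟨Q, hQ1, rfl⟩, ?_⟩
  rw [Prod.dist_eq, max_lt_iff]
  refine ⟨hQd, ?_⟩
  change dist y (fun v => im (σ v) Q) < ε
  rw [dist_pi_lt_iff hε]
  intro v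
  have h2 : dist (y v) (im (σ v) P) < ε / 2 :=
    (dist_le_pi_dist y (fun v => im (σ v) P) v).trans_lt (hd2.trans_le (min_le_right _ _))
  have h3 : dist (im (σ v) P) (im (σ v) Q) < ε / 2 := by
    rw [dist_comm, Prod.dist_eq, max_lt_iff, dist_pi_lt_iff (half_pos hε)]
    refine ⟨fun a => ?_, ?_⟩
    · rw [dist_eq_norm]
      exact ((hQ2 v).1 a).trans_le hρε
    · rw [dist_eq_norm]
      exact (hQ2 v).2.trans_le hρε
  calc dist (y v) (im (σ v) Q) ≤ dist (y v) (im (σ v) P) + dist (im (σ v) P) (im (σ v) Q) := dist_triangle _ _ _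
    _ < ε := by linarith

end final

end Pool.Agent.H58RC
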