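import Pool.Agent.H58RC.Cyc

/-!
# Real components: the exceptional sets, with the directions which serve (helper58)
-/

set_option autoImplicit false
set_option linter.unusedSectionVars false

open MvPolynomial Pool.Agent.Y720.MZ

namespace Pool.Agent.H58RC

open Pool.Agent.Q35.TT Pool.Agent.Q35.TB
open Pool.Agent.Q35.ZC (line GenusOne NotSpecial Moves genusOne_iff line_map genus_map line_twist genus_twist
  moves_of io_of MulPt S_STEP Odds DenseReal)

/-- off the exceptional lines each direction serves -/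
def Srv {K : Type} [Field K] [NumberField K] (f : MvPolynomial (Fin 2) K)
    (E : Fin 2 → Set (AlgebraicClosure K)) : Prop :=
  ∀ (L : Type) [Field L] [NumberField L] [Algebra K L] (φ : L →ₐ[K] AlgebraicClosure K)
    (z : Fin 2 → L) (i j : Fin 2), i ≠ j → φ (z j) ∉ E j → NotSpecial (ex L f) z i j

theorem dat_mono {K : Type} [Field K] [NumberField K] {f : MvPolynomial (Fin 2) K} {D : ℕ}
    {T T' : Set (Fin 2 → AlgebraicClosure K)} {E E' : Fin 2 → Set (AlgebraicClosure K)} (h : Dat f D T E)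
    (hT : T'.Finite) (hE : ∀ j, (E' j).Finite) (h1 : T ⊆ T') (h2 : ∀ j, E j ⊆ E' j)
    (h3 : ∀ t, (∀ j, t j ∈ E' j) → t ∈ T') : Dat f D T' E' := by
  refine ⟨hT, hE, h3, ?_, ?_, ?_, ?_⟩
  · intro L _ _ _ φ z i j hij hj
    exact h.genus L φ z i j hij fun hh => hj (h2 j hh)
  · intro L _ _ _ φ z i j hij hj
    exact h.nd L φ z i j hij fun hh => hj (h2 j hh)
  · intro L _ _ _ hD z hz φ
    exact h1 (h.tor L hD z hz φ)
  · intro L _ _ _ hD e he z w hw hon φ hz hM
    exact h.opn L hD e he z w hw hon φ (fun hh => hz (h1 hh)) fun j hj => hM j (h2 j hj)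

theorem dat2 (K : Type) [Field K] [NumberField K] (f : MvPolynomial (Fin 2) K) (hf : ∀ j, f.degreeOf j ≤ 4)
    (hs : SmoothN f) (D : ℕ) : ∃ T E, Dat f D T E ∧ Srv f E := by
  classical
  have h3 : S_SPE := Pool.Agent.Q149.TT.spe
  have hreg := (Pool.Agent.Results.MP_ed3816_nt.OpenAwayFromTorsion.result).2 K f hf
    (Pool.Agent.Q222.TT.Opn.ex_genus h3 hf hs)
    (Pool.Agent.Q222.TT.Opn.not_prod h3 hf hs) (AlgebraicClosure K) (algebraMap K (AlgebraicClosure K))
  obtain ⟨T, E, hDat⟩ := dat K f hf hs D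
  obtain ⟨fb, hfb⟩ : ∃ fb : MvPolynomial (Fin 2) (AlgebraicClosure K),
      fb = map (algebraMap K (AlgebraicClosure K)) f := ⟨_, rfl⟩
  obtain ⟨E1, hE1⟩ : ∃ E1 : Fin 2 → Set (AlgebraicClosure K), E1 = fun j => {c | ∃ i, i ≠ j ∧
      ∃ x : Fin 2 → AlgebraicClosure K, x j = c ∧ ¬ (GenusOne (line fb x i) ∧ NotSpecial fb x i j)} := ⟨_, rfl⟩
  have hE1f : ∀ j, (E1 j).Finite := by
    intro j
    have h4 : (⋃ i ∈ {i : Fin 2 | i ≠ j}, {c | ∃ x : Fin 2 → AlgebraicClosure K, x j = c ∧
        ¬ (GenusOne (line fb x i) ∧ NotSpecial fb x i j)}).Finite :=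
      (Set.toFinite _).biUnion fun i hi => by
        rw [hfb]
        exact hreg i j hi
    refine h4.subset ?_
    rw [hE1]
    rintro c ⟨i, hi, x, hx, hn⟩
    exact Set.mem_iUnion₂.2 ⟨i, hi, x, hx, hn⟩
  have hfin : ∀ j, (E j ∪ E1 j).Finite := fun j => (hDat.finE j).union (hE1f j)
  refine ⟨T ∪ {t | ∀ j, t j ∈ E j ∪ E1 j}, fun j => E j ∪ E1 j,
    dat_mono hDat (hDat.finT.union (Set.Finite.pi' hfin)) hfin Set.subset_union_left
      (fun j => Set.subset_union_left) (fun t ht => Or.inr ht), ?_⟩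
  intro L _ _ _ φ z i j hij hj
  have hmap : map (φ : L →+* AlgebraicClosure K) (ex L f) = fb := by
    rw [hfb]
    show map _ (map _ f) = _
    rw [MvPolynomial.map_map]
    exact congrArg (fun ψ => map ψ f) φ.comp_algebraMap
  have h5 : GenusOne (line fb (fun a => φ (z a)) i) ∧ NotSpecial fb (fun a => φ (z a)) i j := by
    by_contra hcon
    apply hj
    right
    rw [hE1]
    exact ⟨i, hij, fun a => φ (z a), rfl, hcon⟩
  rw [← hmap] at h5
  exact Pool.Agent.H58U.special_desc (φ : L →+* AlgebraicClosure K) h5.2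

section use

variable {K : Type} [Field K] [NumberField K] {f : MvPolynomial (Fin 2) K} {D : ℕ}
  {T : Set (Fin 2 → AlgebraicClosure K)} {E : Fin 2 → Set (AlgebraicClosure K)}

/-- **The odd multiples are dense near a good point.** -/
theorem opnR (hS : S_STEP) (hf : ∀ j, f.degreeOf j ≤ 4) (hDat : Dat f D T E) (hSrv : Srv f E)
    (L : Type) [Field L] [NumberField L] [Algebra K L] (hD : Module.finrank K L ≤ D) {e : L} (he : e ≠ 0)
    (φ : L →ₐ[K] AlgebraicClosure K) {P : (Fin 2 → L) × L} (hw : P.2 ≠ 0)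
    (hon : P.2 ^ 2 = eval P.1 (C e * ex L f)) (hT : (fun j => φ (P.1 j)) ∉ T)
    (hM : ∀ j, φ (P.1 j) ∈ E j → Pool.Agent.Results.MP_ed3816_nt.OpenAwayFromTorsion.Moves (C e * ex L f) P j)
    {ι : Type} [Finite ι] [Nonempty ι] {p : ι → ℕ} [∀ v, Fact (p v).Prime] (hp : Function.Injective p)
    (σ : ∀ v, L →+* ℚ_[p v]) (τ : L →+* ℝ) :
    DenseReal (C e * ex L f) (Odds (C e * ex L f) P) P σ τ := by
  have hfL : ∀ j, (ex L f).degreeOf j ≤ 4 := fun j => degreeOf_map_le _ (hf j)
  have hg : ∀ j, (C e * ex L f).degreeOf j ≤ 4 := fun j => (degreeOf_C_mul_le _ j e).trans (hfL j)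
  have hdir : ∃ i, Moves (C e * ex L f) P i ∧ ∀ j, i ≠ j → NotSpecial (C e * ex L f) P.1 i j := by
    by_cases hall : ∀ j, φ (P.1 j) ∉ E j
    · have hT3 : ∃ i, ¬ TorN (ex L f) P.1 i := by
        by_contra hno
        push Not at hno
        exact hT (hDat.tor L hD P.1 hno φ)
      obtain ⟨i, hi⟩ := hT3
      have hG : GenusOne (line (ex L f) P.1 i) := hDat.genus L φ P.1 i (1 - i) (oth i).symm (hall _)
      have hG' : GenusOne (line (C e * ex L f) P.1 i) := by
        rw [line_twist]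
        exact genus_twist he hG
      have hI : ∀ N : ℕ, N ≠ 0 → ¬ Tor (lc (C e * ex L f) (af P.1) i) (P.1 i) P.2 N := by
        intro N hN h5
        rw [Pool.Agent.Q190.TT.lc_smul _ e he, tws2 L _ e _ _ _ he] at h5
        exact hi ⟨N, hN, h5.2.2⟩
      exact ⟨i, moves_of hg hw hon hG' hI, fun j hij =>
        Pool.Agent.Q35.ZC.special_twist he (hSrv L φ P.1 i j hij (hall j))⟩
    · push Not at hall
      obtain ⟨i, hi⟩ := hall
      refine ⟨i, hM i hi, fun j hij => Pool.Agent.Q35.ZC.special_twist he (hSrv L φ P.1 i j hij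
        fun hj => hT (hDat.pair _ fun k => ?_))⟩
      have h01 : ∀ a b k : Fin 2, a ≠ b → k = a ∨ k = b := by decide
      rcases h01 i j k hij with rfl | rfl
      · exact hi
      · exact hj
  obtain ⟨i, hMi, hNi⟩ := hdir
  exact (Pool.Agent.Q35.ZC.near hS hg (P := P) hon hw (fun j => ⟨i, hMi, by
    by_cases h : i = j
    · exact Or.inl h
    · exact Or.inr (hNi j h)⟩) hp σ).2 τ

/-- **Almost all points over a tangent line are good.** -/
theorem tan_good (hf : ∀ j, f.degreeOf j ≤ 4) (hs : SmoothN f) (hDat : Dat f D T E) {i j : Fin 2} (hij : i ≠ j)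
    {c : K} (ht : ∃ y : Fin 2 → AlgebraicClosure K, y j = algebraMap K (AlgebraicClosure K) c ∧ aeval y f = 0 ∧
      aeval y (pderiv i f) = 0) :
    ∃ S : Set K, S.Finite ∧ ∀ (L : Type) [Field L] [NumberField L] [Algebra K L] [Algebra.IsAlgebraic K L]
      (φ : L →ₐ[K] AlgebraicClosure K) (e : L), e ≠ 0 → ∀ (z : Fin 2 → K) (w : L), z j = c → z i ∉ S →
      w ^ 2 = eval (fun k => algebraMap K L (z k)) (C e * ex L f) →
        w ≠ 0 ∧ (fun k => φ (algebraMap K L (z k))) ∉ T ∧
        ∀ k, φ (algebraMap K L (z k)) ∈ E k →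
          Pool.Agent.Results.MP_ed3816_nt.OpenAwayFromTorsion.Moves (C e * ex L f)
            ((fun k => algebraMap K L (z k)), w) k := by
  classical
  obtain ⟨z₀, hz₀⟩ : ∃ z₀ : Fin 2 → K, z₀ = fun _ => c := ⟨_, rfl⟩
  have hij' : ∀ k : Fin 2, k ≠ i → k = j := by
    intro k hk
    have := hij
    omega
  have hup : ∀ z : Fin 2 → K, z j = c → z = Function.update z₀ i (z i) := by
    intro z hz
    funext k
    by_cases hk : k = i
    · subst hk; simp
    · rw [Function.update_of_ne hk, hij' k hk, hz, hz₀]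
  obtain ⟨hND, hne⟩ := Pool.Agent.Q35.ZC.ndt2 K f hf hs i j hij z₀ (by rw [hz₀]; exact ht)
  have hfin1 : {t : K | TorN f (Function.update z₀ i t) j}.Finite := (tbn_of orn2) K 2 f hf z₀ i j hij hND
  have hfin2 : {t : K | algebraMap K (AlgebraicClosure K) t ∈ E i}.Finite :=
    (hDat.finE i).preimage ((algebraMap K (AlgebraicClosure K)).injective.injOn)
  have hfin4 : {t : K | ∃ u ∈ T, u i = algebraMap K (AlgebraicClosure K) t}.Finite := by
    have h1 := (hDat.finT.image fun u => u i).preimage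
      ((algebraMap K (AlgebraicClosure K)).injective.injOn)
    refine h1.subset ?_
    rintro t ⟨u, hu, h⟩
    exact ⟨u, hu, h⟩
  have hlc : ∀ t : K, lc f (af (Function.update z₀ i t)) i = lc f (af z₀) i := fun t =>
    Pool.Agent.Q222.TT.Opn.lc_line hf _ _ i fun k hk => by rw [Function.update_of_ne hk]
  have hpq : Pool.Agent.Q35.TT.pq (lc f (af z₀) i) ≠ 0 := Pool.Agent.Q35.ZC.pq_ne hne
  have hfin3 : {t : K | (Pool.Agent.Q35.TT.pq (lc f (af z₀) i)).eval t = 0}.Finite :=
    Polynomial.finite_setOfPred_isRoot hpq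
  refine ⟨_, ((hfin1.union hfin2).union hfin3).union hfin4, ?_⟩
  intro L _ _ _ _ φ e he z w hz hS' hon
  rw [Set.mem_union, Set.mem_union, Set.mem_union, not_or, not_or, not_or] at hS'
  obtain ⟨⟨⟨k1, k2⟩, k3⟩, k4⟩ := hS'
  have hφ : ∀ a : K, φ (algebraMap K L a) = algebraMap K (AlgebraicClosure K) a := fun a => φ.commutes a
  have hfL : ∀ j, (ex L f).degreeOf j ≤ 4 := fun j => degreeOf_map_le _ (hf j)
  have hg : ∀ j, (C e * ex L f).degreeOf j ≤ 4 := fun j => (degreeOf_C_mul_le _ j e).trans (hfL j)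
  have hev0 : eval z f = (Pool.Agent.Q35.TT.pq (lc f (af z₀) i)).eval (z i) := by
    have e1 : lc f (af z) i = lc f (af z₀) i := by rw [hup z hz, hlc]
    rw [Pool.Agent.Q121.TT.pq_eval, Pool.Agent.Q222.TT.Opn.eval_lc hf z i, e1]
  have hev : eval (fun k => algebraMap K L (z k)) (C e * ex L f) = e * algebraMap K L (eval z f) := by
    rw [map_mul, eval_C, eval_map, eval₂_comp]
    rfl
  have hw : w ≠ 0 := by
    rintro rfl
    apply k3
    rw [Set.mem_ofPred_eq, ← hev0]
    rw [hev, zero_pow two_ne_zero] at hon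
    exact (map_eq_zero (algebraMap K L)).1 ((mul_eq_zero.1 hon.symm).resolve_left he)
  refine ⟨hw, ?_, ?_⟩
  · intro hT
    exact k4 ⟨_, hT, hφ _⟩
  · intro k hk
    have hki : k ≠ i := by
      rintro rfl
      apply k2
      rw [hφ] at hk
      exact hk
    obtain rfl := hij' k hki
    have hG : GenusOne (line (ex L f) (fun k => algebraMap K L (z k)) k) := by
      refine hDat.genus L φ _ k i hki ?_
      rw [hφ]
      exact k2
    have hG' : GenusOne (line (C e * ex L f) (fun k => algebraMap K L (z k)) k) := by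
      rw [line_twist]
      exact genus_twist he hG
    have hI : ∀ N : ℕ, N ≠ 0 → ¬ Tor (lc (C e * ex L f) (af fun k => algebraMap K L (z k)) k)
        (algebraMap K L (z k)) w N := by
      intro N hN h5
      rw [Pool.Agent.Q190.TT.lc_smul _ e he, tws2 L _ e _ _ _ he] at h5
      have h6 : TorN (ex L f) (fun j => algebraMap K L (z j)) k := ⟨N, hN, h5.2.2⟩
      rw [((exf2 K L 2 0 (by intro m hm; simp at hm)).2.2.2.2 f hf).2.2 z k] at h6
      apply k1
      rw [Set.mem_ofPred_eq, ← hup z hz]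
      exact h6
    exact moves_of hg hw hon hG' hI

end use

end Pool.Agent.H58RC
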