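import Pool.Agent.H58RC.Dat

/-!
# Real components: finiteness of the real bad values, smoothness (helper58)
-/

set_option autoImplicit false
set_option linter.unusedSectionVars false

open MvPolynomial Pool.Agent.Y720.MZ

namespace Pool.Agent.H58RC

open Pool.Agent.Q35.TT Pool.Agent.Q35.TB
open Pool.Agent.Q35.ZC (line GenusOne NotSpecial genusOne_iff line_map genus_map line_twist genus_twist)

section facts

variable {K : Type} [Field K] [CharZero K]

theorem bd_d {f : MvPolynomial (Fin 2) K} (hf : ∀ j, f.degreeOf j ≤ 4) (y : Fin 2 → K) (i : Fin 2) :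
    bd (lc f (af y) i) ![1, y i] 1 = eval y (pderiv i f) := by
  fin_cases i
  · change bd (lc f (af y) 0) ![1, y 0] 1 = eval y (pderiv 0 f)
    rw [Pool.Agent.Q121.TT.lc_zero f hf, Pool.Agent.Q121.TT.eval_d f hf]
    simp only [bd, cx, bq, gd, af]
    simp
    ring
  · change bd (lc f (af y) 1) ![1, y 1] 1 = eval y (pderiv 1 f)
    rw [Pool.Agent.Q121.TT.lc_one f hf, Pool.Agent.Q121.TT.eval_d' f hf]
    simp only [bd, cy, bq, gd, af]
    simp
    ring

/-- the affine curve `f = 0` has no singular points -/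
theorem no_sing {f : MvPolynomial (Fin 2) K} (hf : ∀ j, f.degreeOf j ≤ 4) (hs : SmoothN f)
    (y : Fin 2 → AlgebraicClosure K) (h0 : aeval y f = 0) : ∃ j, aeval y (pderiv j f) ≠ 0 := by
  by_contra hno
  push Not at hno
  have hfb : ∀ j, (map (algebraMap K (AlgebraicClosure K)) f).degreeOf j ≤ 4 := fun j =>
    degreeOf_map_le _ (hf j)
  have e0 : eval y (map (algebraMap K (AlgebraicClosure K)) f) = 0 := by
    rw [eval_map]
    exact h0
  have e1 : ∀ j, eval y (pderiv j (map (algebraMap K (AlgebraicClosure K)) f)) = 0 := by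
    intro j
    rw [pderiv_map, eval_map]
    exact hno j
  obtain ⟨i, k, hik⟩ := hs (af y) (fun j h => one_ne_zero (congrFun h 0))
  apply hik
  have h1 : bd (lc (map (algebraMap K (AlgebraicClosure K)) f) (af y) i) ![1, y i] 1 = 0 := by
    rw [bd_d hfb, e1]
  have h2 : bd (lc (map (algebraMap K (AlgebraicClosure K)) f) (af y) i) ![1, y i] 0 = 0 := by
    have h3 := Pool.Agent.Q222.ZC.euler (lc (map (algebraMap K (AlgebraicClosure K)) f) (af y) i) (y i)
    rw [← Pool.Agent.Q222.TT.Opn.eval_lc hfb y i, e0, h1] at h3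
    simpa using h3
  fin_cases k
  · exact h2
  · exact h1

theorem map_tw {L : Type} [Field L] [Algebra K L] (f : MvPolynomial (Fin 2) K) (e : L) (τ : L →+* ℝ) :
    map τ (C e * ex L f) = C (τ e) * map (τ.comp (algebraMap K L)) f := by
  rw [map_mul, map_C, ← MvPolynomial.map_map]

end facts

/-- the smoothness of the real surface, given `S_SMR` -/
theorem sm_real (hSMR : S_SMR) {K : Type} [Field K] [CharZero K] {f : MvPolynomial (Fin 2) K}
    (hf : ∀ j, f.degreeOf j ≤ 4) (hs : SmoothN f) {L : Type} [Field L] [Algebra K L] {e : L} (he : e ≠ 0)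
    (τ : L →+* ℝ) : ∀ x ∈ XR (map τ (C e * ex L f)), x.2 = 0 →
      ∃ j, eval x.1 (pderiv j (map τ (C e * ex L f))) ≠ 0 := by
  intro x hx h0
  have hτe : τ e ≠ 0 := (map_ne_zero τ).2 he
  rw [map_tw] at hx ⊢
  have h1 : eval x.1 (map (τ.comp (algebraMap K L)) f) = 0 := by
    have h2 : x.2 ^ 2 = eval x.1 (C (τ e) * map (τ.comp (algebraMap K L)) f) := hx
    rw [h0, map_mul, eval_C, zero_pow two_ne_zero] at h2
    exact (mul_eq_zero.1 h2.symm).resolve_left hτe
  obtain ⟨j, hj⟩ := hSMR K f (no_sing hf hs) (τ.comp (algebraMap K L)) x.1 h1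
  refine ⟨j, ?_⟩
  rw [pderiv_C_mul, map_mul, eval_C]
  exact mul_ne_zero hτe hj

/-- the real bad values are finitely many -/
theorem bad_fin {K : Type} [Field K] [NumberField K] {f : MvPolynomial (Fin 2) K}
    (hf : ∀ j, f.degreeOf j ≤ 4) (hs : SmoothN f) {L : Type} [Field L] [Algebra K L] {e : L} (he : e ≠ 0)
    (τ : L →+* ℝ) (j : Fin 2) : (Bad (map τ (C e * ex L f)) j).Finite := by
  classical
  have h3 : S_SPE := Pool.Agent.Q149.TT.spe
  have hreg := (Pool.Agent.Results.MP_ed3816_nt.OpenAwayFromTorsion.result).2 K f hf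
    (Pool.Agent.Q222.TT.Opn.ex_genus h3 hf hs)
    (Pool.Agent.Q222.TT.Opn.not_prod h3 hf hs) ℝ (τ.comp (algebraMap K L))
  have hτe : τ e ≠ 0 := (map_ne_zero τ).2 he
  rw [map_tw]
  have h4 : (⋃ i ∈ {i : Fin 2 | i ≠ j}, {c | ∃ x : Fin 2 → ℝ, x j = c ∧
      ¬ (GenusOne (line (map (τ.comp (algebraMap K L)) f) x i) ∧
        NotSpecial (map (τ.comp (algebraMap K L)) f) x i j)}).Finite :=
    (Set.toFinite _).biUnion fun i hi => hreg i j hi
  refine h4.subset ?_
  rintro c ⟨x, i, hi, hx, hn⟩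
  refine Set.mem_iUnion₂.2 ⟨i, hi, x, hx, fun hcon => ?_⟩
  have h5 : GenusOne (line (C (τ e) * map (τ.comp (algebraMap K L)) f) x i) := by
    rw [line_twist]
    exact genus_twist hτe hcon.1
  exact genusOne_iff.1 h5 hn

end Pool.Agent.H58RC
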