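import Pool.Agent.Q35.ZC.Stm
import Pool.Agent.Y720.WL.Tors

/-!
# Real components of double covers: moves on one curve of genus one, statements (project RC, helper58)

`θ = (w, q)` stands for the curve `Y² = w² + q₀ t + q₁ t² + q₂ t³ + q₃ t⁴` with the point `(0, w)`, see
`Q35/ZC/Stm.lean`, `Y720/WL/LemE.lean`, `LemEp.lean`, `LemR.lean`, `Tors.lean` for the techniques.
-/

set_option autoImplicit false

open Pool.Agent.Y720.MZ Pool.Agent.Q35.ZC

namespace Pool.Agent.H58RC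

/-- The point `(u, Z)` of the curve is the translate of `(0, w)` by `m` times the class of `(0, w) - (0, -w)`. -/
def MulN {F : Type*} [Field F] (θ : F × (Fin 4 → F)) (m : ℤ) (u Z : F) : Prop :=
  letI : DecidableEq F := Classical.decEq F
  θ.1 ≠ 0 ∧ ∃ (h : (cv (tA θ) (tB θ) (tC θ)).toAffine.Nonsingular (tX θ) (tY θ)),
    ∃ (X W : F) (h' : (cv (tA θ) (tB θ) (tC θ)).toAffine.Nonsingular X W),
      m • (.some _ _ h : Pt (tA θ) (tB θ) (tC θ)) = .some X W h' ∧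
      Df θ.1 (θ.2 0) (θ.2 2) X W ≠ 0 ∧ u = tf θ.1 (θ.2 0) (θ.2 1) (θ.2 2) X W ∧
      Z = Yf θ.1 (θ.2 0) (θ.2 1) (θ.2 2) X W

/-- STAY: near a smooth local curve at an ultrametric place, the multiples by a suitable `M` do not move by more than
`η`, for all curves `θ` in a fixed neighbourhood (not depending on `η`).
Proof. Let `ρ = 1 / (100 * CL θ₀)` (`Bd_baseL`, `TnL.Bd`). (1) There are `N ≠ 0` and a neighbourhood of `θ₀` in which `N • t(θ) ∈ Nb (av σ) ρ r₀`, for a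
given `r₀ > 0`: if `t(θ₀)` has infinite order use `accum_near` (`ProperSpace L`) and continuity of the multiples as in `ev_pL`/`ev_rL`
(`cont_multN` and `big_x'`), otherwise use `cont_ord` for its order, exactly as in `real_near` in `Y720/WL/Tors.lean`. (2) In `Nb (av σ) ρ r₀`, `r₀ ≤ ρ`, we have
by `add_near` (ultrametric: `Nb` is closed under sums, cf. `U1`, `U2z`) `|TT(p R)| ≤ c |TT R|` with `c < 1`, where `p` is the residue characteristic (`‖(p : L)‖ < 1`; it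
exists: a proper nontrivially normed ultrametric field of characteristic zero has some natural number with `‖n‖ < 1`, e.g. since the
naturals would otherwise be an infinite closed discrete, bounded set, impossible in a proper space): `TT(k R) - k TT(R)` has absolute value at most `|TT R|² / 2`, take `r₀ ≤ 1/2`. So
`p^k N • t(θ)` and all its multiples are in `Nb (av σ) ρ (c^k r₀)`. (3) For `(X, W)` on the curve with `y ≠ 0`, `|X / W|` tiny, `|1 / W|` tiny: the formulas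
`tf = Nf / Df`, `Yf = -w + tf (tf X - q₀) / (2 w)` give `|tf| < η`, `|Yf - w| < η`, `Df ≠ 0`, uniformly for `θ` near `θ₀` (`w₀ ≠ 0`): with `z = X / W`, `X z² → 1`,
`Df ~ 2 w W`, `Nf ~ 4 w² X`, `tf ~ 2 w z`. -/
def S_STAY : Prop :=
  ∀ (K : Type) [Field K] [CharZero K] (L : Type) [NontriviallyNormedField L] [ProperSpace L] [IsUltrametricDist L]
    (σ : K →+* L) (θ₀ : L × (Fin 4 → L)), θ₀.1 ≠ 0 → dsc (tA θ₀) (tB θ₀) (tC θ₀) ≠ 0 →
    ∃ δ : ℝ, 0 < δ ∧ ∀ η : ℝ, 0 < η → ∃ M : ℕ, M ≠ 0 ∧ ∀ θ : K × (Fin 4 → K), ‖σ θ.1 - θ₀.1‖ < δ →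
      (∀ j, ‖σ (θ.2 j) - θ₀.2 j‖ < δ) → ∀ m : ℤ, (M : ℤ) ∣ m → ∀ u Z : K, MulN θ m u Z →
        ‖σ u‖ < η ∧ ‖σ Z - σ θ.1‖ < η

/-- RSL: near a smooth real curve the multiples by elements of `M ℤ` are dense near the base point, for all curves in a
fixed neighbourhood and all `M`.
Proof: as `lemER` (`Y720/WL/LemR.lean`) without `p`-adic places and without uniformity in the multiple: for a given `θ` near `θ₀` the point
`t(θ)` has infinite order in `E(K)`, so by `accum_near` (for `K → ℝ`, the curve of `θ`) applied to `M • t(θ)` there is a multiple `R = k M • t(θ)`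
in `Nb (av τ) ρ r` with `r` as small as we like (also `r` tiny compared with the prescribed `η`), `TT R ≠ 0`; the multiples of `R` move in
steps of about `TT R` (`add_near`, `R3`), so they come `η'`-near to every target in `[-ρ/12, ρ/12]` (see `fill_all`, or `Fill2.lean`, `Fill3.lean`; also negative multiples); and the
targets `(t, Y)` near `(0, w₀)` on the curve correspond to `x / y` small (`convL`, `conv_cont`; move the target away from `t = 0` first by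
`perturb` as in `lemER`). -/
def S_RSL : Prop :=
  ∀ (K : Type) [Field K] [CharZero K] (τ : K →+* ℝ) (θ₀ : ℝ × (Fin 4 → ℝ)), θ₀.1 ≠ 0 →
    dsc (tA θ₀) (tB θ₀) (tC θ₀) ≠ 0 → ∃ δ : ℝ, 0 < δ ∧ ∀ θ : K × (Fin 4 → K), |τ θ.1 - θ₀.1| < δ →
      (∀ j, |τ (θ.2 j) - θ₀.2 j| < δ) → IOt θ → ∀ M : ℕ, M ≠ 0 → ∀ t Y : ℝ, |t| < δ → |Y - θ₀.1| < δ →
        Y ^ 2 = qv (τ θ.1) (fun j => τ (θ.2 j)) t → ∀ η : ℝ, 0 < η →
          ∃ m : ℤ, (M : ℤ) ∣ m ∧ ∃ u Z : K, MulN θ m u Z ∧ |τ u - t| < η ∧ |τ Z - Y| < η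

/-- CRO: crossing the branch point. The base point `(0, w)` with `w` tiny is near the branch point of the curve (`q₀ ≠ 0`); then the
translate by the `m`-th multiple has the ordinate `≈ (2 m + 1) w`.
Proof. `t(θ) = (tX, tY)`, `tX = q₀²/(4w²) - q₁`, `tY = (q₀ tX + 2 w² q₂)/(2w)` (`xs`, `ys`), so `TT t(θ) = tX / tY = 2 w / q₀ (1 + O(w²))`: tiny. The coefficients
`tA, tB, tC` of the curve are bounded, so `t(θ)` is in `Nb (av τ) ρ r` with tiny `r ≈ 2|w|/|q₀|`, and by `add_near`, induction on `m`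
(`R3`; use `TT_neg` for `m < 0`), `TT (m • t(θ)) = m TT(t(θ)) + O(w²)`, in particular it is not zero (`m ≠ 0`). Let
`m • t(θ) = (X, W)`, `z = X / W = 2 m w / q₀ (1 + O(w))`; from `W² = X³ + tA X² + tB X + tC` we get `X z² = 1 + O(z²)`. Hence (`Df = 2 w W - q₀ X - 2 w² q₂`, `Nf = 4w²(X + q₁) - q₀²` up to
the normalisation in `Y720/WA/Conv.lean`) `Df = X (2 w / z - q₀ + O(w² z²)) = X q₀ (1/m - 1 + O(w))` if `m ≠ 1`, and `Nf = q₀² (1/m² - 1 + O(w))`, so `tf = Nf / Df ≈ z² q₀ (m + 1)/m = 4 m (m + 1) w² / q₀`, `tf X ≈ q₀ (m+1)/m`, and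
`Yf = -w + tf (tf X - q₀)/(2 w) ≈ -w + 2 (m + 1) w = (2 m + 1) w`, all with relative error `O(w)`. Here `m ≤ -2`, so there is no cancellation. (`|τ u| < ε` as `tf = O(w²)`.) -/
def S_CRO : Prop :=
  ∀ (K : Type) [Field K] [CharZero K] (τ : K →+* ℝ) (q₀ : Fin 4 → ℝ), q₀ 0 ≠ 0 → ∀ m : ℤ, m ≤ -2 →
    ∀ ε : ℝ, 0 < ε → ∃ δ : ℝ, 0 < δ ∧ ∀ θ : K × (Fin 4 → K), θ.1 ≠ 0 → |τ θ.1| < δ →
      (∀ j, |τ (θ.2 j) - q₀ j| < δ) → dsc (tA θ) (tB θ) (tC θ) ≠ 0 →
        ∃ u Z : K, MulN θ m u Z ∧ |τ u| < ε ∧ |τ Z - (2 * (m : ℝ) + 1) * τ θ.1| ≤ ε * |τ θ.1|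

end Pool.Agent.H58RC
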