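import Pool.Agent.H58RC.StmR
import Pool.Agent.H58RC.StmA

/-!
# Real components of double covers: moves on the surface, statements (project RC, helper58)
-/

set_option autoImplicit false

open Pool.Agent.Y720.MZ Pool.Agent.Q35.ZC MvPolynomial

namespace Pool.Agent.H58RC

section

variable {K : Type} [Field K]

/-- the image of a point under an embedding of fields -/
def im {F : Type} [Field F] (φ : K →+* F) (P : (Fin 2 → K) × K) : (Fin 2 → F) × F := (fun j => φ (P.1 j), φ P.2)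

/-- the point with `u` added to the `j`-th coordinate and last coordinate `Z` -/
def mvp (P : (Fin 2 → K) × K) (j : Fin 2) (u Z : K) : (Fin 2 → K) × K :=
  (fun a => P.1 a + u * (Pi.single j 1 : Fin 2 → K) a, Z)

/-- the parameter of the curve in the direction `j` through `P` -/
noncomputable def thj (g : MvPolynomial (Fin 2) K) (P : (Fin 2 → K) × K) (j : Fin 2) : K × (Fin 4 → K) :=
  (P.2, cq g P.1 (Pi.single j 1))

/-- the points off the branch curve and the exceptional lines -/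
def Off (R : Set ((Fin 2 → K) × K)) (E : Fin 2 → Set K) : Set ((Fin 2 → K) × K) :=
  {P | P ∈ R ∧ P.2 ≠ 0 ∧ ∀ j, P.1 j ∉ E j}

/-- the hypotheses on the set `R` of rational points of `w² = g(z)` and the exceptional sets `E` -/
structure Env [CharZero K] (g : MvPolynomial (Fin 2) K) (R : Set ((Fin 2 → K) × K)) (E : Fin 2 → Set K) : Prop where
  deg : ∀ j, g.degreeOf j ≤ 4
  on : ∀ P ∈ R, P.2 ^ 2 = eval P.1 g
  finE : ∀ j, (E j).Finite
  /-- the curves in the direction `j` through the points with `z_i ∉ E i`, `i ≠ j`, are smooth of genus one -/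
  sm : ∀ (z : Fin 2 → K) (i j : Fin 2), i ≠ j → z i ∉ E i → Tq g (Pi.single j 1) z ≠ 0
  /-- `R` is closed under moves -/
  step : ∀ P ∈ R, ∀ (j : Fin 2) (u Z : K), MulPt (thj g P j) u Z → mvp P j u Z ∈ R
  /-- one difference has infinite order -/
  two : ∀ P ∈ Off R E, ∃ j, IOt (thj g P j)
  /-- on the line in the direction `i` through `z`, `z_j ∉ E j`, there are few points with torsion in the direction `j` -/
  few : ∀ (z : Fin 2 → K) (i j : Fin 2), i ≠ j → z j ∉ E j →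
    {t : K | ∃ P ∈ Off R E, P.1 i = t ∧ P.1 j = z j ∧ ¬ IOt (thj g P j)}.Finite

/-- the set `N` of rational points is stable under moves by multiples of `M` -/
structure Loc (g : MvPolynomial (Fin 2) K) (N : Set ((Fin 2 → K) × K)) (M : ℕ) : Prop where
  ne : M ≠ 0
  stay : ∀ P ∈ N, ∀ (j : Fin 2) (m : ℤ) (u Z : K), (M : ℤ) ∣ m → MulN (thj g P j) m u Z → mvp P j u Z ∈ N

/-- the real bad values: the curves `z_i = c` which are not smooth of genus one -/
def Bad (g : MvPolynomial (Fin 2) ℝ) (i : Fin 2) : Set ℝ :=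
  {c | ∃ (x : Fin 2 → ℝ) (j : Fin 2), j ≠ i ∧ x i = c ∧ Tq g (Pi.single j 1) x = 0}

/-- the real closure -/
def Ac (τ : K →+* ℝ) (R : Set ((Fin 2 → K) × K)) (E : Fin 2 → Set K) (N : Set ((Fin 2 → K) × K)) :
    Set ((Fin 2 → ℝ) × ℝ) := closure (im τ '' (Off R E ∩ N))

end

/-- PERT: a rational point can be moved a little to a point with a difference of infinite order in a given direction.
Proof. By `two` some `IOt (thj g P i)`. If `i = j` take `Q = P`. Otherwise use `S_RSL` at `θ₀ = (τ P.2, τ ∘ cq ..)` (the image of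
`θ = thj g P i`; its `dsc` is not zero as the one of `θ` is not, part of `IOt`): `θ` itself is at distance `0 < δ`. Let `F ⊂ K` be the finite set
`{t | ∃ P' ∈ Off R E, P'.1 i = t ∧ P'.1 j = P.1 j ∧ ¬ IOt (thj g P' j)} ∪ E i`. Choose a real `t` with `|t|` tiny and `τ (P.1 i) + t ∉ τ '' F`, and
`Y` near `τ P.2` with `Y² = qv ..` (`sq`: the right side is near `(τ P.2)² ≠ 0`), then `η` less than the distance of `τ (P.1 i) + t` to `τ '' F`, and so small
that `Z ≠ 0`. `S_RSL` with the multiple `M` gives `m, u, Z`; `Q = mvp P i u Z`. It is in `R` by `step` (`MulPt` = `MulN` and infinite order, from `IOt`),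
in `N` by `stay`, `Q.1 i = P.1 i + u ∉ F`, `Q.1 j = P.1 j ∉ E j`. -/
def S_PERT : Prop := S_RSL → ∀ (K : Type) [Field K] [CharZero K] (τ : K →+* ℝ) (g : MvPolynomial (Fin 2) K)
  (R : Set ((Fin 2 → K) × K)) (E : Fin 2 → Set K) (N : Set ((Fin 2 → K) × K)) (M : ℕ), Env g R E → Loc g N M →
  ∀ P ∈ Off R E ∩ N, ∀ (j : Fin 2) (ε : ℝ), 0 < ε →
    ∃ Q ∈ Off R E ∩ N, dist (im τ Q) (im τ P) < ε ∧ IOt (thj g Q j)

/-- SLD: the property `slide` of `Geo` for the real closure.
Proof (`j` the direction different from `i`). `S_RSL` at `θ₀ = (x.2, cq (map τ g) x.1 (Pi.single j 1))`, whose `dsc` is `Tq (map τ g) (Pi.single j 1) x.1 ≠ 0` (`Tq_eq`) as `x.1 i` is not bad,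
gives `δ₁`; let `δ` be so small that `dist x' x < 2 δ`, `x' = im τ Q` implies that `thj g Q j` is `δ₁`-near `θ₀` (continuity of `cq`: `cq_nearL` with one place), `4 δ < δ₁` and `4 δ < |x.2|`.
Let `x' ∈ Ac`, `x''` be given; to show `x'' ∈ Ac` let `ε > 0`. There is `P ∈ Off R E ∩ N` with `im τ P` as near to `x'` as we like, by `S_PERT` with
`IOt (thj g P j)`. The real number `t = x''.1 j - τ (P.1 j)` (changed by a tiny amount so that `τ (P.1 j) + t ∉ τ '' E j`) and the number `Y` near `x''.2` with `Y² = g` at the point with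
`j`-coordinate `τ (P.1 j) + t` and `i`-coordinate `τ (P.1 i)`, near `x''.1 i` (`x''.2 ≠ 0`), satisfy the equation in `S_RSL` (`cq_eval`), so we get `m, u, Z` and `Q = mvp P j u Z ∈ Off R E ∩ N` with
`im τ Q` near `x''`. -/
def S_SLD : Prop := S_RSL → S_PERT → ∀ (K : Type) [Field K] [CharZero K] (τ : K →+* ℝ) (g : MvPolynomial (Fin 2) K)
  (R : Set ((Fin 2 → K) × K)) (E : Fin 2 → Set K) (N : Set ((Fin 2 → K) × K)) (M : ℕ), Env g R E → Loc g N M →
  ∀ x ∈ XR (map τ g), x.2 ≠ 0 → ∀ i, x.1 i ∉ Bad (map τ g) i → ∃ δ > 0, ∀ x' ∈ Ac τ R E N, dist x' x < δ →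
    ∀ x'' ∈ XR (map τ g), dist x'' x < δ → x''.1 i = x'.1 i → x'' ∈ Ac τ R E N

/-- CRS: the property `cross` of `Geo` for the real closure.
Proof (`j` the direction different from `i`). `q₀ = cq (map τ g) x.1 (Pi.single j 1)`; `q₀ 0 ≠ 0`, since `dsc` of `(0, q₀)`, which is `Tq .. x.1 ≠ 0`, vanishes if `q₀ 0 = 0`. Let `k = #E j`. Use
`S_CRO` with `m_ℓ = - M ℓ`, `ℓ = 2, …, k + 2` and `ε = min (1/4) ..`, and take the smallest of the `δ`s. For `x' ∈ Ac` near `x`, `x'.2 ≠ 0`, take `P ∈ Off R E ∩ N` with `im τ P` near `x'` (nearer than `|x'.2| / 2` and `ε`) and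
`IOt (thj g P j)` (`S_PERT`). For each `ℓ` we get `Q_ℓ = mvp P j u_ℓ Z_ℓ ∈ R ∩ N`, with `τ Z_ℓ` of the sign opposite to `τ P.2`, as `2 m_ℓ + 1 < 0`, in particular `Z_ℓ ≠ 0`.
The numbers `τ Z_ℓ / τ P.2 ≈ 2 m_ℓ + 1` are different; if `P.1 j + u_ℓ = P.1 j + u_ℓ'` then `Z_ℓ² = Z_ℓ'²` (the equation of the surface, `on`), and the signs are equal, so `Z_ℓ = Z_ℓ'`: contradiction. So the `k + 1` numbers
`P.1 j + u_ℓ` are different and one of them is not in `E j`. -/
def S_CRS : Prop := S_CRO → S_PERT → S_RSL → ∀ (K : Type) [Field K] [CharZero K] (τ : K →+* ℝ) (g : MvPolynomial (Fin 2) K)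
  (R : Set ((Fin 2 → K) × K)) (E : Fin 2 → Set K) (N : Set ((Fin 2 → K) × K)) (M : ℕ), Env g R E → Loc g N M →
  ∀ x ∈ XR (map τ g), x.2 = 0 → ∀ i, x.1 i ∉ Bad (map τ g) i → ∀ δ > 0, ∃ δ' > 0, ∀ x' ∈ Ac τ R E N, dist x' x < δ' →
    x'.2 ≠ 0 → ∀ ε > 0, ∃ x'' ∈ Ac τ R E N, dist x'' x < δ ∧ x''.2 * x'.2 < 0 ∧ |x''.1 i - x'.1 i| < ε

/-- BRE: the real bad values.
Proof. `Tq g (Pi.single j 1) z` is the discriminant of the quartic `t ↦ g (z + t e_j)`, so it does not change if `z` is replaced by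
`z + t e_j` (an identity, `ring` on the Taylor coefficients of a polynomial of degree at most four). (1) If `τ (P.1 i) ∈ Bad (map τ g) i`, with `x` and `j`, then
by invariance `Tq (map τ g) (Pi.single j 1) = 0` also at `im τ P`, so `Tq g (Pi.single j 1) P.1 = 0`. (2) If `w = 0` at the point `x` of the surface and `∂_j g (x) = 0` then the quartic has a double zero:
`q₀ = 0`, `w = 0` give `dsc q₁ 0 0 = 0`. -/
def S_BRE : Prop :=
  (∀ (K : Type) [Field K] [CharZero K] (τ : K →+* ℝ) (g : MvPolynomial (Fin 2) K), (∀ j, g.degreeOf j ≤ 4) →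
    ∀ (z : Fin 2 → K) (i j : Fin 2), i ≠ j → Tq g (Pi.single j 1) z ≠ 0 → τ (z i) ∉ Bad (map τ g) i) ∧
  ∀ (g : MvPolynomial (Fin 2) ℝ), (∀ j, g.degreeOf j ≤ 4) → ∀ x ∈ XR g, x.2 = 0 → ∀ i j, i ≠ j → x.1 i ∉ Bad g i →
    eval x.1 (pderiv j g) ≠ 0

end Pool.Agent.H58RC
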