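import Pool.Agent.H58U.Opn
import Pool.Agent.Q35.ZC.K3
import Pool.Agent.Q222.ZC.NDS
import Pool.Agent.H58RC.StmB

/-!
# Real components: the exceptional lines, uniformly in the twists and the extensions of bounded degree (helper58)
-/

set_option autoImplicit false
set_option linter.unusedSectionVars false

open MvPolynomial Pool.Agent.Y720.MZ

namespace Pool.Agent.H58RC

open Pool.Agent.Q35.TT Pool.Agent.Q35.TB
open Pool.Agent.Q35.ZC (line GenusOne NotSpecial Moves genusOne_iff line_map genus_map line_twist genus_twist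
  moves_of io_of MulPt)
open Pool.Agent.Q13.TB (lc_map' af_map')

section nd

variable {K F : Type} [Field K] [Field F] (φ : K →+* F)

theorem pq_map (a : Fin 5 → K) : pq (fun k => φ (a k)) = (pq a).map φ := by
  simp only [pq, Polynomial.map_sum, Polynomial.map_mul, Polynomial.map_C, Polynomial.map_pow, Polynomial.map_X]

theorem nd_desc {g h : Fin 5 → K} (hn : ND (fun k => φ (g k)) (fun k => φ (h k))) : ND g h := by
  unfold Pool.Agent.Q35.TT.ND at hn ⊢
  rw [pq_map, pq_map, ← Polynomial.map_pow, Polynomial.map_dvd_map', Polynomial.natDegree_map,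
    Polynomial.natDegree_map] at hn
  exact hn

theorem nd_line {f : MvPolynomial (Fin 2) K} {z : Fin 2 → K} {i j : Fin 2}
    (hn : ND (lc (map φ f) (af fun a => φ (z a)) i) (lc (pderiv j (map φ f)) (af fun a => φ (z a)) i)) :
    ND (lc f (af z) i) (lc (pderiv j f) (af z) i) := by
  apply nd_desc φ
  have e1 : ∀ p : MvPolynomial (Fin 2) K, lc (map φ p) (af fun a => φ (z a)) i =
      fun k => φ (lc p (af z) i k) := by
    intro p
    funext k
    rw [lc_map', af_map']
  rw [pderiv_map, e1, e1] at hn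
  exact hn

/-- All but finitely many lines are not special. -/
theorem nd_fin [CharZero K] {f : MvPolynomial (Fin 2) K} (hf : ∀ j, f.degreeOf j ≤ 4) (hs : SmoothN f)
    {i j : Fin 2} (hij : i ≠ j) :
    {c : K | ∃ z : Fin 2 → K, z j = c ∧ ¬ ND (lc f (af z) i) (lc (pderiv j f) (af z) i)}.Finite := by
  have : Infinite K := CharZero.infinite K
  have hsm := Pool.Agent.Q121.TT.smooth hf hs
  have hd : ∀ a b : Fin 2, (pderiv a f).degreeOf b ≤ 4 := fun a b =>
    Pool.Agent.Q26.TT.degreeOf_pderiv (hf b) a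
  have hcase : (i = 0 ∧ j = 1) ∨ (i = 1 ∧ j = 0) := by
    fin_cases i <;> fin_cases j <;> simp_all
  rcases hcase with ⟨rfl, rfl⟩ | ⟨rfl, rfl⟩
  · refine ((Pool.Agent.Q149.TT.spe K _ (Pool.Agent.Q121.TT.smooth_swap hsm)).2).subset ?_
    rintro c ⟨z, rfl, hn⟩
    right
    intro hND
    apply hn
    have e1 : pq (lc (pderiv 1 f) (af z) 0) =
        pq (gd (fun i j => Pool.Agent.Q121.TT.cf f j i) (z 1)) := by
      refine Polynomial.funext fun t => ?_
      rw [Pool.Agent.Q121.TT.pq_eval, Pool.Agent.Q121.TT.pq_eval, Pool.Agent.Q121.TT.lc_zero _ (hd 1)]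
      have h1 := Pool.Agent.Q121.TT.eval_f' _ (hd 1) ![t, z 1]
      have h2 := Pool.Agent.Q121.TT.eval_d' f hf ![t, z 1]
      rw [h2] at h1
      exact h1.symm
    unfold Pool.Agent.Q35.TT.ND at hND ⊢
    rw [e1, Pool.Agent.Q121.TT.lc_zero f hf]
    exact hND
  · refine ((Pool.Agent.Q149.TT.spe K _ hsm).2).subset ?_
    rintro c ⟨z, rfl, hn⟩
    right
    intro hND
    apply hn
    have e1 : pq (lc (pderiv 0 f) (af z) 1) = pq (gd (Pool.Agent.Q121.TT.cf f) (z 0)) := by
      refine Polynomial.funext fun t => ?_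
      rw [Pool.Agent.Q121.TT.pq_eval, Pool.Agent.Q121.TT.pq_eval, Pool.Agent.Q121.TT.lc_one _ (hd 0)]
      have h1 := Pool.Agent.Q121.TT.eval_f _ (hd 0) ![z 0, t]
      have h2 := Pool.Agent.Q121.TT.eval_d f hf ![z 0, t]
      rw [h2] at h1
      exact h1.symm
    unfold Pool.Agent.Q35.TT.ND at hND ⊢
    rw [e1, Pool.Agent.Q121.TT.lc_one f hf]
    exact hND

end nd

/-- a point which is not torsion -/
theorem io_tw {L : Type} [Field L] [CharZero L] {f : MvPolynomial (Fin 2) L} (hf : ∀ j, f.degreeOf j ≤ 4)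
    {e : L} (he : e ≠ 0) {P : (Fin 2 → L) × L} (hw : P.2 ≠ 0) (hon : P.2 ^ 2 = eval P.1 (C e * f)) {i : Fin 2}
    (hG : GenusOne (line f P.1 i)) (hi : ¬ TorN f P.1 i) : IOt (thj (C e * f) P i) := by
  have hg : ∀ j, (C e * f).degreeOf j ≤ 4 := fun j => (degreeOf_C_mul_le f j e).trans (hf j)
  have hG' : GenusOne (line (C e * f) P.1 i) := by
    rw [line_twist]
    exact genus_twist he hG
  have hI : ∀ N : ℕ, N ≠ 0 → ¬ Tor (lc (C e * f) (af P.1) i) (P.1 i) P.2 N := by
    intro N hN h5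
    rw [Pool.Agent.Q190.TT.lc_smul f e he, tws2 L _ e _ _ _ he] at h5
    exact hi ⟨N, hN, h5.2.2⟩
  exact io_of hon (moves_of hg hw hon hG' hI)

/-- **The exceptional lines, for all twists over all extensions of bounded degree.** -/
theorem inst (K : Type) [Field K] [NumberField K] (f : MvPolynomial (Fin 2) K) (hf : ∀ j, f.degreeOf j ≤ 4)
    (hs : SmoothN f) (D : ℕ) :
    ∃ E : Fin 2 → Set (AlgebraicClosure K), (∀ j, (E j).Finite) ∧
      ∀ (L : Type) [Field L] [NumberField L] [Algebra K L], Module.finrank K L ≤ D → ∀ e : L, e ≠ 0 →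
      ∀ (φ : L →ₐ[K] AlgebraicClosure K) (R : Set ((Fin 2 → L) × L)),
        (∀ P ∈ R, P.2 ^ 2 = eval P.1 (C e * ex L f)) →
        (∀ P ∈ R, ∀ (j : Fin 2) (u Z : L), MulPt (thj (C e * ex L f) P j) u Z → mvp P j u Z ∈ R) →
        Env (C e * ex L f) R (fun j => {c | φ c ∈ E j}) := by
  classical
  have h3 : S_SPE := Pool.Agent.Q149.TT.spe
  have hreg := (Pool.Agent.Results.MP_ed3816_nt.OpenAwayFromTorsion.result).2 K f hf
    (Pool.Agent.Q222.TT.Opn.ex_genus h3 hf hs)
    (Pool.Agent.Q222.TT.Opn.not_prod h3 hf hs) (AlgebraicClosure K) (algebraMap K (AlgebraicClosure K))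
  obtain ⟨T, hT, hT2⟩ := taf2 K 2 f hf hs D
  obtain ⟨fb, hfb⟩ : ∃ fb : MvPolynomial (Fin 2) (AlgebraicClosure K),
      fb = map (algebraMap K (AlgebraicClosure K)) f := ⟨_, rfl⟩
  have hex := (exf2 K (AlgebraicClosure K) 2 0 (by intro m hm; simp at hm)).2.2.2.2 f hf
  have hfb4 : ∀ j, fb.degreeOf j ≤ 4 := by
    rw [hfb]
    exact hex.1
  have hfbs : SmoothN fb := by
    rw [hfb]
    exact hex.2.1.1 hs
  obtain ⟨E1, hE1⟩ : ∃ E1 : Fin 2 → Set (AlgebraicClosure K), E1 = fun j => {c | ∃ i, i ≠ j ∧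
      ∃ x : Fin 2 → AlgebraicClosure K, x j = c ∧ ¬ (GenusOne (line fb x i) ∧ NotSpecial fb x i j)} := ⟨_, rfl⟩
  have hE1f : ∀ j, (E1 j).Finite := by
    intro j
    have h4 : (⋃ i ∈ {i : Fin 2 | i ≠ j}, {c | ∃ x : Fin 2 → AlgebraicClosure K, x j = c ∧
        ¬ (GenusOne (line fb x i) ∧ NotSpecial fb x i j)}).Finite :=
      (Set.toFinite _).biUnion fun i hi => by
        rw [hfb]
        exact hreg i j hi
    refine h4.subset ?_
    rw [hE1]
    rintro c ⟨i, hi, x, hx, hn⟩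
    exact Set.mem_iUnion₂.2 ⟨i, hi, x, hx, hn⟩
  obtain ⟨E2, hE2⟩ : ∃ E2 : Fin 2 → Set (AlgebraicClosure K), E2 = fun j => {c | ∃ i, i ≠ j ∧
      ∃ z : Fin 2 → AlgebraicClosure K, z j = c ∧ ¬ ND (lc fb (af z) i) (lc (pderiv j fb) (af z) i)} :=
    ⟨_, rfl⟩
  have hE2f : ∀ j, (E2 j).Finite := by
    intro j
    have h4 : (⋃ i ∈ {i : Fin 2 | i ≠ j}, {c | ∃ z : Fin 2 → AlgebraicClosure K, z j = c ∧
        ¬ ND (lc fb (af z) i) (lc (pderiv j fb) (af z) i)}).Finite :=
      (Set.toFinite _).biUnion fun i hi => nd_fin hfb4 hfbs hi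
    refine h4.subset ?_
    rw [hE2]
    rintro c ⟨i, hi, x, hx, hn⟩
    exact Set.mem_iUnion₂.2 ⟨i, hi, x, hx, hn⟩
  refine ⟨fun j => (E1 j ∪ E2 j) ∪ (fun t : Fin 2 → AlgebraicClosure K => t j) '' T,
    fun j => ((hE1f j).union (hE2f j)).union (hT.image _), ?_⟩
  intro L _ _ _ hD e he φ R hon hstep
  have hfL : ∀ j, (ex L f).degreeOf j ≤ 4 := fun j => degreeOf_map_le _ (hf j)
  have hg : ∀ j, (C e * ex L f).degreeOf j ≤ 4 := fun j => (degreeOf_C_mul_le _ j e).trans (hfL j)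
  have hmap : map (φ : L →+* AlgebraicClosure K) (ex L f) = fb := by
    rw [hfb]
    show map _ (map _ f) = _
    rw [MvPolynomial.map_map]
    exact congrArg (fun ψ => map ψ f) φ.comp_algebraMap
  -- the lines which are not exceptional
  have hG : ∀ (z : Fin 2 → L) (i j : Fin 2), i ≠ j → φ (z j) ∉ E1 j → GenusOne (line (ex L f) z i) := by
    intro z i j hij hj
    have h5 : GenusOne (line fb (fun a => φ (z a)) i) ∧ NotSpecial fb (fun a => φ (z a)) i j := by
      by_contra hcon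
      apply hj
      rw [hE1]
      exact ⟨i, hij, fun a => φ (z a), rfl, hcon⟩
    have h6 := h5.1
    rw [← hmap] at h6
    have h7 : line (map (φ : L →+* AlgebraicClosure K) (ex L f)) (fun a => φ (z a)) i =
        (line (ex L f) z i).map (φ : L →+* AlgebraicClosure K) := line_map (φ : L →+* AlgebraicClosure K) _ z i
    rw [h7] at h6
    exact (Pool.Agent.H58U.genus_map_iff (φ : L →+* AlgebraicClosure K)).1 h6
  have hN : ∀ (z : Fin 2 → L) (i j : Fin 2), i ≠ j → φ (z j) ∉ E2 j →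
      ND (lc (ex L f) (af z) i) (lc (pderiv j (ex L f)) (af z) i) := by
    intro z i j hij hj
    apply nd_line (φ : L →+* AlgebraicClosure K)
    rw [hmap]
    by_contra hcon
    apply hj
    rw [hE2]
    exact ⟨i, hij, fun a => φ (z a), rfl, hcon⟩
  have hEj : ∀ (c : L) (j : Fin 2),
      c ∉ {c | φ c ∈ (E1 j ∪ E2 j) ∪ (fun t : Fin 2 → AlgebraicClosure K => t j) '' T} →
      φ c ∉ E1 j ∧ φ c ∉ E2 j ∧ φ c ∉ (fun t : Fin 2 → AlgebraicClosure K => t j) '' T := by
    intro c j hc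
    refine ⟨fun h => hc (Or.inl (Or.inl h)), fun h => hc (Or.inl (Or.inr h)), fun h => hc (Or.inr h)⟩
  refine ⟨hg, hon, fun j => ?_, ?_, hstep, ?_, ?_⟩
  · exact (((hE1f j).union (hE2f j)).union (hT.image _)).preimage
      ((φ : L →+* AlgebraicClosure K).injective.injOn)
  · intro z i j hij hi
    have h1 : GenusOne (line (C e * ex L f) z j) := by
      rw [line_twist]
      exact genus_twist he (hG z j i hij.symm (hEj _ _ hi).1)
    exact genusOne_iff.1 h1
  · intro P hP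
    obtain ⟨hPR, hw, hPE⟩ := hP
    have hT3 : ∃ i, ¬ TorN (ex L f) P.1 i := by
      by_contra hno
      push Not at hno
      exact (hEj _ _ (hPE 0)).2.2 ⟨_, hT2 L hD P.1 hno φ, rfl⟩
    obtain ⟨i, hi⟩ := hT3
    refine ⟨i, io_tw hfL he hw (hon P hPR) ?_ hi⟩
    rcases (show i = 0 ∨ i = 1 by omega) with rfl | rfl
    · exact hG P.1 0 1 (by decide) (hEj _ _ (hPE 1)).1
    · exact hG P.1 1 0 (by decide) (hEj _ _ (hPE 0)).1
  · intro z i j hij hj
    refine ((tbn_of orn2) L 2 (ex L f) hfL z i j hij (hN z i j hij (hEj _ _ hj).2.1)).subset ?_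
    rintro t ⟨P, ⟨hPR, hw, hPE⟩, hPi, hPj, hn⟩
    have hup : P.1 = Function.update z i t := by
      funext k
      by_cases hk : k = i
      · subst hk
        rw [Function.update_self, hPi]
      · rw [Function.update_of_ne hk]
        have : k = j := by omega
        rw [this, hPj]
    by_contra hT
    apply hn
    refine io_tw hfL he hw (hon P hPR) (hG P.1 j i hij.symm (hEj _ _ (hPE i)).1) ?_
    rw [hup]
    exact hT

end Pool.Agent.H58RC
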