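import Pool.Agent.H58RC.StmB

/-!
# Real components of double covers: two more statements (project RC, helper58)
-/

set_option autoImplicit false

open Pool.Agent.Y720.MZ Pool.Agent.Q35.ZC MvPolynomial

namespace Pool.Agent.H58RC

/-- MOVE: a rational point with a difference of infinite order in the direction `i` has small moves in this direction, which
avoid a given finite set `B`.
Proof. `dsc` of `thj g P i` is not zero (part of `IOt`). `S_RSL` at `θ₀ = (τ P.2, fun k => τ (cq g P.1 (Pi.single i 1) k))` for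
`θ = thj g P i` (distance `0 < δ`), with the multiple `M = ∏ v, M v`, where `M v` is from `S_STAY` at `θ₀ = (σ v P.2, ..)` for `η = ε` and the same `θ`.
Choose a real `t` with `|t| < min δ ε / 2`, `τ (P.1 i) + t ∉ τ '' B`, so small that there is a real `Y` with `Y² = qv (τ θ.1) (fun j => τ (θ.2 j)) t`,
`|Y - τ P.2| < min δ ε / 2` and `|Y - τ P.2| < |τ P.2| / 2` (`qv` at `0` is `(τ P.2)² ≠ 0`; e.g. `Y = sign * √ ..`, or `sq_near`). Then `S_RSL` with
`η` smaller than the distance of `τ (P.1 i) + t` to the finite set `τ '' B`, `ε / 2`, `|τ P.2| / 4`. `MulPt = MulN` + infinite order (from `IOt`). See `PERT.lean`, which is similar. -/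
def S_MOVE : Prop := S_RSL → S_STAY → ∀ (K : Type) [Field K] [CharZero K] (τ : K →+* ℝ) (V : Type) [Finite V] (F : V → Type)
  [∀ v, NontriviallyNormedField (F v)] [∀ v, ProperSpace (F v)] [∀ v, IsUltrametricDist (F v)] (σ : ∀ v, K →+* F v)
  (g : MvPolynomial (Fin 2) K) (P : (Fin 2 → K) × K) (i : Fin 2), P.2 ≠ 0 → IOt (thj g P i) →
  ∀ B : Set K, B.Finite → ∀ ε : ℝ, 0 < ε → ∃ u Z : K, MulPt (thj g P i) u Z ∧ Z ≠ 0 ∧ P.1 i + u ∉ B ∧ |τ u| < ε ∧
    |τ Z - τ P.2| < ε ∧ ∀ v, ‖σ v u‖ < ε ∧ ‖σ v Z - σ v P.2‖ < ε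

/-- PTB: local points on `w² = g(z)`, `w ≠ 0`, can be moved off finitely many lines.
Proof: `M` is infinite and has no isolated points, so there is `x'` near `x` with `x' j ∉ B j` (`NontriviallyNormedField`: the balls are
infinite); `g(x')` is near `y²`, so it has a square root `y'` near `y` (lemma `sq_near`, used in `Pool/Agent/Y720/WL/Nt.lean`), and `y' ≠ 0` if `‖y' - y‖ < ‖y‖`. -/
def S_PTB : Prop := ∀ (M : Type) [NontriviallyNormedField M] [CompleteSpace M] [CharZero M] (g : MvPolynomial (Fin 2) M)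
  (x : Fin 2 → M) (y : M), y ≠ 0 → y ^ 2 = eval x g → ∀ B : Fin 2 → Set M, (∀ j, (B j).Finite) → ∀ η : ℝ, 0 < η →
    ∃ (x' : Fin 2 → M) (y' : M), y' ≠ 0 ∧ y' ^ 2 = eval x' g ∧ (∀ j, x' j ∉ B j) ∧ (∀ j, ‖x' j - x j‖ < η) ∧ ‖y' - y‖ < η

end Pool.Agent.H58RC
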