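import Pool.Agent.H58RC.Facts
import Pool.Agent.H58RC.Cone
import Pool.Agent.H58RC.StmC

/-!
# Real components: the theorem for all twists over all extensions of bounded degree (helper58)
-/

set_option autoImplicit false
set_option linter.unusedSectionVars false

open MvPolynomial Pool.Agent.Y720.MZ

namespace Pool.Agent.H58RC

open Pool.Agent.Q35.TT Pool.Agent.Q35.TB
open Pool.Agent.Q35.ZC (MulPt)

/-- the moves stay on the surface -/
theorem step_on {K : Type} [Field K] [CharZero K] {g : MvPolynomial (Fin 2) K} (hd : ∀ j, g.degreeOf j ≤ 4)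
    {P : (Fin 2 → K) × K} (hP : P.2 ^ 2 = eval P.1 g) {j : Fin 2} {u Z : K} (hM : MulPt (thj g P j) u Z) :
    (mvp P j u Z).2 ^ 2 = eval (mvp P j u Z).1 g := by
  obtain ⟨hw0, h, -, M, X, W, h', -, hD, hu, hZ⟩ := hM
  change Z ^ 2 = _
  have h4 := Yf_eqn (w := P.2) (q₁ := cq g P.1 (Pi.single j 1) 0) (q₂ := cq g P.1 (Pi.single j 1) 1)
    (q₃ := cq g P.1 (Pi.single j 1) 2) (q₄ := cq g P.1 (Pi.single j 1) 3) hw0 (cv_ns.1 h').1 hD
  have hu' : tf P.2 (cq g P.1 (Pi.single j 1) 0) (cq g P.1 (Pi.single j 1) 1)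
    (cq g P.1 (Pi.single j 1) 2) X W = u := hu.symm
  have hZ' : Yf P.2 (cq g P.1 (Pi.single j 1) 0) (cq g P.1 (Pi.single j 1) 1)
    (cq g P.1 (Pi.single j 1) 2) X W = Z := hZ.symm
  rw [hu', hZ'] at h4
  rw [h4]
  exact cq_eval (deg_rst (hd j) P.1) hP u

section sets

variable {Ω : Type} [Field Ω]

/-- the exceptional values of the `j`-th coordinate in the charts where the coordinate `(j, b)` is one -/
def Eb (T : (Fin 2 → Fin 2) → Set (Fin 2 → Ω)) (E : (Fin 2 → Fin 2) → Fin 2 → Set Ω) (j b : Fin 2) : Set Ω :=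
  {0} ∪ ({c | ∃ ε : Fin 2 → Fin 2, ε j = b ∧ (c ∈ E ε j ∨ ∃ t ∈ T ε, t j = c)} ∪
    {c | ∃ ε : Fin 2 → Fin 2, ε j = 1 - b ∧ (c⁻¹ ∈ E ε j ∨ ∃ t ∈ T ε, t j = c⁻¹)})

variable {T : (Fin 2 → Fin 2) → Set (Fin 2 → Ω)} {E : (Fin 2 → Fin 2) → Fin 2 → Set Ω}

theorem Eb_fin (hT : ∀ ε, (T ε).Finite) (hE : ∀ ε j, (E ε j).Finite) (j b : Fin 2) : (Eb T E j b).Finite := by
  have h1 : ∀ b : Fin 2, {c | ∃ ε : Fin 2 → Fin 2, ε j = b ∧ (c ∈ E ε j ∨ ∃ t ∈ T ε, t j = c)}.Finite := by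
    intro b
    have h2 : (⋃ ε : Fin 2 → Fin 2, (E ε j ∪ (fun t : Fin 2 → Ω => t j) '' T ε)).Finite :=
      Set.finite_iUnion fun ε => (hE ε j).union ((hT ε).image _)
    refine h2.subset ?_
    rintro c ⟨ε, -, h | ⟨t, ht, rfl⟩⟩
    · exact Set.mem_iUnion.2 ⟨ε, Or.inl h⟩
    · exact Set.mem_iUnion.2 ⟨ε, Or.inr ⟨t, ht, rfl⟩⟩
  refine (Set.finite_singleton 0).union ((h1 b).union ?_)
  refine ((h1 (1 - b)).image fun c => c⁻¹).subset ?_
  rintro c ⟨ε, h3, h4⟩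
  exact ⟨c⁻¹, ⟨ε, h3, h4⟩, inv_inv c⟩

theorem sub_sub' : ∀ b : Fin 2, 1 - (1 - b) = b := by decide

theorem Eb_inv {c : Ω} {j b : Fin 2} (h : c⁻¹ ∈ Eb T E j b) : c ∈ Eb T E j (1 - b) := by
  rcases h with h | ⟨ε, h1, h2⟩ | ⟨ε, h1, h2⟩
  · left
    exact inv_eq_zero.1 h
  · right
    right
    exact ⟨ε, by rw [sub_sub']; exact h1, h2⟩
  · right
    left
    rw [inv_inv] at h2
    exact ⟨ε, h1, h2⟩

theorem Eb_E (ε : Fin 2 → Fin 2) (j : Fin 2) : E ε j ⊆ Eb T E j (ε j) := fun c hc =>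
  Or.inr (Or.inl ⟨ε, rfl, Or.inl hc⟩)

theorem Eb_T (ε : Fin 2 → Fin 2) {t : Fin 2 → Ω} (ht : t ∈ T ε) (j : Fin 2) : t j ∈ Eb T E j (ε j) :=
  Or.inr (Or.inl ⟨ε, rfl, Or.inr ⟨t, ht, rfl⟩⟩)

end sets

theorem ch_mul {L : Type} [Field L] (e : L) (G : MvPolynomial (Fin 2 × Fin 2) L) (ε : Fin 2 → Fin 2) :
    ch (C e * G) ε = C e * ch G ε := by
  rw [ch, map_mul, aeval_C]
  rfl

section surface

variable {K : Type} [Field K] [NumberField K] {F : MvPolynomial (Fin 2 × Fin 2) K} {D : ℕ}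
  {T : (Fin 2 → Fin 2) → Set (Fin 2 → AlgebraicClosure K)}
  {E : (Fin 2 → Fin 2) → Fin 2 → Set (AlgebraicClosure K)}
  {L : Type} [Field L] [NumberField L] [Algebra K L]

/-- the rational points which are not exceptional -/
def Good (T : (Fin 2 → Fin 2) → Set (Fin 2 → AlgebraicClosure K))
    (E : (Fin 2 → Fin 2) → Fin 2 → Set (AlgebraicClosure K)) (G : MvPolynomial (Fin 2 × Fin 2) L)
    (φ : L →ₐ[K] AlgebraicClosure K) (ε : Fin 2 → Fin 2) : Set ((Fin 2 → L) × L) :=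
  {P | P.2 ≠ 0 ∧ Pool.Agent.Results.MP_ed3816_nt.OpenAwayFromTorsion.OnCover (ch G ε) P ∧
    (fun j => φ (P.1 j)) ∉ T ε ∧ ∀ j, φ (P.1 j) ∈ E ε j →
      Pool.Agent.Results.MP_ed3816_nt.OpenAwayFromTorsion.Moves (ch G ε) P j}

/-- the points off the exceptional lines of all charts -/
def OffA (T : (Fin 2 → Fin 2) → Set (Fin 2 → AlgebraicClosure K))
    (E : (Fin 2 → Fin 2) → Fin 2 → Set (AlgebraicClosure K)) (G : MvPolynomial (Fin 2 × Fin 2) L)
    (φ : L →ₐ[K] AlgebraicClosure K) (ε : Fin 2 → Fin 2) : Set ((Fin 2 → L) × L) :=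
  Off {P | P.2 ^ 2 = eval P.1 (ch G ε)} (fun j => {c | φ c ∈ Eb T E j (ε j)})

theorem off_good (G : MvPolynomial (Fin 2 × Fin 2) L) (φ : L →ₐ[K] AlgebraicClosure K) (ε : Fin 2 → Fin 2) :
    OffA T E G φ ε ⊆ Good T E G φ ε := by
  rintro P ⟨hon, hw, hE⟩
  refine ⟨hw, hon, fun hT => hE 0 (Eb_T ε hT 0), fun j hj => absurd (Eb_E ε j hj) (hE j)⟩

/-- the sets in the charts fit together -/
theorem off_compat {G : MvPolynomial (Fin 2 × Fin 2) L} (hG : Hom4 G) (φ : L →ₐ[K] AlgebraicClosure K)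
    (ε ε' : Fin 2 → Fin 2) (P : (Fin 2 → L) × L) (hP : P ∈ OffA T E G φ ε) :
    ∃ P' ∈ OffA T E G φ ε', ∃ d : Fin 2 → L, (∀ j, d j ≠ 0) ∧ lift ε P = scale d (lift ε' P') := by
  obtain ⟨hon, hw, hE⟩ := hP
  have h0 : ∀ j, P.1 j ≠ 0 := by
    intro j h
    apply hE j
    left
    show φ (P.1 j) = 0
    rw [h, map_zero]
  have hc : ∀ j, (lift ε P).1 (j, ε' j) ≠ 0 := by
    intro j
    change (if ε' j = ε j then (1 : L) else P.1 j) ≠ 0
    split_ifs
    · exact one_ne_zero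
    · exact h0 j
  have hX : lift ε P ∈ Cone G := lift_cone.2 hon
  refine ⟨pr ε' (lift ε P), ⟨pr_eq hG hX hc, ?_, fun j => ?_⟩, _, hc, (scale_pr hc).symm⟩
  · exact div_ne_zero hw (pow_ne_zero 2 (mul_ne_zero (hc 0) (hc 1)))
  · intro hj
    change φ ((if 1 - ε' j = ε j then (1 : L) else P.1 j) / (if ε' j = ε j then (1 : L) else P.1 j)) ∈
      Eb T E j (ε' j) at hj
    by_cases h : ε' j = ε j
    · rw [if_pos h, h, if_neg (oth _), div_one] at hj
      exact hE j hj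
    · have h2 : ε' j = 1 - ε j := oth2 _ _ h
      rw [if_neg h, h2, sub_sub', if_pos rfl, one_div, map_inv₀] at hj
      have h3 := Eb_inv hj
      rw [sub_sub'] at h3
      exact hE j h3

/-- **Good points are limits of the points off the exceptional lines.** -/
theorem approx (hMOVE : S_MOVE) (hRSL : S_RSL) (hSTAY : S_STAY) (hF : Hom4 F)
    (hDat : ∀ ε, Dat (ch F ε) D (T ε) (E ε)) (hD : Module.finrank K L ≤ D) {e : L} (he : e ≠ 0)
    (φ : L →ₐ[K] AlgebraicClosure K) (hex : ∀ ε, ch (ex L F) ε = ex L (ch F ε))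
    (τ : L →+* ℝ) {V : Type} [Finite V] {M : V → Type}
    [∀ v, NontriviallyNormedField (M v)] [∀ v, ProperSpace (M v)] [∀ v, IsUltrametricDist (M v)]
    (σ : ∀ v, L →+* M v) (ε : Fin 2 → Fin 2) (P : (Fin 2 → L) × L)
    (hP : P ∈ Good T E (C e * ex L F) φ ε) {η : ℝ} (hη : 0 < η) :
    ∃ Q ∈ OffA T E (C e * ex L F) φ ε, dist (im τ Q) (im τ P) < η ∧
      ∀ v, dist (im (σ v) Q) (im (σ v) P) < η := by
  classical
  have hg : ch (C e * ex L F) ε = C e * ex L (ch F ε) := by rw [ch_mul, hex]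
  have hf : ∀ j, (ch F ε).degreeOf j ≤ 4 := (Pool.Agent.Q182.TT.CHF.chf K 2 F hF ε).1
  have hfL : ∀ j, (ex L (ch F ε)).degreeOf j ≤ 4 := fun j => degreeOf_map_le _ (hf j)
  have hgd : ∀ j, (C e * ex L (ch F ε)).degreeOf j ≤ 4 := fun j => (degreeOf_C_mul_le _ j e).trans (hfL j)
  obtain ⟨hw, hon, hT, hM⟩ := hP
  rw [hg] at hon hM
  have hfin : ∀ j, {c : L | φ c ∈ Eb T E j (ε j)}.Finite := fun j =>
    (Eb_fin (fun ε => (hDat ε).finT) (fun ε => (hDat ε).finE) j (ε j)).preimage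
      ((φ : L →+* AlgebraicClosure K).injective.injOn)
  obtain ⟨i, j, hij, hI, hj⟩ := dir_of hf (hDat ε) L hD he φ hw hon hT hM
  -- the first move
  obtain ⟨u, Z, hMul, hZ, hB, hu, hZw, hv⟩ := hMOVE hRSL hSTAY L τ V M σ (C e * ex L (ch F ε)) P i hw hI
    ({t : L | TorN (ex L (ch F ε)) (Function.update P.1 i t) j} ∪ {c : L | φ c ∈ Eb T E i (ε i)})
    ((few_of hf (hDat ε) L φ P.1 hij hj).union (hfin i)) (η / 2) (half_pos hη)
  rw [Set.mem_union, not_or] at hB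
  obtain ⟨hB1, hB2⟩ := hB
  have hi1 : (mvp P i u Z).1 i = P.1 i + u := by
    change P.1 i + u * (Pi.single i 1 : Fin 2 → L) i = _
    rw [Pi.single_eq_same, mul_one]
  have hj1 : (mvp P i u Z).1 j = P.1 j := by
    change P.1 j + u * (Pi.single i 1 : Fin 2 → L) j = _
    rw [Pi.single_eq_of_ne hij.symm, mul_zero, add_zero]
  have hup : (mvp P i u Z).1 = Function.update P.1 i (P.1 i + u) := by
    funext k
    by_cases hk : k = i
    · subst hk
      rw [Function.update_self, hi1]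
    · rw [Function.update_of_ne hk]
      have : k = j := by omega
      rw [this, hj1]
  have hon1 : (mvp P i u Z).2 ^ 2 = eval (mvp P i u Z).1 (C e * ex L (ch F ε)) := step_on hgd hon hMul
  have hI1 : IOt (thj (C e * ex L (ch F ε)) (mvp P i u Z) j) := by
    refine io_tw hfL he hZ hon1 ((hDat ε).genus L φ _ j i hij.symm ?_) ?_
    · rw [hi1]
      exact fun h => hB2 (Eb_E ε i h)
    · rw [hup]
      exact hB1
  -- the second move
  obtain ⟨u', Z', hMul', hZ', hB', hu', hZw', hv'⟩ := hMOVE hRSL hSTAY L τ V M σ (C e * ex L (ch F ε))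
    (mvp P i u Z) j hZ hI1 {c : L | φ c ∈ Eb T E j (ε j)} (hfin j) (η / 2) (half_pos hη)
  have hon2 := step_on hgd hon1 hMul'
  have hi2 : (mvp (mvp P i u Z) j u' Z').1 i = P.1 i + u := by
    change (mvp P i u Z).1 i + u' * (Pi.single j 1 : Fin 2 → L) i = _
    rw [Pi.single_eq_of_ne hij, mul_zero, add_zero, hi1]
  have hj2 : (mvp (mvp P i u Z) j u' Z').1 j = (mvp P i u Z).1 j + u' := by
    change (mvp P i u Z).1 j + u' * (Pi.single j 1 : Fin 2 → L) j = _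
    rw [Pi.single_eq_same, mul_one]
  refine ⟨mvp (mvp P i u Z) j u' Z', ⟨?_, hZ', fun k => ?_⟩, ?_, fun v => ?_⟩
  · change _ = eval _ (ch (C e * ex L F) ε)
    rw [hg]
    exact hon2
  · have hk : k = i ∨ k = j := by omega
    rcases hk with rfl | rfl
    · rw [hi2]
      exact hB2
    · rw [hj2]
      exact hB'
  · rw [Prod.dist_eq, max_lt_iff, dist_pi_lt_iff hη]
    refine ⟨fun k => ?_, ?_⟩
    · have hk : k = i ∨ k = j := by omega
      rcases hk with rfl | rfl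
      · change dist (τ ((mvp (mvp P k u Z) j u' Z').1 k)) (τ (P.1 k)) < η
        rw [hi2, map_add, Real.dist_eq, add_sub_cancel_left]
        linarith
      · change dist (τ ((mvp (mvp P i u Z) k u' Z').1 k)) (τ (P.1 k)) < η
        rw [hj2, hj1, map_add, Real.dist_eq, add_sub_cancel_left]
        linarith
    · change dist (τ Z') (τ P.2) < η
      have h1 : |τ Z' - τ Z| < η / 2 := hZw'
      rw [Real.dist_eq]
      have := abs_sub_le (τ Z') (τ Z) (τ P.2)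
      linarith
  · obtain ⟨a1, a2⟩ := hv v
    obtain ⟨a3, a4⟩ := hv' v
    rw [Prod.dist_eq, max_lt_iff, dist_pi_lt_iff hη]
    refine ⟨fun k => ?_, ?_⟩
    · have hk : k = i ∨ k = j := by omega
      rcases hk with rfl | rfl
      · change dist (σ v ((mvp (mvp P k u Z) j u' Z').1 k)) (σ v (P.1 k)) < η
        rw [hi2, map_add, dist_eq_norm, add_sub_cancel_left]
        linarith
      · change dist (σ v ((mvp (mvp P i u Z) k u' Z').1 k)) (σ v (P.1 k)) < η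
        rw [hj2, hj1, map_add, dist_eq_norm, add_sub_cancel_left]
        linarith
    · change dist (σ v Z') (σ v P.2) < η
      have h1 : ‖σ v Z' - σ v Z‖ < η / 2 := a4
      rw [dist_eq_norm]
      have := norm_sub_le_norm_sub_add_norm_sub (σ v Z') (σ v Z) (σ v P.2)
      linarith

theorem clo_eq (hMOVE : S_MOVE) (hRSL : S_RSL) (hSTAY : S_STAY) (hF : Hom4 F)
    (hDat : ∀ ε, Dat (ch F ε) D (T ε) (E ε)) (hD : Module.finrank K L ≤ D) {e : L} (he : e ≠ 0)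
    (φ : L →ₐ[K] AlgebraicClosure K) (hex : ∀ ε, ch (ex L F) ε = ex L (ch F ε))
    (τ : L →+* ℝ) {V : Type} [Finite V] {M : V → Type}
    [∀ v, NontriviallyNormedField (M v)] [∀ v, ProperSpace (M v)] [∀ v, IsUltrametricDist (M v)]
    (σ : ∀ v, L →+* M v) :
    closure (RP (Good T E (C e * ex L F) φ) τ σ) = closure (RP (OffA T E (C e * ex L F) φ) τ σ) := by
  have : Fintype V := Fintype.ofFinite V
  refine Set.Subset.antisymm (closure_minimal ?_ isClosed_closure) (closure_mono ?_)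
  · rintro S ⟨ε, P, hP, ⟨d, hd, hS⟩, hv⟩
    choose c hc hcS using hv
    rw [Metric.mem_closure_iff]
    intro η hη
    have h1 : ContinuousAt (fun Q : (Fin 2 → ℝ) × ℝ => scale d (lift ε Q)) (im τ P) :=
      ((scale_cont _).comp (lift_cont ε)).continuousAt
    obtain ⟨ρ₁, hρ₁, h2⟩ := Metric.continuousAt_iff.1 h1 η hη
    have h3 : ∀ v, ∃ ρ : ℝ, 0 < ρ ∧ ∀ Q : (Fin 2 → M v) × M v, dist Q (im (σ v) P) < ρ →
        dist (scale (c v) (lift ε Q)) (S.2 v) < η := by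
      intro v
      have h4 : ContinuousAt (fun Q : (Fin 2 → M v) × M v => scale (c v) (lift ε Q)) (im (σ v) P) :=
        ((scale_cont _).comp (lift_cont ε)).continuousAt
      rw [hcS v]
      obtain ⟨ρ, hρ, h5⟩ := Metric.continuousAt_iff.1 h4 η hη
      exact ⟨ρ, hρ, fun Q hQ => h5 hQ⟩
    choose ρ hρ hρ2 using h3
    obtain ⟨ρ₂, hρ₂, hm⟩ := fin_min hρ
    obtain ⟨Q, hQ, hQ1, hQ2⟩ := approx hMOVE hRSL hSTAY hF hDat hD he φ hex τ σ ε P hP (lt_min hρ₁ hρ₂)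
    refine ⟨(scale d (lift ε (im τ Q)), fun v => scale (c v) (lift ε (im (σ v) Q))),
      ⟨ε, Q, hQ, ⟨d, hd, rfl⟩, fun v => ⟨c v, hc v, rfl⟩⟩, ?_⟩
    rw [Prod.dist_eq, max_lt_iff]
    constructor
    · rw [hS, dist_comm]
      exact h2 (hQ1.trans_le (min_le_left _ _))
    · change dist S.2 (fun v => scale (c v) (lift ε (im (σ v) Q))) < η
      rw [dist_pi_lt_iff hη]
      intro v
      rw [dist_comm]
      exact hρ2 v _ (((hQ2 v).trans_le (min_le_right _ _)).trans_le (hm v))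
  · rintro S ⟨ε, P, hP, h1, h2⟩
    exact ⟨ε, P, off_good _ φ ε hP, h1, h2⟩

/-- the lemmas on curves of genus one and the real geometry -/
structure Lems : Prop where
  move : S_MOVE
  rsl : S_RSL
  stay : S_STAY
  pert : S_PERT
  sld : S_SLD
  cro : S_CRO
  crs : S_CRS
  bre : S_BRE
  smr : S_SMR
  ptb : S_PTB
  punct : ∀ (g : MvPolynomial (Fin 2) ℝ) (x : (Fin 2 → ℝ) × ℝ), x ∈ XR g →
      (x.2 = 0 → ∃ j, eval x.1 (pderiv j g) ≠ 0) → ∀ ρ : ℝ, 0 < ρ → ∃ V ⊆ XR g, (∀ x' ∈ V, dist x' x < ρ) ∧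
      x ∈ V ∧ (∃ r > 0, ∀ x' ∈ XR g, dist x' x < r → x' ∈ V) ∧ IsPreconnected V ∧ IsPreconnected (V \ {x})
  g4 : ∀ (g : MvPolynomial (Fin 2) ℝ) (B : Fin 2 → Set ℝ) (A : Set ((Fin 2 → ℝ) × ℝ)), Geo g B A →
      ∀ x ∈ A, connectedComponentIn (XR g) x ⊆ A

/-- **Part (1).** -/
theorem part1 (H : Lems) (hF : Hom4 F) (hS : SmoothF F)
    (hDat : ∀ ε, Dat (ch F ε) D (T ε) (E ε)) (hD : Module.finrank K L ≤ D) {e : L} (he : e ≠ 0)
    (φ : L →ₐ[K] AlgebraicClosure K) (hex : ∀ ε, ch (ex L F) ε = ex L (ch F ε))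
    (τ : L →+* ℝ) {V : Type} [Finite V] {M : V → Type}
    [∀ v, NontriviallyNormedField (M v)] [∀ v, ProperSpace (M v)] [∀ v, IsUltrametricDist (M v)]
    (σ : ∀ v, L →+* M v) (x x' : (Fin 2 × Fin 2 → ℝ) × ℝ) (y : ∀ v, (Fin 2 × Fin 2 → M v) × M v)
    (hxy : (x, y) ∈ closure (RP (Good T E (C e * ex L F) φ) τ σ))
    (hx' : x' ∈ connectedComponentIn (Cone (map τ (C e * ex L F))) x) :
    (x', y) ∈ closure (RP (Good T E (C e * ex L F) φ) τ σ) := by
  rw [clo_eq H.move H.rsl H.stay hF hDat hD he φ hex τ σ] at hxy ⊢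
  have hg : ∀ ε, ch (C e * ex L F) ε = C e * ex L (ch F ε) := fun ε => by rw [ch_mul, hex]
  have hf : ∀ ε j, (ch F ε).degreeOf j ≤ 4 := fun ε => (Pool.Agent.Q182.TT.CHF.chf K 2 F hF ε).1
  have hs : ∀ ε, SmoothN (ch F ε) := fun ε => (Pool.Agent.Q182.TT.CHF.chf K 2 F hF ε).2.1 hS
  have hfL : ∀ ε j, (ex L (ch F ε)).degreeOf j ≤ 4 := fun ε j => degreeOf_map_le _ (hf ε j)
  have hgd : ∀ ε j, (C e * ex L (ch F ε)).degreeOf j ≤ 4 := fun ε j =>
    (degreeOf_C_mul_le _ j e).trans (hfL ε j)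
  have hG : Hom4 (C e * ex L F) := by
    intro m hm j
    rw [mem_support_iff, coeff_C_mul] at hm
    exact hF m (support_map_subset _ _ (mem_support_iff.2 (right_ne_zero_of_mul hm))) j
  have hEnv : ∀ ε, Env (C e * ex L (ch F ε)) {P | P.2 ^ 2 = eval P.1 (ch (C e * ex L F) ε)}
      (fun j => {c | φ c ∈ Eb T E j (ε j)}) := by
    intro ε
    refine env_of (hf ε) (hDat ε) (E' := fun j => Eb T E j (ε j))
      (fun j => Eb_fin (fun ε => (hDat ε).finT) (fun ε => (hDat ε).finE) j (ε j)) (fun j => Eb_E ε j)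
      (fun t ht j => Eb_T ε ht j) L hD he φ ?_ ?_
    · intro P hP
      rw [← hg]
      exact hP
    · intro P hP j u Z hM
      have hP' : P.2 ^ 2 = eval P.1 (C e * ex L (ch F ε)) := by
        rw [← hg]
        exact hP
      have h1 := step_on (hgd ε) hP' hM
      rw [← hg] at h1
      exact h1
  refine cone_thm hG τ σ (off_compat hG φ) (fun ε P hP => ?_) (fun ε => ?_) (fun ε P hP η hη => ?_) H.punct
    x x' y hxy hx'
  · rw [hg]
    exact im_XR (hEnv ε) τ hP.1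
  · rw [hg]
    exact sm_real H.smr (hf ε) (hs ε) he τ
  · rw [hg]
    exact comp_sub H.stay H.rsl H.pert H.sld H.cro H.crs H.bre H.g4 (hEnv ε) σ τ
      (bad_fin (hf ε) (hs ε) he τ) (sm_real H.smr (hf ε) (hs ε) he τ) hP hη

/-- **Part (2).** -/
theorem part2 (H : Lems) (hF : Hom4 F) (hS : SmoothF F)
    (hDat : ∀ ε, Dat (ch F ε) D (T ε) (E ε)) (hD : Module.finrank K L ≤ D) {e : L} (he : e ≠ 0)
    (φ : L →ₐ[K] AlgebraicClosure K) (hex : ∀ ε, ch (ex L F) ε = ex L (ch F ε))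
    (τ : L →+* ℝ) {ι : Type} [Finite ι] [Nonempty ι] {p : ι → ℕ} [∀ v, Fact (p v).Prime]
    (hinj : Function.Injective p) (σ : ∀ v, L →+* ℚ_[p v]) {ε : Fin 2 → Fin 2} {P : (Fin 2 → L) × L}
    (hP : P ∈ Good T E (C e * ex L F) φ ε) :
    ∃ U ∈ nhds (fun v => lift ε (im (σ v) P)),
      ∀ x' ∈ connectedComponentIn (Cone (map τ (C e * ex L F))) (lift ε (im τ P)), ∀ y ∈ U,
        (∀ v, y v ∈ Cone (map (σ v) (C e * ex L F))) →
        (x', y) ∈ closure (RP (Good T E (C e * ex L F) φ) τ σ) := by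
  classical
  have : Fintype ι := Fintype.ofFinite ι
  have hg : ch (C e * ex L F) ε = C e * ex L (ch F ε) := by rw [ch_mul, hex]
  have hG : Hom4 (C e * ex L F) := by
    intro m hm j
    rw [mem_support_iff, coeff_C_mul] at hm
    exact hF m (support_map_subset _ _ (mem_support_iff.2 (right_ne_zero_of_mul hm))) j
  have hfin : ∀ j, {c : L | φ c ∈ Eb T E j (ε j)}.Finite := fun j =>
    (Eb_fin (fun ε => (hDat ε).finT) (fun ε => (hDat ε).finE) j (ε j)).preimage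
      ((φ : L →+* AlgebraicClosure K).injective.injOn)
  obtain ⟨hw, hon, hT, hM⟩ := hP
  rw [hg] at hon hM
  obtain ⟨U₀, hU₀, hopn⟩ := (hDat ε).opn L hD e he P.1 P.2 hw hon φ hT hM ι p hinj σ τ
  obtain ⟨r, hr, hball⟩ := Metric.mem_nhds_iff.1 hU₀
  have hPX : im τ P ∈ XR (map τ (C e * ex L (ch F ε))) := by
    change τ P.2 ^ 2 = eval (fun j => τ (P.1 j)) (map τ (C e * ex L (ch F ε)))
    rw [← map_pow, show P.2 ^ 2 = eval P.1 (C e * ex L (ch F ε)) from hon, eval_map, eval₂_comp]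
    rfl
  have hτw : 0 < |τ P.2| := abs_pos.2 ((map_ne_zero τ).2 hw)
  have step1 : ∀ u : ∀ v, (Fin 2 → ℚ_[p v]) × ℚ_[p v], (∀ v, dist (u v) (im (σ v) P) < r / 2) →
      (∀ v, (u v).2 ≠ 0) → (∀ v, (u v).2 ^ 2 = eval (u v).1 (map (σ v) (C e * ex L (ch F ε)))) →
      (im τ P, u) ∈ closure {S : ((Fin 2 → ℝ) × ℝ) × (∀ v, (Fin 2 → ℚ_[p v]) × ℚ_[p v]) |
        ∃ Q ∈ OffA T E (C e * ex L F) φ ε, S = (im τ Q, fun v => im (σ v) Q)} := by
    intro u hu hu0 huX
    rw [Metric.mem_closure_iff]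
    intro η hη
    have hηr : 0 < min (η / 2) (r / 2) := lt_min (half_pos hη) (half_pos hr)
    have hp : ∀ v, ∃ (x' : Fin 2 → ℚ_[p v]) (y' : ℚ_[p v]), y' ≠ 0 ∧
        y' ^ 2 = eval x' (map (σ v) (C e * ex L (ch F ε))) ∧
        (∀ j, x' j ∉ σ v '' {c | φ c ∈ Eb T E j (ε j)}) ∧
        (∀ j, ‖x' j - (u v).1 j‖ < min (η / 2) (r / 2)) ∧ ‖y' - (u v).2‖ < min (η / 2) (r / 2) := fun v =>
      H.ptb _ _ _ _ (hu0 v) (huX v) _ (fun j => (hfin j).image _) _ hηr
    choose X Y hY0 hYX hXB hXd hYd using hp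
    have hXu : ∀ v, dist (u v) (X v, Y v) < min (η / 2) (r / 2) := by
      intro v
      rw [dist_comm, Prod.dist_eq, max_lt_iff, dist_pi_lt_iff hηr]
      refine ⟨fun a => ?_, ?_⟩
      · rw [dist_eq_norm]
        exact hXd v a
      · rw [dist_eq_norm]
        exact hYd v
    obtain ⟨v₀⟩ := ‹Nonempty ι›
    have hδ : ∃ δ : ℝ, 0 < δ ∧ ∀ j, ∀ c : L, φ c ∈ Eb T E j (ε j) → δ ≤ dist (X v₀ j) (σ v₀ c) := by
      have h1 : ∀ j, ∃ δ : ℝ, 0 < δ ∧ ∀ c : L, φ c ∈ Eb T E j (ε j) → δ ≤ dist (X v₀ j) (σ v₀ c) := by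
        intro j
        have h2 : IsOpen (σ v₀ '' {c | φ c ∈ Eb T E j (ε j)})ᶜ :=
          ((hfin j).image _).isClosed.isOpen_compl
        obtain ⟨δ, hδ, h3⟩ := Metric.isOpen_iff.1 h2 _ (hXB v₀ j)
        refine ⟨δ, hδ, fun c hc => ?_⟩
        by_contra hlt
        push Not at hlt
        exact h3 (by rw [Metric.mem_ball, dist_comm]; exact hlt) ⟨c, hc, rfl⟩
      choose δ hδ h4 using h1
      obtain ⟨δ₀, hδ₀, hm⟩ := fin_min hδ
      exact ⟨δ₀, hδ₀, fun j c hc => (hm j).trans (h4 j c hc)⟩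
    obtain ⟨δ, hδ, hδ2⟩ := hδ
    have hSU : ((im τ P, fun v => (X v, Y v)) :
        ((Fin 2 → ℝ) × ℝ) × (∀ v, (Fin 2 → ℚ_[p v]) × ℚ_[p v])) ∈ U₀ := by
      apply hball
      rw [Metric.mem_ball, Prod.dist_eq, max_lt_iff]
      constructor
      · change dist (im τ P) (im τ P) < r
        rw [dist_self]
        exact hr
      · rw [dist_pi_lt_iff hr]
        intro v
        have h1 : dist (X v, Y v) (u v) < r / 2 := by
          rw [dist_comm]
          exact (hXu v).trans_le (min_le_right _ _)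
        have h2 := hu v
        change dist (X v, Y v) (im (σ v) P) < r
        exact (dist_triangle _ _ _).trans_lt (by linarith)
    have hS := hopn (im τ P, fun v => (X v, Y v)) hSU hPX hYX
    obtain ⟨_, ⟨Q, hQ, rfl⟩, hQd⟩ := Metric.mem_closure_iff.1 hS (min (η / 2) (min δ |τ P.2|))
      (lt_min (half_pos hη) (lt_min hδ hτw))
    rw [Prod.dist_eq, max_lt_iff] at hQd
    obtain ⟨hQ1, hQ2⟩ := hQd
    have hQ2' : ∀ v, dist (X v, Y v) (im (σ v) Q) < min (η / 2) (min δ |τ P.2|) := fun v =>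
      (dist_le_pi_dist (fun v => ((X v, Y v) : (Fin 2 → ℚ_[p v]) × ℚ_[p v]))
        (fun v => im (σ v) Q) v).trans_lt hQ2
    refine ⟨_, ⟨Q, ⟨?_, ?_, fun j hj => ?_⟩, rfl⟩, ?_⟩
    · change Q.2 ^ 2 = eval Q.1 (ch (C e * ex L F) ε)
      rw [hg]
      exact hQ
    · intro h0
      have h1 : dist (τ P.2) (τ Q.2) < |τ P.2| := by
        have h2 : dist (im τ P) (im τ Q) < |τ P.2| :=
          hQ1.trans_le ((min_le_right _ _).trans (min_le_right _ _))
        rw [Prod.dist_eq, max_lt_iff] at h2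
        exact h2.2
      rw [h0, map_zero, Real.dist_eq, sub_zero] at h1
      exact lt_irrefl _ h1
    · have h1 := hδ2 j (Q.1 j) hj
      have h2 : dist (X v₀ j) (σ v₀ (Q.1 j)) < δ := by
        have h3 := (hQ2' v₀).trans_le ((min_le_right _ _).trans (min_le_left _ _))
        rw [Prod.dist_eq, max_lt_iff] at h3
        exact (dist_le_pi_dist (X v₀) (fun j => σ v₀ (Q.1 j)) j).trans_lt h3.1
      linarith
    · rw [Prod.dist_eq, max_lt_iff]
      constructor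
      · change dist (im τ P) (im τ Q) < η
        have h1 : dist (im τ P) (im τ Q) < η / 2 := hQ1.trans_le (min_le_left _ _)
        linarith
      · change dist u (fun v => im (σ v) Q) < η
        rw [dist_pi_lt_iff hη]
        intro v
        have h1 := (hXu v).trans_le (min_le_left _ _)
        have h2 := (hQ2' v).trans_le (min_le_left _ _)
        exact (dist_triangle _ (X v, Y v) _).trans_lt (by linarith)
  -- the neighbourhood
  refine ⟨{y | ∀ v, (∀ j, (y v).1 (j, ε j) ≠ 0) ∧ dist (pr ε (y v)) (im (σ v) P) < r / 2 ∧ (y v).2 ≠ 0},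
    ?_, ?_⟩
  · refine Filter.eventually_all.2 fun v => ?_
    have h0 : Filter.Tendsto (fun y : ∀ v, (Fin 2 × Fin 2 → ℚ_[p v]) × ℚ_[p v] => y v)
        (nhds fun v => lift ε (im (σ v) P)) (nhds (lift ε (im (σ v) P))) :=
      (continuous_apply v).tendsto _
    have h1 : ∀ᶠ z : (Fin 2 × Fin 2 → ℚ_[p v]) × ℚ_[p v] in nhds (lift ε (im (σ v) P)),
        ∀ j, z.1 (j, ε j) ≠ 0 := by
      refine Filter.eventually_all.2 fun j => ?_
      have h2 : ContinuousAt (fun z : (Fin 2 × Fin 2 → ℚ_[p v]) × ℚ_[p v] => z.1 (j, ε j))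
          (lift ε (im (σ v) P)) := ((continuous_apply (j, ε j)).comp continuous_fst).continuousAt
      exact h2.eventually_ne (lift_coord ε _ j)
    have h2 : ∀ᶠ z : (Fin 2 × Fin 2 → ℚ_[p v]) × ℚ_[p v] in nhds (lift ε (im (σ v) P)),
        dist (pr ε z) (im (σ v) P) < r / 2 := by
      have h3 := Metric.tendsto_nhds.1 (pr_cont (lift_coord ε (im (σ v) P))) (r / 2) (half_pos hr)
      rw [pr_lift] at h3
      exact h3
    have h3 : ∀ᶠ z : (Fin 2 × Fin 2 → ℚ_[p v]) × ℚ_[p v] in nhds (lift ε (im (σ v) P)), z.2 ≠ 0 :=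
      continuousAt_snd.eventually_ne ((map_ne_zero (σ v)).2 hw)
    exact h0.eventually (h1.and (h2.and h3))
  · intro x' hx' y hy hyC
    have h3 : (lift ε (im τ P), y) ∈ closure (RP (OffA T E (C e * ex L F) φ) τ σ) := by
      have h1 := step1 (fun v => pr ε (y v)) (fun v => (hy v).2.1)
        (fun v => div_ne_zero (hy v).2.2
          (pow_ne_zero 2 (mul_ne_zero ((hy v).1 0) ((hy v).1 1)))) (fun v => by
          have hGv : Hom4 (map (σ v) (C e * ex L F)) := by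
            intro m hm j
            exact hG m (support_map_subset _ _ hm) j
          have h2 := pr_eq hGv (hyC v) (hy v).1
          rw [← map_ch, hg] at h2
          exact h2)
      have hcont : Continuous (fun S : ((Fin 2 → ℝ) × ℝ) × (∀ v, (Fin 2 → ℚ_[p v]) × ℚ_[p v]) =>
          ((lift ε S.1, fun v => scale (fun j => (y v).1 (j, ε j)) (lift ε (S.2 v))) :
            ((Fin 2 × Fin 2 → ℝ) × ℝ) × (∀ v, (Fin 2 × Fin 2 → ℚ_[p v]) × ℚ_[p v]))) := by
        refine Continuous.prodMk ((lift_cont ε).comp continuous_fst) (continuous_pi fun v => ?_)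
        exact (scale_cont _).comp ((lift_cont ε).comp ((continuous_apply v).comp continuous_snd))
      have h2 := map_mem_closure (t := RP (OffA T E (C e * ex L F) φ) τ σ) hcont h1 (by
        rintro _ ⟨Q, hQ, rfl⟩
        refine ⟨ε, Q, hQ, ⟨fun _ => 1, fun _ => one_ne_zero, (scale_one _).symm⟩, fun v =>
          ⟨_, (hy v).1, rfl⟩⟩)
      have e1 : (fun v => scale (fun j => (y v).1 (j, ε j)) (lift ε (pr ε (y v)))) = y := by
        funext v
        exact scale_pr (hy v).1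
      simp only [e1] at h2
      exact h2
    refine part1 H hF hS hDat hD he φ hex τ σ _ x' y ?_ hx'
    rw [clo_eq H.move H.rsl H.stay hF hDat hD he φ hex τ σ]
    exact h3

end surface

end Pool.Agent.H58RC
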