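import Pool.Agent.H58RC.Main
import Pool.Agent.Q151.TT.Sng

/-!
# Real components: only finitely many points are exceptional off the special lines (helper58)
-/

set_option autoImplicit false
set_option linter.unusedSectionVars false

open MvPolynomial Pool.Agent.Y720.MZ

namespace Pool.Agent.H58RC

open Pool.Agent.Q35.TT Pool.Agent.Q35.TB
open Pool.Agent.Q35.ZC (line GenusOne Moves line_twist genus_twist moves_of)

/-- the line of the points with the same `j`-th coordinate as `z` is special: the derivative in the direction `j` is a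
constant multiple of `f` on this line -/
def Spc {L : Type} [Field L] (f : MvPolynomial (Fin 2) L) (j : Fin 2) (z : Fin 2 → L) : Prop :=
  ∃ κ : L, ∀ y : Fin 2 → L, y j = z j → eval y (pderiv j f) = κ * eval y f

section nd

variable {L : Type} [Field L] [CharZero L] {f : MvPolynomial (Fin 2) L}

theorem nd_of (hf : ∀ j, f.degreeOf j ≤ 4) (hs : SmoothN f) (z : Fin 2 → L) {i j : Fin 2} (hij : i ≠ j)
    (hns : ¬ Spc f j z) : Pool.Agent.Q35.TT.ND (lc f (af z) i) (lc (pderiv j f) (af z) i) := by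
  have : Infinite L := CharZero.infinite L
  have hsm := Pool.Agent.Q121.TT.smooth hf hs
  have hd : ∀ a b : Fin 2, (pderiv a f).degreeOf b ≤ 4 := fun a b =>
    Pool.Agent.Q26.TT.degreeOf_pderiv (hf b) a
  have hcase : (i = 0 ∧ j = 1) ∨ (i = 1 ∧ j = 0) := by
    fin_cases i <;> fin_cases j <;> simp_all
  rcases hcase with ⟨rfl, rfl⟩ | ⟨rfl, rfl⟩
  · have hsm' := Pool.Agent.Q121.TT.smooth_swap hsm
    have e1 : pq (lc (pderiv 1 f) (af z) 0) =
        pq (gd (fun i j => Pool.Agent.Q121.TT.cf f j i) (z 1)) := by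
      refine Polynomial.funext fun t => ?_
      rw [Pool.Agent.Q121.TT.pq_eval, Pool.Agent.Q121.TT.pq_eval, Pool.Agent.Q121.TT.lc_zero _ (hd 1)]
      have h1 := Pool.Agent.Q121.TT.eval_f' _ (hd 1) ![t, z 1]
      have h2 := Pool.Agent.Q121.TT.eval_d' f hf ![t, z 1]
      rw [h2] at h1
      exact h1.symm
    have hND : Pool.Agent.Q35.TT.ND (cy (fun i j => Pool.Agent.Q121.TT.cf f j i) ![1, z 1])
        (gd (fun i j => Pool.Agent.Q121.TT.cf f j i) (z 1)) := by
      by_contra hno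
      by_cases hdc : dc (cy (fun i j => Pool.Agent.Q121.TT.cf f j i) ![1, z 1] 0)
          (cy (fun i j => Pool.Agent.Q121.TT.cf f j i) ![1, z 1] 1)
          (cy (fun i j => Pool.Agent.Q121.TT.cf f j i) ![1, z 1] 2)
          (cy (fun i j => Pool.Agent.Q121.TT.cf f j i) ![1, z 1] 3)
          (cy (fun i j => Pool.Agent.Q121.TT.cf f j i) ![1, z 1] 4) = 0
      · exact hno (Pool.Agent.Q151.TT.sng L _ hsm' (z 1) ((Pool.Agent.Q149.TT.spe L _ hsm').1 (z 1)) hdc)
      · obtain ⟨l, hl⟩ := Pool.Agent.Q149.TT.prop_of_not_nd hdc hno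
        apply hns
        refine ⟨l, fun y hy => ?_⟩
        rw [Pool.Agent.Q121.TT.eval_d' f hf, Pool.Agent.Q121.TT.eval_f' f hf, hy]
        unfold bq
        simp only [hl]
        ring
    unfold Pool.Agent.Q35.TT.ND at hND ⊢
    rw [e1, Pool.Agent.Q121.TT.lc_zero f hf]
    exact hND
  · have e1 : pq (lc (pderiv 0 f) (af z) 1) = pq (gd (Pool.Agent.Q121.TT.cf f) (z 0)) := by
      refine Polynomial.funext fun t => ?_
      rw [Pool.Agent.Q121.TT.pq_eval, Pool.Agent.Q121.TT.pq_eval, Pool.Agent.Q121.TT.lc_one _ (hd 0)]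
      have h1 := Pool.Agent.Q121.TT.eval_f _ (hd 0) ![z 0, t]
      have h2 := Pool.Agent.Q121.TT.eval_d f hf ![z 0, t]
      rw [h2] at h1
      exact h1.symm
    have hND : Pool.Agent.Q35.TT.ND (cy (Pool.Agent.Q121.TT.cf f) ![1, z 0])
        (gd (Pool.Agent.Q121.TT.cf f) (z 0)) := by
      by_contra hno
      by_cases hdc : dc (cy (Pool.Agent.Q121.TT.cf f) ![1, z 0] 0)
          (cy (Pool.Agent.Q121.TT.cf f) ![1, z 0] 1)
          (cy (Pool.Agent.Q121.TT.cf f) ![1, z 0] 2)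
          (cy (Pool.Agent.Q121.TT.cf f) ![1, z 0] 3)
          (cy (Pool.Agent.Q121.TT.cf f) ![1, z 0] 4) = 0
      · exact hno (Pool.Agent.Q151.TT.sng L _ hsm (z 0) ((Pool.Agent.Q149.TT.spe L _ hsm).1 (z 0)) hdc)
      · obtain ⟨l, hl⟩ := Pool.Agent.Q149.TT.prop_of_not_nd hdc hno
        apply hns
        refine ⟨l, fun y hy => ?_⟩
        rw [Pool.Agent.Q121.TT.eval_d f hf, Pool.Agent.Q121.TT.eval_f f hf, hy]
        unfold bq
        simp only [hl]
        ring
    unfold Pool.Agent.Q35.TT.ND at hND ⊢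
    rw [e1, Pool.Agent.Q121.TT.lc_one f hf]
    exact hND

theorem mv_tw (hf : ∀ j, f.degreeOf j ≤ 4) {e : L} (he : e ≠ 0) {P : (Fin 2 → L) × L} (hw : P.2 ≠ 0)
    (hon : P.2 ^ 2 = eval P.1 (C e * f)) {i : Fin 2}
    (hG : GenusOne (line f P.1 i)) (hi : ¬ TorN f P.1 i) : Moves (C e * f) P i := by
  have hg : ∀ j, (C e * f).degreeOf j ≤ 4 := fun j => (degreeOf_C_mul_le f j e).trans (hf j)
  have hG' : GenusOne (line (C e * f) P.1 i) := by
    rw [line_twist]
    exact genus_twist he hG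
  have hI : ∀ N : ℕ, N ≠ 0 → ¬ Tor (lc (C e * f) (af P.1) i) (P.1 i) P.2 N := by
    intro N hN h5
    rw [Pool.Agent.Q190.TT.lc_smul f e he, tws2 L _ e _ _ _ he] at h5
    exact hi ⟨N, hN, h5.2.2⟩
  exact moves_of hg hw hon hG' hI

end nd

section surface

variable {K : Type} [Field K] [NumberField K] {F : MvPolynomial (Fin 2 × Fin 2) K} {D : ℕ}
  {T : (Fin 2 → Fin 2) → Set (Fin 2 → AlgebraicClosure K)}
  {E : (Fin 2 → Fin 2) → Fin 2 → Set (AlgebraicClosure K)}
  {L : Type} [Field L] [NumberField L] [Algebra K L]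

/-- **Part (3).** -/
theorem part3 (hF : Hom4 F) (hS : SmoothF F)
    (hDat : ∀ ε, Dat (ch F ε) D (T ε) (E ε))
    (φ : L →ₐ[K] AlgebraicClosure K) (hex : ∀ ε, ch (ex L F) ε = ex L (ch F ε)) (ε : Fin 2 → Fin 2) :
    ∃ T' : Set (Fin 2 → L), T'.Finite ∧ ∀ e : L, e ≠ 0 → ∀ P : (Fin 2 → L) × L, P.2 ≠ 0 →
      P.2 ^ 2 = eval P.1 (ch (C e * ex L F) ε) → P.1 ∉ T' → (∀ j, ¬ Spc (ch (ex L F) ε) j P.1) →
      P ∈ Good T E (C e * ex L F) φ ε := by
  classical
  have hf : ∀ j, (ch F ε).degreeOf j ≤ 4 := (Pool.Agent.Q182.TT.CHF.chf K 2 F hF ε).1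
  have hs : SmoothN (ch F ε) := (Pool.Agent.Q182.TT.CHF.chf K 2 F hF ε).2.1 hS
  have hfL : ∀ j, (ex L (ch F ε)).degreeOf j ≤ 4 := fun j => degreeOf_map_le _ (hf j)
  have hfd : Module.Finite K L := Module.Finite.of_restrictScalars_finite ℚ K L
  have halg : Algebra.IsAlgebraic K L := Algebra.IsAlgebraic.of_finite K L
  have hsL : SmoothN (ex L (ch F ε)) := ((exf2 K L 2 F hF).2.2.2.2 (ch F ε) hf).2.1.1 hs
  have hinj : Function.Injective φ := (φ : L →+* AlgebraicClosure K).injective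
  -- for each exceptional line a finite set
  have h1 : ∀ (j : Fin 2) (c : L), {z : Fin 2 → L | z j = c ∧ ¬ Spc (ex L (ch F ε)) j z ∧
      TorN (ex L (ch F ε)) z j}.Finite := by
    intro j c
    by_cases hc : Spc (ex L (ch F ε)) j (fun _ => c)
    · refine Set.finite_empty.subset ?_
      rintro z ⟨hz, hn, -⟩
      apply hn
      obtain ⟨κ, hκ⟩ := hc
      exact ⟨κ, fun y hy => hκ y (hy.trans hz)⟩
    · have h2 : {t : L | TorN (ex L (ch F ε)) (Function.update (fun _ => c) (1 - j) t) j}.Finite :=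
        (tbn_of orn2) L 2 (ex L (ch F ε)) hfL (fun _ => c) (1 - j) j (oth j)
          (nd_of hfL hsL (fun _ => c) (oth j) hc)
      refine (h2.image fun t => Function.update (fun _ => c) (1 - j) t).subset ?_
      rintro z ⟨hz, -, ht⟩
      have e1 : Function.update (fun _ => c) (1 - j) (z (1 - j)) = z := by
        funext k
        by_cases hk : k = 1 - j
        · subst hk
          rw [Function.update_self]
        · rw [Function.update_of_ne hk]
          have : k = j := by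
            have h01 : ∀ k j : Fin 2, k ≠ 1 - j → k = j := by decide
            exact h01 k j hk
          rw [this, hz]
      refine ⟨z (1 - j), ?_, e1⟩
      rw [Set.mem_ofPred_eq, e1]
      exact ht
  refine ⟨{z | (fun j => φ (z j)) ∈ T ε} ∪ ⋃ j : Fin 2, ⋃ c ∈ {c : L | φ c ∈ E ε j},
    {z : Fin 2 → L | z j = c ∧ ¬ Spc (ex L (ch F ε)) j z ∧ TorN (ex L (ch F ε)) z j}, ?_, ?_⟩
  · refine Set.Finite.union ?_ (Set.finite_iUnion fun j => ?_)
    · refine (hDat ε).finT.preimage fun z _ z' _ h => ?_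
      funext j
      exact hinj (congrFun h j)
    · exact (((hDat ε).finE j).preimage hinj.injOn).biUnion fun c _ => h1 j c
  · intro e he P hw hon hT' hns
    rw [Set.mem_union, not_or] at hT'
    obtain ⟨hT1, hT2⟩ := hT'
    refine ⟨hw, hon, hT1, fun j hj => ?_⟩
    have hg : ch (C e * ex L F) ε = C e * ex L (ch F ε) := by rw [ch_mul, hex]
    rw [hg] at hon ⊢
    have hother : φ (P.1 (1 - j)) ∉ E ε (1 - j) := by
      intro h
      apply hT1
      refine (hDat ε).pair _ fun k => ?_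
      have h01 : ∀ a k : Fin 2, k = a ∨ k = 1 - a := by decide
      rcases h01 j k with rfl | rfl
      · exact hj
      · exact h
    refine mv_tw hfL he hw hon ((hDat ε).genus L φ P.1 j (1 - j) (oth j).symm hother) fun ht => hT2 ?_
    refine Set.mem_iUnion.2 ⟨j, Set.mem_iUnion₂.2 ⟨P.1 j, hj, rfl, ?_, ht⟩⟩
    rw [← hex]
    exact hns j

/-- the special lines are exceptional -/
theorem part3b (hF : Hom4 F) (hDat : ∀ ε, Dat (ch F ε) D (T ε) (E ε))
    (φ : L →ₐ[K] AlgebraicClosure K) (hex : ∀ ε, ch (ex L F) ε = ex L (ch F ε)) (ε : Fin 2 → Fin 2) (j : Fin 2)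
    (z : Fin 2 → L) (h : Spc (ch (ex L F) ε) j z) : φ (z j) ∈ E ε j := by
  have : Infinite L := CharZero.infinite L
  by_contra hno
  have hf : ∀ j, (ch F ε).degreeOf j ≤ 4 := (Pool.Agent.Q182.TT.CHF.chf K 2 F hF ε).1
  have hfL : ∀ j, (ex L (ch F ε)).degreeOf j ≤ 4 := fun j => degreeOf_map_le _ (hf j)
  have hdL : ∀ k, (pderiv j (ex L (ch F ε))).degreeOf k ≤ 4 := fun k =>
    Pool.Agent.Q26.TT.degreeOf_pderiv (hfL k) j
  obtain ⟨κ, hκ⟩ := h
  rw [hex] at hκ
  refine Pool.Agent.Q121.TT.not_nd _ _ κ (fun t => ?_) ((hDat ε).nd L φ z (1 - j) j (oth j) hno)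
  have e1 : ∀ p : MvPolynomial (Fin 2) L, (∀ k, p.degreeOf k ≤ 4) →
      bq (lc p (af z) (1 - j)) ![1, t] = eval (Function.update z (1 - j) t) p := by
    intro p hp
    rw [Pool.Agent.Q222.TT.Opn.eval_lc hp (Function.update z (1 - j) t) (1 - j), Function.update_self,
      Pool.Agent.Q222.TT.Opn.lc_line hp (Function.update z (1 - j) t) z (1 - j)
        (fun k hk => Function.update_of_ne hk _ _)]
  rw [e1 _ hdL, e1 _ hfL]
  exact hκ _ (Function.update_of_ne (oth j).symm _ _)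

end surface

end Pool.Agent.H58RC
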