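import Pool.Agent.H58RC.MainR

/-!
# Real components and central points: tangent lines (helper58)
-/

set_option autoImplicit false
set_option linter.unusedSectionVars false

open MvPolynomial Pool.Agent.Y720.MZ

namespace Pool.Agent.H58RC

open Pool.Agent.Q35.TT Pool.Agent.Q35.TB
open Pool.Agent.Q35.ZC (line GenusOne NotSpecial Moves genusOne_iff line_map genus_map line_twist genus_twist
  moves_of io_of MulPt S_STEP Odds DenseReal toC CT)

/-- the line `z_j = c` is tangent to the curve `f = 0` -/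
def Tang {K : Type} [Field K] (f : MvPolynomial (Fin 2) K) (i j : Fin 2) (c : K) : Prop :=
  ∃ y : Fin 2 → AlgebraicClosure K, y j = algebraMap K (AlgebraicClosure K) c ∧ aeval y f = 0 ∧
    aeval y (pderiv i f) = 0

/-- the points over a tangent line are central -/
theorem tan_cen {K : Type} [Field K] [CharZero K] {G : MvPolynomial (Fin 2 × Fin 2) K} {ε : Fin 2 → Fin 2}
    (hd : ∀ j, (ch G ε).degreeOf j ≤ 4) {i j : Fin 2} (hij : i ≠ j) {c : K} (ht : Tang (ch G ε) i j c)
    {P : (Fin 2 → K) × K} (hP : P.2 ^ 2 = eval P.1 (ch G ε)) (hc : P.1 j = c) : lift ε P ∈ CenC G := by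
  apply cen_lift
  obtain ⟨y, h1, h2, h3⟩ := ht
  refine Pool.Agent.Q35.ZC.tangent_ct Pool.Agent.Q35.ZC.nod2 (hd i) hP ⟨y, fun k hk => ?_, h2, h3⟩
  have h01 : ∀ i j k : Fin 2, i ≠ j → k ≠ i → k = j := by decide
  rw [h01 i j k hij hk, h1, hc]

theorem tang_mul {K : Type} [Field K] {f : MvPolynomial (Fin 2) K} {i j : Fin 2} {c : K} (h : Tang f i j c)
    (e : K) : Tang (C e * f) i j c := by
  obtain ⟨y, h1, h2, h3⟩ := h
  refine ⟨y, h1, ?_, ?_⟩
  · rw [map_mul, h2, mul_zero]
  · rw [pderiv_C_mul, map_mul, h3, mul_zero]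

theorem tang_ex {K : Type} [Field K] {f : MvPolynomial (Fin 2) K} {i j : Fin 2} {c : K} (h : Tang f i j c)
    (L : Type) [Field L] [Algebra K L] : Tang (ex L f) i j (algebraMap K L c) := by
  obtain ⟨y, h1, h2, h3⟩ := h
  obtain ⟨ψ, -⟩ : ∃ ψ : AlgebraicClosure K →ₐ[K] AlgebraicClosure L, True := ⟨IsAlgClosed.lift, trivial⟩
  have key : ∀ p : MvPolynomial (Fin 2) K, aeval (fun k => ψ (y k)) (ex L p) = ψ (aeval y p) := by
    intro p
    have e1 : aeval (fun k => ψ (y k)) (ex L p) = aeval (fun k => ψ (y k)) p := by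
      change aeval (fun k => ψ (y k)) (map (algebraMap K L) p) = _
      rw [aeval_map_algebraMap]
    rw [e1]
    exact (MvPolynomial.comp_aeval_apply y ψ p).symm
  refine ⟨fun k => ψ (y k), ?_, ?_, ?_⟩
  · change ψ (y j) = _
    rw [h1, ψ.commutes, IsScalarTower.algebraMap_apply K L (AlgebraicClosure L)]
  · rw [key, h2, map_zero]
  · have e2 : pderiv i (ex L f) = ex L (pderiv i f) := pderiv_map
    rw [e2, key, h3, map_zero]

section use

variable {K : Type} [Field K] [NumberField K] {f : MvPolynomial (Fin 2) K} {D : ℕ}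
  {T : Set (Fin 2 → AlgebraicClosure K)} {E : Fin 2 → Set (AlgebraicClosure K)}

/-- **Almost all points over a tangent line over an extension are good.** -/
theorem tan_goodL (hf : ∀ j, f.degreeOf j ≤ 4) (hs : SmoothN f) (hDat : Dat f D T E)
    (L : Type) [Field L] [NumberField L] [Algebra K L] [Algebra.IsAlgebraic K L]
    (φ : L →ₐ[K] AlgebraicClosure K) {i j : Fin 2} (hij : i ≠ j) {c : L} (ht : Tang (ex L f) i j c) :
    ∃ S : Set L, S.Finite ∧ ∀ e : L, e ≠ 0 → ∀ (z : Fin 2 → L) (w : L), z j = c → z i ∉ S →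
      w ^ 2 = eval z (C e * ex L f) →
        w ≠ 0 ∧ (fun k => φ (z k)) ∉ T ∧ ∀ k, φ (z k) ∈ E k →
          Pool.Agent.Results.MP_ed3816_nt.OpenAwayFromTorsion.Moves (C e * ex L f) (z, w) k := by
  classical
  obtain ⟨z₀, hz₀⟩ : ∃ z₀ : Fin 2 → L, z₀ = fun _ => c := ⟨_, rfl⟩
  have hij' : ∀ k : Fin 2, k ≠ i → k = j := by
    intro k hk
    have := hij
    omega
  have hup : ∀ z : Fin 2 → L, z j = c → z = Function.update z₀ i (z i) := by
    intro z hz
    funext k
    by_cases hk : k = i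
    · subst hk; simp
    · rw [Function.update_of_ne hk, hij' k hk, hz, hz₀]
  have hfL : ∀ j, (ex L f).degreeOf j ≤ 4 := fun j => degreeOf_map_le _ (hf j)
  have hsL : SmoothN (ex L f) := ((exf2 K L 2 0 (by intro m hm; simp at hm)).2.2.2.2 f hf).2.1.1 hs
  obtain ⟨hND, hne⟩ := Pool.Agent.Q35.ZC.ndt2 L (ex L f) hfL hsL i j hij z₀ (by rw [hz₀]; exact ht)
  have hfin1 : {t : L | TorN (ex L f) (Function.update z₀ i t) j}.Finite :=
    (tbn_of orn2) L 2 (ex L f) hfL z₀ i j hij hND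
  have hfin2 : {t : L | φ t ∈ E i}.Finite :=
    (hDat.finE i).preimage ((φ : L →+* AlgebraicClosure K).injective.injOn)
  have hfin4 : {t : L | ∃ u ∈ T, u i = φ t}.Finite := by
    have h1 := (hDat.finT.image fun u => u i).preimage
      ((φ : L →+* AlgebraicClosure K).injective.injOn)
    refine h1.subset ?_
    rintro t ⟨u, hu, h⟩
    exact ⟨u, hu, h⟩
  have hlc : ∀ t : L, lc (ex L f) (af (Function.update z₀ i t)) i = lc (ex L f) (af z₀) i := fun t =>
    Pool.Agent.Q222.TT.Opn.lc_line hfL _ _ i fun k hk => by rw [Function.update_of_ne hk]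
  have hpq : Pool.Agent.Q35.TT.pq (lc (ex L f) (af z₀) i) ≠ 0 := Pool.Agent.Q35.ZC.pq_ne hne
  have hfin3 : {t : L | (Pool.Agent.Q35.TT.pq (lc (ex L f) (af z₀) i)).eval t = 0}.Finite :=
    Polynomial.finite_setOfPred_isRoot hpq
  refine ⟨_, ((hfin1.union hfin2).union hfin3).union hfin4, ?_⟩
  intro e he z w hz hS' hon
  rw [Set.mem_union, Set.mem_union, Set.mem_union, not_or, not_or, not_or] at hS'
  obtain ⟨⟨⟨k1, k2⟩, k3⟩, k4⟩ := hS'
  have hg : ∀ j, (C e * ex L f).degreeOf j ≤ 4 := fun j => (degreeOf_C_mul_le _ j e).trans (hfL j)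
  have hev0 : eval z (ex L f) = (Pool.Agent.Q35.TT.pq (lc (ex L f) (af z₀) i)).eval (z i) := by
    have e1 : lc (ex L f) (af z) i = lc (ex L f) (af z₀) i := by rw [hup z hz, hlc]
    rw [Pool.Agent.Q121.TT.pq_eval, Pool.Agent.Q222.TT.Opn.eval_lc hfL z i, e1]
  have hw : w ≠ 0 := by
    rintro rfl
    apply k3
    rw [Set.mem_ofPred_eq, ← hev0]
    rw [map_mul, eval_C, zero_pow two_ne_zero] at hon
    exact (mul_eq_zero.1 hon.symm).resolve_left he
  refine ⟨hw, ?_, ?_⟩
  · intro hT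
    exact k4 ⟨_, hT, rfl⟩
  · intro k hk
    have hki : k ≠ i := by
      rintro rfl
      exact k2 hk
    obtain rfl := hij' k hki
    have hG : GenusOne (line (ex L f) z k) := hDat.genus L φ _ k i hki k2
    have hG' : GenusOne (line (C e * ex L f) z k) := by
      rw [line_twist]
      exact genus_twist he hG
    have hI : ∀ N : ℕ, N ≠ 0 → ¬ Tor (lc (C e * ex L f) (af z) k) (z k) w N := by
      intro N hN h5
      rw [Pool.Agent.Q190.TT.lc_smul _ e he, tws2 L _ e _ _ _ he] at h5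
      apply k1
      rw [Set.mem_ofPred_eq, ← hup z hz]
      exact ⟨N, hN, h5.2.2⟩
    exact moves_of hg hw hon hG' hI

end use

/-- a rational number near a real number, off a finite set -/
theorem rat_near {K : Type} [Field K] [CharZero K] (τ : K →+* ℝ) (a : ℝ) {S : Set K} (hS : S.Finite) {δ : ℝ}
    (hδ : 0 < δ) : ∃ t : K, |τ t - a| < δ ∧ t ∉ S := by
  have h1 : (Set.Ioo (a - δ) (a + δ) \ τ '' S).Nonempty :=
    ((Set.Ioo_infinite (by linarith)).sdiff (hS.image τ)).nonempty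
  have h2 : IsOpen (Set.Ioo (a - δ) (a + δ) \ τ '' S) := isOpen_Ioo.sdiff (hS.image τ).isClosed
  obtain ⟨q, hq⟩ := Rat.denseRange_cast.exists_mem_open h2 h1
  have e1 : τ (q : K) = (q : ℝ) := map_ratCast τ q
  refine ⟨(q : K), ?_, fun h => hq.2 ⟨_, h, e1⟩⟩
  rw [e1, abs_lt]
  exact ⟨by linarith [hq.1.1], by linarith [hq.1.2]⟩

/-- the lift to the cone and the components -/
theorem comp_lift {G : MvPolynomial (Fin 2 × Fin 2) ℝ} {ε : Fin 2 → Fin 2} {V : Set ((Fin 2 → ℝ) × ℝ)}
    (hV : V ⊆ XR (ch G ε)) (hp : IsPreconnected V) {x x' : (Fin 2 → ℝ) × ℝ} (hx : x ∈ V) (hx' : x' ∈ V) :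
    lift ε x' ∈ connectedComponentIn (Cone G) (lift ε x) := by
  refine (hp.image _ (lift_cont ε).continuousOn).subset_connectedComponentIn ⟨x, hx, rfl⟩ ?_ ⟨x', hx', rfl⟩
  rintro _ ⟨u, hu, rfl⟩
  exact lift_cone.2 (hV hu)

/-- **A central good point on the component of a real point over a tangent line, over a quadratic
extension.** -/
theorem real_ex (H : Lems) {K : Type} [Field K] [NumberField K] {F : MvPolynomial (Fin 2 × Fin 2) K}
    (hF : Hom4 F) (hS : SmoothF F)
    {T : (Fin 2 → Fin 2) → Set (Fin 2 → AlgebraicClosure K)}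
    {E : (Fin 2 → Fin 2) → Fin 2 → Set (AlgebraicClosure K)} {D : ℕ}
    (hDat : ∀ ε, Dat (ch F ε) D (T ε) (E ε)) {e : K} (he : e ≠ 0)
    (ε : Fin 2 → Fin 2) {i j : Fin 2} (hij : i ≠ j) {c : K} (ht : Tang (ch F ε) i j c) (τ : K →+* ℝ)
    {x : (Fin 2 → ℝ) × ℝ} (hx : x.2 ^ 2 = eval x.1 (ch (map τ (C e * F)) ε)) (hx2 : x.2 ≠ 0)
    (hxj : x.1 j = τ c) :
    ∃ (L : Type) (_ : Field L) (_ : NumberField L) (_ : Algebra K L) (τ' : L →+* ℝ)
      (P : (Fin 2 → L) × L), Module.finrank K L ≤ 2 ∧ τ'.comp (algebraMap K L) = τ ∧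
      lift ε (im τ' P) ∈ connectedComponentIn (Cone (map τ (C e * F))) (lift ε x) ∧
      ∀ φ : L →ₐ[K] AlgebraicClosure K,
        P ∈ GoodR T E (C (algebraMap K L e) * ex L F) φ (CenC (C (algebraMap K L e) * ex L F)) ε := by
  classical
  have hmapch : ch (map τ (C e * F)) ε = map τ (ch (C e * F) ε) := (map_ch τ _ ε).symm
  have hf : ∀ j, (ch F ε).degreeOf j ≤ 4 := (Pool.Agent.Q182.TT.CHF.chf K 2 F hF ε).1
  have hs : SmoothN (ch F ε) := (Pool.Agent.Q182.TT.CHF.chf K 2 F hF ε).2.1 hS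
  obtain ⟨g, hg⟩ : ∃ g : MvPolynomial (Fin 2) ℝ, g = ch (map τ (C e * F)) ε := ⟨_, rfl⟩
  rw [← hg] at hx
  obtain ⟨V, hV, -, hxV, ⟨r, hr, hrV⟩, hVp, -⟩ := H.punct g x hx (fun h => absurd h hx2) 1 one_pos
  obtain ⟨S, hSf, hSg⟩ := tan_good hf hs (hDat ε) hij ht
  -- the curve of the points over the tangent line
  obtain ⟨sg, hsg, hsg2⟩ : ∃ sg : ℝ, sg ^ 2 = 1 ∧ sg * |x.2| = x.2 := by
    rcases abs_choice x.2 with h | h
    · exact ⟨1, by norm_num, by rw [h, one_mul]⟩
    · exact ⟨-1, by norm_num, by rw [h]; ring⟩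
  obtain ⟨ζ, hζ⟩ : ∃ ζ : ℝ → (Fin 2 → ℝ), ζ = fun t => Function.update x.1 i t := ⟨_, rfl⟩
  have hζc : Continuous ζ := by
    rw [hζ]
    exact continuous_const.update i continuous_id
  have hζ0 : ζ (x.1 i) = x.1 := by
    rw [hζ]
    exact Function.update_eq_self i x.1
  have hgc : Continuous fun t => eval (ζ t) g := (MvPolynomial.continuous_eval g).comp hζc
  have hpos : 0 < eval (ζ (x.1 i)) g := by
    rw [hζ0, ← show x.2 ^ 2 = eval x.1 g from hx]
    positivity
  have hcont : Continuous fun t => ((ζ t, sg * √(eval (ζ t) g)) : (Fin 2 → ℝ) × ℝ) :=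
    hζc.prodMk (continuous_const.mul (Real.continuous_sqrt.comp hgc))
  have h0 : ((ζ (x.1 i), sg * √(eval (ζ (x.1 i)) g)) : (Fin 2 → ℝ) × ℝ) = x := by
    rw [hζ0, ← show x.2 ^ 2 = eval x.1 g from hx, Real.sqrt_sq_eq_abs, hsg2]
  obtain ⟨δ₁, hδ₁, h1⟩ := Metric.continuousAt_iff.1 hcont.continuousAt r hr
  obtain ⟨δ₂, hδ₂, h2⟩ := Metric.continuousAt_iff.1 hgc.continuousAt _ hpos
  obtain ⟨t, ht1, htS⟩ := rat_near τ (x.1 i) hSf (lt_min hδ₁ hδ₂)
  have hd1 : dist ((ζ (τ t), sg * √(eval (ζ (τ t)) g)) : (Fin 2 → ℝ) × ℝ) x < r := by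
    have h3 := h1 (x := τ t) (by rw [Real.dist_eq]; exact ht1.trans_le (min_le_left _ _))
    rw [h0] at h3
    exact h3
  have hpos' : 0 < eval (ζ (τ t)) g := by
    have h3 := h2 (x := τ t) (by rw [Real.dist_eq]; exact ht1.trans_le (min_le_right _ _))
    rw [Real.dist_eq, abs_lt] at h3
    linarith [h3.1]
  obtain ⟨w, hw⟩ : ∃ w : ℝ, w = sg * √(eval (ζ (τ t)) g) := ⟨_, rfl⟩
  rw [← hw] at hd1
  have hw2 : w ^ 2 = eval (ζ (τ t)) g := by
    rw [hw, mul_pow, hsg, one_mul, Real.sq_sqrt hpos'.le]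
  -- the point over `K`
  obtain ⟨z, hz⟩ : ∃ z : Fin 2 → K, z = fun k => if k = i then t else c := ⟨_, rfl⟩
  have hzi : z i = t := by rw [hz]; simp
  have hzj : z j = c := by rw [hz]; simp [hij.symm]
  have hζz : ζ (τ t) = fun k => τ (z k) := by
    rw [hζ, hz]
    funext k
    have h01 : ∀ i j k : Fin 2, i ≠ j → k ≠ i → k = j := by decide
    by_cases hk : k = i
    · subst hk
      simp
    · have := h01 i j k hij hk
      subst this
      simp [hk, hxj]
  have hgz : eval (ζ (τ t)) g = τ (eval z (ch (C e * F) ε)) := by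
    rw [hζz, hg, hmapch, eval_map, eval₂_comp]
    rfl
  rw [hgz] at hw2
  -- the quadratic extension
  let : Algebra K ℝ := τ.toAlgebra
  have hint : IsIntegral K w := by
    refine ⟨Polynomial.X ^ 2 - Polynomial.C (eval z (ch (C e * F) ε)),
      Polynomial.monic_X_pow_sub_C _ two_ne_zero, ?_⟩
    rw [Polynomial.eval₂_sub, Polynomial.eval₂_pow, Polynomial.eval₂_X, Polynomial.eval₂_C, hw2]
    exact sub_self _
  have hfd : FiniteDimensional K (IntermediateField.adjoin K {w}) :=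
    IntermediateField.adjoin.finiteDimensional hint
  have hnf : NumberField (IntermediateField.adjoin K {w}) := NumberField.of_module_finite K _
  have halg : Algebra.IsAlgebraic K (IntermediateField.adjoin K {w}) := Algebra.IsAlgebraic.of_finite K _
  obtain ⟨w', hw'⟩ : ∃ w' : IntermediateField.adjoin K {w}, (w' : ℝ) = w :=
    ⟨⟨w, IntermediateField.mem_adjoin_simple_self K w⟩, rfl⟩
  have hfr : Module.finrank K (IntermediateField.adjoin K {w}) ≤ 2 := by
    rw [IntermediateField.adjoin.finrank hint]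
    have hp0 : (Polynomial.X ^ 2 - Polynomial.C (eval z (ch (C e * F) ε)) : Polynomial K) ≠ 0 :=
      Polynomial.X_pow_sub_C_ne_zero two_pos _
    have hdv : minpoly K w ∣ Polynomial.X ^ 2 - Polynomial.C (eval z (ch (C e * F) ε)) := by
      apply minpoly.dvd
      rw [map_sub, map_pow, Polynomial.aeval_X, Polynomial.aeval_C, hw2]
      exact sub_self _
    have h3 := Polynomial.natDegree_le_of_dvd hdv hp0
    rwa [Polynomial.natDegree_X_pow_sub_C] at h3
  have hinj : Function.Injective (algebraMap (IntermediateField.adjoin K {w}) ℝ) :=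
    (algebraMap (IntermediateField.adjoin K {w}) ℝ).injective
  have hτ : (algebraMap (IntermediateField.adjoin K {w}) ℝ).comp
      (algebraMap K (IntermediateField.adjoin K {w})) = τ := rfl
  have hon : w' ^ 2 = eval (fun k => algebraMap K (IntermediateField.adjoin K {w}) (z k))
      (C (algebraMap K (IntermediateField.adjoin K {w}) e) *
        ex (IntermediateField.adjoin K {w}) (ch F ε)) := by
    apply hinj
    rw [map_pow]
    change (w' : ℝ) ^ 2 = _
    rw [hw', hw2, ch_mul, map_mul, eval_C, map_mul, map_mul, eval_C, map_mul]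
    congr 1
    rw [eval_map, ← hτ, RingHom.comp_apply, eval₂_comp]
    rfl
  obtain ⟨hw0, hT, hM⟩ : w' ≠ 0 ∧ _ ∧ _ := by
    have h3 := hSg (IntermediateField.adjoin K {w}) (IsAlgClosed.lift) (algebraMap K _ e)
      ((map_ne_zero _).2 he) z w' hzj (by rw [hzi]; exact htS) hon
    exact h3
  have hexF := (exf2 K (IntermediateField.adjoin K {w}) 2 F hF).2.2.1 ε
  have hgL : ch (C (algebraMap K (IntermediateField.adjoin K {w}) e) *
      ex (IntermediateField.adjoin K {w}) F) ε =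
      C (algebraMap K (IntermediateField.adjoin K {w}) e) *
        ex (IntermediateField.adjoin K {w}) (ch F ε) := by
    rw [ch_mul, hexF]
  have hP : w' ^ 2 = eval (fun k => algebraMap K (IntermediateField.adjoin K {w}) (z k))
      (ch (C (algebraMap K (IntermediateField.adjoin K {w}) e) *
        ex (IntermediateField.adjoin K {w}) F) ε) := by
    rw [hgL]
    exact hon
  refine ⟨IntermediateField.adjoin K {w}, inferInstance, hnf, inferInstance,
    algebraMap (IntermediateField.adjoin K {w}) ℝ,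
    (fun k => algebraMap K (IntermediateField.adjoin K {w}) (z k), w'), hfr, hτ, ?_, fun φ => ⟨⟨?_, ?_, ?_, ?_⟩, ?_⟩⟩
  · have e1 : im (algebraMap (IntermediateField.adjoin K {w}) ℝ)
        (fun k => algebraMap K (IntermediateField.adjoin K {w}) (z k), w') = (ζ (τ t), w) := by
      refine Prod.ext ?_ ?_
      · rw [hζz]
        rfl
      · exact hw'
    rw [e1]
    have h4 : ((ζ (τ t), w) : (Fin 2 → ℝ) × ℝ) ∈ V := by
      refine hrV _ ?_ hd1
      change w ^ 2 = eval (ζ (τ t)) g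
      rw [hw2, hgz]
    refine comp_lift (V := V) ?_ hVp hxV h4
    rw [← hg]
    exact hV
  · exact hw0
  · exact hP
  · exact (hSg (IntermediateField.adjoin K {w}) φ (algebraMap K _ e)
      ((map_ne_zero _).2 he) z w' hzj (by rw [hzi]; exact htS) hon).2.1
  · rw [hgL]
    exact (hSg (IntermediateField.adjoin K {w}) φ (algebraMap K _ e)
      ((map_ne_zero _).2 he) z w' hzj (by rw [hzi]; exact htS) hon).2.2
  · refine tan_cen (i := i) (j := j) (c := algebraMap K _ c) ?_ hij ?_ hP ?_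
    · intro k
      rw [hgL]
      exact (degreeOf_C_mul_le _ k _).trans (degreeOf_map_le _ (hf k))
    · rw [hgL]
      exact tang_mul (tang_ex ht _) _
    · change algebraMap K _ (z j) = _
      rw [hzj]

end Pool.Agent.H58RC
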